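import Pool.Agent.P.MP_1d6da1_co.Sph.Lin

namespace Pool.Agent.P.MP_1d6da1_co.Sph

open Finset
open scoped Pointwise

theorem sum_le_mul {α : Type*} (s : Finset α) (g : α → ℝ) {n c : ℝ} (hn : (s.card : ℝ) ≤ n)
    (hc : 0 ≤ c) (h : ∀ a ∈ s, g a ≤ c) : ∑ a ∈ s, g a ≤ n * c :=
  (Finset.sum_le_card_nsmul _ _ _ h).trans (by rw [nsmul_eq_mul]; gcongr)

theorem mul_le_sum {α : Type*} (s : Finset α) (g : α → ℝ) {c : ℝ}
    (h : ∀ a ∈ s, c ≤ g a) : s.card * c ≤ ∑ a ∈ s, g a := by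
  rw [← nsmul_eq_mul]; exact Finset.card_nsmul_le_sum _ _ _ h

theorem sum_ind_le {α : Type*} (s : Finset α) (p : α → Prop) : ∑ a ∈ s, ind (p a) ≤ s.card := by
  simpa using sum_le_mul s (fun a => ind (p a)) le_rfl zero_le_one fun _ _ => ind1 _

theorem sum_ind_nonneg {α : Type*} (s : Finset α) (p : α → Prop) : 0 ≤ ∑ a ∈ s, ind (p a) :=
  Finset.sum_nonneg fun _ _ => ind0 _

theorem ind_mono {p r : Prop} (h : p → r) : ind p ≤ ind r := by
  by_cases hp : p
  · rw [ind_pos hp, ind_pos (h hp)]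
  · rw [ind_neg hp]; exact ind0 _

/-- Some term is at least the average. -/
theorem ex_ge {α : Type*} (s : Finset α) (g : α → ℝ) {n c : ℝ} (hn : (s.card : ℝ) ≤ n)
    (hc : 0 < c) (hn0 : 0 < n) (h : n * c ≤ ∑ a ∈ s, g a) : ∃ a ∈ s, c ≤ g a := by
  refine ex_avg s g c ?_ (le_trans (by gcongr) h)
  rcases s.eq_empty_or_nonempty with rfl | h'
  · simp at h; nlinarith
  · exact h'

/-- The small terms contribute little. -/
theorem popular {α : Type*} (s : Finset α) (g : α → ℝ) {n c : ℝ} (hn : (s.card : ℝ) ≤ n)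
    (hc : 0 ≤ c) [DecidablePred fun a => c ≤ g a] :
    ∑ a ∈ s, g a - n * c ≤ ∑ a ∈ s.filter fun a => c ≤ g a, g a := by
  have h1 := Finset.sum_filter_add_sum_filter_not s (fun a => c ≤ g a) g
  have h2 := sum_le_mul (s.filter fun a => ¬ c ≤ g a) g (n := n)
    (le_trans (by exact_mod_cast Finset.card_filter_le _ _) hn) hc
    fun a ha => (not_le.1 (mem_filter.1 ha).2).le
  linarith

theorem cs_le {α : Type*} (s : Finset α) (g : α → ℝ) {n c : ℝ} (hn : (s.card : ℝ) ≤ n)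
    (hc : 0 ≤ c) (h : c ≤ ∑ a ∈ s, g a) : c ^ 2 ≤ n * ∑ a ∈ s, g a ^ 2 :=
  (pow_le_pow_left₀ hc h 2).trans (sq_sum_le_card_mul_sum_sq.trans
    (mul_le_mul_of_nonneg_right hn (Finset.sum_nonneg fun _ _ => sq_nonneg _)))

theorem paths3 {α β : Type} (A : Finset α) (B : Finset β) (r : α → β → Prop) {n K : ℝ}
    (hK : 1 ≤ K) (hn : 0 < n) (hA : (A.card : ℝ) ≤ n) (hB : (B.card : ℝ) ≤ n)
    (h : n ^ 2 / K ≤ ∑ a ∈ A, ∑ b ∈ B, ind (r a b)) :
    ∃ A' ⊆ A, ∃ B' ⊆ B, n / (6 * K) ≤ A'.card ∧ n / (6 * K) ≤ B'.card ∧ ∀ a ∈ A', ∀ b ∈ B',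
      n ^ 2 / (3072 * K ^ 5) ≤ ∑ a' ∈ A, ∑ b' ∈ B, ind (r a' b ∧ r a b' ∧ r a' b') := by
  classical
  have K0 : 0 < K := by linarith
  set A0 := A.filter fun a => n / (2 * K) ≤ ∑ b ∈ B, ind (r a b) with hA0
  have hA0n : (A0.card : ℝ) ≤ n := le_trans (by exact_mod_cast Finset.card_filter_le _ _) hA
  have e1 : n ^ 2 / (2 * K) ≤ ∑ b ∈ B, ∑ a ∈ A0, ind (r a b) := by
    have := popular A (fun a => ∑ b ∈ B, ind (r a b)) hA (c := n / (2 * K)) (by positivity)
    rw [Finset.sum_comm]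
    have e : n ^ 2 / (2 * K) = n ^ 2 / K - n * (n / (2 * K)) := by field_simp; ring
    linarith
  have e2 := cs_le B _ hB (by positivity) e1
  set bad : α → α → Prop := fun a a' => ∑ b ∈ B, ind (r a b ∧ r a' b) < n / (128 * K ^ 3) with hbad
  have e3 : ∑ b ∈ B, ∑ a ∈ A0, ∑ a' ∈ A0, ind (bad a a' ∧ r a b ∧ r a' b)
      ≤ n * (n * (n / (128 * K ^ 3))) := by
    rw [Finset.sum_comm]
    refine sum_le_mul _ _ hA0n (by positivity) fun a _ => ?_
    rw [Finset.sum_comm]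
    refine sum_le_mul _ _ hA0n (by positivity) fun a' _ => ?_
    by_cases hb : bad a a'
    · simp only [hb, true_and]; exact le_of_lt hb
    · simp only [hb, false_and, ind_neg not_false, Finset.sum_const_zero]; positivity
  obtain ⟨b0, -, e4⟩ := ex_ge B (fun b => (∑ a ∈ A0, ind (r a b)) ^ 2
      - 16 * K * ∑ a ∈ A0, ∑ a' ∈ A0, ind (bad a a' ∧ r a b ∧ r a' b)) hB
      (c := n ^ 2 / (8 * K ^ 2)) (by positivity) hn (by
    rw [Finset.sum_sub_distrib, ← Finset.mul_sum]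
    have a1 : n ^ 3 / (4 * K ^ 2) ≤ ∑ b ∈ B, (∑ a ∈ A0, ind (r a b)) ^ 2 :=
      le_of_mul_le_mul_left (le_trans (le_of_eq (by field_simp; ring)) e2) hn
    have a2 := mul_le_mul_of_nonneg_left e3 (show 0 ≤ 16 * K by positivity)
    have a3 : n * (n ^ 2 / (8 * K ^ 2))
      = n ^ 3 / (4 * K ^ 2) - 16 * K * (n * (n * (n / (128 * K ^ 3)))) := by field_simp; ring
    linarith)
  set A1 := A0.filter fun a => r a b0 with hA1
  have e5 : ∑ a ∈ A0, ∑ a' ∈ A0, ind (bad a a' ∧ r a b0 ∧ r a' b0)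
      = ∑ a ∈ A1, ∑ a' ∈ A1, ind (bad a a') := by
    simp only [hA1, Finset.sum_filter]
    refine Finset.sum_congr rfl fun a _ => ?_
    split_ifs with h1
    · exact Finset.sum_congr rfl fun a' _ => by by_cases h2 : r a' b0 <;> simp [h1, h2, ind]
    · simp [h1, ind]
  rw [e5, sum_ind, ← hA1] at e4
  have p0 : 0 ≤ ∑ a ∈ A1, ∑ a' ∈ A1, ind (bad a a') :=
    Finset.sum_nonneg fun _ _ => sum_ind_nonneg _ _
  have m0 : (0 : ℝ) ≤ A1.card := Nat.cast_nonneg _
  have e6 : n / (3 * K) ≤ A1.card := by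
    refine (pow_le_pow_iff_left₀ (by positivity) m0 two_ne_zero).1 ?_
    have : (n / (3 * K)) ^ 2 ≤ n ^ 2 / (8 * K ^ 2) := by
      rw [div_pow, mul_pow]; gcongr; norm_num
    nlinarith
  have m1 : (0 : ℝ) < A1.card := lt_of_lt_of_le (by positivity) e6
  have e7 : 16 * K * ∑ a ∈ A1, ∑ a' ∈ A1, ind (bad a a') ≤ (A1.card : ℝ) ^ 2 := by
    have : 0 < n ^ 2 / (8 * K ^ 2) := by positivity
    linarith
  refine ⟨A1.filter fun a => ∑ a' ∈ A1, ind (bad a a') ≤ A1.card / (8 * K),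
    (filter_subset _ _).trans ((filter_subset _ _).trans (filter_subset _ _)),
    B.filter fun b => A1.card / (4 * K) ≤ ∑ a ∈ A1, ind (r a b), filter_subset _ _, ?_, ?_, ?_⟩
  · have a1 : ((A1.filter fun a => ∑ a' ∈ A1, ind (bad a a') ≤ A1.card / (8 * K)).card : ℝ)
        + (A1.filter fun a => ¬ ∑ a' ∈ A1, ind (bad a a') ≤ A1.card / (8 * K)).card = A1.card := by
      exact_mod_cast Finset.card_filter_add_card_filter_not (s := A1) _
    have a2 := (mul_le_sum (A1.filter fun a => ¬ ∑ a' ∈ A1, ind (bad a a') ≤ A1.card / (8 * K))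
      (fun a => ∑ a' ∈ A1, ind (bad a a')) fun a ha => (not_le.1 (mem_filter.1 ha).2).le).trans
      (Finset.sum_le_sum_of_subset_of_nonneg (filter_subset _ _) fun _ _ _ => sum_ind_nonneg _ _)
    have a3 := (mul_le_mul_of_nonneg_left a2 (show 0 ≤ 16 * K by positivity)).trans e7
    generalize ((A1.filter fun a => ¬ ∑ a' ∈ A1, ind (bad a a') ≤ A1.card / (8 * K)).card : ℝ)
      = z at a1 a3
    have a4 : 2 * z ≤ A1.card := le_of_mul_le_mul_right (le_trans (le_of_eq (by field_simp; ring))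
          (a3.trans (le_of_eq (sq _)))) m1
    have a5 : n / (6 * K) = n / (3 * K) / 2 := by field_simp; ring
    linarith
  · have a1 := mul_le_sum A1 (fun a => ∑ b ∈ B, ind (r a b)) (c := n / (2 * K))
      fun a ha => (mem_filter.1 (mem_filter.1 ha).1).2
    rw [Finset.sum_comm] at a1
    have a2 := popular B (fun b => ∑ a ∈ A1, ind (r a b)) hB (c := A1.card / (4 * K))
      (by positivity)
    have a3 := sum_le_mul (B.filter fun b => A1.card / (4 * K) ≤ ∑ a ∈ A1, ind (r a b))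
      (fun b => ∑ a ∈ A1, ind (r a b)) le_rfl m0 fun b _ => sum_ind_le _ _
    refine le_trans (show n / (6 * K) ≤ n / (4 * K) by gcongr; norm_num)
      (le_of_mul_le_mul_right ?_ m1)
    have a4 : n / (4 * K) * A1.card = A1.card * (n / (2 * K)) - n * (A1.card / (4 * K)) := by
      field_simp; ring
    linarith
  · intro a ha b hb
    have a1 := (mem_filter.1 ha).2
    have a2 := (mem_filter.1 hb).2
    calc n ^ 2 / (3072 * K ^ 5) = n / (3 * K) / (8 * K) * (n / (128 * K ^ 3)) := by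
          field_simp; ring
      _ ≤ (∑ a' ∈ A1, ind (r a' b) - ∑ a' ∈ A1, ind (bad a a')) * (n / (128 * K ^ 3)) := by
          have a3 : n / (3 * K) / (8 * K) ≤ A1.card / (8 * K) := by gcongr
          have a4 : A1.card / (4 * K) = 2 * (A1.card / (8 * K)) := by field_simp; ring
          gcongr; linarith
      _ ≤ ∑ a' ∈ A1, ∑ b' ∈ B, ind (r a' b ∧ r a b' ∧ r a' b') := by
          rw [← Finset.sum_sub_distrib, Finset.sum_mul]
          refine Finset.sum_le_sum fun a' _ => ?_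
          have z := sum_ind_nonneg B fun b' => r a' b ∧ r a b' ∧ r a' b'
          have z2 : 0 < n / (128 * K ^ 3) := by positivity
          by_cases h1 : r a' b
          · by_cases h2 : bad a a'
            · rw [ind_pos h1, ind_pos h2]; linarith
            · rw [ind_pos h1, ind_neg h2]
              simp only [h1, true_and, sub_zero, one_mul]
              exact not_lt.1 h2
          · rw [ind_neg h1]; nlinarith [ind0 (bad a a')]
      _ ≤ _ := Finset.sum_le_sum_of_subset_of_nonneg ((filter_subset _ _).trans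
          (filter_subset _ _)) fun _ _ _ => sum_ind_nonneg _ _

theorem bsg2 {F : Type} [Field F] [DecidableEq F] (X Y S : Finset F) {d : F} (hd : d ≠ 0)
    (r : F → F → Prop) (hr : ∀ x y, r x y → x + d * y ∈ S) {n K : ℝ}
    (hK : 1 ≤ K) (hn : 0 < n) (hX : (X.card : ℝ) ≤ n) (hY : (Y.card : ℝ) ≤ n)
    (hS : (S.card : ℝ) ≤ n) (h : n ^ 2 / K ≤ ∑ a ∈ X, ∑ b ∈ Y, ind (r a b)) :
    ∃ X' ⊆ X, ∃ Y' ⊆ Y, n / (6 * K) ≤ X'.card ∧ n / (6 * K) ≤ Y'.card ∧
      ((X' + d • Y').card : ℝ) ≤ 3072 * K ^ 5 * n := by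
  classical
  obtain ⟨X', h1, Y', h2, h3, h4, h5⟩ := paths3 X Y r hK hn hX hY h
  refine ⟨X', h1, Y', h2, h3, h4, ?_⟩
  have K0 : 0 < K := by linarith
  have a1 : ∀ z ∈ X' + d • Y', n ^ 2 / (3072 * K ^ 5)
      ≤ ∑ s ∈ S ×ˢ S ×ˢ S, ind (s.1 + s.2.1 - s.2.2 = z) := by
    intro z hz
    obtain ⟨x, hx, w, hw, rfl⟩ := mem_add.1 hz
    obtain ⟨y, hy, rfl⟩ := mem_smul_finset.1 hw
    refine (h5 x hx y hy).trans ?_
    rw [← Finset.sum_product', sum_ind, sum_ind]
    refine Nat.cast_le.2 (Finset.card_le_card_of_injOn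
      (fun p => (p.1 + d * y, x + d * p.2, p.1 + d * p.2)) ?_ ?_)
    · intro p hp
      obtain ⟨-, b1, b2, b3⟩ := mem_filter.1 (mem_coe.1 hp)
      refine mem_coe.2 (mem_filter.2 ⟨mem_product.2 ⟨hr _ _ b1, mem_product.2
        ⟨hr _ _ b2, hr _ _ b3⟩⟩, ?_⟩)
      simp only [smul_eq_mul]; ring
    · intro p _ p' _ e
      simp only [Prod.mk.injEq] at e
      exact Prod.ext (add_right_cancel e.1) (mul_left_cancel₀ hd (add_left_cancel e.2.1))
  have a2 := mul_le_sum _ _ a1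
  rw [Finset.sum_comm] at a2
  have a3 := sum_le_mul (S ×ˢ S ×ˢ S) (fun s => ∑ z ∈ X' + d • Y', ind (s.1 + s.2.1 - s.2.2 = z))
    (n := n * (n * n)) (by
      rw [Finset.card_product, Finset.card_product]; push_cast; gcongr) zero_le_one (by
      intro s _
      rw [sum_ind, Nat.cast_le_one]
      exact Finset.card_le_one.2 fun a ha b hb => (mem_filter.1 ha).2.symm.trans (mem_filter.1 hb).2)
  exact le_of_mul_le_mul_right (a2.trans (a3.trans (le_of_eq (by field_simp))))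
    (by positivity : 0 < n ^ 2 / (3072 * K ^ 5))

end Pool.Agent.P.MP_1d6da1_co.Sph
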