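import Pool.Agent.P.MP_1d6da1_co.Sph.Glob

namespace Pool.Agent.P.MP_1d6da1_co.Sph

open Finset

theorem shatters_of {α β : Type} [DecidableEq α] {P T : Finset α} {Q : Finset β}
    {R : β → α → Prop} [∀ y, DecidablePred (R y)] (hT : T ⊆ P)
    (h : ∀ I ⊆ T, ∃ y ∈ Q, ∀ x ∈ T, R y x ↔ x ∈ I) :
    (Q.image fun y => P.filter (R y)).Shatters T := by
  intro I hI
  obtain ⟨y, hy, h1⟩ := h I hI
  refine ⟨_, mem_image_of_mem _ hy, ?_⟩
  ext x
  simp only [mem_inter, mem_filter]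
  exact ⟨fun h => (h1 x h.1).1 h.2.2, fun h => ⟨hI h, hT (hI h), (h1 x (hI h)).2 h⟩⟩

theorem vc_upper {F : Type} [Field F] [Fintype F] [DecidableEq F] {d : ℕ} (h2 : (2 : F) ≠ 0)
    (r : F) (P Q : Finset (Fin d → F)) :
    (Q.image fun y => P.filter fun x => ∑ i, (x i - y i) ^ 2 = r).vcDim ≤ d + 1 := by
  refine Finset.sup_le fun T hT => ?_
  have hs := mem_shatterer.1 hT
  obtain ⟨u, hu, e⟩ := hs subset_rfl
  obtain ⟨y0, -, rfl⟩ := mem_image.1 hu
  have hP := Finset.inter_eq_left.1 e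
  have := card_shatter_le (B0_nd h2) T (fun x => lift x 0) (m0 := lift y0 r)
    (fun h => by simpa [lift] using congrArg (fun v => v.2.2) h)
    (fun x hx => (lift_zero _ _ _).2 (mem_filter.1 (hP hx)).2) (by
      intro x hx
      obtain ⟨u, hu, e⟩ := hs (Finset.erase_subset x T)
      obtain ⟨y, -, rfl⟩ := mem_image.1 hu
      refine ⟨lift y r, fun h => Finset.notMem_erase x T ?_, fun z hz h => ?_⟩
      · rw [← e]
        exact mem_inter.2 ⟨hx, mem_filter.2 ⟨(mem_filter.1 (hP hx)).1, (lift_zero _ _ _).1 h⟩⟩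
      · have : z ∈ T.erase x := mem_erase.2 ⟨h, hz⟩
        rw [← e] at this
        exact (lift_zero _ _ _).2 (mem_filter.1 (mem_inter.1 this).2).2)
  rw [card_W, Nat.pow_le_pow_iff_right Fintype.one_lt_card] at this
  omega

theorem sphere_vc (d : ℕ) (hd : 3 ≤ d) :
    ∃ C : ℝ, ∀ (F : Type) [Field F] [Fintype F] [DecidableEq F], (2 : F) ≠ 0 →
      ∀ r : F, r ≠ 0 → ∀ P Q : Finset (Fin d → F),
        C * (Fintype.card F : ℝ) ^ ((d : ℝ) - 1 / 28) ≤ P.card →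
        C * (Fintype.card F : ℝ) ^ ((d : ℝ) - 1 / 28) ≤ Q.card →
        (Q.image fun y => P.filter fun x => ∑ i, (x i - y i) ^ 2 = r).vcDim = d + 1 := by
  obtain ⟨k, rfl⟩ := Nat.exists_eq_add_of_le hd
  refine ⟨4 ^ (k + 1) * 16, fun F _ _ _ h2 r hr P Q hP hQ =>
    le_antisymm (vc_upper h2 r P Q) ?_⟩
  have q0 : (0 : ℝ) < Fintype.card F := by exact_mod_cast Fintype.card_pos
  have e : (Fintype.card F : ℝ) ^ (((3 + k : ℕ) : ℝ) - 1 / 28)
      = (Fintype.card F : ℝ) ^ (-(1 / 28) : ℝ) * (Fintype.card F : ℝ) ^ (3 + k) := by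
    rw [← Real.rpow_natCast, ← Real.rpow_add q0]; congr 1; ring
  have e2 : ((Fintype.card F : ℝ) ^ (-(1 / 28) : ℝ)) ^ 28 * Fintype.card F = 1 := by
    rw [← Real.rpow_natCast, ← Real.rpow_mul q0.le]
    norm_num
    rw [Real.rpow_neg_one, inv_mul_cancel₀ q0.ne']
  rw [e, ← mul_assoc] at hP hQ
  obtain ⟨T, hT, hc, h⟩ := sphere_shatter k h2 hr P Q (by positivity) (by
    rw [mul_pow, mul_assoc, e2, mul_one, mul_pow, ← pow_mul, ← pow_mul, mul_comm 28]
    gcongr; norm_num) hP hQ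
  rw [← hc]
  exact (shatters_of hT h).card_le_vcDim

end Pool.Agent.P.MP_1d6da1_co.Sph
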