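import Pool.Agent.P.MP_1d6da1_co.Sph.AF9
import Pool.Agent.P.MP_1d6da1_co.Sph.Thm1

namespace Pool.Agent.P.MP_1d6da1_co.Sph

open Finset Module

open Classical in
/-- An edge on a line of the quadric with few points of `S`. -/
def Ed {F : Type} [Field F] {V : Type} [AddCommGroup V] [Module F V] (B : V →ₗ[F] V →ₗ[F] F)
    (S : Finset V) (t : ℕ) (y x : V) : Prop :=
  B y x = 0 ∧ (S.filter fun w => B y w = 0 ∧ B x w = 0).card < t

theorem core : ∃ c : ℕ, 1 ≤ c ∧ ∀ (F : Type) [Field F] (V : Type) [AddCommGroup V] [Module F V]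
    (B : V →ₗ[F] V →ₗ[F] F) (X Y : Finset V) (t : ℕ) (ν K : ℝ) (E : V → V → Prop),
    Cfg B X Y t → (∀ y x, E y x → B y x = 0) → ((∀ y ∈ Y, B y y ≠ 0) ∧
      (¬ ∃ T ⊆ X, T.card = 4 ∧ ∀ I ⊆ T, ∃ y ∈ Y, ∀ x ∈ T, B y x = 0 ↔ x ∈ I) ∨
      (∀ y ∈ Y, B y y = 0) ∧ E = Ed B X t) → 64 * ((t : ℝ) + 3) ^ 2 ≤ K → K ^ c ≤ ν →
    (X.card : ℝ) ≤ ν ^ 3 → (Y.card : ℝ) ≤ ν ^ 3 → ∑ y ∈ Y, ∑ x ∈ X, ind (E y x) ≤ ν ^ 5 / K := by
  obtain ⟨c, hc⟩ := plane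
  refine ⟨(c + 5) * 210, by omega, ?_⟩
  intro F _ V _ _ B X Y t ν K E h hE ho hK hν hX hY
  by_contra he
  have t0 : (0 : ℝ) ≤ t := Nat.cast_nonneg _
  have K1 : 1 ≤ K := by nlinarith
  have kk : ∀ i j, i ≤ j → K ^ i ≤ K ^ j := fun i j => pow_le_pow_right₀ K1
  have ν0 : 0 ≤ ν := le_trans (by positivity) hν
  obtain ⟨m0, hm, x0, hx, h0, hd, P, hP, hc1, hP', hI⟩ :=
    h.link hK ((kk _ _ (by omega)).trans hν) hX hY hE (not_le.1 he).le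
  obtain ⟨k, R, ψ1, ψ2, ψ3, A, hA, hk, hR, hAc, i4, p1, p2, p3, hq⟩ := hc F V B X Y t ν K m0 x0 P h
    hm hx h0 hP (by nlinarith) (by nlinarith) ((kk _ _ (by omega)).trans hν) hd hc1
    (fun x a => ⟨(hP' x a).1, hE _ _ (hP' x a).2.1⟩) hI
  have D : Des B X Y t m0 x0 ψ1 ψ2 ψ3 k A := ⟨h, hm, hx, h0, hA.trans hP, i4, p1, p2, p3,
    fun x a => ⟨(hP' x (hA a)).1, hE _ _ (hP' x (hA a)).2.1, (hP' x (hA a)).2.2.1⟩, hq⟩
  rw [pow_mul] at hν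
  have z1 : 64 * ((t : ℝ) + 3) ^ 2 ≤ K ^ (c + 5) := hK.trans (by simpa using kk 1 _ (by omega))
  have z2 : (R.card : ℝ) ≤ K ^ (c + 5) * ν := hR.trans (by gcongr; omega)
  have z3 : ν ^ 2 / K ^ (c + 5) ≤ A.card := le_trans (by gcongr; omega) hAc
  have z4 : ∀ p ∈ A, ν ^ 2 / K ^ (c + 5) ≤ ∑ y ∈ Y, ind (Gd B X t m0 y ∧ B y p = 0) :=
    fun p a => le_trans (by gcongr; omega) (hP' p (hA a)).2.2.2
  rcases ho with ⟨an, hn⟩ | ⟨an, rfl⟩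
  · obtain ⟨v1, v2, v3, v4, j4, hv, hβ, hG, hc, -⟩ := D.basis z1 hν hY z3 z4
    exact hn (h.model hm (an _ hm) hk j4 hv hβ hG D.hA hc z1 hν hY z2 z3 z4)
  · exact D.cone (an _ hm) hk z1 hν hY z2 z3 z4 fun p a => (hP' p (hA a)).2.1.2

theorem quad_any : ∃ c : ℕ, 1 ≤ c ∧ ∀ (F : Type) [Field F] (V : Type) [AddCommGroup V] [Module F V]
    (B : V →ₗ[F] V →ₗ[F] F) (X Y : Finset V) (t : ℕ) (ν K : ℝ), Nd B → (2 : F) ≠ 0 →
    finrank F V = 5 → Pd F X → Pd F Y → (∀ x ∈ X, B x x = 0) →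
    (∀ A ⊆ X, ∀ S ⊆ Y, A.card = t → S.card = t → ¬ ∀ x ∈ A, ∀ y ∈ S, B y x = 0) →
    (¬ ∃ T ⊆ X, T.card = 4 ∧ ∀ I ⊆ T, ∃ y ∈ Y, ∀ x ∈ T, B y x = 0 ↔ x ∈ I) →
    64 * ((t : ℝ) + 3) ^ 2 ≤ K → K ^ c ≤ ν → (X.card : ℝ) ≤ ν ^ 3 → (Y.card : ℝ) ≤ ν ^ 3 →
    ∑ y ∈ Y, ∑ x ∈ X, ind (B y x = 0) ≤ 3 * (ν ^ 5 / K) + ν ^ 3 := by
  obtain ⟨c, c1, hc⟩ := core
  refine ⟨c, c1, ?_⟩
  intro F _ V _ _ B X Y t ν K hB h2 hV pX pY iso kf hn hK hν hX hY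
  classical
  have cY : ∀ S ⊆ Y, (S.card : ℝ) ≤ ν ^ 3 := fun S hS =>
    le_trans (Nat.cast_le.2 (Finset.card_le_card hS)) hY
  set Y0 := Y.filter fun y => B y y = 0 with hY0
  have s0 : Y0 ⊆ Y := filter_subset _ _
  have i0 : ∀ y ∈ Y0, B y y = 0 := fun y hy => (mem_filter.1 hy).2
  have h0 : Cfg B X Y0 t := ⟨hB, h2, hV, pX, pY.mono s0, iso, Or.inr i0,
    fun A hA S hS => kf A hA S (hS.trans s0)⟩
  have a1 := hc F V B X (Y.filter fun y => ¬ B y y = 0) t ν K (fun y x => B y x = 0)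
    ⟨hB, h2, hV, pX, pY.mono (filter_subset _ _), iso, Or.inl fun y hy => (mem_filter.1 hy).2,
      fun A hA S hS => kf A hA S (hS.trans (filter_subset _ _))⟩ (fun _ _ e => e)
    (Or.inl ⟨fun y hy => (mem_filter.1 hy).2, fun ⟨T, a, b, d⟩ => hn ⟨T, a, b, fun I hI =>
      let ⟨y, e, f⟩ := d I hI; ⟨y, (mem_filter.1 e).1, f⟩⟩⟩) hK hν hX (cY _ (filter_subset _ _))
  have a2 := hc F V B X Y0 t ν K _ h0 (fun _ _ e => e.1) (Or.inr ⟨i0, rfl⟩) hK hν hX (cY _ s0)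
  have a3 := hc F V B Y0 X t ν K _ ⟨hB, h2, hV, pY.mono s0, pX, i0, Or.inr iso,
    fun A hA S hS a b e => kf S hS A (hA.trans s0) b a fun x hx y hy => by
      rw [hB.1]; exact e y hy x hx⟩ (fun _ _ e => e.1) (Or.inr ⟨iso, rfl⟩) hK hν (cY _ s0) hX
  have a4 : ∑ x ∈ X, ∑ y ∈ Y0, ind (∃ s : F, y = s • x) ≤ ν ^ 3 * 1 :=
    sum_le_mul _ _ hX zero_le_one fun x _ => sum_ind_le_one _ _ fun y hy y' hy' ⟨s, e⟩ ⟨s', e'⟩ =>
      pY.2 y (s0 hy) y' (s0 hy') (s / s') (by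
        have : s' ≠ 0 := fun e0 => pY.1 y' (s0 hy') (by rw [e', e0, zero_smul])
        rw [e, e', smul_smul, div_mul_cancel₀ _ this])
  have a5 : ∑ y ∈ Y0, ∑ x ∈ X, ind (B y x = 0) ≤ ∑ y ∈ Y0, ∑ x ∈ X,
      (ind (Ed B X t y x) + ind (Ed B Y0 t x y) + ind (∃ s : F, y = s • x)) := by
    refine Finset.sum_le_sum fun y hy => Finset.sum_le_sum fun x hx => ?_
    have p1 := ind0 (Ed B X t y x)
    have p2 := ind0 (Ed B Y0 t x y)
    have p3 := ind0 (∃ s : F, y = s • x)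
    by_cases b0 : B y x = 0
    swap
    · rw [ind_neg b0]; linarith
    rw [ind_pos b0]
    by_cases b1 : ∃ s : F, y = s • x
    · rw [ind_pos b1]; linarith
    by_cases b2 : Ed B X t y x
    · rw [ind_pos b2]; linarith
    have j : Ind2 F y x := fun a b e => by
      have ha : a = 0 := by
        by_contra ha
        refine b1 ⟨-(b / a), smul_right_injective V ha ?_⟩
        simp only [smul_smul, mul_neg, mul_div_cancel₀ _ ha]
        linear_combination (norm := module) e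
      exact ⟨ha, by simpa [ha, pX.1 x hx] using e⟩
    have b3 : Ed B Y0 t x y := ⟨by rw [hB.1, b0], h0.free (filter_subset _ X) (filter_subset _ _)
      (fun v hv w hw => by
        obtain ⟨d1, d2, d3⟩ := mem_filter.1 hw
        obtain ⟨a, b, e⟩ := tot hB hV j (i0 y hy) (iso x hx) (i0 w d1) b0 d3 d2
        simp [e, (mem_filter.1 hv).2.1, (mem_filter.1 hv).2.2])
      (not_lt.1 fun e => b2 ⟨b0, e⟩)⟩
    rw [ind_pos b3]; linarith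
  simp only [Finset.sum_add_distrib] at a5
  rw [Finset.sum_comm] at a3 a4
  rw [← Finset.sum_filter_add_sum_filter_not Y fun y => B y y = 0]
  linarith

theorem point_sphere_any : ∃ ε : ℝ, 0 < ε ∧ ε < 3 ∧ ∀ t : ℕ, ∃ C : ℝ,
    ∀ (F : Type) [Field F] [DecidableEq F], (2 : F) ≠ 0 →
      ∀ (P : Finset (Fin 3 → F)) (Q : Finset ((Fin 3 → F) × F)),
        (∀ A ⊆ P, ∀ S ⊆ Q, A.card = t → S.card = t →
          ¬ ∀ x ∈ A, ∀ s ∈ S, ∑ i, (x i - s.1 i) ^ 2 = s.2) →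
        (Q.image fun s => P.filter fun x => ∑ i, (x i - s.1 i) ^ 2 = s.2).vcDim ≤ 3 →
        ∑ s ∈ Q, ((P.filter fun x => ∑ i, (x i - s.1 i) ^ 2 = s.2).card : ℝ)
          ≤ C * ((P.card + Q.card : ℕ) : ℝ) ^ (2 - 1 / (3 - ε) : ℝ) := by
  obtain ⟨c, c1, hc⟩ := quad_any
  have c2 : (1 : ℝ) ≤ c := by exact_mod_cast c1
  refine ⟨3 / (c + 1), by positivity, by rw [div_lt_iff₀ (by positivity)]; linarith, fun t =>
    ⟨(64 * ((t : ℝ) + 3) ^ 2) ^ (c + 1) + 4, fun F _ _ h2 P Q hK hVC => ?_⟩⟩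
  obtain ⟨d, rfl⟩ := Nat.exists_eq_add_of_le' c1
  have n0 : (0 : ℝ) ≤ ((P.card + Q.card : ℕ) : ℝ) := Nat.cast_nonneg _
  obtain ⟨μ, hμ⟩ : ∃ μ, μ = ((P.card + Q.card : ℕ) : ℝ) ^ ((((d + 1) * 3 : ℕ) : ℝ)⁻¹) := ⟨_, rfl⟩
  have μ0 : 0 ≤ μ := by rw [hμ]; positivity
  have e1 : μ ^ ((d + 1) * 3) = (P.card + Q.card : ℕ) := by
    rw [hμ]; exact Real.rpow_inv_natCast_pow n0 (by omega)
  have e2 : ((P.card + Q.card : ℕ) : ℝ) ^ (2 - 1 / (3 - 3 / (((d + 1 : ℕ) : ℝ) + 1)) : ℝ)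
      = μ ^ (5 * d + 4) := by
    rw [hμ, ← Real.rpow_natCast, ← Real.rpow_mul n0]
    congr 1
    have : (3 : ℝ) - 3 / (((d + 1 : ℕ) : ℝ) + 1) = 3 * (d + 1) / (d + 2) := by
      push_cast; field_simp; ring
    rw [this]; push_cast; field_simp; ring
  rw [e2]
  have p0 : 0 ≤ μ ^ (5 * d + 4) := by positivity
  have cP : (P.card : ℝ) ≤ (μ ^ (d + 1)) ^ 3 := by rw [← pow_mul, e1]; simp
  have cQ : (Q.card : ℝ) ≤ (μ ^ (d + 1)) ^ 3 := by rw [← pow_mul, e1]; simp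
  by_cases hs : μ ≤ 64 * ((t : ℝ) + 3) ^ 2
  · calc _ ≤ (μ ^ (d + 1)) ^ 3 * (μ ^ (d + 1)) ^ 3 := sum_le_mul _ _ cQ (by positivity)
          fun s _ => le_trans (Nat.cast_le.2 (Finset.card_filter_le _ _)) cP
      _ = μ ^ (d + 1 + 1) * μ ^ (5 * d + 4) := by ring
      _ ≤ _ := by
        refine mul_le_mul_of_nonneg_right (le_add_of_le_of_nonneg ?_ (by norm_num)) p0
        gcongr
  have li : Function.Injective fun x : Fin 3 → F => lift x 0 := fun _ _ h => (lift_inj h).1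
  have lj : Function.Injective fun s : (Fin 3 → F) × F => lift s.1 s.2 :=
    fun _ _ h => Prod.ext (lift_inj h).1 (lift_inj h).2
  have h := hc F _ (B0 F 3) _ _ t (μ ^ (d + 1)) μ (B0_nd h2) h2 (by simp)
    (pd_image P (fun x => x) fun _ => 0) (pd_image Q (fun s => s.1) fun s => s.2) (by
      intro v hv
      obtain ⟨x, -, rfl⟩ := mem_image.1 hv
      rw [lift_zero]; simp) (by
      intro A hA S hS a1 a2 h
      obtain ⟨A', hA', rfl⟩ := Finset.subset_image_iff.1 hA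
      obtain ⟨S', hS', rfl⟩ := Finset.subset_image_iff.1 hS
      rw [Finset.card_image_of_injective _ li] at a1
      rw [Finset.card_image_of_injective _ lj] at a2
      exact hK A' hA' S' hS' a1 a2 fun x hx s hs => (lift_zero _ _ _).1
        (h _ (mem_image_of_mem _ hx) _ (mem_image_of_mem _ hs))) (by
      rintro ⟨T, hT, hc, h⟩
      obtain ⟨T', hT', rfl⟩ := Finset.subset_image_iff.1 hT
      rw [Finset.card_image_of_injective _ li] at hc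
      have := (shatters_of (Q := Q) (R := fun s x => ∑ i, (x i - s.1 i) ^ 2 = s.2) hT' (by
        intro I hI
        obtain ⟨y, hy, h1⟩ := h _ (Finset.image_subset_image hI)
        obtain ⟨s, hs, rfl⟩ := mem_image.1 hy
        refine ⟨s, hs, fun x hx => ?_⟩
        rw [← lift_zero, h1 _ (mem_image_of_mem _ hx), li.mem_finset_image])).card_le_vcDim
      omega) (not_le.1 hs).le le_rfl (by rwa [Finset.card_image_of_injective _ li])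
    (by rwa [Finset.card_image_of_injective _ lj])
  rw [Finset.sum_image fun _ _ _ _ h => lj h] at h
  simp only [Finset.sum_image fun _ _ _ _ h => li h, lift_zero, sum_ind] at h
  have μ1 : 1 ≤ μ := by nlinarith [Nat.cast_nonneg (α := ℝ) t]
  have e3 : (μ ^ (d + 1)) ^ 5 / μ = μ ^ (5 * d + 4) := by field_simp; ring
  have e4 : (μ ^ (d + 1)) ^ 3 ≤ μ ^ (5 * d + 4) := by
    rw [← pow_mul]; exact pow_le_pow_right₀ μ1 (by omega)
  have : 0 ≤ (64 * ((t : ℝ) + 3) ^ 2) ^ (d + 1 + 1) * μ ^ (5 * d + 4) := by positivity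
  linarith

end Pool.Agent.P.MP_1d6da1_co.Sph
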