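import Pool.Agent.P.MP_1d6da1_co.Sph.AF1

namespace Pool.Agent.P.MP_1d6da1_co.Sph

open Finset
open scoped Pointwise

variable {F : Type} [Field F] [DecidableEq F]

theorem smul_sub_fin (ξ : F) (U W : Finset F) : ξ • (U - W) = ξ • U - ξ • W := by
  rw [sub_eq_add_neg, smul_add, Finset.smul_finset_neg, sub_eq_add_neg]

theorem csub (U W : Finset F) : (U - W).card = (W - U).card := by
  rw [← Finset.card_neg, neg_sub]

theorem ruz (A B C : Finset F) : ((A - C).card : ℝ) * B.card ≤ (A - B).card * (C - B).card := by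
  exact_mod_cast Finset.ruzsa_triangle_inequality_sub_sub_sub A B C

theorem ruz' (A B C : Finset F) : ((A - C).card : ℝ) * B.card ≤ (A + B).card * (C + B).card := by
  exact_mod_cast Finset.ruzsa_triangle_inequality_sub_add_add A B C

/-- The dilate of `Y` by `ξ` is close to `Y`. -/
def Alg (Y : Finset F) (c : ℝ) (ξ : F) : Prop := ((Y - ξ • Y).card : ℝ) ≤ c * Y.card

variable {Y : Finset F} {a b L : ℝ} {ξ η : F}

theorem Alg.mono (h : Alg Y a ξ) (hab : a ≤ b) : Alg Y b ξ :=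
  le_trans h (mul_le_mul_of_nonneg_right hab (Nat.cast_nonneg _))

theorem alg_zero (hY : Y.Nonempty) (ha : 1 ≤ a) : Alg Y a 0 := by
  unfold Alg
  rw [Finset.zero_smul_finset hY, sub_zero]
  exact le_mul_of_one_le_left (Nat.cast_nonneg _) ha

theorem Alg.mul (hY : Y.Nonempty) (ha : 1 ≤ a) (hb : 1 ≤ b) (h : Alg Y a ξ) (h' : Alg Y b η) :
    Alg Y (a * b) (ξ * η) := by
  by_cases h0 : ξ = 0
  · rw [h0, zero_mul]; exact alg_zero hY (one_le_mul_of_one_le_of_one_le ha hb)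
  have := ruz Y (ξ • Y) ((ξ * η) • Y)
  rw [mul_smul, ← smul_sub_fin, card_smul_finset₀ h0, card_smul_finset₀ h0, csub (η • Y),
    ← mul_smul] at this
  have p : (0 : ℝ) < Y.card := by exact_mod_cast hY.card_pos
  refine le_of_mul_le_mul_right (this.trans ?_) p
  calc _ ≤ (a * Y.card) * (b * Y.card) := mul_le_mul h h' (Nat.cast_nonneg _) (by positivity)
    _ = _ := by ring

theorem Alg.inv (h : Alg Y a ξ) : Alg Y a ξ⁻¹ := by
  by_cases h0 : ξ = 0
  · rwa [h0, inv_zero, ← h0]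
  unfold Alg at *
  rwa [← card_smul_finset₀ h0, smul_sub_fin, smul_smul, mul_inv_cancel₀ h0, one_smul, csub]

theorem pl (hY : Y.Nonempty) (h : Alg Y L 1) (m n : ℕ) :
    ((m • Y - n • Y).card : ℝ) ≤ L ^ (m + n) * Y.card := by
  have p : (0 : ℝ) < Y.card := by exact_mod_cast hY.card_pos
  have h1 := Finset.pluennecke_ruzsa_inequality_nsmul_sub_nsmul_sub hY Y m n
  have h2 : ((m • Y - n • Y).card : ℝ) ≤ ((Y - Y).card / Y.card : ℝ) ^ (m + n) * Y.card := by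
    have := (NNRat.cast_le (K := ℝ)).2 h1
    push_cast at this
    exact this
  unfold Alg at h
  rw [one_smul, ← div_le_iff₀ p] at h
  exact h2.trans (by gcongr)

theorem alg_neg (hY : Y.Nonempty) (h : Alg Y L 1) : Alg Y (L ^ 2) (-1) := by
  have := pl hY h 2 0
  unfold Alg
  simpa [two_nsmul] using this

theorem Alg.add (hY : Y.Nonempty) (h1 : Alg Y L 1) (h : Alg Y a ξ) (h' : Alg Y b η) :
    Alg Y (a * b * L ^ 5) (ξ + η) := by
  have cov : ∀ (c : ℝ) (ζ : F), Alg Y c ζ → ∃ T : Finset F, (T.card : ℝ) ≤ c ∧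
      -(ζ • Y) ⊆ T + (Y - Y) := by
    intro c ζ h
    obtain ⟨T, -, a1, a2⟩ := Finset.ruzsa_covering_add (A := -(ζ • Y)) (K := c) hY (by
      rwa [add_comm, ← sub_eq_add_neg])
    exact ⟨T, a1, a2⟩
  obtain ⟨T, a1, a2⟩ := cov a ξ h
  obtain ⟨T', b1, b2⟩ := cov b η h'
  have hs : Y - (ξ + η) • Y ⊆ T + T' + (3 • Y - 2 • Y) := by
    have e : T + T' + (3 • Y - 2 • Y) = Y + ((T + (Y - Y)) + (T' + (Y - Y))) := by
      rw [show 3 • Y = Y + Y + Y from by rw [succ_nsmul, two_nsmul], two_nsmul]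
      simp only [sub_eq_add_neg, neg_add]
      ac_rfl
    rw [e, sub_eq_add_neg]
    refine Finset.add_subset_add_left (subset_trans ?_ (Finset.add_subset_add a2 b2))
    rw [← neg_add]
    refine Finset.neg_subset_neg fun z hz => ?_
    obtain ⟨y, hy, rfl⟩ := mem_smul_finset.1 hz
    rw [add_smul]
    exact add_mem_add (smul_mem_smul_finset hy) (smul_mem_smul_finset hy)
  have c1 : (Y - (ξ + η) • Y).card ≤ T.card * T'.card * (3 • Y - 2 • Y).card :=
    (Finset.card_le_card hs).trans (Finset.card_add_le.trans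
      (Nat.mul_le_mul_right _ Finset.card_add_le))
  have c2 := pl hY h1 3 2
  have a0 : 0 ≤ a := le_trans (Nat.cast_nonneg _) a1
  have b0 : 0 ≤ b := le_trans (Nat.cast_nonneg _) b1
  calc ((Y - (ξ + η) • Y).card : ℝ) ≤ T.card * T'.card * (3 • Y - 2 • Y).card := by
        exact_mod_cast c1
    _ ≤ a * b * (L ^ (3 + 2) * Y.card) := by gcongr
    _ = _ := by ring

theorem alg_card (T : Finset F) (ha : 0 < a) (hT : ∀ ξ ∈ T, Alg Y a ξ) (hY : 2 * a ≤ Y.card) :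
    (T.card : ℝ) ≤ 2 * a * Y.card := by
  have p : (0 : ℝ) < Y.card := by linarith
  have e1 : ∀ ξ ∈ T, (Y.card : ℝ) ^ 3 / a ≤ ∑ p ∈ Y ×ˢ Y, ∑ p' ∈ Y ×ˢ Y,
      ind (p.1 - ξ * p.2 = p'.1 - ξ * p'.2) := by
    intro ξ hξ
    have m : ∀ p ∈ Y ×ˢ Y, p.1 - ξ * p.2 ∈ Y - ξ • Y := fun p hp =>
      sub_mem_sub (mem_product.1 hp).1 (smul_mem_smul_finset (mem_product.1 hp).2)
    have s1 : ∀ p ∈ Y ×ˢ Y, ∀ g : F → ℝ, ∑ z ∈ Y - ξ • Y, ind (p.1 - ξ * p.2 = z) * g z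
        = g (p.1 - ξ * p.2) := by
      intro p hp g
      rw [Finset.sum_eq_single_of_mem _ (m p hp) fun z _ h => by rw [ind_neg h.symm, zero_mul],
        ind_pos rfl, one_mul]
    have c := cs_le (Y - ξ • Y) (fun z => ∑ p ∈ Y ×ˢ Y, ind (p.1 - ξ * p.2 = z)) (hT ξ hξ)
      (c := (Y.card : ℝ) ^ 2) (by positivity) (by
        rw [Finset.sum_comm]
        refine le_trans (le_of_eq ?_) (mul_le_sum _ _ fun p hp => le_of_eq (by
          simpa using (s1 p hp fun _ => 1).symm))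
        rw [Finset.card_product]; push_cast; ring)
    have e : ∑ z ∈ Y - ξ • Y, (∑ p ∈ Y ×ˢ Y, ind (p.1 - ξ * p.2 = z)) ^ 2
        = ∑ p ∈ Y ×ˢ Y, ∑ p' ∈ Y ×ˢ Y, ind (p.1 - ξ * p.2 = p'.1 - ξ * p'.2) := by
      simp only [sq, Finset.sum_mul]
      rw [Finset.sum_comm]
      refine Finset.sum_congr rfl fun p hp => ?_
      rw [s1 p hp fun z => ∑ p' ∈ Y ×ˢ Y, ind (p'.1 - ξ * p'.2 = z)]
      simp only [eq_comm]
    rw [e] at c
    rw [div_le_iff₀ ha]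
    exact le_of_mul_le_mul_left (le_trans (le_of_eq (by ring)) (c.trans (le_of_eq (by ring)))) p
  have cY : ((Y ×ˢ Y).card : ℝ) ≤ (Y.card : ℝ) ^ 2 := by
    rw [Finset.card_product]; push_cast; exact le_of_eq (by ring)
  have e2 : ∑ ξ ∈ T, ∑ p ∈ Y ×ˢ Y, ∑ p' ∈ Y ×ˢ Y, ind (p.1 - ξ * p.2 = p'.1 - ξ * p'.2)
      ≤ (Y.card : ℝ) ^ 2 * (T.card + (Y.card : ℝ) ^ 2 * 1) := by
    rw [Finset.sum_comm]
    refine sum_le_mul _ _ cY (by positivity) fun p hp => ?_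
    rw [Finset.sum_comm, ← Finset.add_sum_erase _ _ hp]
    refine add_le_add (sum_ind_le _ _) (sum_le_mul _ _ (le_trans (Nat.cast_le.2
      (Finset.card_le_card (erase_subset _ _))) cY) zero_le_one fun p' hp' => ?_)
    rw [sum_ind, Nat.cast_le_one]
    refine Finset.card_le_one.2 fun s hs s' hs' => ?_
    have b1 := (mem_filter.1 hs).2
    have b2 := (mem_filter.1 hs').2
    by_contra hn
    have b3 : p'.2 = p.2 := mul_left_cancel₀ (sub_ne_zero.2 hn) (by linear_combination b1 - b2)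
    exact (mem_erase.1 hp').1 (Prod.ext (by rw [b3] at b1; linear_combination -b1) b3)
  have e3 := (mul_le_sum _ _ e1).trans e2
  rw [← mul_div_assoc, div_le_iff₀ ha] at e3
  have e4 : (T.card : ℝ) * Y.card ≤ (T.card + (Y.card : ℝ) ^ 2) * a :=
    le_of_mul_le_mul_left (le_trans (le_of_eq (by ring)) (e3.trans (le_of_eq (by ring))))
      (pow_pos p 2)
  have t0 : (0 : ℝ) ≤ T.card := Nat.cast_nonneg _
  refine le_of_mul_le_mul_right ?_ p
  nlinarith [mul_le_mul_of_nonneg_left hY t0]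

theorem ex_subfield (D : Finset F) (hL : 1 ≤ L) (h1 : Alg Y L 1) (hD : ∀ ξ ∈ D, Alg Y L ξ)
    (hY : 2 * L ^ 48 ≤ Y.card) (hbig : 2 * L ^ 48 * Y.card < (D.card : ℝ) ^ 2) :
    ∃ (k : Subfield F) (R : Finset F), (∀ x, x ∈ k ↔ x ∈ R) ∧
      (R.card : ℝ) ≤ 2 * L ^ 48 * Y.card ∧ ∀ d ∈ D, d ∈ k := by
  have L0 : 0 < L := by linarith
  have hne : Y.Nonempty := by
    rw [← Finset.card_pos, ← Nat.cast_pos (α := ℝ)]
    exact lt_of_lt_of_le (by positivity) hY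
  have pw : ∀ i : ℕ, 1 ≤ L ^ i := fun i => one_le_pow₀ hL
  have up : ∀ (i j : ℕ) (ξ : F), Alg Y (L ^ i) ξ → i ≤ j → Alg Y (L ^ j) ξ :=
    fun i j ξ h hij => h.mono (pow_le_pow_right₀ hL hij)
  have mu : ∀ (i j : ℕ) (ξ η : F), Alg Y (L ^ i) ξ → Alg Y (L ^ j) η → Alg Y (L ^ (i + j)) (ξ * η) :=
    fun i j ξ η h h' => by rw [pow_add]; exact h.mul hne (pw i) (pw j) h'
  have ad : ∀ (i j : ℕ) (ξ η : F), Alg Y (L ^ i) ξ → Alg Y (L ^ j) η →
      Alg Y (L ^ (i + j + 5)) (ξ + η) :=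
    fun i j ξ η h h' => by rw [pow_add, pow_add]; exact Alg.add hne h1 h h'
  set D1 := insert 0 (insert 1 D) with hD1
  have hD' : ∀ ξ ∈ D1, Alg Y (L ^ 1) ξ := by
    intro ξ hξ
    rw [pow_one]
    rcases mem_insert.1 hξ with rfl | hξ
    · exact alg_zero hne hL
    rcases mem_insert.1 hξ with rfl | hξ
    · exact h1
    · exact hD ξ hξ
  have z0 : (0 : F) ∈ D1 := mem_insert_self _ _
  have z1 : (1 : F) ∈ D1 := mem_insert_of_mem (mem_insert_self _ _)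
  set R := ((D1 ×ˢ D1) ×ˢ D1 ×ˢ D1).image fun p => (p.1.1 - p.1.2) / (p.2.1 - p.2.2) with hR
  have mR : ∀ x, x ∈ R ↔ ∃ a ∈ D1, ∃ b ∈ D1, ∃ c ∈ D1, ∃ e ∈ D1, (a - b) / (c - e) = x := by
    intro x
    simp only [hR, mem_image, mem_product, Prod.exists]
    constructor
    · rintro ⟨a, b, c, e, ⟨⟨h1, h2⟩, h3, h4⟩, h⟩; exact ⟨a, h1, b, h2, c, h3, e, h4, h⟩
    · rintro ⟨a, h1, b, h2, c, h3, e, h4, h⟩; exact ⟨a, b, c, e, ⟨⟨h1, h2⟩, h3, h4⟩, h⟩
  have sb : ∀ a ∈ D1, ∀ b ∈ D1, Alg Y (L ^ 9) (a - b) := fun a ha b hb => by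
    have := ad _ _ _ _ (hD' a ha) (mu _ _ _ _ (alg_neg hne h1) (hD' b hb))
    rw [neg_one_mul, ← sub_eq_add_neg] at this
    exact up _ _ _ this (by norm_num)
  have aR : ∀ x ∈ R, Alg Y (L ^ 18) x := by
    intro x hx
    obtain ⟨a, h1, b, h2, c, h3, e, h4, rfl⟩ := (mR x).1 hx
    rw [div_eq_mul_inv]
    exact up _ _ _ (mu _ _ _ _ (sb a h1 b h2) (sb c h3 e h4).inv) (by norm_num)
  have cl : ∀ ξ, Alg Y (L ^ 41) ξ → ξ ∈ R := by
    intro ξ hξ
    by_contra hn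
    have hi : Set.InjOn (fun p : F × F => p.1 + ξ * p.2) (D1 ×ˢ D1 : Finset _) := by
      rintro ⟨a, e⟩ hp ⟨b, c⟩ hp' h
      simp only [coe_product, Set.mem_prod, mem_coe] at hp hp' h
      by_cases hc : c = e
      · subst hc; rw [add_right_cancel h]
      · refine absurd ((mR ξ).2 ⟨a, hp.1, b, hp'.1, c, hp'.2, e, hp.2, ?_⟩) hn
        rw [div_eq_iff (sub_ne_zero.2 hc)]
        linear_combination h
    have := alg_card (Y := Y) ((D1 ×ˢ D1).image fun p => p.1 + ξ * p.2) (pow_pos L0 48) (by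
      intro x hx
      obtain ⟨p, hp, rfl⟩ := mem_image.1 hx
      exact up _ _ _ (ad _ _ _ _ (hD' _ (mem_product.1 hp).1)
        (mu _ _ _ _ hξ (hD' _ (mem_product.1 hp).2))) (by norm_num)) hY
    rw [Finset.card_image_of_injOn hi, Finset.card_product, Nat.cast_mul] at this
    have c1 : (D.card : ℝ) ≤ D1.card := Nat.cast_le.2 (Finset.card_le_card
      ((subset_insert _ _).trans (subset_insert _ _)))
    nlinarith [Nat.cast_nonneg (α := ℝ) D.card]
  have f1 : ∀ a ∈ R, ∀ b ∈ R, a * b ∈ R := fun a ha b hb =>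
    cl _ (up _ _ _ (mu _ _ _ _ (aR _ ha) (aR _ hb)) (by norm_num))
  have f2 : (1 : F) ∈ R := cl _ (up _ _ _ (hD' 1 z1) (by norm_num))
  have f3 : ∀ a ∈ R, ∀ b ∈ R, a + b ∈ R := fun a ha b hb =>
    cl _ (up _ _ _ (ad _ _ _ _ (aR _ ha) (aR _ hb)) (by norm_num))
  have f4 : (0 : F) ∈ R := cl _ (up _ _ _ (hD' 0 z0) (by norm_num))
  have f5 : ∀ a ∈ R, -a ∈ R := fun a ha => by
    have := mu _ _ _ _ (alg_neg hne h1) (aR _ ha)
    rw [neg_one_mul] at this
    exact cl _ (up _ _ _ this (by norm_num))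
  have f6 : ∀ a ∈ R, a⁻¹ ∈ R := fun a ha => cl _ (up _ _ _ (aR _ ha).inv (by norm_num))
  clear_value R
  refine ⟨{ carrier := R
            mul_mem' := fun ha hb => f1 _ ha _ hb
            one_mem' := f2
            add_mem' := fun ha hb => f3 _ ha _ hb
            zero_mem' := f4
            neg_mem' := fun ha => f5 _ ha
            inv_mem' := f6 },
    R, fun _ => Iff.rfl, alg_card R (pow_pos L0 48)
      (fun x hx => up _ _ _ (aR x hx) (by norm_num)) hY, fun d hd => ?_⟩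
  exact cl _ (up _ _ _ (hD' d (mem_insert_of_mem (mem_insert_of_mem hd))) (by norm_num))

end Pool.Agent.P.MP_1d6da1_co.Sph
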