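import Pool.Agent.P.MP_1d6da1_co.Sph.AF2

namespace Pool.Agent.P.MP_1d6da1_co.Sph

open Finset
open scoped Pointwise

theorem ex_inter {α ι : Type} [DecidableEq α] (D : Finset ι) (Ω : Finset α) (E : ι → Finset α)
    {N κ : ℝ} (hN : 0 < N) (hκ : 0 < κ) (hΩ : (Ω.card : ℝ) ≤ N) (hE : ∀ d ∈ D, E d ⊆ Ω)
    (h : ∀ d ∈ D, N / κ ≤ (E d).card) (hD : (0 : ℝ) < D.card) :
    ∃ d0 ∈ D, D.card / (2 * κ ^ 2)
      ≤ ((D.filter fun d => N / (2 * κ ^ 2) ≤ (E d ∩ E d0).card).card : ℝ) := by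
  classical
  have e0 : ∀ s ⊆ Ω, ∑ z ∈ Ω, ind (z ∈ s) = s.card := fun s hs => by
    rw [sum_ind, Finset.filter_mem_eq_inter, Finset.inter_eq_right.2 hs]
  have c := cs_le Ω (fun z => ∑ d ∈ D, ind (z ∈ E d)) hΩ (c := D.card * (N / κ)) (by positivity)
    (by rw [Finset.sum_comm]; exact mul_le_sum _ _ fun d hd => (e0 _ (hE d hd)).symm ▸ h d hd)
  have e : ∑ z ∈ Ω, (∑ d ∈ D, ind (z ∈ E d)) ^ 2 = ∑ d0 ∈ D, ∑ d ∈ D, ((E d ∩ E d0).card : ℝ) := by
    simp only [sq, Finset.sum_mul_sum]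
    rw [Finset.sum_comm]
    refine Finset.sum_congr rfl fun d0 h0 => ?_
    rw [Finset.sum_comm]
    refine Finset.sum_congr rfl fun d _ => ?_
    rw [← e0 _ (inter_subset_right.trans (hE d0 h0))]
    simp only [← ind_and, mem_inter, and_comm]
  rw [e] at c
  obtain ⟨d0, h0, h1⟩ := ex_ge D (fun d0 => ∑ d ∈ D, ((E d ∩ E d0).card : ℝ)) le_rfl
    (c := D.card * (N / κ ^ 2)) (by positivity) hD
    (le_of_mul_le_mul_left (le_trans (le_of_eq (by field_simp)) c) hN)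
  refine ⟨d0, h0, ?_⟩
  have a2 := popular D (fun d => ((E d ∩ E d0).card : ℝ)) le_rfl (c := N / (2 * κ ^ 2))
    (by positivity)
  have a3 := sum_le_mul (D.filter fun d => N / (2 * κ ^ 2) ≤ (E d ∩ E d0).card)
    (fun d => ((E d ∩ E d0).card : ℝ)) le_rfl hN.le fun d _ => le_trans (Nat.cast_le.2
      (Finset.card_le_card (inter_subset_right.trans (hE d0 h0)))) hΩ
  refine le_of_mul_le_mul_right ?_ hN
  have a4 : D.card / (2 * κ ^ 2) * N = D.card * (N / κ ^ 2) - D.card * (N / (2 * κ ^ 2)) := by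
    field_simp; ring
  linarith

variable {F : Type} [Field F] [DecidableEq F]

open Classical in
theorem sumprod0 (X Y D : Finset F) (X' Y' : F → Finset F) {n κ Z : ℝ} (hκ : 2 ≤ κ)
    (hX : (X.card : ℝ) ≤ n) (hY : (Y.card : ℝ) ≤ n) (hD0 : ∀ d ∈ D, d ≠ 0)
    (h : ∀ d ∈ D, X' d ⊆ X ∧ Y' d ⊆ Y ∧ n / κ ≤ (X' d).card ∧ n / κ ≤ (Y' d).card ∧
      ((X' d + d • Y' d).card : ℝ) ≤ κ * n) (hD : n / κ ≤ D.card) (hZ : (κ ^ 16) ^ 49 ≤ Z)
    (hn : Z ^ 3 ≤ n) :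
    ∃ (k : Subfield F) (R : Finset F) (d0 : F), d0 ≠ 0 ∧ (∀ x, x ∈ k ↔ x ∈ R) ∧
      (R.card : ℝ) ≤ Z * n ∧ n / Z ≤ (D.filter fun d => d / d0 ∈ k).card := by
  have κ0 : 0 < κ := by linarith
  have κ1 : 1 ≤ κ := by linarith
  have L2 : κ ≤ κ ^ 16 := le_self_pow₀ κ1 (by norm_num)
  have L3 : κ ^ 12 ≤ κ ^ 16 := pow_le_pow_right₀ κ1 (by norm_num)
  have L4 : κ ^ 6 ≤ κ ^ 16 := pow_le_pow_right₀ κ1 (by norm_num)
  have L5 : κ ^ 4 ≤ κ ^ 16 := pow_le_pow_right₀ κ1 (by norm_num)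
  have Z1 : κ ^ 16 ≤ Z := le_trans (le_self_pow₀ (by linarith) (by norm_num)) hZ
  have Z2 : 2 * (κ ^ 16) ^ 48 ≤ Z := by
    refine le_trans ?_ hZ
    rw [pow_succ' _ 48]
    exact mul_le_mul_of_nonneg_right (by linarith) (pow_nonneg (by linarith) _)
  have Z0 : 2 ≤ Z := by linarith
  have n0 : 0 < n := lt_of_lt_of_le (by positivity) hn
  obtain ⟨d0, h0, h1⟩ := ex_inter D (X ×ˢ Y) (fun d => X' d ×ˢ Y' d) (N := n ^ 2) (κ := κ ^ 2)
    (by positivity) (by positivity) (by rw [Finset.card_product, sq]; push_cast; gcongr)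
    (fun d hd => Finset.product_subset_product (h d hd).1 (h d hd).2.1) (fun d hd => by
      rw [Finset.card_product, ← div_pow, sq]; push_cast
      exact mul_le_mul (h d hd).2.2.1 (h d hd).2.2.2.1 (by positivity) (Nat.cast_nonneg _))
    (lt_of_lt_of_le (by positivity) hD)
  obtain ⟨x1, x2, x3, x4, x5⟩ := h d0 h0
  have k5 : ∀ a b : ℝ, 0 ≤ a → b ≤ n → n ^ 2 / (2 * (κ ^ 2) ^ 2) ≤ a * b → n / κ ^ 5 ≤ a := by
    intro a b ha hb h
    refine le_of_mul_le_mul_right (le_trans ?_ (h.trans (mul_le_mul_of_nonneg_left hb ha))) n0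
    calc n / κ ^ 5 * n = n ^ 2 / (κ * (κ ^ 2) ^ 2) := by field_simp
      _ ≤ _ := by gcongr
  have dv : ∀ (a b c : ℝ) (i j : ℕ), 0 ≤ a → a * b ≤ κ ^ j * n * n → n / κ ^ i ≤ b →
      a ≤ κ ^ (i + j) * n := by
    intro a b c i j ha h hb
    refine le_of_mul_le_mul_right ((mul_le_mul_of_nonneg_left hb ha).trans (h.trans
      (le_of_eq ?_))) (show 0 < n / κ ^ i by positivity)
    field_simp; ring
  have y0 : ((Y' d0 - Y' d0).card : ℝ) ≤ κ ^ (1 + 2) * n := by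
    have := ruz' (d0 • Y' d0) (X' d0) (d0 • Y' d0)
    rw [← smul_sub_fin, card_smul_finset₀ (hD0 d0 h0), add_comm (d0 • Y' d0)] at this
    refine dv _ _ 0 1 2 (Nat.cast_nonneg _) (this.trans ?_) (by rwa [pow_one])
    calc _ ≤ (κ * n) * (κ * n) := by gcongr
      _ = _ := by ring
  have yn : n ≤ κ * (Y' d0).card := by rwa [div_le_iff₀' κ0] at x4
  set D' := D.filter fun d => n ^ 2 / (2 * (κ ^ 2) ^ 2)
    ≤ ((X' d ×ˢ Y' d ∩ X' d0 ×ˢ Y' d0).card : ℝ) with hD'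
  have al : ∀ d ∈ D', Alg (Y' d0) (κ ^ 16) (d / d0) := by
    intro d hd
    obtain ⟨hd, b⟩ := mem_filter.1 hd
    obtain ⟨z1, z2, -, -, z5⟩ := h d hd
    rw [Finset.product_inter_product, Finset.card_product, Nat.cast_mul] at b
    have u1 := k5 _ _ (Nat.cast_nonneg _) (le_trans (Nat.cast_le.2 (Finset.card_le_card
      (inter_subset_left.trans z2))) hY) b
    have u2 := k5 _ _ (Nat.cast_nonneg _) (le_trans (Nat.cast_le.2 (Finset.card_le_card
      (inter_subset_left.trans z1))) hX) (mul_comm ((X' d ∩ X' d0).card : ℝ) _ ▸ b)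
    have v1 : ((d0 • Y' d0 - d • (Y' d ∩ Y' d0)).card : ℝ) ≤ κ ^ (5 + 2) * n := by
      refine dv _ _ 0 5 2 (Nat.cast_nonneg _) ((ruz' _ (X' d ∩ X' d0) _).trans ?_) u1
      have w1 : ((d0 • Y' d0 + X' d ∩ X' d0).card : ℝ) ≤ κ * n := le_trans (Nat.cast_le.2
        (Finset.card_le_card (by
          rw [add_comm]; exact Finset.add_subset_add_right inter_subset_right))) x5
      have w2 : ((d • (Y' d ∩ Y' d0) + X' d ∩ X' d0).card : ℝ) ≤ κ * n := le_trans (Nat.cast_le.2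
        (Finset.card_le_card (by
          rw [add_comm]
          exact Finset.add_subset_add inter_subset_left
            (Finset.smul_finset_subset_smul_finset inter_subset_left)))) z5
      calc _ ≤ (κ * n) * (κ * n) := by gcongr
        _ = _ := by ring
    have v2 : ((d • Y' d0 - d • (Y' d ∩ Y' d0)).card : ℝ) ≤ κ ^ (1 + 2) * n := by
      rw [← smul_sub_fin, card_smul_finset₀ (hD0 d hd)]
      exact le_trans (Nat.cast_le.2 (Finset.card_le_card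
        (Finset.sub_subset_sub_left inter_subset_right))) y0
    have v3 : ((d0 • Y' d0 - d • Y' d0).card : ℝ) ≤ κ ^ (5 + 10) * n := by
      refine dv _ _ 0 5 10 (Nat.cast_nonneg _) ((ruz _ (d • (Y' d ∩ Y' d0)) _).trans ?_)
        (by rwa [card_smul_finset₀ (hD0 d hd)])
      calc _ ≤ (κ ^ (5 + 2) * n) * (κ ^ (1 + 2) * n) := by gcongr
        _ = _ := by ring
    unfold Alg
    rw [← card_smul_finset₀ (hD0 d0 h0), smul_sub_fin, smul_smul, mul_div_cancel₀ _ (hD0 d0 h0)]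
    calc _ ≤ κ ^ (5 + 10) * (κ * (Y' d0).card) := v3.trans (by gcongr)
      _ = _ := by ring
  have c1 : n / κ ^ 6 ≤ D'.card := by
    refine le_trans ?_ h1
    calc n / κ ^ 6 = n / κ / (κ * (κ ^ 2) ^ 2) := by field_simp
      _ ≤ _ := by gcongr
  have ii : Function.Injective fun d : F => d / d0 := fun _ _ e =>
    (div_left_inj' (hD0 d0 h0)).1 e
  have yn' : ((Y' d0).card : ℝ) ≤ n := le_trans (Nat.cast_le.2 (Finset.card_le_card x2)) hY
  have Zn : Z * Z < n := lt_of_lt_of_le (by nlinarith) hn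
  obtain ⟨k, R, r1, r2, r3⟩ := ex_subfield (Y := Y' d0) (L := κ ^ 16) (D'.image fun d => d / d0)
    (by linarith) (by
      unfold Alg
      rw [one_smul]
      calc _ ≤ κ ^ (1 + 2) * (κ * (Y' d0).card) := y0.trans (by gcongr)
        _ = κ ^ 4 * (Y' d0).card := by ring
        _ ≤ _ := by gcongr) (fun ξ hξ => by
      obtain ⟨d, hd, rfl⟩ := mem_image.1 hξ
      exact al d hd) (Z2.trans (le_of_mul_le_mul_left (le_trans (by nlinarith) yn) κ0)) (by
      rw [Finset.card_image_of_injective _ ii]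
      calc _ ≤ Z * n := mul_le_mul Z2 yn' (Nat.cast_nonneg _) (by linarith)
        _ < (n / κ ^ 6) ^ 2 := by
          rw [div_pow, ← pow_mul, lt_div_iff₀ (by positivity)]
          calc Z * n * κ ^ (6 * 2) ≤ Z * n * Z := by gcongr; exact L3.trans Z1
            _ = Z * Z * n := by ring
            _ < n * n := by gcongr
            _ = _ := by ring
        _ ≤ _ := by gcongr)
  refine ⟨k, R, d0, hD0 d0 h0, r1, r2.trans (mul_le_mul Z2 yn' (Nat.cast_nonneg _) (by linarith)),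
    le_trans (show n / Z ≤ n / κ ^ 6 by gcongr; linarith) (c1.trans (Nat.cast_le.2
      (Finset.card_le_card fun d hd => ?_)))⟩
  exact mem_filter.2 ⟨(mem_filter.1 hd).1, r3 _ (mem_image_of_mem _ hd)⟩

open Classical in
theorem coset (X Y D : Finset F) (S : F → Finset F) (r : F → F → F → Prop) (k : Subfield F)
    {d0 : F} (h0 : d0 ≠ 0) {n K : ℝ} (hK : 2 ≤ K) (hn : 8 * K ^ 2 ≤ n) (hX : (X.card : ℝ) ≤ n)
    (hY : (Y.card : ℝ) ≤ n) (hD : (D.card : ℝ) ≤ n) (hS : ∀ d ∈ D, ((S d).card : ℝ) ≤ n)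
    (hD0 : ∀ d ∈ D, d ≠ 0) (hk : ∀ d ∈ D, d / d0 ∈ k) (hr : ∀ d x y, r d x y → x + d * y ∈ S d)
    (h : n ^ 3 / K ≤ ∑ p ∈ X ×ˢ Y, ∑ d ∈ D, ind (r d p.1 p.2)) :
    ∃ β γ u : F, u ≠ 0 ∧
      n ^ 2 / K ^ 12 ≤ ∑ d ∈ D, ∑ z ∈ S d, ind ((z - β - d * γ) / u ∈ k) := by
  have K0 : 0 < K := by linarith
  have n0 : 0 < n := lt_of_lt_of_le (by positivity) hn
  have cP : ((X ×ˢ Y).card : ℝ) ≤ n ^ 2 := by
    rw [Finset.card_product, sq]; push_cast; gcongr
  set P := (X ×ˢ Y).filter fun p => n / (2 * K) ≤ ∑ d ∈ D, ind (r d p.1 p.2) with hP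
  have cP' : (P.card : ℝ) ≤ n ^ 2 := le_trans (by exact_mod_cast Finset.card_filter_le _ _) cP
  have e1 : n ^ 3 / (2 * K) ≤ ∑ p ∈ P, ∑ d ∈ D, ind (r d p.1 p.2) := by
    have := popular (X ×ˢ Y) (fun p => ∑ d ∈ D, ind (r d p.1 p.2)) cP (c := n / (2 * K))
      (by positivity)
    have e : n ^ 3 / (2 * K) = n ^ 3 / K - n ^ 2 * (n / (2 * K)) := by field_simp; ring
    linarith
  have s1 : ∀ d (p : F × F) (g : F → ℝ), (∀ z, 0 ≤ g z) →
      ∑ z ∈ S d, ind (r d p.1 p.2 ∧ p.1 + d * p.2 = z) * g z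
        = ind (r d p.1 p.2) * g (p.1 + d * p.2) := by
    intro d p g _
    by_cases h : r d p.1 p.2
    · rw [Finset.sum_eq_single_of_mem _ (hr _ _ _ h) fun z _ h' => by
        rw [ind_neg fun e => h' e.2.symm, zero_mul], ind_pos ⟨h, rfl⟩, ind_pos h]
    · simp [h, ind]
  have e2 := cs_le (D.sigma S) (fun q => ∑ p ∈ P, ind (r q.1 p.1 p.2 ∧ p.1 + q.1 * p.2 = q.2))
    (n := n * n) (by rw [Finset.card_sigma]; push_cast; exact sum_le_mul _ _ hD n0.le hS)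
    (c := n ^ 3 / (2 * K)) (by positivity) (by
      rw [Finset.sum_comm]
      refine e1.trans (le_of_eq (Finset.sum_congr rfl fun p _ => ?_))
      rw [Finset.sum_sigma]
      exact Finset.sum_congr rfl fun d _ => by simpa using (s1 d p (fun _ => 1) fun _ => zero_le_one).symm)
  have e3 : ∑ q ∈ D.sigma S, (∑ p ∈ P, ind (r q.1 p.1 p.2 ∧ p.1 + q.1 * p.2 = q.2)) ^ 2
      ≤ ∑ p0 ∈ P, (n + ∑ p ∈ P, ind (p ≠ p0 ∧ ∃ d ∈ D, p.1 + d * p.2 = p0.1 + d * p0.2)) := by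
    simp only [sq, Finset.sum_mul]
    rw [Finset.sum_comm]
    refine Finset.sum_le_sum fun p0 hp0 => ?_
    rw [Finset.sum_sigma]
    calc _ ≤ ∑ d ∈ D, ∑ p ∈ P, ind (p.1 + d * p.2 = p0.1 + d * p0.2) := by
          refine Finset.sum_le_sum fun d _ => ?_
          rw [s1 d p0 (fun z => ∑ p ∈ P, ind (r d p.1 p.2 ∧ p.1 + d * p.2 = z))
            fun _ => sum_ind_nonneg _ _]
          exact (mul_le_of_le_one_left (sum_ind_nonneg _ _) (ind1 _)).trans
            (Finset.sum_le_sum fun p _ => ind_mono fun h => h.2)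
      _ ≤ _ := by
          rw [Finset.sum_comm, ← Finset.add_sum_erase _ _ hp0]
          refine add_le_add ((sum_ind_le _ _).trans hD) (le_trans (Finset.sum_le_sum fun p hp => ?_)
            (Finset.sum_le_sum_of_subset_of_nonneg (erase_subset p0 P) fun _ _ _ => ind0 _))
          by_cases hx : ∃ d ∈ D, p.1 + d * p.2 = p0.1 + d * p0.2
          · rw [ind_pos ⟨(mem_erase.1 hp).1, hx⟩, sum_ind, Nat.cast_le_one]
            refine Finset.card_le_one.2 fun s hs s' hs' => ?_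
            have b1 := (mem_filter.1 hs).2
            have b2 := (mem_filter.1 hs').2
            by_contra hn
            have b3 : p.2 = p0.2 :=
              mul_left_cancel₀ (sub_ne_zero.2 hn) (by linear_combination b1 - b2)
            exact (mem_erase.1 hp).1 (Prod.ext (by rw [b3] at b1; linear_combination b1) b3)
          · rw [Finset.sum_eq_zero fun d hd => ind_neg fun e => hx ⟨d, hd, e⟩]; exact ind0 _
  obtain ⟨p0, -, e4⟩ := ex_ge P
    (fun p0 => n + ∑ p ∈ P, ind (p ≠ p0 ∧ ∃ d ∈ D, p.1 + d * p.2 = p0.1 + d * p0.2)) cP'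
    (c := n ^ 2 / (4 * K ^ 2)) (by positivity) (by positivity) (le_of_mul_le_mul_left
      (le_trans (le_of_eq (by field_simp; ring)) (e2.trans (mul_le_mul_of_nonneg_left e3
        (by positivity)))) (show 0 < n * n by positivity))
  set G : F × F → Prop := fun p => p ∈ P ∧ p ≠ p0 ∧ ∃ d ∈ D, p.1 + d * p.2 = p0.1 + d * p0.2
    with hG
  have e5 : n ^ 2 / (8 * K ^ 2) ≤ ∑ y ∈ Y, ∑ x ∈ X, ind (G (x, y)) := by
    have a1 : n ≤ n ^ 2 / (8 * K ^ 2) := by rw [le_div_iff₀ (by positivity)]; nlinarith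
    have a2 : n ^ 2 / (4 * K ^ 2) = 2 * (n ^ 2 / (8 * K ^ 2)) := by field_simp; ring
    have a3 : ∑ p ∈ P, ind (p ≠ p0 ∧ ∃ d ∈ D, p.1 + d * p.2 = p0.1 + d * p0.2)
        ≤ ∑ p ∈ X ×ˢ Y, ind (G p) :=
      (Finset.sum_le_sum fun p hp => ind_mono fun h => ⟨hp, h⟩).trans
        (Finset.sum_le_sum_of_subset_of_nonneg (filter_subset _ _) fun _ _ _ => ind0 _)
    rw [Finset.sum_product_right] at a3
    linarith
  have e6 := cs_le Y _ hY (by positivity) e5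
  simp only [sq (∑ x ∈ X, _), Finset.sum_mul_sum, ← ind_and] at e6
  rw [Finset.sum_comm] at e6
  obtain ⟨x1, -, e7⟩ := ex_ge X (fun x1 => ∑ y ∈ Y, ∑ x ∈ X, ind (G (x1, y) ∧ G (x, y))) hX
    (c := n ^ 2 / (64 * K ^ 4)) (by positivity) n0
    (le_of_mul_le_mul_left (le_trans (le_of_eq (by field_simp; ring)) e6) n0)
  have g1 : ∀ x y, G (x, y) → x - p0.1 ≠ 0 ∧ y - p0.2 ≠ 0 ∧ d0 * (y - p0.2) / (x - p0.1) ∈ k := by
    rintro x y ⟨-, a1, d, hd, a2⟩
    simp only at a2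
    have a3 : y - p0.2 ≠ 0 := fun h => a1 (Prod.ext (by
      rw [sub_eq_zero.1 h] at a2; exact add_right_cancel a2) (sub_eq_zero.1 h))
    have a4 : x - p0.1 = -(d * (y - p0.2)) := by linear_combination a2
    have := hD0 d hd
    refine ⟨by rw [a4]; exact neg_ne_zero.2 (mul_ne_zero this a3), a3, ?_⟩
    have e : d0 * (y - p0.2) / (x - p0.1) = -(d / d0)⁻¹ := by rw [a4]; field_simp
    rw [e]; exact neg_mem (inv_mem (hk d hd))
  have hu : x1 - p0.1 ≠ 0 := by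
    intro h
    rw [Finset.sum_eq_zero fun y _ => Finset.sum_eq_zero fun x _ =>
      ind_neg fun e => (g1 _ _ e.1).1 h] at e7
    exact absurd e7 (not_le.2 (by positivity))
  refine ⟨p0.1, p0.2, x1 - p0.1, hu, ?_⟩
  have e8 : n ^ 2 / (64 * K ^ 4) * (n / (2 * K)) ≤ ∑ y ∈ Y, ∑ d ∈ D, ∑ z ∈ S d,
      ind ((z - p0.1 - d * p0.2) / (x1 - p0.1) ∈ k) := by
    refine (mul_le_mul_of_nonneg_right e7 (by positivity)).trans ?_
    rw [Finset.sum_mul]
    refine Finset.sum_le_sum fun y _ => ?_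
    calc _ ≤ ∑ x ∈ X, ∑ d ∈ D, ind (r d x y ∧ G (x1, y) ∧ G (x, y)) := by
          rw [Finset.sum_mul]
          refine Finset.sum_le_sum fun x _ => ?_
          by_cases h : G (x1, y) ∧ G (x, y)
          · rw [ind_pos h, one_mul]
            simp only [h, and_true]
            exact (mem_filter.1 h.2.1).2
          · rw [ind_neg h, zero_mul]; exact sum_ind_nonneg _ _
      _ ≤ _ := by
          rw [Finset.sum_comm]
          refine Finset.sum_le_sum fun d hd => ?_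
          rw [sum_ind, sum_ind]
          refine Nat.cast_le.2 (Finset.card_le_card_of_injOn (fun x => x + d * y) ?_
            fun _ _ _ _ e => add_right_cancel e)
          intro x hx
          obtain ⟨-, a1, a2, a3⟩ := mem_filter.1 (mem_coe.1 hx)
          obtain ⟨-, b2, b3⟩ := g1 _ _ a2
          obtain ⟨c1, -, c3⟩ := g1 _ _ a3
          refine mem_coe.2 (mem_filter.2 ⟨hr _ _ _ a1, ?_⟩)
          have e : (x + d * y - p0.1 - d * p0.2) / (x1 - p0.1)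
              = ((d0 * (y - p0.2) / (x - p0.1))⁻¹ + d / d0) * (d0 * (y - p0.2) / (x1 - p0.1)) := by
            field_simp; ring
          rw [e]
          exact mul_mem (add_mem (inv_mem c3) (hk d hd)) b3
  have e9 := e8.trans (sum_le_mul Y _ hY (Finset.sum_nonneg fun _ _ => sum_ind_nonneg _ _)
    fun _ _ => le_rfl)
  refine le_of_mul_le_mul_left (le_trans ?_ e9) n0
  have : (128 : ℝ) ≤ K ^ 7 := le_trans (by norm_num) (pow_le_pow_left₀ (by norm_num) hK 7)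
  calc n * (n ^ 2 / K ^ 12) = n ^ 3 / (K ^ 7 * K ^ 5) := by field_simp
    _ ≤ n ^ 3 / (128 * K ^ 5) := by gcongr
    _ = _ := by field_simp; ring

open Classical in
/-- Many points of a rich configuration of columns lie in a plane over a finite subfield. -/
theorem subplane : ∃ c : ℕ, ∀ (F : Type) [Field F] (X Y D : Finset F) (S : F → Finset F)
    (r : F → F → F → Prop) (n K : ℝ), 2 ≤ K → K ^ c ≤ n → (X.card : ℝ) ≤ n → (Y.card : ℝ) ≤ n →
    (D.card : ℝ) ≤ n → (∀ d ∈ D, ((S d).card : ℝ) ≤ n) → (∀ d ∈ D, d ≠ 0) →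
    (∀ d x y, r d x y → x + d * y ∈ S d) → n / K ≤ D.card →
    (∀ d ∈ D, n ^ 2 / K ≤ ∑ x ∈ X, ∑ y ∈ Y, ind (r d x y)) →
    ∃ (k : Subfield F) (R : Finset F) (d0 β γ u : F), d0 ≠ 0 ∧ u ≠ 0 ∧ (∀ x, x ∈ k ↔ x ∈ R) ∧
      (R.card : ℝ) ≤ K ^ c * n ∧ n ^ 2 / K ^ c
        ≤ ∑ d ∈ D, ∑ z ∈ S d, ind (d / d0 ∈ k ∧ (z - β - d * γ) / u ∈ k) := by
  refine ⟨17 * 16 * 49 * 24, fun F _ X Y D S r n K hK hn hX hY hD hS hD0 hr h1 h2 => ?_⟩
  have K1 : 1 ≤ K := by linarith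
  have n0 : 0 < n := lt_of_lt_of_le (pow_pos (by linarith) _) hn
  have a1 : K ^ 4 ≤ K ^ 17 := pow_le_pow_right₀ K1 (by norm_num)
  have a2 : 6 * K ≤ K ^ 4 := by
    have : (8 : ℝ) ≤ K ^ 3 := le_trans (by norm_num) (pow_le_pow_left₀ (by norm_num) hK 3)
    nlinarith
  have a3 : 3072 * K ^ 5 ≤ K ^ 17 := by
    have : (4096 : ℝ) ≤ K ^ 12 := le_trans (by norm_num) (pow_le_pow_left₀ (by norm_num) hK 12)
    calc _ ≤ K ^ 12 * K ^ 5 := by gcongr; linarith
      _ = _ := by ring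
  have : ∀ d, ∃ X' Y' : Finset F, d ∈ D → X' ⊆ X ∧ Y' ⊆ Y ∧ n / K ^ 17 ≤ X'.card ∧
      n / K ^ 17 ≤ Y'.card ∧ ((X' + d • Y').card : ℝ) ≤ K ^ 17 * n := by
    intro d
    by_cases hd : d ∈ D
    · obtain ⟨X', b1, Y', b2, b3, b4, b5⟩ := bsg2 X Y (S d) (hD0 d hd) (r d) (hr d) K1 n0 hX hY
        (hS d hd) (h2 d hd)
      have : n / K ^ 17 ≤ n / (6 * K) := by gcongr; linarith
      exact ⟨X', Y', fun _ => ⟨b1, b2, this.trans b3, this.trans b4, b5.trans (by gcongr)⟩⟩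
    · exact ⟨∅, ∅, fun h => absurd h hd⟩
  choose X' Y' h3 using this
  rw [pow_mul, pow_mul, pow_mul] at hn ⊢
  have a4 : K ≤ K ^ 17 := by linarith
  generalize K ^ 17 = κ at *
  have a5 : κ ≤ (κ ^ 16) ^ 49 := (le_self_pow₀ (by linarith) (by norm_num)).trans
    (le_self_pow₀ (one_le_pow₀ (by linarith)) (by norm_num))
  obtain ⟨Z, hZ⟩ : ∃ Z, Z = (κ ^ 16) ^ 49 := ⟨_, rfl⟩
  rw [← hZ] at hn a5 ⊢
  have Z2 : 2 ≤ Z := by linarith
  have pz : ∀ i, i ≤ 24 → Z ^ i ≤ Z ^ 24 := fun i hi => pow_le_pow_right₀ (by linarith) hi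
  obtain ⟨k, R, d0, b1, b2, b3, b4⟩ := sumprod0 X Y D X' Y' (by linarith) hX hY hD0 h3
    (le_trans (by gcongr) h1) hZ.ge ((pz 3 (by norm_num)).trans hn)
  obtain ⟨β, γ, u, c1, c2⟩ := coset X Y (D.filter fun d => d / d0 ∈ k) S r k b1 (n := n)
    (K := Z ^ 2) (by nlinarith) (by
      have : (8 : ℝ) ≤ Z ^ 3 := le_trans (by norm_num) (pow_le_pow_left₀ (by norm_num) Z2 3)
      calc 8 * (Z ^ 2) ^ 2 ≤ Z ^ 3 * (Z ^ 2) ^ 2 := by gcongr
        _ = Z ^ 7 := by ring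
        _ ≤ _ := (pz 7 (by norm_num)).trans hn) hX hY
    (le_trans (by exact_mod_cast Finset.card_filter_le _ _) hD)
    (fun d hd => hS d (mem_filter.1 hd).1) (fun d hd => hD0 d (mem_filter.1 hd).1)
    (fun d hd => (mem_filter.1 hd).2) hr (by
      rw [Finset.sum_comm]
      refine le_trans ?_ (mul_le_sum _ _ fun d hd => (h2 d (mem_filter.1 hd).1).trans
        (Finset.sum_product' ..).ge)
      calc n ^ 3 / Z ^ 2 = n / Z * (n ^ 2 / Z) := by field_simp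
        _ ≤ _ := by gcongr; linarith)
  refine ⟨k, R, d0, β, γ, u, b1, c1, b2, b3.trans ?_, ?_⟩
  · gcongr
    simpa using pz 1 (by norm_num)
  · rw [← pow_mul, Finset.sum_filter] at c2
    refine c2.trans (Finset.sum_le_sum fun d _ => ?_)
    split_ifs with h
    · simp only [h, true_and, le_refl]
    · exact sum_ind_nonneg _ _

end Pool.Agent.P.MP_1d6da1_co.Sph
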