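import Pool.Agent.P.MP_1d6da1_co.Sph.AF1

namespace Pool.Agent.P.MP_1d6da1_co.Sph

open Finset

variable {α β : Type}

/-- Two different lines have at most one common point. -/
def PLS (P : Finset α) (L : Finset β) (I : α → β → Prop) : Prop :=
  ∀ l ∈ L, ∀ l' ∈ L, ∀ p ∈ P, ∀ p' ∈ P, I p l → I p l' → I p' l → I p' l' → l = l' ∨ p = p'

theorem PLS.swap {P : Finset α} {L : Finset β} {I : α → β → Prop} (h : PLS P L I) :
    PLS L P fun l p => I p l :=
  fun p hp p' hp' l hl l' hl' a b c d => (h l hl l' hl' p hp p' hp' a c b d).symm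

theorem sum_ind_le_one {γ : Type*} (s : Finset γ) (p : γ → Prop)
    (h : ∀ a ∈ s, ∀ b ∈ s, p a → p b → a = b) : ∑ a ∈ s, ind (p a) ≤ 1 := by
  classical
  rw [sum_ind, Nat.cast_le_one]
  exact Finset.card_le_one.2 fun a ha b hb =>
    h a (mem_filter.1 ha).1 b (mem_filter.1 hb).1 (mem_filter.1 ha).2 (mem_filter.1 hb).2

open Classical in
theorem heavy_le {P : Finset α} {L : Finset β} {I : α → β → Prop} (h : PLS P L I) {n : ℝ}
    (hn : 0 < n) (hP : (P.card : ℝ) ≤ n ^ 2) :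
    ∑ l ∈ L.filter fun l => ¬ ∑ p ∈ P, ind (I p l) ≤ 2 * n, ∑ p ∈ P, ind (I p l) ≤ 2 * n ^ 2 := by
  set H := L.filter fun l => ¬ ∑ p ∈ P, ind (I p l) ≤ 2 * n
  have a1 := mul_le_sum H (fun l => ∑ p ∈ P, ind (I p l)) fun l hl =>
    (not_le.1 (mem_filter.1 hl).2).le
  have a0 : 0 ≤ ∑ l ∈ H, ∑ p ∈ P, ind (I p l) := Finset.sum_nonneg fun _ _ => sum_ind_nonneg _ _
  have a2 := cs_le P (fun p => ∑ l ∈ H, ind (I p l)) hP a0 (le_of_eq Finset.sum_comm)
  have a3 : ∑ p ∈ P, (∑ l ∈ H, ind (I p l)) ^ 2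
      ≤ ∑ l ∈ H, (∑ p ∈ P, ind (I p l) + H.card * 1) := by
    simp only [sq, Finset.sum_mul_sum, ← ind_and]
    rw [Finset.sum_comm]
    refine Finset.sum_le_sum fun l hl => ?_
    rw [Finset.sum_comm, ← Finset.add_sum_erase _ _ hl]
    refine add_le_add (by simp) (sum_le_mul _ _ (Nat.cast_le.2 (Finset.card_le_card
      (erase_subset _ _))) zero_le_one fun l' hl' => sum_ind_le_one _ _ fun p hp p' hp' a b => ?_)
    exact (h l (mem_filter.1 hl).1 l' (mem_filter.1 (mem_erase.1 hl').2).1 p hp p' hp' a.1 a.2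
      b.1 b.2).resolve_left (mem_erase.1 hl').1.symm
  rw [Finset.sum_add_distrib, Finset.sum_const, nsmul_eq_mul] at a3
  have a4 := a2.trans (mul_le_mul_of_nonneg_left a3 (by positivity))
  have a5 := pow_le_pow_left₀ (by positivity) a1 2
  generalize ∑ l ∈ H, ∑ p ∈ P, ind (I p l) = E at *
  by_contra hc
  nlinarith [mul_pos hn hn]

open Classical in
theorem pencil {P : Finset α} {L : Finset β} {I : α → β → Prop} (h : PLS P L I) {n K : ℝ}
    (hK : 2 ≤ K) (hn : K ^ 42 ≤ n) (hP : (P.card : ℝ) ≤ n ^ 2) (hL : (L.card : ℝ) ≤ n ^ 2)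
    (hI : n ^ 3 / K ≤ ∑ p ∈ P, ∑ l ∈ L, ind (I p l)) :
    ∃ q0 ∈ P, ∃ c0 ∈ L, ∃ c1 ∈ L, c0 ≠ c1 ∧ I q0 c0 ∧ I q0 c1 ∧ ∑ p ∈ P, ind (I p c0) ≤ 2 * n ∧
      ∑ p ∈ P, ind (I p c1) ≤ 2 * n ∧ ∃ L' ⊆ L, ∃ D ⊆ L,
      (∀ l ∈ L', ¬ I q0 l ∧ (∃ p ∈ P, I p l ∧ I p c0) ∧ ∃ p ∈ P, I p l ∧ I p c1) ∧
      (∀ c ∈ D, I q0 c ∧ c ≠ c0 ∧ c ≠ c1 ∧ ∑ p ∈ P, ind (I p c) ≤ 2 * n ∧
        n ^ 2 / K ^ 42 ≤ ∑ l ∈ L', ind (∃ p ∈ P, I p l ∧ I p c)) ∧
      (D.card : ℝ) ≤ 2 * n ∧ n / K ^ 42 ≤ D.card := by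
  have K0 : 0 < K := by linarith
  have K1 : 1 ≤ K := by linarith
  have n0 : 0 < n := lt_of_lt_of_le (pow_pos K0 _) hn
  have kk : ∀ (i j : ℕ), i + j ≤ 42 → 2 ^ i * K ^ j ≤ K ^ 42 := fun i j hij =>
    calc 2 ^ i * K ^ j ≤ K ^ i * K ^ j := by gcongr
      _ ≤ _ := by rw [← pow_add]; exact pow_le_pow_right₀ K1 hij
  have h1 := heavy_le h n0 hP
  have h2 := heavy_le h.swap n0 hL
  set L1 := L.filter fun l => ∑ p ∈ P, ind (I p l) ≤ 2 * n with hL1
  set P1 := P.filter fun p => ∑ l ∈ L, ind (I p l) ≤ 2 * n with hP1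
  have cL1 : (L1.card : ℝ) ≤ n ^ 2 := le_trans (by exact_mod_cast Finset.card_filter_le _ _) hL
  have cP1 : (P1.card : ℝ) ≤ n ^ 2 := le_trans (by exact_mod_cast Finset.card_filter_le _ _) hP
  have e1 : n ^ 3 / (2 * K) ≤ ∑ p ∈ P1, ∑ l ∈ L1, ind (I p l) := by
    have a1 := Finset.sum_filter_add_sum_filter_not P (fun p => ∑ l ∈ L, ind (I p l) ≤ 2 * n)
      fun p => ∑ l ∈ L, ind (I p l)
    have a2 := Finset.sum_filter_add_sum_filter_not L (fun l => ∑ p ∈ P, ind (I p l) ≤ 2 * n)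
      fun l => ∑ p ∈ P1, ind (I p l)
    have a3 : ∑ l ∈ L.filter fun l => ¬ ∑ p ∈ P, ind (I p l) ≤ 2 * n, ∑ p ∈ P1, ind (I p l)
        ≤ 2 * n ^ 2 := le_trans (Finset.sum_le_sum fun l _ =>
      Finset.sum_le_sum_of_subset_of_nonneg (filter_subset _ _) fun _ _ _ => ind0 _) h1
    rw [Finset.sum_comm (s := L)] at a2
    rw [Finset.sum_comm]
    have a4 : 4 * n ^ 2 ≤ n ^ 3 / (2 * K) := by
      rw [le_div_iff₀ (by positivity)]
      have := (kk 3 1 (by norm_num)).trans hn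
      nlinarith [pow_pos n0 2]
    have a5 : n ^ 3 / K = 2 * (n ^ 3 / (2 * K)) := by field_simp
    linarith
  set P2 := P1.filter fun p => n / (4 * K) ≤ ∑ l ∈ L1, ind (I p l) with hP2
  have sP2 : P2 ⊆ P := (filter_subset _ _).trans (filter_subset _ _)
  have cP2 : (P2.card : ℝ) ≤ n ^ 2 := le_trans (Nat.cast_le.2 (Finset.card_le_card sP2)) hP
  have e2 : n ^ 3 / (4 * K) ≤ ∑ l ∈ L1, ∑ p ∈ P2, ind (I p l) := by
    have := popular P1 (fun p => ∑ l ∈ L1, ind (I p l)) cP1 (c := n / (4 * K)) (by positivity)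
    have e : n ^ 3 / (4 * K) = n ^ 3 / (2 * K) - n ^ 2 * (n / (4 * K)) := by field_simp; ring
    rw [Finset.sum_comm]; linarith
  have e3 := cs_le L1 _ cL1 (by positivity) e2
  simp only [sq (∑ p ∈ P2, _), Finset.sum_mul_sum, ← ind_and] at e3
  rw [Finset.sum_comm] at e3
  obtain ⟨q0, hq0, e4⟩ := ex_ge P2 (fun q0 => ∑ c ∈ L1, ∑ p ∈ P2, ind (I q0 c ∧ I p c)) cP2
    (c := n ^ 2 / (16 * K ^ 2)) (by positivity) (by positivity)
    (le_of_mul_le_mul_left (le_trans (le_of_eq (by field_simp; ring)) e3) (pow_pos n0 2))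
  set C := L1.filter fun c => I q0 c with hC
  have sC : C ⊆ L := (filter_subset _ _).trans (filter_subset _ _)
  have cC : (C.card : ℝ) ≤ 2 * n := by
    rw [← sum_ind]
    exact le_trans (Finset.sum_le_sum_of_subset_of_nonneg (filter_subset _ _) fun _ _ _ => ind0 _)
      (mem_filter.1 (mem_filter.1 hq0).1).2
  set L2 := L1.filter fun l => ¬ I q0 l with hL2
  have sL2 : L2 ⊆ L := (filter_subset _ _).trans (filter_subset _ _)
  have cL2 : (L2.card : ℝ) ≤ n ^ 2 := le_trans (Nat.cast_le.2 (Finset.card_le_card sL2)) hL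
  set M : β → β → Prop := fun l c => ∃ p ∈ P, I p l ∧ I p c with hM
  have e5 : n ^ 3 / (256 * K ^ 3) ≤ ∑ l ∈ L2, ∑ c ∈ C, ind (M l c) := by
    have a1 : ∀ c ∈ C, (∑ p ∈ P2, ind (I p c) - 1) * (n / (8 * K)) ≤ ∑ l ∈ L2, ind (M l c) := by
      intro c hc
      have b0 := (mem_filter.1 hc).2
      calc _ ≤ ∑ p ∈ P2.erase q0, ∑ l ∈ L2, ind (I p l ∧ I p c) := by
            rw [← Finset.add_sum_erase _ _ hq0, ind_pos b0, add_sub_cancel_left, Finset.sum_mul]
            refine Finset.sum_le_sum fun p hp => ?_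
            by_cases b1 : I p c
            · simp only [b1, and_true, ind_pos trivial, one_mul]
              have b2 := (mem_filter.1 (mem_erase.1 hp).2).2
              have b3 := Finset.sum_filter_add_sum_filter_not L1 (fun l => I q0 l)
                fun l => ind (I p l)
              have b4 := sum_ind_le_one C (fun l => I p l) fun l hl l' hl' x y =>
                (h l (sC hl) l' (sC hl') p (sP2 (mem_erase.1 hp).2) q0 (sP2 hq0) x y
                  (mem_filter.1 hl).2 (mem_filter.1 hl').2).resolve_right (mem_erase.1 hp).1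
              have b5 : 1 ≤ n / (8 * K) := by
                rw [le_div_iff₀ (by positivity)]
                have := (kk 3 1 (by norm_num)).trans hn
                linarith
              have b6 : n / (4 * K) = 2 * (n / (8 * K)) := by field_simp; ring
              linarith
            · rw [ind_neg b1, zero_mul]; exact sum_ind_nonneg _ _
        _ ≤ _ := by
            rw [Finset.sum_comm]
            refine Finset.sum_le_sum fun l hl => ?_
            by_cases b1 : M l c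
            · rw [ind_pos b1]
              refine sum_ind_le_one _ _ fun p hp p' hp' x y => ?_
              exact (h l (sL2 hl) c (sC hc) p (sP2 (mem_erase.1 hp).2) p' (sP2 (mem_erase.1 hp').2)
                x.1 x.2 y.1 y.2).resolve_left fun e => (mem_filter.1 hl).2 (e ▸ b0)
            · rw [Finset.sum_eq_zero fun p hp => ind_neg fun x =>
                b1 ⟨p, sP2 (mem_erase.1 hp).2, x⟩]
              exact ind0 _
    have a2 := Finset.sum_le_sum a1
    rw [← Finset.sum_mul, Finset.sum_sub_distrib, Finset.sum_const, nsmul_eq_mul, mul_one] at a2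
    have a3 : ∑ c ∈ L1, ∑ p ∈ P2, ind (I q0 c ∧ I p c) = ∑ c ∈ C, ∑ p ∈ P2, ind (I p c) := by
      refine Eq.trans (Finset.sum_congr rfl fun c _ => ?_) (Finset.sum_filter _ _).symm
      by_cases x : I q0 c <;> simp [x, ind]
    have a4 : 2 * n ≤ n ^ 2 / (32 * K ^ 2) := by
      rw [le_div_iff₀ (by positivity)]
      have := (kk 6 2 (by norm_num)).trans hn
      nlinarith
    have a5 : n ^ 2 / (16 * K ^ 2) = 2 * (n ^ 2 / (32 * K ^ 2)) := by field_simp; ring
    rw [Finset.sum_comm]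
    refine le_trans ?_ a2
    calc n ^ 3 / (256 * K ^ 3) = n ^ 2 / (32 * K ^ 2) * (n / (8 * K)) := by field_simp; ring
      _ ≤ _ := by gcongr; linarith
  set L3 := L2.filter fun l => n / (512 * K ^ 3) ≤ ∑ c ∈ C, ind (M l c) with hL3
  have e6 : n ^ 3 / (512 * K ^ 3) ≤ ∑ l ∈ L3, ∑ c ∈ C, ind (M l c) := by
    have := popular L2 (fun l => ∑ c ∈ C, ind (M l c)) cL2 (c := n / (512 * K ^ 3)) (by positivity)
    have e : n ^ 3 / (512 * K ^ 3) = n ^ 3 / (256 * K ^ 3) - n ^ 2 * (n / (512 * K ^ 3)) := by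
      field_simp; ring
    linarith
  have b5 : 2 ≤ n / (1024 * K ^ 3) := by
    rw [le_div_iff₀ (by positivity)]
    have := (kk 11 3 (by norm_num)).trans hn
    linarith
  have b6 : n / (512 * K ^ 3) = 2 * (n / (1024 * K ^ 3)) := by field_simp; ring
  obtain ⟨cc, hcc, e7⟩ := ex_ge C.offDiag (fun cc => ∑ l ∈ L3, ind (M l cc.1 ∧ M l cc.2))
    (n := (2 * n) ^ 2) (c := n ^ 2 / (2 ^ 21 * K ^ 6)) (by
      refine le_trans (Nat.cast_le.2 (Finset.card_le_card (t := C ×ˢ C) fun x hx =>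
        mem_product.2 ⟨(mem_offDiag.1 hx).1, (mem_offDiag.1 hx).2.1⟩)) ?_
      rw [Finset.card_product, sq]; push_cast; gcongr) (by positivity) (by positivity) (by
      rw [Finset.sum_comm]
      calc _ = n ^ 3 / (512 * K ^ 3) * (n / (1024 * K ^ 3)) := by field_simp; ring
        _ ≤ (∑ l ∈ L3, ∑ c ∈ C, ind (M l c)) * (n / (1024 * K ^ 3)) := by gcongr
        _ ≤ _ := by
          rw [Finset.sum_mul]
          refine Finset.sum_le_sum fun l hl => ?_
          have a1 := (mem_filter.1 hl).2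
          have a2 : ∑ cc ∈ C.offDiag, ind (M l cc.1 ∧ M l cc.2)
              = (∑ c ∈ C, ind (M l c)) ^ 2 - ∑ c ∈ C, ind (M l c) := by
            rw [sq, Finset.sum_mul_sum, ← Finset.sum_product', ← Finset.diag_union_offDiag,
              Finset.sum_union (Finset.disjoint_diag_offDiag _), Finset.sum_diag]
            simp only [← ind_and, and_self]; ring
          rw [a2]
          nlinarith [sum_ind_nonneg C fun c => M l c])
  obtain ⟨m0, m1, m2⟩ := mem_offDiag.1 hcc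
  rw [sum_ind] at e7
  set L' := L3.filter fun l => M l cc.1 ∧ M l cc.2 with hL'
  have sL' : L' ⊆ L2 := (filter_subset _ _).trans (filter_subset _ _)
  have cL' : (L'.card : ℝ) ≤ n ^ 2 := le_trans (Nat.cast_le.2 (Finset.card_le_card sL')) cL2
  set C' := (C.erase cc.1).erase cc.2 with hC'
  have sC' : C' ⊆ C := (erase_subset _ _).trans (erase_subset _ _)
  have cC' : (C'.card : ℝ) ≤ 2 * n := le_trans (Nat.cast_le.2 (Finset.card_le_card sC')) cC
  have e8 : n ^ 3 / (2 ^ 31 * K ^ 9) ≤ ∑ c ∈ C', ∑ l ∈ L', ind (M l c) := by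
    rw [Finset.sum_comm]
    refine le_trans ?_ (mul_le_sum _ _ (c := n / (1024 * K ^ 3)) fun l hl => ?_)
    · calc _ = n ^ 2 / (2 ^ 21 * K ^ 6) * (n / (1024 * K ^ 3)) := by field_simp; ring
        _ ≤ _ := by gcongr
    · have a1 := (mem_filter.1 (mem_filter.1 hl).1).2
      rw [← Finset.add_sum_erase _ _ m0, ← Finset.add_sum_erase _ _ (mem_erase.2 ⟨m2.symm, m1⟩)] at a1
      linarith [ind1 (M l cc.1), ind1 (M l cc.2)]
  have e9 := popular C' (fun c => ∑ l ∈ L', ind (M l c)) cC' (c := n ^ 2 / (2 ^ 33 * K ^ 9))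
    (by positivity)
  set D := C'.filter fun c => n ^ 2 / (2 ^ 33 * K ^ 9) ≤ ∑ l ∈ L', ind (M l c) with hD
  have e10 := sum_le_mul D (fun c => ∑ l ∈ L', ind (M l c)) le_rfl (pow_pos n0 2).le
    fun c _ => (sum_ind_le _ _).trans cL'
  have k33 := kk 33 9 (by norm_num)
  refine ⟨q0, sP2 hq0, cc.1, sC m0, cc.2, sC m1, m2, (mem_filter.1 m0).2, (mem_filter.1 m1).2,
    (mem_filter.1 (mem_filter.1 m0).1).2, (mem_filter.1 (mem_filter.1 m1).1).2, L', sL'.trans sL2,
    D, (filter_subset _ _).trans (sC'.trans sC), fun l hl => ⟨(mem_filter.1 (sL' hl)).2,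
      (mem_filter.1 hl).2⟩, fun c hc => ?_,
    le_trans (by exact_mod_cast Finset.card_filter_le _ _) cC', ?_⟩
  · obtain ⟨a1, a2⟩ := mem_filter.1 hc
    exact ⟨(mem_filter.1 (sC' a1)).2, (mem_erase.1 (mem_erase.1 a1).2).1, (mem_erase.1 a1).1,
      (mem_filter.1 (mem_filter.1 (sC' a1)).1).2, le_trans (by gcongr) a2⟩
  · refine le_trans (show n / K ^ 42 ≤ n / (2 ^ 33 * K ^ 9) by gcongr)
      (le_of_mul_le_mul_right ?_ (pow_pos n0 2))
    have a1 : n ^ 3 / (2 ^ 31 * K ^ 9) = 4 * (n / (2 ^ 33 * K ^ 9) * n ^ 2) := by field_simp; ring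
    have a2 : 2 * n * (n ^ 2 / (2 ^ 33 * K ^ 9)) = 2 * (n / (2 ^ 33 * K ^ 9) * n ^ 2) := by ring
    have a3 : 0 ≤ n / (2 ^ 33 * K ^ 9) * n ^ 2 := by positivity
    linarith

end Pool.Agent.P.MP_1d6da1_co.Sph
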