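import Pool.Agent.P.MP_1d6da1_co.Sph.AF4

namespace Pool.Agent.P.MP_1d6da1_co.Sph

open Finset Module

variable {F : Type} [Field F] {V : Type} [AddCommGroup V] [Module F V] {B : V →ₗ[F] V →ₗ[F] F}

theorem span_perp (hB : Nd B) (hV : finrank F V = 5) {a b : ℕ} (u : Fin a → V) (v : Fin b → V)
    (hu : ∀ g : Fin a → F, ∑ i, g i • u i = 0 → ∀ i, g i = 0)
    (hv : ∀ g : Fin b → F, ∑ i, g i • v i = 0 → ∀ i, g i = 0) (hab : a + b = 5)
    (h : ∀ i j, B (u i) (v j) = 0) {w : V} (hw : ∀ i, B (u i) w = 0) :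
    ∃ c : Fin b → F, ∑ j, c j • v j = w := by
  have : FiniteDimensional F V := Module.finite_of_finrank_pos (by omega)
  have hN : LinearMap.BilinForm.Nondegenerate B := by
    refine ⟨fun x hx => ?_, fun x hx => ?_⟩ <;> by_contra h0 <;> obtain ⟨y, hy⟩ := hB.2 x h0
    · exact hy (hx y)
    · exact hy (by rw [hB.1]; exact hx y)
  have m : ∀ z, (∀ i, B (u i) z = 0) →
      z ∈ LinearMap.BilinForm.orthogonal B (Submodule.span F (Set.range u)) := by
    intro z hz n hn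
    obtain ⟨c, rfl⟩ := (Submodule.mem_span_range_iff_exists_fun F).1 hn
    change B _ z = 0
    simp [hz]
  have e := Submodule.eq_of_le_of_finrank_le (S₁ := Submodule.span F (Set.range v))
    (S₂ := LinearMap.BilinForm.orthogonal B (Submodule.span F (Set.range u)))
    (Submodule.span_le.2 (by rintro _ ⟨j, rfl⟩; exact m _ fun i => h i j)) (by
      rw [LinearMap.BilinForm.finrank_orthogonal hN,
        finrank_span_eq_card (Fintype.linearIndependent_iff.2 hu),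
        finrank_span_eq_card (Fintype.linearIndependent_iff.2 hv)]
      simp only [Fintype.card_fin]; omega)
  exact (Submodule.mem_span_range_iff_exists_fun F).1 (e ▸ m w hw)

def Ind2 (F : Type) [Field F] {V : Type} [AddCommGroup V] [Module F V] (x y : V) : Prop :=
  ∀ a b : F, a • x + b • y = 0 → a = 0 ∧ b = 0

def Ind3 (F : Type) [Field F] {V : Type} [AddCommGroup V] [Module F V] (x y z : V) : Prop :=
  ∀ a b c : F, a • x + b • y + c • z = 0 → a = 0 ∧ b = 0 ∧ c = 0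

def Ind4 (F : Type) [Field F] {V : Type} [AddCommGroup V] [Module F V] (x y z w : V) : Prop :=
  ∀ a b c d : F, a • x + b • y + c • z + d • w = 0 → a = 0 ∧ b = 0 ∧ c = 0 ∧ d = 0

theorem li1 {x : V} (h : x ≠ 0) (g : Fin 1 → F) (e : ∑ i, g i • ![x] i = 0) : ∀ i, g i = 0 := by
  simpa [Fin.forall_fin_succ, h] using e

theorem li2 {x y : V} (h : Ind2 F x y) (g : Fin 2 → F) (e : ∑ i, g i • ![x, y] i = 0) :
    ∀ i, g i = 0 := by
  simpa [Fin.forall_fin_succ] using h (g 0) (g 1) (by simpa using e)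

theorem li3 {x y z : V} (h : Ind3 F x y z) (g : Fin 3 → F) (e : ∑ i, g i • ![x, y, z] i = 0) :
    ∀ i, g i = 0 := by
  simpa [Fin.forall_fin_succ] using h (g 0) (g 1) (g 2) (by simpa [Fin.sum_univ_three] using e)

theorem li4 {x y z w : V} (h : Ind4 F x y z w) (g : Fin 4 → F)
    (e : ∑ i, g i • ![x, y, z, w] i = 0) : ∀ i, g i = 0 := by
  simpa [Fin.forall_fin_succ] using h (g 0) (g 1) (g 2) (g 3)
    (by simpa [Fin.sum_univ_four] using e)

theorem sp23 (hB : Nd B) (hV : finrank F V = 5) {u u' x y z w : V} (hu : Ind2 F u u')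
    (hv : Ind3 F x y z) (h1 : B u x = 0) (h2 : B u y = 0) (h3 : B u z = 0) (h4 : B u' x = 0)
    (h5 : B u' y = 0) (h6 : B u' z = 0) (h7 : B u w = 0) (h8 : B u' w = 0) :
    ∃ a b c : F, w = a • x + b • y + c • z := by
  obtain ⟨c, e⟩ := span_perp hB hV _ _ (li2 hu) (li3 hv) rfl
    (by simp [Fin.forall_fin_succ, *]) (w := w) (by simp [Fin.forall_fin_succ, *])
  exact ⟨c 0, c 1, c 2, by simpa [Fin.sum_univ_three] using e.symm⟩

theorem sp32 (hB : Nd B) (hV : finrank F V = 5) {u u' x y z w : V} (hu : Ind2 F u u')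
    (hv : Ind3 F x y z) (h1 : B u x = 0) (h2 : B u y = 0) (h3 : B u z = 0) (h4 : B u' x = 0)
    (h5 : B u' y = 0) (h6 : B u' z = 0) (h7 : B w x = 0) (h8 : B w y = 0) (h9 : B w z = 0) :
    ∃ a b : F, w = a • u + b • u' := by
  rw [hB.1] at h1 h2 h3 h4 h5 h6 h7 h8 h9
  obtain ⟨c, e⟩ := span_perp hB hV _ _ (li3 hv) (li2 hu) rfl
    (by simp [Fin.forall_fin_succ, *]) (w := w) (by simp [Fin.forall_fin_succ, *])
  exact ⟨c 0, c 1, by simpa using e.symm⟩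

theorem sp14 (hB : Nd B) (hV : finrank F V = 5) {u x y z v w : V} (hu : u ≠ 0)
    (hv : Ind4 F x y z v) (h1 : B u x = 0) (h2 : B u y = 0) (h3 : B u z = 0) (h4 : B u v = 0)
    (h5 : B u w = 0) : ∃ a b c d : F, w = a • x + b • y + c • z + d • v := by
  obtain ⟨c, e⟩ := span_perp hB hV _ _ (li1 hu) (li4 hv) rfl
    (by simp [Fin.forall_fin_succ, *]) (w := w) (by simp [Fin.forall_fin_succ, *])
  exact ⟨c 0, c 1, c 2, c 3, by simpa [Fin.sum_univ_four] using e.symm⟩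

theorem sp41 (hB : Nd B) (hV : finrank F V = 5) {u x y z v w : V} (hu : u ≠ 0)
    (hv : Ind4 F x y z v) (h1 : B x u = 0) (h2 : B y u = 0) (h3 : B z u = 0) (h4 : B v u = 0)
    (h5 : B x w = 0) (h6 : B y w = 0) (h7 : B z w = 0) (h8 : B v w = 0) : ∃ a : F, w = a • u := by
  obtain ⟨c, e⟩ := span_perp hB hV _ _ (li4 hv) (li1 hu) rfl
    (by simp [Fin.forall_fin_succ, *]) (w := w) (by simp [Fin.forall_fin_succ, *])
  exact ⟨c 0, by simpa using e.symm⟩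

theorem Pd.ind2 {X : Finset V} (h : Pd F X) {x y : V} (hx : x ∈ X) (hy : y ∈ X) (hn : x ≠ y) :
    Ind2 F x y := by
  intro a b e
  have ha : a = 0 := by
    by_contra ha
    refine hn (h.2 x hx y hy (-(a⁻¹ * b)) ?_)
    have : x = a⁻¹ • (a • x) := by rw [smul_smul, inv_mul_cancel₀ ha, one_smul]
    rw [this, eq_neg_of_add_eq_zero_left e, smul_neg, smul_smul, neg_smul]
  rw [ha, zero_smul, zero_add] at e
  exact ⟨ha, (smul_eq_zero.1 e).resolve_right (h.1 y hy)⟩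

/-- The Gram determinant of two vectors. -/
def gram (B : V →ₗ[F] V →ₗ[F] F) (y y' : V) : F := B y y * B y' y' - B y y' ^ 2

theorem gram_zero (hB : Nd B) {y y' : V} (h : gram B y y' ≠ 0) {a b : F}
    (h1 : B y (a • y + b • y') = 0) (h2 : B y' (a • y + b • y') = 0) : a = 0 ∧ b = 0 := by
  simp only [map_add, map_smul, smul_eq_mul, hB.1 y' y] at h1 h2
  exact ⟨mul_left_cancel₀ h (by unfold gram; linear_combination B y' y' * h1 - B y y' * h2),
    mul_left_cancel₀ h (by unfold gram; linear_combination B y y * h2 - B y y' * h1)⟩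

theorem gram_ind (hB : Nd B) {y y' : V} (h : gram B y y' ≠ 0) : Ind2 F y y' :=
  fun a b e => gram_zero hB h (by simp [e]) (by simp [e])

theorem nonorth (hB : Nd B) (hV : finrank F V = 5) {y y' x x' : V} (h : gram B y y' ≠ 0)
    (hx : Ind2 F x x') (i1 : B x x = 0) (i2 : B x' x' = 0) (h1 : B y x = 0) (h2 : B y' x = 0)
    (h3 : B y x' = 0) (h4 : B y' x' = 0) : B x x' ≠ 0 := by
  intro h0
  have k : ∀ (a b c : F) (w : V), B y w = 0 → B y' w = 0 → w = a • y + b • y' + c • x →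
      a = 0 ∧ b = 0 := fun a b c w a1 a2 e =>
    gram_zero hB h (by simpa [e, h1] using a1) (by simpa [e, h2] using a2)
  obtain ⟨a, b, c, e⟩ := sp23 hB hV hx (x := y) (y := y') (z := x) (w := x') (fun a b c e => by
      obtain ⟨rfl, rfl⟩ := k a b c 0 (by simp) (by simp) e.symm
      exact ⟨rfl, rfl, (hx c 0 (by simpa using e)).1⟩)
    (by rw [hB.1, h1]) (by rw [hB.1, h2]) i1 (by rw [hB.1, h3]) (by rw [hB.1, h4])
    (by rw [hB.1, h0]) h0 i2
  obtain ⟨rfl, rfl⟩ := k a b c x' h3 h4 e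
  have := (hx c (-1) (by rw [e]; simp)).2
  simp at this

theorem gram3 (hB : Nd B) (h2 : (2 : F) ≠ 0) {x y z : V} (i1 : B x x = 0) (i2 : B y y = 0)
    (i3 : B z z = 0) (n1 : B x y ≠ 0) (n2 : B x z ≠ 0) (n3 : B y z ≠ 0) {a b c : F}
    (h1 : B x (a • x + b • y + c • z) = 0) (h3 : B y (a • x + b • y + c • z) = 0)
    (h4 : B z (a • x + b • y + c • z) = 0) : a = 0 ∧ b = 0 ∧ c = 0 := by
  simp only [map_add, map_smul, smul_eq_mul, hB.1 y x, hB.1 z x, hB.1 z y, i1, i2, i3] at h1 h3 h4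
  exact ⟨mul_left_cancel₀ (mul_ne_zero h2 (mul_ne_zero n1 n2))
      (by linear_combination B x z * h3 + B x y * h4 - B y z * h1),
    mul_left_cancel₀ (mul_ne_zero h2 (mul_ne_zero n1 n3))
      (by linear_combination B y z * h1 + B x y * h4 - B x z * h3),
    mul_left_cancel₀ (mul_ne_zero h2 (mul_ne_zero n2 n3))
      (by linear_combination B y z * h1 + B x z * h3 - B x y * h4)⟩

theorem tot (hB : Nd B) (hV : finrank F V = 5) {u u' w : V} (hu : Ind2 F u u') (i1 : B u u = 0)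
    (i2 : B u' u' = 0) (i3 : B w w = 0) (h1 : B u u' = 0) (h2 : B u w = 0) (h3 : B u' w = 0) :
    ∃ a b : F, w = a • u + b • u' := by
  by_contra hn
  refine hn (sp32 hB hV hu (x := u) (y := u') (z := w) (fun a b c e => ?_) i1 h1 h2
    (by rw [hB.1, h1]) i2 h3 (by rw [hB.1, h2]) (by rw [hB.1, h3]) i3)
  have hc : c = 0 := by
    by_contra hc
    refine hn ⟨-(a / c), -(b / c), smul_right_injective V hc ?_⟩
    simp only [smul_add, smul_smul, mul_neg, mul_div_cancel₀ _ hc]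
    linear_combination (norm := module) e
  obtain ⟨r1, r2⟩ := hu a b (by simpa [hc] using e)
  exact ⟨r1, r2, hc⟩

/-- The standing hypotheses: points `X` of the quadric, vectors `Y`, no `K_{t,t}`. -/
structure Cfg (B : V →ₗ[F] V →ₗ[F] F) (X Y : Finset V) (t : ℕ) : Prop where
  nd : Nd B
  two : (2 : F) ≠ 0
  dim : finrank F V = 5
  pX : Pd F X
  pY : Pd F Y
  iso : ∀ x ∈ X, B x x = 0
  an : (∀ y ∈ Y, B y y ≠ 0) ∨ ∀ y ∈ Y, B y y = 0
  kf : ∀ A ⊆ X, ∀ S ⊆ Y, A.card = t → S.card = t → ¬ ∀ x ∈ A, ∀ y ∈ S, B y x = 0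

variable {X Y : Finset V} {t : ℕ}

theorem Cfg.free (h : Cfg B X Y t) {A S : Finset V} (hA : A ⊆ X) (hS : S ⊆ Y)
    (h0 : ∀ x ∈ A, ∀ y ∈ S, B y x = 0) (ht : t ≤ A.card) : S.card < t := by
  by_contra hn
  obtain ⟨A', a1, a2⟩ := Finset.exists_subset_card_eq ht
  obtain ⟨S', b1, b2⟩ := Finset.exists_subset_card_eq (not_lt.1 hn)
  exact h.kf A' (a1.trans hA) S' (b1.trans hS) a2 b2 fun x hx y hy => h0 x (a1 hx) y (b1 hy)

theorem Cfg.no (h : Cfg B X Y t) {y y' x x' : V} (hg : gram B y y' ≠ 0) (hx : x ∈ X)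
    (hx' : x' ∈ X) (hn : x ≠ x') (h1 : B y x = 0 ∧ B y' x = 0) (h2 : B y x' = 0 ∧ B y' x' = 0) :
    B x x' ≠ 0 :=
  nonorth h.nd h.dim hg (h.pX.ind2 hx hx' hn) (h.iso x hx) (h.iso x' hx') h1.1 h1.2 h2.1 h2.2

theorem Cfg.ind3 (h : Cfg B X Y t) {y y' x1 x2 x3 : V} (hg : gram B y y' ≠ 0) (m1 : x1 ∈ X)
    (m2 : x2 ∈ X) (m3 : x3 ∈ X) (n1 : x1 ≠ x2) (n2 : x1 ≠ x3) (n3 : x2 ≠ x3)
    (h1 : B y x1 = 0 ∧ B y' x1 = 0) (h2 : B y x2 = 0 ∧ B y' x2 = 0)
    (h3 : B y x3 = 0 ∧ B y' x3 = 0) : Ind3 F x1 x2 x3 :=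
  fun _ _ _ e => gram3 h.nd h.two (h.iso _ m1) (h.iso _ m2) (h.iso _ m3) (h.no hg m1 m2 n1 h1 h2)
    (h.no hg m1 m3 n2 h1 h3) (h.no hg m2 m3 n3 h2 h3) (by simp [e]) (by simp [e]) (by simp [e])

theorem Cfg.circ (h : Cfg B X Y t) {y y' x1 x2 x3 w : V} (hg : gram B y y' ≠ 0) (m1 : x1 ∈ X)
    (m2 : x2 ∈ X) (m3 : x3 ∈ X) (n1 : x1 ≠ x2) (n2 : x1 ≠ x3) (n3 : x2 ≠ x3)
    (h1 : B y x1 = 0 ∧ B y' x1 = 0) (h2 : B y x2 = 0 ∧ B y' x2 = 0)
    (h3 : B y x3 = 0 ∧ B y' x3 = 0) (w1 : B w x1 = 0) (w2 : B w x2 = 0) (w3 : B w x3 = 0)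
    {x : V} (a1 : B y x = 0) (a2 : B y' x = 0) : B w x = 0 := by
  obtain ⟨a, b, rfl⟩ := sp32 h.nd h.dim (gram_ind h.nd hg) (h.ind3 hg m1 m2 m3 n1 n2 n3 h1 h2 h3)
    h1.1 h2.1 h3.1 h1.2 h2.2 h3.2 w1 w2 w3
  simp [a1, a2]

open Classical in
/-- The two hyperplanes meet in a nondegenerate circle with at least `t` points. -/
def Gd (B : V →ₗ[F] V →ₗ[F] F) (X : Finset V) (t : ℕ) (y y' : V) : Prop :=
  gram B y y' ≠ 0 ∧ t ≤ (X.filter fun x => B y x = 0 ∧ B y' x = 0).card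

theorem Cfg.few (h : Cfg B X Y t) {y y' x1 x2 x3 : V} (hg : Gd B X t y y') (m1 : x1 ∈ X)
    (m2 : x2 ∈ X) (m3 : x3 ∈ X) (n1 : x1 ≠ x2) (n2 : x1 ≠ x3) (n3 : x2 ≠ x3)
    (h1 : B y x1 = 0 ∧ B y' x1 = 0) (h2 : B y x2 = 0 ∧ B y' x2 = 0)
    (h3 : B y x3 = 0 ∧ B y' x3 = 0) {S : Finset V} (hS : S ⊆ Y)
    (hw : ∀ w ∈ S, B w x1 = 0 ∧ B w x2 = 0 ∧ B w x3 = 0) : S.card < t := by
  classical
  refine h.free (filter_subset _ X) hS (fun x hx w hw' => ?_) hg.2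
  exact h.circ hg.1 m1 m2 m3 n1 n2 n3 h1 h2 h3 (hw w hw').1 (hw w hw').2.1 (hw w hw').2.2
    (mem_filter.1 hx).2.1 (mem_filter.1 hx).2.2

open Classical in
theorem Cfg.deg_le (h : Cfg B X Y t) {y y' : V} (hy : y ∈ Y) (hy' : y' ∈ Y) (hn : y ≠ y')
    (hg : gram B y y' = 0) : ((X.filter fun x => B y x = 0 ∧ B y' x = 0).card : ℝ)
      ≤ 2 * t + 3 + ∑ x ∈ X, ∑ x' ∈ X, ind ((Y.filter fun w => B w x = 0 ∧ B w x' = 0).card < t
        ∧ (B y x = 0 ∧ B y x' = 0) ∧ B y' x = 0 ∧ B y' x' = 0) := by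
  have hB := h.nd
  have i2 := h.pY.ind2 hy hy' hn
  set G := X.filter fun x => B y x = 0 ∧ B y' x = 0 with hG
  set T : V → Prop := fun x => ∃ x' ∈ G, (Y.filter fun w => B w x = 0 ∧ B w x' = 0).card < t
  have c6 : ∑ x ∈ G, ind (T x) ≤ ∑ x ∈ X, ∑ x' ∈ X,
      ind ((Y.filter fun w => B w x = 0 ∧ B w x' = 0).card < t
        ∧ (B y x = 0 ∧ B y x' = 0) ∧ B y' x = 0 ∧ B y' x' = 0) := by
    refine le_trans (Finset.sum_le_sum fun x hx => ?_) (Finset.sum_le_sum_of_subset_of_nonneg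
      (filter_subset _ X) fun _ _ _ => sum_ind_nonneg _ _)
    by_cases hT : T x
    · obtain ⟨x', a1, a2⟩ := id hT
      obtain ⟨-, b2, b3⟩ := mem_filter.1 hx
      obtain ⟨d1, d2, d3⟩ := mem_filter.1 a1
      rw [ind_pos hT, ← ind_pos (⟨a2, ⟨b2, d2⟩, b3, d3⟩ : _ ∧ (_ ∧ _) ∧ _ ∧ _)]
      exact Finset.single_le_sum (f := fun x' => ind ((Y.filter fun w => B w x = 0 ∧ B w x' = 0).card < t
        ∧ (B y x = 0 ∧ B y x' = 0) ∧ B y' x = 0 ∧ B y' x' = 0)) (fun _ _ => ind0 _) d1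
    · rw [ind_neg hT]; exact sum_ind_nonneg _ _
  rcases h.an.symm with an | an
  · by_cases hc : G.card ≤ t + 1
    · have : (G.card : ℝ) ≤ t + 1 := by exact_mod_cast hc
      linarith [sum_ind_nonneg G T, Nat.cast_nonneg (α := ℝ) t]
    have yy : B y y' = 0 := by simpa [gram, an y hy] using hg
    have o : ∀ x ∈ G, ∀ x' ∈ G, B x x' = 0 := fun x hx x' hx' => by
      obtain ⟨a1, a2, a3⟩ := mem_filter.1 hx
      obtain ⟨a, b, e⟩ := tot hB h.dim i2 (an y hy) (an y' hy') (h.iso x a1) yy a2 a3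
      simp [e, (mem_filter.1 hx').2.1, (mem_filter.1 hx').2.2]
    have : (G.card : ℝ) * 1 ≤ ∑ x ∈ G, ind (T x) := mul_le_sum _ _ fun x hx => by
      obtain ⟨x', hx', n⟩ := Finset.exists_mem_ne (show 1 < G.card by omega) x
      refine (ind_pos ⟨x', hx', h.free (A := G) (filter_subset _ _) (filter_subset _ _)
        (fun v hv w hw => ?_) (by omega)⟩).ge
      obtain ⟨a, b, e⟩ := tot hB h.dim (h.pX.ind2 (mem_filter.1 hx).1 (mem_filter.1 hx').1 n.symm)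
        (o x hx x hx) (o x' hx' x' hx') (o v hv v hv) (o x hx x' hx') (o x hx v hv) (o x' hx' v hv)
      simp [e, (mem_filter.1 hw).2.1, (mem_filter.1 hw).2.2]
    linarith [Nat.cast_nonneg (α := ℝ) t]
  obtain ⟨z, z0, z1, z2, z3⟩ : ∃ z : V, z ≠ 0 ∧ B y z = 0 ∧ B y' z = 0 ∧ ∀ x ∈ G, B x z = 0 := by
    refine ⟨(-B y y') • y + B y y • y', fun e => an y hy (i2 _ _ e).2, by simp; ring, ?_, ?_⟩
    · simp only [map_add, map_smul, smul_eq_mul, hB.1 y' y]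
      unfold gram at hg; linear_combination hg
    · intro x hx
      simp [hB.1 x, (mem_filter.1 hx).2.1, (mem_filter.1 hx).2.2]
  have c1 : ∀ x ∈ G, ∀ x' ∈ G, x ≠ x' → B x x' = 0 → ∃ b c : F, z = b • x + c • x' := by
    intro x hx x' hx' n e
    obtain ⟨a1, a2, -⟩ := mem_filter.1 hx
    obtain ⟨b1, b2, -⟩ := mem_filter.1 hx'
    have j := h.pX.ind2 a1 b1 n
    have k : ∀ (a b c : F) (w : V), B y w = 0 → w = a • y + b • x + c • x' → a = 0 :=
      fun a b c w h1 e => by simpa [e, a2, b2, an y hy] using h1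
    obtain ⟨a, b, c, e'⟩ := sp23 hB h.dim j (x := y) (y := x) (z := x') (w := z) (fun a b c e => by
        obtain rfl := k a b c 0 (by simp) e.symm
        exact ⟨rfl, j b c (by simpa using e)⟩) (by rw [hB.1, a2]) (h.iso x a1) e
      (by rw [hB.1, b2]) (by rw [hB.1, e]) (h.iso x' b1) (z3 x hx) (z3 x' hx')
    obtain rfl := k a b c z z1 e'
    exact ⟨b, c, by simpa using e'⟩
  have c2 : ∀ x1 ∈ G, ∀ x2 ∈ G, ∀ x3 ∈ G, B x1 x2 ≠ 0 → B x1 x3 = 0 ∨ B x2 x3 = 0 := by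
    intro x1 m1 x2 m2 x3 m3 n1
    by_contra hc
    obtain ⟨n2, n3⟩ := not_or.1 hc
    obtain ⟨a1, a2, a3⟩ := mem_filter.1 m1
    obtain ⟨b1, b2, b3⟩ := mem_filter.1 m2
    obtain ⟨d1, d2, d3⟩ := mem_filter.1 m3
    have g := fun a b c => gram3 hB h.two (h.iso _ a1) (h.iso _ b1) (h.iso _ d1) n1 n2 n3
      (a := a) (b := b) (c := c)
    obtain ⟨a, b, c, e⟩ := sp23 hB h.dim i2 (fun a b c e => g a b c (by simp [e]) (by simp [e])
      (by simp [e])) a2 b2 d2 a3 b3 d3 z1 z2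
    obtain ⟨rfl, rfl, rfl⟩ := g a b c (e ▸ z3 _ m1) (e ▸ z3 _ m2) (e ▸ z3 _ m3)
    exact z0 (by simpa using e)
  set N := G.filter fun x => ¬ T x ∧ ¬ ∃ s : F, z = s • x with hN
  have c3 : ∀ x ∈ N, (G.filter fun x' => B x x' = 0).card ≤ t + 1 := by
    intro x hx
    obtain ⟨a1, a2, a3⟩ := mem_filter.1 hx
    by_contra hc
    by_cases h1 : ∃ x' ∈ G, x ≠ x' ∧ B x x' = 0
    · obtain ⟨x', b1, b2, b3⟩ := h1
      obtain ⟨b, c, e⟩ := c1 x a1 x' b1 b2 b3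
      refine a2 ⟨x', b1, h.free (A := G.filter fun x' => B x x' = 0)
        ((filter_subset _ _).trans (filter_subset _ _)) (filter_subset _ _)
        (fun v hv w hw => ?_) (by omega)⟩
      obtain ⟨w1, w2⟩ := (mem_filter.1 hw).2
      by_cases hxv : x = v
      · rwa [← hxv]
      obtain ⟨b', c', e'⟩ := c1 x a1 v (mem_filter.1 hv).1 hxv (mem_filter.1 hv).2
      have k1 : B w z = 0 := by simp [e, w1, w2]
      have k2 : c' ≠ 0 := fun h0 => a3 ⟨b', by simpa [h0] using e'⟩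
      simpa [e', w1, k2] using k1
    · refine hc (le_trans (Finset.card_le_one.2 fun a ha b hb => ?_) (by omega))
      simp only [not_exists, not_and, mem_filter] at h1 ha hb
      rw [← not_not.1 fun n => h1 a ha.1 n ha.2,
        ← not_not.1 fun n => h1 b hb.1 n hb.2]
  have c4 : N.card ≤ 2 * t + 2 := by
    rcases N.eq_empty_or_nonempty with e | ⟨x1, m1⟩
    · simp [e]
    by_cases h1 : ∀ x ∈ N, B x1 x = 0
    · exact (Finset.card_le_card fun x hx => mem_filter.2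
        ⟨(mem_filter.1 hx).1, h1 x hx⟩).trans ((c3 x1 m1).trans (by omega))
    · simp only [not_forall] at h1
      obtain ⟨x2, m2, n⟩ := h1
      have := Finset.card_union_le (G.filter fun x' => B x1 x' = 0) (G.filter fun x' => B x2 x' = 0)
      have k1 := c3 x1 m1
      have k2 := c3 x2 m2
      refine (Finset.card_le_card fun x hx => ?_).trans (this.trans (by omega))
      have := (mem_filter.1 hx).1
      simpa [this] using c2 x1 (mem_filter.1 m1).1 x2 (mem_filter.1 m2).1 x this n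
  have c5 : ∑ x ∈ G, ind (∃ s : F, z = s • x) ≤ 1 := sum_ind_le_one _ _ fun a ha b hb ⟨s, e⟩ ⟨s', e'⟩ => by
    by_contra n
    have := (h.pX.ind2 (mem_filter.1 ha).1 (mem_filter.1 hb).1 n s (-s') (by
      rw [← e, neg_smul, ← e', add_neg_cancel])).1
    exact z0 (by rw [e, this, zero_smul])
  have c7 : (G.card : ℝ) ≤ ∑ x ∈ G, (ind (¬ T x ∧ ¬ ∃ s : F, z = s • x) + ind (T x)
      + ind (∃ s : F, z = s • x)) := by
    refine le_trans (by simp) (mul_le_sum G _ (c := 1) fun x _ => ?_)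
    by_cases a1 : T x <;> by_cases a2 : ∃ s : F, z = s • x <;> simp [a1, a2, ind]
  rw [Finset.sum_add_distrib, Finset.sum_add_distrib, sum_ind] at c7
  have c8 : (N.card : ℝ) ≤ 2 * t + 2 := by exact_mod_cast c4
  linarith

end Pool.Agent.P.MP_1d6da1_co.Sph
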