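import Pool.Agent.P.MP_1d6da1_co.Sph.AF5

namespace Pool.Agent.P.MP_1d6da1_co.Sph

open Finset Module

theorem sub_sum {α : Type*} {T S : Finset α} (g : α → ℝ) {m c : ℝ} (hT : T ⊆ S) (hm : m ≤ T.card)
    (hc : 0 ≤ c) (h0 : ∀ a, 0 ≤ g a) (h : ∀ a ∈ T, c ≤ g a) : m * c ≤ ∑ a ∈ S, g a :=
  (mul_le_mul_of_nonneg_right hm hc).trans ((mul_le_sum T g h).trans
    (Finset.sum_le_sum_of_subset_of_nonneg hT fun _ _ _ => h0 _))

theorem trip {α : Type*} {s S : Finset α} (hs : s ⊆ S) :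
    ((s.card - 2 : ℕ) : ℝ) ^ 3 ≤ ∑ a ∈ S, ∑ b ∈ S, ∑ c ∈ S,
      ind ((a ≠ b ∧ a ≠ c ∧ b ≠ c) ∧ a ∈ s ∧ b ∈ s ∧ c ∈ s) := by
  classical
  have m0 : (0 : ℝ) ≤ (s.card - 2 : ℕ) := Nat.cast_nonneg _
  rw [show ∀ m : ℝ, m ^ 3 = m * (m * (m * 1)) from fun m => by ring]
  refine sub_sum _ hs (Nat.cast_le.2 (by omega)) (by positivity)
    (fun _ => Finset.sum_nonneg fun _ _ => sum_ind_nonneg _ _) fun a ha => ?_
  have e1 := Finset.card_erase_of_mem ha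
  refine sub_sum _ ((erase_subset a s).trans hs) (Nat.cast_le.2 (by omega)) (by positivity)
    (fun _ => sum_ind_nonneg _ _) fun b hb => ?_
  have e2 := Finset.card_erase_of_mem hb
  refine sub_sum _ ((erase_subset b _).trans ((erase_subset a s).trans hs))
    (Nat.cast_le.2 (by omega)) zero_le_one (fun _ => ind0 _) fun c hc => ?_
  simp only [mem_erase] at hb hc
  exact (ind_pos ⟨⟨hb.1.symm, hc.2.1.symm, hc.1.symm⟩, ha, hb.2, hc.2.2⟩).ge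

theorem sq_ind_le {α : Type*} (S : Finset α) (p : α → Prop) (r : α → α → Prop) (t : ℕ)
    (h : ∀ a ∈ S, ∀ b ∈ S, r a b → p a ∧ p b ∧ ∑ a ∈ S, ind (p a) ≤ t) :
    ∑ a ∈ S, ∑ b ∈ S, ind (r a b) ≤ (t : ℝ) ^ 2 := by
  by_cases h1 : ∃ a ∈ S, ∃ b ∈ S, r a b
  · obtain ⟨a, ha, b, hb, e⟩ := h1
    refine le_trans ?_ (pow_le_pow_left₀ (sum_ind_nonneg _ _) (h a ha b hb e).2.2 2)
    rw [sq, Finset.sum_mul_sum]
    refine Finset.sum_le_sum fun a ha => Finset.sum_le_sum fun b hb => ?_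
    rw [← ind_and]
    exact ind_mono fun e => ⟨(h a ha b hb e).1, (h a ha b hb e).2.1⟩
  · rw [Finset.sum_eq_zero fun a ha => Finset.sum_eq_zero fun b hb =>
      ind_neg fun e => h1 ⟨a, ha, b, hb, e⟩]
    positivity

variable {F : Type} [Field F] {V : Type} [AddCommGroup V] [Module F V] {B : V →ₗ[F] V →ₗ[F] F}
  {X Y : Finset V} {t : ℕ}

theorem Cfg.paths_le (h : Cfg B X Y t) {n : ℝ} (hX : (X.card : ℝ) ≤ n) (hY : (Y.card : ℝ) ≤ n)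
    {X' Y' : Finset V} (h1 : X' ⊆ X) (h2 : Y' ⊆ Y) :
    ∑ x ∈ X', (∑ y ∈ Y', ind (B y x = 0)) ^ 2 ≤ ∑ y ∈ Y', ∑ x ∈ X', ind (B y x = 0)
      + (t + 2) ^ 2 * n ^ 2
      + ∑ y ∈ Y', ∑ y' ∈ Y', ∑ x ∈ X', ind (Gd B X t y y' ∧ B y x = 0 ∧ B y' x = 0) := by
  classical
  have n0 : 0 ≤ n := le_trans (Nat.cast_nonneg _) hX
  have hY' : (Y'.card : ℝ) ≤ n := le_trans (Nat.cast_le.2 (Finset.card_le_card h2)) hY
  set R : V → V → V → V → Prop := fun y y' x x' =>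
    (Y.filter fun w => B w x = 0 ∧ B w x' = 0).card < t
      ∧ (B y x = 0 ∧ B y x' = 0) ∧ B y' x = 0 ∧ B y' x' = 0 with hR
  have a1 : ∀ y ∈ Y', ∀ y' ∈ Y', ∑ x ∈ X', ind (B y x = 0 ∧ B y' x = 0)
      ≤ ind (y' = y) * ∑ x ∈ X', ind (B y x = 0) + (2 * t + 3 + ∑ x ∈ X, ∑ x' ∈ X, ind (R y y' x x'))
        + ∑ x ∈ X', ind (Gd B X t y y' ∧ B y x = 0 ∧ B y' x = 0) := by
    intro y hy y' hy'
    have p1 := mul_nonneg (ind0 (y' = y)) (sum_ind_nonneg X' fun x => B y x = 0)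
    have p2 : 0 ≤ ∑ x ∈ X, ∑ x' ∈ X, ind (R y y' x x') :=
      Finset.sum_nonneg fun _ _ => sum_ind_nonneg _ _
    have p3 := sum_ind_nonneg X' fun x => Gd B X t y y' ∧ B y x = 0 ∧ B y' x = 0
    have p4 : (0 : ℝ) ≤ t := Nat.cast_nonneg _
    have p5 : ∑ x ∈ X', ind (B y x = 0 ∧ B y' x = 0)
        ≤ (X.filter fun x => B y x = 0 ∧ B y' x = 0).card := by
      rw [← sum_ind]
      exact Finset.sum_le_sum_of_subset_of_nonneg h1 fun _ _ _ => ind0 _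
    by_cases e : y' = y
    · subst e
      simp only [and_self, ind_pos trivial, one_mul] at *
      linarith
    by_cases g : Gd B X t y y'
    · simp only [g, true_and] at *
      linarith
    by_cases g0 : gram B y y' = 0
    · have := h.deg_le (h2 hy) (h2 hy') (Ne.symm e) g0
      linarith
    · have : ((X.filter fun x => B y x = 0 ∧ B y' x = 0).card : ℝ) ≤ t :=
        Nat.cast_le.2 (not_le.1 fun c => g ⟨g0, c⟩).le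
      linarith
  have a2 : ∑ y ∈ Y', ∑ y' ∈ Y', ∑ x ∈ X, ∑ x' ∈ X, ind (R y y' x x') ≤ n * (n * (t : ℝ) ^ 2) := by
    rw [← Finset.sum_product', Finset.sum_comm]
    refine sum_le_mul _ _ hX (by positivity) fun x _ => ?_
    rw [Finset.sum_comm]
    refine sum_le_mul _ _ hX (by positivity) fun x' _ => ?_
    rw [Finset.sum_product' (f := fun y y' => ind (R y y' x x'))]
    refine sq_ind_le Y' (fun w => B w x = 0 ∧ B w x' = 0) _ t fun a _ b _ e => ⟨e.2.1, e.2.2, ?_⟩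
    refine le_trans (Finset.sum_le_sum_of_subset_of_nonneg h2 fun _ _ _ => ind0 _) ?_
    rw [sum_ind]; exact Nat.cast_le.2 e.1.le
  have a3 : ∀ y ∈ Y', ∑ y' ∈ Y', ind (y' = y) * ∑ x ∈ X', ind (B y x = 0)
      = ∑ x ∈ X', ind (B y x = 0) := fun y hy => by
    rw [Finset.sum_eq_single_of_mem y hy fun _ _ e => by rw [ind_neg e, zero_mul], ind_pos rfl,
      one_mul]
  have a4 : ∑ _y ∈ Y', ∑ _y' ∈ Y', (2 * t + 3 : ℝ) ≤ n * (n * (2 * t + 3)) :=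
    sum_le_mul _ _ hY' (by positivity) fun _ _ => sum_le_mul _ _ hY' (by positivity) fun _ _ => le_rfl
  simp only [sq (∑ y ∈ Y', _), Finset.sum_mul_sum, ← ind_and]
  rw [Finset.sum_comm]
  simp only [Finset.sum_comm (s := X')]
  refine (Finset.sum_le_sum fun y hy => Finset.sum_le_sum fun y' hy' => a1 y hy y' hy').trans ?_
  simp only [Finset.sum_add_distrib (s := Y')] at a4 ⊢
  rw [Finset.sum_congr rfl a3]
  nlinarith [mul_nonneg (mul_nonneg n0 n0) (Nat.cast_nonneg (α := ℝ) t), mul_nonneg n0 n0]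

theorem Cfg.good_le (h : Cfg B X Y t) {X' Y' : Finset V} (h1 : X' ⊆ X) (h2 : Y' ⊆ Y) :
    ∃ W : ℝ, 0 ≤ W ∧ W ^ 3 ≤ (Y'.card : ℝ) ^ 4 * ((X'.card : ℝ) ^ 3 * (t : ℝ) ^ 2) ∧
      ∑ y ∈ Y', ∑ y' ∈ Y', ∑ x ∈ X', ind (Gd B X t y y' ∧ B y x = 0 ∧ B y' x = 0)
        ≤ W + 2 * (Y'.card : ℝ) ^ 2 := by
  classical
  set s : V × V → Finset V := fun p => X'.filter fun x =>
    Gd B X t p.1 p.2 ∧ B p.1 x = 0 ∧ B p.2 x = 0 with hs
  have cY : ((Y' ×ˢ Y').card : ℝ) = (Y'.card : ℝ) ^ 2 := by rw [Finset.card_product, sq]; simp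
  refine ⟨∑ p ∈ Y' ×ˢ Y', (((s p).card - 2 : ℕ) : ℝ), Finset.sum_nonneg fun _ _ => Nat.cast_nonneg _,
    (pow_sum_le_card_mul_sum_pow (fun _ _ => Nat.cast_nonneg _) 2).trans ?_, ?_⟩
  · rw [cY, ← pow_mul]
    refine mul_le_mul_of_nonneg_left ((Finset.sum_le_sum fun p _ =>
      trip (filter_subset _ X')).trans ?_) (by positivity)
    rw [show ∀ a b : ℝ, a ^ 3 * b = a * (a * (a * b)) from fun a b => by ring, Finset.sum_comm]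
    refine sum_le_mul _ _ le_rfl (by positivity) fun a ha => ?_
    rw [Finset.sum_comm]
    refine sum_le_mul _ _ le_rfl (by positivity) fun b hb => ?_
    rw [Finset.sum_comm]
    refine sum_le_mul _ _ le_rfl (by positivity) fun c hc => ?_
    rw [Finset.sum_product]
    refine sq_ind_le Y' (fun w => B w a = 0 ∧ B w b = 0 ∧ B w c = 0) _ t ?_
    rintro y _ y' _ ⟨⟨n1, n2, n3⟩, m1, m2, m3⟩
    obtain ⟨-, g, a1⟩ := mem_filter.1 m1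
    obtain ⟨-, -, a2⟩ := mem_filter.1 m2
    obtain ⟨-, -, a3⟩ := mem_filter.1 m3
    refine ⟨⟨a1.1, a2.1, a3.1⟩, ⟨a1.2, a2.2, a3.2⟩, ?_⟩
    rw [sum_ind]
    exact Nat.cast_le.2 (h.few g (h1 ha) (h1 hb) (h1 hc) n1 n2 n3 a1 a2 a3
      ((filter_subset _ _).trans h2) fun w hw => (mem_filter.1 hw).2).le
  · rw [← Finset.sum_product', ← cY, mul_comm, ← nsmul_eq_mul, ← Finset.sum_const,
      ← Finset.sum_add_distrib]
    refine Finset.sum_le_sum fun p _ => ?_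
    rw [sum_ind]
    have : (s p).card ≤ (s p).card - 2 + 2 := by omega
    exact_mod_cast this

theorem Cfg.unbal (h : Cfg B X Y t) {n : ℝ} (hX : (X.card : ℝ) ≤ n) (hY : (Y.card : ℝ) ≤ n)
    {X' Y' : Finset V} (h1 : X' ⊆ X) (h2 : Y' ⊆ Y) {e : ℝ}
    (he : e = ∑ y ∈ Y', ∑ x ∈ X', ind (B y x = 0)) (c1 : 4 * n ≤ e)
    (c2 : 4 * (t + 3) ^ 2 * n ^ 3 ≤ e ^ 2) :
    e ^ 6 ≤ 8 * (t : ℝ) ^ 2 * (X'.card : ℝ) ^ 6 * (Y'.card : ℝ) ^ 4 := by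
  have n0 : 0 ≤ n := le_trans (Nat.cast_nonneg _) hX
  have hX' : (X'.card : ℝ) ≤ n := le_trans (Nat.cast_le.2 (Finset.card_le_card h1)) hX
  have hY' : (Y'.card : ℝ) ≤ n := le_trans (Nat.cast_le.2 (Finset.card_le_card h2)) hY
  have e0 : 0 ≤ e := by linarith
  have a1 := cs_le X' (fun x => ∑ y ∈ Y', ind (B y x = 0)) le_rfl e0
    (he.trans Finset.sum_comm).le
  have a2 := h.paths_le hX hY h1 h2
  obtain ⟨W, w0, w1, w2⟩ := h.good_le h1 h2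
  rw [← he] at a2
  have x0 : (0 : ℝ) ≤ X'.card := Nat.cast_nonneg _
  have t0 : (0 : ℝ) ≤ t := Nat.cast_nonneg _
  have a3 : (Y'.card : ℝ) ^ 2 ≤ n ^ 2 := by gcongr
  have a4 : ∑ x ∈ X', (∑ y ∈ Y', ind (B y x = 0)) ^ 2 ≤ (e + (t + 3) ^ 2 * n ^ 2) + W := by
    nlinarith [mul_nonneg t0 (sq_nonneg n), sq_nonneg n]
  have a5 : X'.card * (e + (t + 3) ^ 2 * n ^ 2) ≤ n * (e + (t + 3) ^ 2 * n ^ 2) := by gcongr
  have a6 : e ^ 2 ≤ 2 * X'.card * W := by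
    have := a1.trans (mul_le_mul_of_nonneg_left a4 x0)
    nlinarith [mul_le_mul_of_nonneg_right c1 e0]
  calc e ^ 6 = (e ^ 2) ^ 3 := by ring
    _ ≤ (2 * X'.card * W) ^ 3 := by gcongr
    _ = 8 * (X'.card : ℝ) ^ 3 * W ^ 3 := by ring
    _ ≤ 8 * (X'.card : ℝ) ^ 3 * ((Y'.card : ℝ) ^ 4 * ((X'.card : ℝ) ^ 3 * (t : ℝ) ^ 2)) := by gcongr
    _ = _ := by ring

theorem num1 {K ν e m x : ℝ} (K5 : 512 ≤ K) (ν0 : 0 < ν) (m0 : 0 ≤ m) (x0 : 0 ≤ x)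
    (hx : x ≤ ν ^ 3) (a0 : ν ^ 5 / (8 * K) ≤ e) (a1 : e ^ 6 ≤ K * x ^ 6 * m ^ 4)
    (a2 : m * (K ^ 2 * ν ^ 2) ≤ e) : False := by
  have K0 : 0 < K := by linarith
  have e0 : 0 < e := lt_of_lt_of_le (by positivity) a0
  have a3 : e ^ 2 * (K ^ 2 * ν ^ 2) ^ 4 ≤ K * (ν ^ 3) ^ 6 := by
    refine le_of_mul_le_mul_left ?_ (pow_pos e0 4)
    calc _ = e ^ 6 * (K ^ 2 * ν ^ 2) ^ 4 := by ring
      _ ≤ K * (ν ^ 3) ^ 6 * m ^ 4 * (K ^ 2 * ν ^ 2) ^ 4 := by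
        gcongr; exact a1.trans (by gcongr)
      _ = K * (ν ^ 3) ^ 6 * (m * (K ^ 2 * ν ^ 2)) ^ 4 := by ring
      _ ≤ K * (ν ^ 3) ^ 6 * e ^ 4 := by gcongr
      _ = _ := by ring
  have a4 : (ν ^ 5 / (8 * K)) ^ 2 * (K ^ 2 * ν ^ 2) ^ 4 ≤ K * (ν ^ 3) ^ 6 :=
    le_trans (by gcongr) a3
  have a5 : (ν ^ 5 / (8 * K)) ^ 2 * (K ^ 2 * ν ^ 2) ^ 4 = K ^ 5 / 64 * (K * (ν ^ 3) ^ 6) := by
    field_simp; ring
  have a6 : (512 : ℝ) ^ 5 ≤ K ^ 5 := by gcongr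
  have a7 : 0 < K * (ν ^ 3) ^ 6 := by positivity
  nlinarith

theorem num2 {K ν e m y : ℝ} (K5 : 512 ≤ K) (ν0 : 0 < ν) (m0 : 0 ≤ m) (y0 : 0 ≤ y)
    (hy : y ≤ ν ^ 3) (e0 : 0 < e) (a1 : e ^ 6 ≤ K * m ^ 6 * y ^ 4)
    (a2 : m * (K ^ 2 * ν ^ 2) ≤ e) : False := by
  have K0 : 0 < K := by linarith
  have a3 : K ^ 11 ≤ 1 := by
    refine le_of_mul_le_mul_left ?_ (show 0 < e ^ 6 * (K * ν ^ 12) by positivity)
    calc _ = e ^ 6 * (K ^ 2 * ν ^ 2) ^ 6 := by ring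
      _ ≤ K * m ^ 6 * (ν ^ 3) ^ 4 * (K ^ 2 * ν ^ 2) ^ 6 := by
        gcongr; exact a1.trans (by gcongr)
      _ = K * (m * (K ^ 2 * ν ^ 2)) ^ 6 * (ν ^ 3) ^ 4 := by ring
      _ ≤ K * e ^ 6 * (ν ^ 3) ^ 4 := by gcongr
      _ = _ := by ring
  have : (512 : ℝ) ^ 11 ≤ K ^ 11 := by gcongr
  linarith

theorem Cfg.link (h : Cfg B X Y t) {ν K : ℝ} (hK : 64 * ((t : ℝ) + 3) ^ 2 ≤ K) (hν : K ^ 9 ≤ ν)
    (hX : (X.card : ℝ) ≤ ν ^ 3) (hY : (Y.card : ℝ) ≤ ν ^ 3) {E : V → V → Prop}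
    (hE : ∀ y x, E y x → B y x = 0) (he : ν ^ 5 / K ≤ ∑ y ∈ Y, ∑ x ∈ X, ind (E y x)) :
    ∃ m0 ∈ Y, ∃ x0 ∈ X, B m0 x0 = 0 ∧ ∑ y ∈ Y, ind (B y x0 = 0) ≤ K ^ 2 * ν ^ 2 ∧ ∃ P ⊆ X,
      (P.card : ℝ) ≤ K ^ 2 * ν ^ 2 ∧ (∀ x ∈ P, x ≠ x0 ∧ E m0 x ∧ B x x0 ≠ 0 ∧
        ν ^ 2 / K ^ 5 ≤ ∑ y ∈ Y, ind (Gd B X t m0 y ∧ B y x = 0)) ∧
      ν ^ 3 / K ^ 8 ≤ ∑ y ∈ Y, ∑ x ∈ P, ind (Gd B X t m0 y ∧ B y x0 = 0 ∧ B y x = 0) := by
  classical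
  have t0 : (0 : ℝ) ≤ t := Nat.cast_nonneg _
  have K5 : 512 ≤ K := by nlinarith
  have K0 : 0 < K := by linarith
  have kk : ∀ j, j ≤ 9 → K ^ j ≤ ν := fun j hj => (pow_le_pow_right₀ (by linarith) hj).trans hν
  have ν0 : 0 < ν := lt_of_lt_of_le (by positivity) hν
  have ν1 : K ≤ ν := by simpa using kk 1 (by norm_num)
  have tK : 8 * (t : ℝ) ^ 2 ≤ K := by nlinarith
  have unb : ∀ X' ⊆ X, ∀ Y' ⊆ Y, ∀ e, e = ∑ y ∈ Y', ∑ x ∈ X', ind (B y x = 0) →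
      ν ^ 5 / (8 * K) ≤ e → e ^ 6 ≤ K * (X'.card : ℝ) ^ 6 * (Y'.card : ℝ) ^ 4 := by
    intro X' h1 Y' h2 e he h3
    refine (h.unbal hX hY h1 h2 he (le_trans ?_ h3)
      (le_trans ?_ (pow_le_pow_left₀ (by positivity) h3 2))).trans (by gcongr)
    · rw [le_div_iff₀ (by positivity)]
      calc 4 * ν ^ 3 * (8 * K) = ν ^ 3 * (32 * K) := by ring
        _ ≤ ν ^ 3 * (ν * ν) := by gcongr; linarith
        _ = _ := by ring
    · rw [div_pow, le_div_iff₀ (by positivity)]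
      calc _ = 4 * (64 * ((t : ℝ) + 3) ^ 2) * K ^ 2 * ν ^ 9 := by ring
        _ ≤ K * K * K ^ 2 * ν ^ 9 := by gcongr; linarith
        _ = K ^ 4 * ν ^ 9 := by ring
        _ ≤ ν * ν ^ 9 := by gcongr; exact kk 4 (by norm_num)
        _ = _ := by ring
  set Y1 := Y.filter fun y => ∑ x ∈ X, ind (B y x = 0) ≤ K ^ 2 * ν ^ 2 with hY1
  set X1 := X.filter fun x => ∑ y ∈ Y, ind (B y x = 0) ≤ K ^ 2 * ν ^ 2 with hX1
  have q0 : 0 < ν ^ 5 / (8 * K) := by positivity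
  have b1 : ∑ y ∈ Y.filter fun y => ¬ ∑ x ∈ X, ind (B y x = 0) ≤ K ^ 2 * ν ^ 2,
      ∑ x ∈ X, ind (B y x = 0) ≤ ν ^ 5 / (8 * K) := by
    by_contra hc
    have a0 := (not_le.1 hc).le
    exact num1 K5 ν0 (Nat.cast_nonneg _) (Nat.cast_nonneg _) hX a0
      (unb X subset_rfl _ (filter_subset _ Y) _ rfl a0)
      (mul_le_sum _ _ fun y hy => (not_le.1 (mem_filter.1 hy).2).le)
  have b2 : ∑ y ∈ Y, ∑ x ∈ X.filter fun x => ¬ ∑ y ∈ Y, ind (B y x = 0) ≤ K ^ 2 * ν ^ 2,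
      ind (B y x = 0) ≤ ν ^ 5 / (8 * K) := by
    by_contra hc
    have a0 := (not_le.1 hc).le
    exact num2 K5 ν0 (Nat.cast_nonneg _) (Nat.cast_nonneg _) hY (q0.trans_le a0)
      (unb _ (filter_subset _ X) Y subset_rfl _ rfl a0) (by
        rw [Finset.sum_comm]
        exact mul_le_sum _ _ fun y hy => (not_le.1 (mem_filter.1 hy).2).le)
  have sY : Y1 ⊆ Y := filter_subset _ _
  have sX : X1 ⊆ X := filter_subset _ _
  have cY : (Y1.card : ℝ) ≤ ν ^ 3 := le_trans (Nat.cast_le.2 (Finset.card_le_card sY)) hY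
  have cX : (X1.card : ℝ) ≤ ν ^ 3 := le_trans (Nat.cast_le.2 (Finset.card_le_card sX)) hX
  have mo : ∀ X' Y' : Finset V, ∑ y ∈ Y', ∑ x ∈ X', ind (E y x)
      ≤ ∑ y ∈ Y', ∑ x ∈ X', ind (B y x = 0) := fun _ _ =>
    Finset.sum_le_sum fun y _ => Finset.sum_le_sum fun x _ => ind_mono (hE y x)
  have b3 : 6 * (ν ^ 5 / (8 * K)) ≤ ∑ y ∈ Y1, ∑ x ∈ X1, ind (E y x) := by
    have a1 := Finset.sum_filter_add_sum_filter_not Y
      (fun y => ∑ x ∈ X, ind (B y x = 0) ≤ K ^ 2 * ν ^ 2) fun y => ∑ x ∈ X, ind (E y x)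
    have a2 := Finset.sum_congr rfl fun y (_ : y ∈ Y1) => Finset.sum_filter_add_sum_filter_not X
      (fun x => ∑ y ∈ Y, ind (B y x = 0) ≤ K ^ 2 * ν ^ 2) fun x => ind (E y x)
    rw [Finset.sum_add_distrib] at a2
    have a3 := (mo _ _).trans (le_trans (Finset.sum_le_sum_of_subset_of_nonneg sY fun _ _ _ =>
      sum_ind_nonneg _ _) b2)
    have a5 := (mo _ _).trans b1
    have a4 : ν ^ 5 / K = 8 * (ν ^ 5 / (8 * K)) := by field_simp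
    linarith
  have b4 : ∑ y ∈ Y1, ∑ x ∈ X1, ind (B y x = 0) ≤ ν ^ 3 * (K ^ 2 * ν ^ 2) :=
    sum_le_mul _ _ cY (by positivity) fun y hy => le_trans
      (Finset.sum_le_sum_of_subset_of_nonneg sX fun _ _ _ => ind0 _) (mem_filter.1 hy).2
  have b5 : ν ^ 7 / (2 * K ^ 2) ≤ ∑ m ∈ Y1, ∑ x ∈ X1, ∑ y ∈ Y,
      ind (Gd B X t m y ∧ E m x ∧ B y x = 0) := by
    have a1 := cs_le X1 (fun x => ∑ y ∈ Y1, ind (E y x)) cX (by positivity)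
      (b3.trans Finset.sum_comm.le)
    have a2 := h.paths_le hX hY sX sY
    have a3 : ∑ m ∈ Y1, ∑ y ∈ Y1, ∑ x ∈ X1, ind (Gd B X t m y ∧ E m x ∧ B y x = 0)
        ≤ ∑ m ∈ Y1, ∑ x ∈ X1, ∑ y ∈ Y, ind (Gd B X t m y ∧ E m x ∧ B y x = 0) :=
      Finset.sum_le_sum fun m _ => (Finset.sum_le_sum_of_subset_of_nonneg sY fun _ _ _ =>
        sum_ind_nonneg _ _).trans Finset.sum_comm.le
    have a0 : ∑ x ∈ X1, (∑ y ∈ Y1, ind (E y x)) ^ 2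
        + ∑ m ∈ Y1, ∑ y ∈ Y1, ∑ x ∈ X1, ind (Gd B X t m y ∧ B m x = 0 ∧ B y x = 0)
        ≤ ∑ x ∈ X1, (∑ y ∈ Y1, ind (B y x = 0)) ^ 2
        + ∑ m ∈ Y1, ∑ y ∈ Y1, ∑ x ∈ X1, ind (Gd B X t m y ∧ E m x ∧ B y x = 0) := by
      simp only [sq (∑ y ∈ Y1, _), Finset.sum_mul_sum, ← ind_and, Finset.sum_comm (s := X1),
        ← Finset.sum_add_distrib]
      refine Finset.sum_le_sum fun m _ => Finset.sum_le_sum fun y _ => Finset.sum_le_sum fun x _ => ?_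
      by_cases c : E m x ∧ E y x
      · simp [c.1, c.2, hE _ _ c.1, hE _ _ c.2]
      · rw [ind_neg c, zero_add]
        exact le_add_of_le_of_nonneg (ind_mono fun e => e.2) (ind0 _)
    have a4 : 9 * (ν ^ 7 / (16 * K ^ 2)) ≤ ∑ x ∈ X1, (∑ y ∈ Y1, ind (E y x)) ^ 2 :=
      le_of_mul_le_mul_left (le_trans (le_of_eq (by field_simp; ring)) a1) (pow_pos ν0 3)
    have a5 : ν ^ 3 * (K ^ 2 * ν ^ 2) + (t + 2) ^ 2 * (ν ^ 3) ^ 2 ≤ ν ^ 7 / (16 * K ^ 2) := by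
      rw [le_div_iff₀ (by positivity)]
      have c1 := kk 2 (by norm_num)
      have c2 : ((t : ℝ) + 2) ^ 2 ≤ K := by nlinarith
      have c3 : ν ^ 3 * (K ^ 2 * ν ^ 2) ≤ ν ^ 3 * (ν * ν ^ 2) * K :=
        le_trans (by gcongr) (le_mul_of_one_le_right (by positivity) (by linarith))
      calc _ ≤ (ν ^ 3 * (ν * ν ^ 2) * K + K * (ν ^ 3) ^ 2) * (16 * K ^ 2) :=
            mul_le_mul_of_nonneg_right (add_le_add c3 (by gcongr)) (by positivity)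
        _ = 32 * K ^ 3 * ν ^ 6 := by ring
        _ ≤ K * K ^ 3 * ν ^ 6 := by gcongr; linarith
        _ = K ^ 4 * ν ^ 6 := by ring
        _ ≤ ν * ν ^ 6 := by gcongr; exact kk 4 (by norm_num)
        _ = _ := by ring
    have a6 : ν ^ 7 / (2 * K ^ 2) = 8 * (ν ^ 7 / (16 * K ^ 2)) := by field_simp; ring
    linarith
  set T : V → V → V → Prop := fun m y x =>
    ν ^ 2 / K ^ 5 ≤ ∑ y ∈ Y, ind (Gd B X t m y ∧ B y x = 0) ∧ Gd B X t m y ∧ E m x ∧ B y x = 0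
    with hT
  have b6 : ν ^ 7 / (4 * K ^ 2) ≤ ∑ p ∈ Y1 ×ˢ Y, ∑ x ∈ X1, ind (T p.1 p.2 x) := by
    have a1 : ∀ m x, ∑ y ∈ Y, ind (Gd B X t m y ∧ E m x ∧ B y x = 0)
        ≤ ind (B m x = 0) * (ν ^ 2 / K ^ 5) + ∑ y ∈ Y, ind (T m y x) := by
      intro m x
      have p1 := sum_ind_nonneg Y fun y => T m y x
      have p2 : 0 ≤ ind (B m x = 0) * (ν ^ 2 / K ^ 5) := mul_nonneg (ind0 _) (by positivity)
      by_cases c1 : ν ^ 2 / K ^ 5 ≤ ∑ y ∈ Y, ind (Gd B X t m y ∧ B y x = 0)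
      · simp only [hT, c1, true_and]; linarith
      by_cases c2 : E m x
      · simp only [c2, hE _ _ c2, true_and, ind_pos trivial, one_mul]; linarith
      · rw [Finset.sum_eq_zero fun y _ => ind_neg fun e => c2 e.2.1]; linarith
    have a2 := b5.trans (Finset.sum_le_sum fun m _ => Finset.sum_le_sum fun x _ => a1 m x)
    simp only [Finset.sum_add_distrib, ← Finset.sum_mul] at a2
    have a3 := mul_le_mul_of_nonneg_right b4 (show 0 ≤ ν ^ 2 / K ^ 5 by positivity)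
    have a4 : ν ^ 3 * (K ^ 2 * ν ^ 2) * (ν ^ 2 / K ^ 5) ≤ ν ^ 7 / (4 * K ^ 2) :=
      calc _ = ν ^ 7 / (K * K ^ 2) := by field_simp
        _ ≤ _ := by gcongr; linarith
    have a5 : ν ^ 7 / (2 * K ^ 2) = 2 * (ν ^ 7 / (4 * K ^ 2)) := by field_simp; ring
    rw [Finset.sum_product, Finset.sum_congr rfl fun m _ => Finset.sum_comm]
    linarith
  have b7 := cs_le (Y1 ×ˢ Y) _ (n := ν ^ 3 * ν ^ 3) (by
    rw [Finset.card_product]; push_cast; gcongr) (by positivity) b6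
  have b8 : ∑ p ∈ Y1 ×ˢ Y, (∑ x ∈ X1, ind (T p.1 p.2 x)) ^ 2
      = ∑ f ∈ (Y1 ×ˢ X1).filter fun f => B f.1 f.2 = 0,
        ∑ y ∈ Y, ∑ x ∈ X1, ind (T f.1 y f.2 ∧ T f.1 y x) := by
    simp only [sq, Finset.sum_mul_sum, ← ind_and]
    rw [Finset.sum_filter, Finset.sum_product, Finset.sum_product]
    refine Finset.sum_congr rfl fun m _ => ?_
    rw [Finset.sum_comm]
    refine Finset.sum_congr rfl fun x0 _ => ?_
    split_ifs with c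
    · rfl
    · exact Finset.sum_eq_zero fun y _ => Finset.sum_eq_zero fun x _ =>
        ind_neg fun e => c (hE _ _ e.1.2.2.1)
  rw [b8] at b7
  obtain ⟨⟨m0, x0⟩, hf, b9⟩ := ex_ge ((Y1 ×ˢ X1).filter fun f => B f.1 f.2 = 0)
    (fun f => ∑ y ∈ Y, ∑ x ∈ X1, ind (T f.1 y f.2 ∧ T f.1 y x)) (n := ν ^ 3 * (K ^ 2 * ν ^ 2))
    (c := ν ^ 3 / (16 * K ^ 6)) (by rw [← sum_ind, Finset.sum_product]; exact b4) (by positivity)
    (by positivity) (le_of_mul_le_mul_left (le_trans (le_of_eq (by field_simp; ring)) b7)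
      (show 0 < ν ^ 3 * ν ^ 3 by positivity))
  obtain ⟨f1, f2⟩ := mem_filter.1 hf
  obtain ⟨f0, f1⟩ := mem_product.1 f1
  refine ⟨m0, sY f0, x0, sX f1, f2, (mem_filter.1 f1).2, X1.filter fun x => x ≠ x0 ∧ E m0 x ∧
    B x x0 ≠ 0 ∧ ν ^ 2 / K ^ 5 ≤ ∑ y ∈ Y, ind (Gd B X t m0 y ∧ B y x = 0),
    (filter_subset _ _).trans sX, ?_, fun x hx => (mem_filter.1 hx).2, ?_⟩
  · refine le_trans ?_ (mem_filter.1 f0).2
    rw [sum_ind]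
    exact Nat.cast_le.2 (Finset.card_le_card fun x hx =>
      mem_filter.2 ⟨sX (mem_filter.1 hx).1, hE _ _ (mem_filter.1 hx).2.2.1⟩)
  · have a1 : ∀ y, ∑ x ∈ X1, ind (T m0 y x0 ∧ T m0 y x) ≤ ind (B y x0 = 0)
        + ∑ x ∈ X1.filter fun x => x ≠ x0 ∧ E m0 x ∧ B x x0 ≠ 0 ∧
          ν ^ 2 / K ^ 5 ≤ ∑ y ∈ Y, ind (Gd B X t m0 y ∧ B y x = 0),
          ind (Gd B X t m0 y ∧ B y x0 = 0 ∧ B y x = 0) := by
      intro y
      rw [← Finset.add_sum_erase _ _ f1]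
      refine add_le_add (ind_mono fun e => e.1.2.2.2) ?_
      refine (sum_ind _ _).trans_le (le_trans ?_ (sum_ind _ _).ge)
      refine Nat.cast_le.2 (Finset.card_le_card fun x hx => ?_)
      obtain ⟨c1, c2, c3⟩ := mem_filter.1 hx
      obtain ⟨c0, c1⟩ := mem_erase.1 c1
      exact mem_filter.2 ⟨mem_filter.2 ⟨c1, c0, c3.2.2.1,
        h.no c3.2.1.1 (sX c1) (sX f1) c0 ⟨hE _ _ c3.2.2.1, c3.2.2.2⟩ ⟨f2, c2.2.2.2⟩, c3.1⟩, c2.2.1, c2.2.2.2, c3.2.2.2⟩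
    have a2 := b9.trans (Finset.sum_le_sum fun y _ => a1 y)
    rw [Finset.sum_add_distrib] at a2
    have a3 := (mem_filter.1 f1).2
    have a4 : K ^ 2 * ν ^ 2 ≤ ν ^ 3 / (32 * K ^ 6) := by
      rw [le_div_iff₀ (by positivity)]
      calc _ = 32 * K ^ 8 * ν ^ 2 := by ring
        _ ≤ K * K ^ 8 * ν ^ 2 := by gcongr; linarith
        _ = K ^ 9 * ν ^ 2 := by ring
        _ ≤ ν * ν ^ 2 := by gcongr
        _ = _ := by ring
    have a5 : ν ^ 3 / K ^ 8 ≤ ν ^ 3 / (32 * K ^ 6) := by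
      rw [show K ^ 8 = K ^ 2 * K ^ 6 by ring]
      gcongr; nlinarith
    have a6 : ν ^ 3 / (16 * K ^ 6) = 2 * (ν ^ 3 / (32 * K ^ 6)) := by field_simp; ring
    linarith

end Pool.Agent.P.MP_1d6da1_co.Sph
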