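import Pool.Agent.P.MP_1d6da1_co.Sph.AF6
import Pool.Agent.P.MP_1d6da1_co.Sph.AF3

namespace Pool.Agent.P.MP_1d6da1_co.Sph

open Finset Module

variable {F : Type} [Field F] {V : Type} [AddCommGroup V] [Module F V] {B : V →ₗ[F] V →ₗ[F] F}
  {X Y : Finset V} {t : ℕ}

open Classical in
theorem Cfg.lines (h : Cfg B X Y t) {m0 x0 : V} {P : Finset V} (hx : x0 ∈ X) (h0 : B m0 x0 = 0)
    (hP : P ⊆ X) (hP' : ∀ x ∈ P, x ≠ x0 ∧ B m0 x = 0) :
    ∃ (L : Finset (Finset V)) (r : Finset V → V), PLS P L (fun p l => p ∈ l) ∧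
      (L.card : ℝ) ≤ ∑ y ∈ Y, ind (B y x0 = 0) ∧
      (∀ l ∈ L, B (r l) x0 = 0 ∧ ∀ x, x ∈ l ↔ x ∈ P ∧ B (r l) x = 0) ∧
      ∑ y ∈ Y, ∑ x ∈ P, ind (Gd B X t m0 y ∧ B y x0 = 0 ∧ B y x = 0)
        ≤ ∑ y ∈ Y, ind (B y x0 = 0) + t * ∑ p ∈ P, ∑ l ∈ L, ind (p ∈ l) := by
  set tr : V → Finset V := fun y => P.filter fun x => B y x = 0 with htr
  set Lf := Y.filter fun y => Gd B X t m0 y ∧ B y x0 = 0 ∧ 1 < (tr y).card with hLf
  have ex : ∀ l : Finset V, ∃ y, l ∈ Lf.image tr → y ∈ Lf ∧ tr y = l := fun l => by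
    by_cases c : l ∈ Lf.image tr
    · obtain ⟨y, a, b⟩ := mem_image.1 c; exact ⟨y, fun _ => ⟨a, b⟩⟩
    · exact ⟨0, fun e => absurd e c⟩
  choose r hr using ex
  have sub : ∀ y ∈ Lf, ∀ y' ∈ Lf, ∀ p ∈ tr y, ∀ p' ∈ tr y, p ∈ tr y' → p' ∈ tr y' → p ≠ p' →
      tr y ⊆ tr y' := by
    intro y hy y' hy' p a p' a' b b' n x hx'
    obtain ⟨-, g, c, -⟩ := mem_filter.1 hy
    obtain ⟨a1, a2⟩ := mem_filter.1 a
    obtain ⟨a3, a4⟩ := mem_filter.1 a'
    exact mem_filter.2 ⟨(mem_filter.1 hx').1, h.circ g.1 hx (hP a1) (hP a3) (hP' p a1).1.symm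
      (hP' p' a3).1.symm n ⟨h0, c⟩ ⟨(hP' p a1).2, a2⟩ ⟨(hP' p' a3).2, a4⟩ (mem_filter.1 hy').2.2.1
      (mem_filter.1 b).2 (mem_filter.1 b').2 (hP' x (mem_filter.1 hx').1).2 (mem_filter.1 hx').2⟩
  refine ⟨Lf.image tr, r, ?_, ?_, fun l hl => ⟨(mem_filter.1 (hr l hl).1).2.2.1, fun x => ?_⟩, ?_⟩
  · intro l hl l' hl' p _ p' _ a b c d
    obtain ⟨y, hy, rfl⟩ := mem_image.1 hl
    obtain ⟨y', hy', rfl⟩ := mem_image.1 hl'
    refine or_iff_not_imp_right.2 fun n => ?_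
    exact subset_antisymm (sub y hy y' hy' p a p' c b d n) (sub y' hy' y hy p b p' d a c n)
  · rw [sum_ind]
    exact Nat.cast_le.2 (Finset.card_image_le.trans (Finset.card_le_card fun y hy =>
      mem_filter.2 ⟨(mem_filter.1 hy).1, (mem_filter.1 hy).2.2.1⟩))
  · conv_lhs => rw [← (hr l hl).2]
    exact mem_filter
  · have a1 : ∑ y ∈ Lf, ((tr y).card : ℝ) ≤ t * ∑ p ∈ P, ∑ l ∈ Lf.image tr, ind (p ∈ l) := by
      rw [Finset.sum_comp (fun l : Finset V => (l.card : ℝ)) tr, Finset.sum_comm, Finset.mul_sum]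
      refine Finset.sum_le_sum fun l hl => ?_
      obtain ⟨y, hy, rfl⟩ := mem_image.1 hl
      obtain ⟨-, g, c, d⟩ := mem_filter.1 hy
      obtain ⟨p, a, p', a', n⟩ := Finset.one_lt_card.1 d
      obtain ⟨a1, a2⟩ := mem_filter.1 a
      obtain ⟨a3, a4⟩ := mem_filter.1 a'
      have := h.few g hx (hP a1) (hP a3) (hP' p a1).1.symm (hP' p' a3).1.symm n ⟨h0, c⟩
        ⟨(hP' p a1).2, a2⟩ ⟨(hP' p' a3).2, a4⟩ (S := Lf.filter fun a => tr a = tr y)
        ((filter_subset _ _).trans (filter_subset _ _)) fun w hw => by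
          obtain ⟨w1, w2⟩ := mem_filter.1 hw
          rw [← w2] at a a'
          exact ⟨(mem_filter.1 w1).2.2.1, (mem_filter.1 a).2, (mem_filter.1 a').2⟩
      rw [nsmul_eq_mul, sum_ind, Finset.filter_mem_eq_inter,
        Finset.inter_eq_right.2 (filter_subset _ _)]
      gcongr
    refine le_trans ?_ (add_le_add le_rfl a1)
    rw [hLf, Finset.sum_filter, ← Finset.sum_add_distrib]
    refine Finset.sum_le_sum fun y _ => ?_
    by_cases c : Gd B X t m0 y ∧ B y x0 = 0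
    · simp only [c, true_and, ind_pos trivial]
      rw [sum_ind]
      split_ifs with d
      · exact le_add_of_nonneg_left zero_le_one
      · simpa using not_lt.1 d
    · rw [Finset.sum_eq_zero fun x _ => ind_neg fun e => c ⟨e.1, e.2.1⟩]
      exact add_nonneg (ind0 _) (by positivity)

theorem plane : ∃ c : ℕ, ∀ (F : Type) [Field F] (V : Type) [AddCommGroup V] [Module F V]
    (B : V →ₗ[F] V →ₗ[F] F) (X Y : Finset V) (t : ℕ) (ν K : ℝ) (m0 x0 : V) (P : Finset V),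
    Cfg B X Y t → m0 ∈ Y → x0 ∈ X → B m0 x0 = 0 → P ⊆ X → 2 ≤ K → (t : ℝ) ≤ K → K ^ c ≤ ν →
    ∑ y ∈ Y, ind (B y x0 = 0) ≤ K ^ 2 * ν ^ 2 → (P.card : ℝ) ≤ K ^ 2 * ν ^ 2 →
    (∀ x ∈ P, x ≠ x0 ∧ B m0 x = 0) →
    ν ^ 3 / K ^ 8 ≤ ∑ y ∈ Y, ∑ x ∈ P, ind (Gd B X t m0 y ∧ B y x0 = 0 ∧ B y x = 0) →
    ∃ (k : Subfield F) (R : Finset F) (ψ1 ψ2 ψ3 : V) (A : Finset V), A ⊆ P ∧
      (∀ x, x ∈ k ↔ x ∈ R) ∧ (R.card : ℝ) ≤ K ^ c * ν ∧ ν ^ 2 / K ^ c ≤ A.card ∧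
      Ind4 F m0 ψ1 ψ2 ψ3 ∧ B ψ1 x0 = 0 ∧ B ψ2 x0 = 0 ∧ B ψ3 x0 = 0 ∧
      ∀ p ∈ A, B ψ1 p ≠ 0 ∧ B ψ2 p / B ψ1 p ∈ k ∧ B ψ3 p / B ψ1 p ∈ k := by
  obtain ⟨c1, hc1⟩ := subplane
  refine ⟨13 * 42 * 2 * c1 + 13 * 42 + 2, ?_⟩
  intro F _ V _ _ B X Y t ν K m0 x0 P h hm hx h0 hP hK ht hν hd hc hP' hI
  classical
  have hB := h.nd
  have K0 : 0 < K := by linarith
  have K1 : 1 ≤ K := by linarith
  obtain ⟨W, hW⟩ : ∃ W, W = (K ^ 13) ^ 42 := ⟨_, rfl⟩
  obtain ⟨Z, hZ⟩ : ∃ Z, Z = (W ^ 2) ^ c1 := ⟨_, rfl⟩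
  have eK : K ^ (13 * 42 * 2 * c1 + 13 * 42 + 2) = Z * W * K ^ 2 := by
    rw [hZ, hW, pow_add, pow_add, pow_mul, pow_mul, pow_mul]
  rw [eK] at hν ⊢
  have k13 : K ^ 11 ≤ K ^ 13 := pow_le_pow_right₀ K1 (by norm_num)
  have k11 : (2048 : ℝ) ≤ K ^ 11 := le_trans (by norm_num) (pow_le_pow_left₀ (by norm_num) hK 11)
  have W1 : K ^ 13 ≤ W := hW ▸ le_self_pow₀ (by linarith) (by norm_num)
  have W4 : 4 ≤ W := by linarith
  have Z1 : 1 ≤ Z := hZ ▸ one_le_pow₀ (by nlinarith)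
  have K4 : 2 * K ≤ K ^ 2 := by nlinarith
  have ν1 : Z ≤ ν := le_trans (by nlinarith [mul_le_mul W4 K4 (by linarith) (by linarith)]) hν
  have ν2 : W ≤ ν := le_trans (by
    have : 1 * W * 1 ≤ Z * W * K ^ 2 := by gcongr; linarith
    linarith) hν
  have ν0 : 0 < ν := by linarith
  obtain ⟨L, r, l1, l2, l3, l4⟩ := h.lines hx h0 hP hP'
  obtain ⟨q0, hq, c0, m1, c1', m2, n01, i0, i1, d0, d1, L', sL, D, sD, p1, p2, p3, p4⟩ :=
    pencil l1 (n := K * ν) (K := K ^ 13) (by linarith) (by rw [← hW]; nlinarith)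
    (by rwa [mul_pow]) (by rw [mul_pow]; linarith) (by
      have a1 : K ^ 2 * ν ^ 2 ≤ ν ^ 3 / (2 * K ^ 8) := by
        rw [le_div_iff₀ (by positivity)]
        calc _ = 2 * K ^ 10 * ν ^ 2 := by ring
          _ ≤ K * K ^ 10 * ν ^ 2 := by gcongr
          _ = K ^ 11 * ν ^ 2 := by ring
          _ ≤ ν * ν ^ 2 := by gcongr; linarith
          _ = _ := by ring
      have a2 : ν ^ 3 / K ^ 8 = 2 * (ν ^ 3 / (2 * K ^ 8)) := by field_simp
      have a3 := mul_le_mul_of_nonneg_right ht (Finset.sum_nonneg fun p (_ : p ∈ P) =>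
        sum_ind_nonneg L fun l => p ∈ l)
      refine le_of_mul_le_mul_left (le_trans ?_ (show ν ^ 3 / (2 * K ^ 8) ≤ _ by linarith)) K0
      calc _ = ν ^ 3 / (K * K ^ 8) := by field_simp
        _ ≤ _ := by gcongr)
  rw [← hW] at p2 p4
  obtain ⟨n, hn⟩ : ∃ n, n = K * ν := ⟨_, rfl⟩
  rw [← hn] at d0 d1 p2 p3 p4
  have n1 : ν ≤ n := by nlinarith
  have n0 : 0 < n := by linarith
  have cl : ∀ l ∈ L, ∑ p ∈ P, ind (p ∈ l) = l.card := fun l hl => by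
    rw [sum_ind, Finset.filter_mem_eq_inter, Finset.inter_eq_right.2 fun x e =>
      (((l3 l hl).2 x).1 e).1]
  have pt : ∀ c ∈ D, ∃ l ∈ L', ∃ p ∈ P, p ∈ l ∧ p ∈ c := fun c hc => by
    by_contra e
    have := (p2 c hc).2.2.2.2
    rw [Finset.sum_eq_zero fun l hl => ind_neg fun x => e ⟨l, hl, x⟩] at this
    exact absurd this (not_le.2 (by positivity))
  obtain ⟨cs, hcs⟩ : D.Nonempty := by
    rw [← Finset.card_pos, ← Nat.cast_pos (α := ℝ)]
    exact lt_of_lt_of_le (by positivity) p4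
  obtain ⟨ls, hls, -⟩ := pt cs hcs
  have off : ∀ c ∈ L, ∀ c' ∈ L, c ≠ c' → q0 ∈ c → q0 ∈ c' → ∀ p ∈ c, p ≠ q0 → B (r c') p ≠ 0 :=
    fun c a c' a' n b b' p e n' z => by
      have pP := (((l3 c a).2 p).1 e).1
      exact (l1 c a c' a' p pP q0 hq e (((l3 c' a').2 p).2 ⟨pP, z⟩) b b').elim n n'
  have on : ∀ c ∈ L, ∀ p ∈ c, B (r c) p = 0 := fun c a p e => (((l3 c a).2 p).1 e).2
  have nq : ∀ l ∈ L', B (r l) q0 ≠ 0 := fun l hl z =>
    (p1 l hl).1 (((l3 l (sL hl)).2 q0).2 ⟨hq, z⟩)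
  have ne : ∀ l ∈ L', ∀ p ∈ l, p ≠ q0 := fun l hl p e z => (p1 l hl).1 (z ▸ e)
  set φ1 := r c1' with hφ1
  set φ2 := r c0 with hφ2
  set φ3 := r ls with hφ3
  have z1 : B φ1 q0 = 0 := on _ m2 _ i1
  have z2 : B φ2 q0 = 0 := on _ m1 _ i0
  have z3 : B φ3 q0 ≠ 0 := nq ls hls
  have i4 : Ind4 F m0 φ1 φ2 φ3 := by
    intro s a b c e
    obtain ⟨-, ⟨u, u1, u2, u3⟩, v, v1, v2, v3⟩ := p1 ls hls
    have e' := fun w => congrArg (fun z => B z w) e
    have hc : c = 0 := by simpa [(hP' q0 hq).2, z1, z2, z3] using e' q0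
    have w1 : B φ2 u = 0 := on _ m1 _ u3
    have w2 : B φ1 u ≠ 0 := off c0 m1 c1' m2 n01 i0 i1 u u3 (ne ls hls u u2)
    have w3 : B φ2 v ≠ 0 := off c1' m2 c0 m1 n01.symm i1 i0 v v3 (ne ls hls v v2)
    have ha : a = 0 := by simpa [(hP' u u1).2, hc, w1, w2] using e' u
    have hb : b = 0 := by simpa [(hP' v v1).2, hc, ha, w3] using e' v
    exact ⟨by simpa [ha, hb, hc, h.pY.1 m0 hm] using e, ha, hb, hc⟩
  have f1 : B φ1 x0 = 0 := (l3 _ m2).1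
  have f2 : B φ2 x0 = 0 := (l3 _ m1).1
  have f3 : B φ3 x0 = 0 := (l3 _ (sL hls)).1
  have rep : ∀ l ∈ L, ∃ a b c : F, ∀ x ∈ P, B (r l) x = a * B φ1 x + b * B φ2 x + c * B φ3 x := by
    intro l hl
    obtain ⟨s, a, b, c, e⟩ := sp14 hB h.dim (h.pX.1 x0 hx) i4 (w := r l) (by rw [hB.1, h0])
      (by rw [hB.1, f1]) (by rw [hB.1, f2]) (by rw [hB.1, f3]) (by rw [hB.1, (l3 l hl).1])
    exact ⟨a, b, c, fun x hx => by rw [e]; simp [(hP' x hx).2]⟩
  have e1 : ∀ l, ∃ b : F × F, l ∈ L' →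
      ∀ x, x ∈ l ↔ x ∈ P ∧ B φ3 x = b.1 * B φ1 x + b.2 * B φ2 x := by
    intro l
    by_cases hl : l ∈ L'
    · obtain ⟨a, b, c, e⟩ := rep l (sL hl)
      have hc : c ≠ 0 := fun z => nq l hl (by rw [e q0 hq, z1, z2, z]; ring)
      refine ⟨(-a / c, -b / c), fun _ x => ((l3 l (sL hl)).2 x).trans
        (and_congr_right fun hx => ?_)⟩
      rw [e x hx]
      constructor
      · intro z; field_simp; linear_combination z
      · intro z; rw [z]; field_simp; ring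
    · exact ⟨0, fun e => absurd e hl⟩
  choose b hb using e1
  have e2 : ∀ c, ∃ d : F, c ∈ D → d ≠ 0 ∧ ∀ x, x ∈ c ↔ x ∈ P ∧ B φ2 x = d * B φ1 x := by
    intro c
    by_cases hc : c ∈ D
    · obtain ⟨a, b, g, e⟩ := rep c (sD hc)
      obtain ⟨j1, j2, j3, -⟩ := p2 c hc
      obtain ⟨l, hl, p, u1, u2, u3⟩ := pt c hc
      have hg : g = 0 := by
        simpa [z1, z2, z3, on c (sD hc) q0 j1] using (e q0 hq).symm
      have y1 : B φ1 p ≠ 0 := off c (sD hc) c1' m2 j3 j1 i1 p u3 (ne l hl p u2)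
      have y2 : B φ2 p ≠ 0 := off c (sD hc) c0 m1 j2 j1 i0 p u3 (ne l hl p u2)
      have y3 := e p u1
      rw [on c (sD hc) p u3, hg] at y3
      have hb : b ≠ 0 := by
        intro z
        obtain ⟨-, ⟨u, w1, w2, w3⟩, -⟩ := p1 ls hls
        have ha : a = 0 := by simpa [z, y1] using y3
        exact off c0 m1 c (sD hc) j2.symm i0 j1 u w3 (ne ls hls u w2) (by
          rw [e u w1, ha, z, hg]; ring)
      refine ⟨-a / b, fun _ => ⟨div_ne_zero (neg_ne_zero.2 fun z => ?_) hb, fun x =>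
        ((l3 c (sD hc)).2 x).trans (and_congr_right fun hx => ?_)⟩⟩
      · simp [z, hb, y2] at y3
      · rw [e x hx, hg]
        constructor
        · intro z; field_simp; linear_combination z
        · intro z; rw [z]; field_simp; ring
    · exact ⟨0, fun e => absurd e hc⟩
  choose d hd' using e2
  have di : Set.InjOn d D := fun c a c' a' e => Finset.ext fun x => by
    rw [(hd' c a).2, (hd' c' a').2, e]
  set S : F → Finset F := fun δ => (P.filter fun x => B φ2 x = δ * B φ1 x ∧ B φ1 x ≠ 0).image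
    fun x => B φ3 x / B φ1 x with hS
  obtain ⟨k, R, e0, β, γ, u, g1, g2, g3, g4, g5⟩ := hc1 F (L'.image fun l => (b l).1)
    (L'.image fun l => (b l).2) (D.image d) S
    (fun δ x y => ∃ l ∈ L', b l = (x, y) ∧ ∃ p ∈ l, B φ2 p = δ * B φ1 p ∧ B φ1 p ≠ 0) (2 * n) (W ^ 2)
    (by nlinarith) (by rw [← hZ]; linarith) (by
      rw [cl c0 m1] at d0
      refine le_trans (Nat.cast_le.2 ((Finset.card_le_card (t := c0.image
        fun x => B φ3 x / B φ1 x) ?_).trans Finset.card_image_le)) d0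
      intro z hz
      obtain ⟨l, hl, rfl⟩ := mem_image.1 hz
      obtain ⟨-, ⟨p, -, u2, u3⟩, -⟩ := p1 l hl
      refine mem_image.2 ⟨p, u3, ?_⟩
      rw [((hb l hl p).1 u2).2, on c0 m1 p u3, mul_zero, add_zero,
        mul_div_cancel_right₀ _ (off c0 m1 c1' m2 n01 i0 i1 p u3 (ne l hl p u2))]) (by
      rw [cl c1' m2] at d1
      refine le_trans (Nat.cast_le.2 ((Finset.card_le_card (t := c1'.image
        fun x => B φ3 x / B φ2 x) ?_).trans Finset.card_image_le)) d1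
      intro z hz
      obtain ⟨l, hl, rfl⟩ := mem_image.1 hz
      obtain ⟨-, -, p, -, u2, u3⟩ := p1 l hl
      refine mem_image.2 ⟨p, u3, ?_⟩
      rw [((hb l hl p).1 u2).2, on c1' m2 p u3, mul_zero, zero_add,
        mul_div_cancel_right₀ _ (off c1' m2 c0 m1 n01.symm i1 i0 p u3 (ne l hl p u2))])
    (le_trans (Nat.cast_le.2 Finset.card_image_le) p3) (by
      intro δ hδ
      obtain ⟨c, hc, rfl⟩ := mem_image.1 hδ
      have := (p2 c hc).2.2.2.1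
      rw [cl c (sD hc)] at this
      refine le_trans (Nat.cast_le.2 (Finset.card_image_le.trans (Finset.card_le_card ?_))) this
      exact fun x hx => ((hd' c hc).2 x).2 ⟨(mem_filter.1 hx).1, (mem_filter.1 hx).2.1⟩) (by
      intro δ hδ
      obtain ⟨c, hc, rfl⟩ := mem_image.1 hδ
      exact (hd' c hc).1) (by
      rintro δ x y ⟨l, hl, e, p, u1, u2, u3⟩
      obtain ⟨v1, v2⟩ := (hb l hl p).1 u1
      refine mem_image.2 ⟨p, mem_filter.2 ⟨v1, u2, u3⟩, ?_⟩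
      rw [v2, e, u2]; field_simp) (by
      rw [Finset.card_image_of_injOn di]
      refine le_trans ?_ p4
      rw [div_le_div_iff₀ (by positivity) (by positivity)]
      nlinarith [mul_pos n0 (show 0 < W by linarith)]) (by
      intro δ hδ
      obtain ⟨c, hc, rfl⟩ := mem_image.1 hδ
      obtain ⟨j1, j2, j3, -, j5⟩ := p2 c hc
      refine le_trans (le_trans ?_ j5) ?_
      · rw [div_le_div_iff₀ (by positivity) (by positivity)]
        nlinarith [mul_pos (pow_pos n0 2) (show 0 < W by linarith)]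
      · rw [← Finset.sum_product', sum_ind, sum_ind]
        refine Nat.cast_le.2 (Finset.card_le_card_of_injOn b ?_ ?_)
        · intro l hl
          obtain ⟨hl, p, -, u2, u3⟩ := mem_filter.1 (mem_coe.1 hl)
          exact mem_coe.2 (mem_filter.2 ⟨mem_product.2 ⟨mem_image_of_mem _ hl,
            mem_image_of_mem _ hl⟩, l, hl, rfl, p, u2, (((hd' c hc).2 p).1 u3).2,
            off c (sD hc) c1' m2 j3 j1 i1 p u3 (ne l hl p u2)⟩)
        · intro l hl l' hl' e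
          ext x
          rw [hb l (mem_filter.1 (mem_coe.1 hl)).1, hb l' (mem_filter.1 (mem_coe.1 hl')).1, e])
  rw [← hZ] at g4 g5
  set ψ3 := u⁻¹ • (φ3 - β • φ1 - γ • φ2) with hψ3
  refine ⟨k, R, φ1, e0⁻¹ • φ2, ψ3, P.filter fun p => B φ1 p ≠ 0 ∧
    B (e0⁻¹ • φ2) p / B φ1 p ∈ k ∧ B ψ3 p / B φ1 p ∈ k, filter_subset _ _, g3, g4.trans ?_, ?_,
    ?_, f1, by simp [f2], by simp [hψ3, f1, f2, f3], fun p hp => (mem_filter.1 hp).2⟩
  · rw [hn]
    calc Z * (2 * (K * ν)) = Z * 1 * (2 * K) * ν := by ring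
      _ ≤ _ := by gcongr; linarith
  · refine le_trans (le_trans ?_ g5) ?_
    · gcongr
      · linarith
      · calc Z = Z * 1 * 1 := by ring
          _ ≤ _ := by gcongr <;> linarith
    · rw [Finset.sum_sigma', sum_ind]
      refine Nat.cast_le.2 (Finset.card_le_card_of_surjOn
        (fun p => ⟨B φ2 p / B φ1 p, B φ3 p / B φ1 p⟩) ?_)
      rintro ⟨δ, z⟩ hz
      obtain ⟨a1, a2, a3⟩ := mem_filter.1 (mem_coe.1 hz)
      obtain ⟨p, hp, rfl⟩ := mem_image.1 (mem_sigma.1 a1).2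
      obtain ⟨b1, b2, b3⟩ := mem_filter.1 hp
      have e : B φ2 p / B φ1 p = δ := by rw [b2, mul_div_cancel_right₀ _ b3]
      refine ⟨p, mem_coe.2 (mem_filter.2 ⟨b1, b3, ?_, ?_⟩), by simp only [e]⟩
      · convert a2 using 1
        simp only [map_smul, LinearMap.smul_apply, smul_eq_mul, b2]; field_simp
      · convert a3 using 1
        simp only [hψ3, map_smul, map_sub, LinearMap.smul_apply, LinearMap.sub_apply,
          smul_eq_mul, b2]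
        field_simp
  · intro s a b c e
    obtain ⟨a1, a2, a3, a4⟩ := i4 s (a - c * u⁻¹ * β) (b * e0⁻¹ - c * u⁻¹ * γ) (c * u⁻¹) (by
      rw [← e, hψ3]; module)
    have hc : c = 0 := by simpa [g2] using a4
    exact ⟨a1, by simpa [hc] using a2, by simpa [hc, g1] using a3, hc⟩

end Pool.Agent.P.MP_1d6da1_co.Sph
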