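import Pool.Agent.P.MP_1d6da1_co.Sph.Loc3

namespace Pool.Agent.P.MP_1d6da1_co.Sph

open Finset

variable {F : Type} [Field F] [Fintype F] {t : F}

/-- All traces of circles and all proper traces of lines occur on the triple. -/
def Tr (L : Finset (K F t × U F t)) (C : Finset (K F t × F)) (x y w : K F t) : Prop :=
  ∀ b1 b2 b3 : Prop,
    (∃ p ∈ C, (nm (x - p.1) = p.2 ↔ b1) ∧ (nm (y - p.1) = p.2 ↔ b2) ∧ (nm (w - p.1) = p.2 ↔ b3))
    ∧ (¬ (b1 ∧ b2 ∧ b3) → ∃ p ∈ L, (par p.2 (x - p.1) ↔ b1) ∧ (par p.2 (y - p.1) ↔ b2)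
      ∧ (par p.2 (w - p.1) ↔ b3))

theorem traces (ht : t ≠ 0) (h2 : (2 : F) ≠ 0) {L : Finset (K F t × U F t)}
    {C : Finset (K F t × F)} (hL : 3 * (Fintype.card F * Fintype.card (U F t)) < L.card)
    (hC : 3 * Fintype.card F ^ 2 < C.card) {x y w c : K F t} {θ1 θ2 θ3 : U F t}
    (nxy : nm (x - y) ≠ 0) (nxw : nm (x - w) ≠ 0) (nyw : nm (y - w) ≠ 0)
    (pxy : par θ1 (x - y)) (pxw : par θ2 (x - w)) (pyw : par θ3 (y - w))
    (n12 : θ1 ≠ θ2) (n13 : θ1 ≠ θ3) (n23 : θ2 ≠ θ3)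
    (hx1 : (x, θ1) ∈ L) (hx2 : (x, θ2) ∈ L) (hy3 : (y, θ3) ∈ L)
    (cx : (c, nm (x - c)) ∈ C) (cy : nm (y - c) = nm (x - c)) (cw : nm (w - c) = nm (x - c))
    (lx : ¬ pL L x) (ly : ¬ pL L y) (lw : ¬ pL L w) (kx : ¬ pC C x) (ky : ¬ pC C y)
    (kw : ¬ pC C w) (qxy : ¬ pP C x y) (qxw : ¬ pP C x w) (qyw : ¬ pP C y w) :
    Tr L C x y w := by
  have sw : ∀ a b : K F t, nm (a - b) ≠ 0 → nm (b - a) ≠ 0 := fun a b h => by
    rwa [← neg_sub, nm_neg]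
  have sp : ∀ (θ : U F t) (a b : K F t), par θ (a - b) → par θ (b - a) := fun θ a b h => by
    simpa using par_neg h
  have m1 : ¬ par θ1 (x - w) := fun h => n12 (par_unique nxw h pxw)
  have m2 : ¬ par θ2 (x - y) := fun h => n12 (par_unique nxy pxy h)
  have m3 : ¬ par θ3 (y - x) := fun h => n13 (par_unique (sw _ _ nxy) (sp _ _ _ pxy) h)
  intro b1 b2 b3
  by_cases h1 : b1 <;> by_cases h2' : b2 <;> by_cases h3 : b3 <;>
    simp only [h1, h2', h3, iff_true, iff_false, and_self, not_true, not_false_iff, and_true,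
      and_false, true_and, false_imp_iff, true_imp_iff]
  · exact ⟨_, cx, rfl, cy, cw⟩
  · exact ⟨circ2 ht h2 qxy nxy pxy m1 cy cw, line2 hx1 pxy m1⟩
  · obtain ⟨p, hp, a, b, d⟩ := circ2 ht h2 qxw nxw pxw m2 cw cy
    obtain ⟨p', hp', a', b', d'⟩ := line2 hx2 pxw m2
    exact ⟨⟨p, hp, a, d, b⟩, p', hp', a', d', b'⟩
  · exact ⟨circ1 h2 kx nxy nxw, line1 lx nxy nxw pxy pxw⟩
  · obtain ⟨p, hp, a, b, d⟩ := circ2 ht h2 qyw nyw pyw m3 (cw.trans cy.symm) cy.symm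
    obtain ⟨p', hp', a', b', d'⟩ := line2 hy3 pyw m3
    exact ⟨⟨p, hp, d, a, b⟩, p', hp', d', a', b'⟩
  · obtain ⟨p, hp, a, b, d⟩ := circ1 h2 ky (sw _ _ nxy) nyw
    obtain ⟨p', hp', a', b', d'⟩ := line1 ly (sw _ _ nxy) nyw (sp _ _ _ pxy) pyw
    exact ⟨⟨p, hp, b, a, d⟩, p', hp', b', a', d'⟩
  · obtain ⟨p, hp, a, b, d⟩ := circ1 h2 kw (sw _ _ nxw) (sw _ _ nyw)
    obtain ⟨p', hp', a', b', d'⟩ := line1 lw (sw _ _ nxw) (sw _ _ nyw) (sp _ _ _ pxw)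
      (sp _ _ _ pyw)
    exact ⟨⟨p, hp, b, d, a⟩, p', hp', b', d', a'⟩
  · exact ⟨circ0 C hC x y w, line0 ht h2 L hL x y w⟩

theorem twelve {x a1 a2 a3 a4 a5 a6 a7 a8 a9 a10 a11 a12 : Prop}
    (h : x → a1 ∨ a2 ∨ a3 ∨ a4 ∨ a5 ∨ a6 ∨ a7 ∨ a8 ∨ a9 ∨ a10 ∨ a11 ∨ a12) :
    ind x ≤ ind a1 + ind a2 + ind a3 + ind a4 + ind a5 + ind a6 + ind a7 + ind a8 + ind a9
      + ind a10 + ind a11 + ind a12 := by
  have := ind0 a1; have := ind0 a2; have := ind0 a3; have := ind0 a4; have := ind0 a5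
  have := ind0 a6; have := ind0 a7; have := ind0 a8; have := ind0 a9; have := ind0 a10
  have := ind0 a11; have := ind0 a12
  by_cases hx : x
  · rw [ind_pos hx]
    rcases h hx with h | h | h | h | h | h | h | h | h | h | h | h <;>
      linarith [ind_pos h]
  · rw [ind_neg hx]; linarith

theorem loc (ht : t ≠ 0) (h2 : (2 : F) ≠ 0) (A : Finset (K F t)) (L : Finset (K F t × U F t))
    (C : Finset (K F t × F)) (hinv : ∀ y z θ, par θ z → (y, θ) ∈ L → (y + z, θ) ∈ L)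
    (hC : ∀ p ∈ C, p.2 ≠ 0)
    (hc : ∀ p ∈ C, ∀ z, nm z = p.2 → ∀ r ∈ L, ∃ s, r.2 = tau z * s * s)
    (hbig : 81 ^ 4 * (Fintype.card F : ℝ) ^ 23 < ((A.card / (Fintype.card F : ℝ) ^ 2) ^ 3
      * C.card * (L.card / (Fintype.card F : ℝ) ^ 2) ^ 3) ^ 4) :
    ∃ x ∈ A, ∃ y ∈ A, ∃ w ∈ A, x ≠ y ∧ x ≠ w ∧ y ≠ w ∧ Tr L C x y w := by
  classical
  by_contra hno
  have c4 := uq_le (F := F) (t := t)
  have c5 := one_le_q (F := F)
  have b1 := bd1 (F := F) (t := t)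
  have b2 := bd2 L
  have b3 := bd3 C
  have b4 := bd4 C
  have hcnt := cnt_C ht h2 C hC
  have hA : (A.card : ℝ) ≤ (Fintype.card F : ℝ) ^ 2 := by
    have := Finset.card_le_univ A
    rw [card_K] at this; exact_mod_cast this
  have hCq : (C.card : ℝ) ≤ (Fintype.card F : ℝ) ^ 3 := by
    have := Finset.card_le_univ C
    rw [Fintype.card_prod, card_K, ← pow_succ] at this; exact_mod_cast this
  have hLq : (L.card : ℝ) ≤ (Fintype.card F : ℝ) ^ 2 * Fintype.card (U F t) := by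
    have := Finset.card_le_univ L
    rw [Fintype.card_prod, card_K] at this; exact_mod_cast this
  have hu1 : (1 : ℝ) ≤ Fintype.card (U F t) := by exact_mod_cast Fintype.card_pos
  have hinv' : ∀ y z θ, par θ z → ind ((y + z, θ) ∈ L) = ind ((y, θ) ∈ L) := by
    intro y z θ hz
    congr 1
    refine propext ⟨fun h => ?_, hinv y z θ hz⟩
    simpa using hinv _ _ _ (par_neg hz) h
  have main := fun R hR hq => loc1 ht h2 (R := R) hR hq (fun y => ind (y ∈ A))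
    (fun y θ => ind ((y, θ) ∈ L)) (fun ω => ind ((ω.1, nm ω.2) ∈ C)) (fun _ => ind0 _)
    (fun _ => ind1 _) (fun _ _ => ind0 _) (fun _ _ => ind1 _) (fun _ => ind0 _) (fun _ => ind1 _)
    hinv' (by
      intro ω _ h y θ h'
      refine hc (ω.1, nm ω.2) ?_ _ rfl (y, θ) ?_
      · by_contra h0; exact h (ind_neg h0)
      · by_contra h0; exact h' (ind_neg h0))
  have eA : ∑ y, ind (y ∈ A) = A.card := by rw [sum_ind]; simp
  have eL : ∑ θ, (∑ y, ind ((y, θ) ∈ L)) / (Fintype.card F : ℝ) ^ 2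
      = L.card / (Fintype.card F : ℝ) ^ 2 := by
    rw [← Finset.sum_div, Finset.sum_comm, ← Fintype.sum_prod_type', sum_ind]; simp
  simp only [eA, eL] at main
  have hLn : (3 * (Fintype.card F * Fintype.card (U F t)) : ℝ) < L.card →
    3 * (Fintype.card F * Fintype.card (U F t)) < L.card := fun h => by exact_mod_cast h
  have hCn : (3 * Fintype.card F ^ 2 : ℝ) < C.card →
    3 * Fintype.card F ^ 2 < C.card := fun h => by exact_mod_cast h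
  set u : ℝ := (Fintype.card (U F t) : ℝ)
  set q : ℝ := (Fintype.card F : ℝ)
  set α : ℝ := A.card / q ^ 2 with hα
  set lam : ℝ := L.card / q ^ 2 with hlam
  have hq0 : 0 < q := by linarith
  have α0 : 0 ≤ α := by positivity
  have α1 : α ≤ 1 := (div_le_one (by positivity)).2 hA
  have lam0 : 0 ≤ lam := by positivity
  have lam1 : lam ≤ 2 * q := by
    rw [hlam, div_le_iff₀ (by positivity)]; nlinarith [pow_pos hq0 2]
  have C0 : (0 : ℝ) ≤ C.card := Nat.cast_nonneg _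
  set X : ℝ := α ^ 3 * C.card * lam ^ 3 with hX
  have X0 : 0 ≤ X := by positivity
  have hR : q ^ 23 < (X / 81) ^ 4 := by rw [div_pow, lt_div_iff₀ (by norm_num)]; linarith
  have hR5 : q ^ 5 < X / 81 := by
    refine lt_of_pow_lt_pow_left₀ 4 (by positivity) (lt_of_le_of_lt ?_ hR)
    rw [← pow_mul]; exact pow_le_pow_right₀ c5 (by norm_num)
  have α3 : α ^ 3 ≤ 1 := pow_le_one₀ α0 α1
  have hL' : 3 * (q * u) < L.card := by
    have e1 : X ≤ 1 * q ^ 3 * (lam * (2 * q) ^ 2) := by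
      rw [hX, pow_succ' lam]; gcongr
    have e2 : 6 < lam := by
      by_contra h
      have : lam * q ^ 5 ≤ 6 * q ^ 5 := by gcongr; linarith
      nlinarith [pow_pos hq0 5]
    rw [hlam, lt_div_iff₀ (by positivity)] at e2
    nlinarith
  have hC' : 3 * q ^ 2 < C.card := by
    have e1 : X ≤ 1 * C.card * (2 * q) ^ 3 := by rw [hX]; gcongr
    by_contra h
    have : (C.card : ℝ) * q ^ 3 ≤ 3 * q ^ 2 * q ^ 3 := by gcongr; linarith
    nlinarith [pow_pos hq0 5]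
  have lo := main (X / 81) (by positivity) hR.le
  have lo2 : u * X ≤ α ^ 3 * (∑ ω ∈ Om F t, ind ((ω.1, nm ω.2) ∈ C)) * lam ^ 3 :=
    calc u * X = α ^ 3 * (u * C.card) * lam ^ 3 := by rw [hX]; ring
      _ ≤ _ := by gcongr
  have up : (Sm fun ω a b c => ind ((ω.1, nm ω.2) ∈ C) * ind (pt ω a ∈ A) * ind (pt ω b ∈ A)
      * ind (pt ω c ∈ A) * ind ((pt ω b, an ω a b) ∈ L) * ind ((pt ω c, an ω a c) ∈ L)
      * ind ((pt ω c, an ω b c) ∈ L)) ≤ Sm fun ω a b c => ind (a = b) + ind (a = c) + ind (b = c)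
      + ind (pL L (pt ω a) ∧ (pt ω a, an ω a b) ∈ L ∧ (pt ω a, an ω a c) ∈ L)
      + ind (pL L (pt ω b) ∧ (pt ω b, an ω b a) ∈ L ∧ (pt ω b, an ω b c) ∈ L)
      + ind (pL L (pt ω c) ∧ (pt ω c, an ω c a) ∈ L ∧ (pt ω c, an ω c b) ∈ L)
      + ind (pP C (pt ω a) (pt ω b) ∧ (ω.1, nm ω.2) ∈ C)
      + ind (pP C (pt ω a) (pt ω c) ∧ (ω.1, nm ω.2) ∈ C)
      + ind (pP C (pt ω b) (pt ω c) ∧ (ω.1, nm ω.2) ∈ C)
      + ind (pC C (pt ω a) ∧ (ω.1, nm ω.2) ∈ C) + ind (pC C (pt ω b) ∧ (ω.1, nm ω.2) ∈ C)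
      + ind (pC C (pt ω c) ∧ (ω.1, nm ω.2) ∈ C) := by
    refine Sm_mono fun ω hω a b c => ?_
    simp only [← ind_and]
    refine twelve ?_
    rintro ⟨⟨⟨⟨⟨⟨k0, ka⟩, kb⟩, kc⟩, lb⟩, lc⟩, lc'⟩
    have hz := mem_Om.1 hω
    have pc : ∀ a b, par (an ω a b) (pt ω a - pt ω b) := fun a b => by
      have := par_chord hz a b
      unfold pt an
      rwa [add_sub_add_left_eq_sub]
    have tr : ∀ a b, (pt ω b, an ω a b) ∈ L → (pt ω a, an ω a b) ∈ L := fun a b h => by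
      simpa using hinv _ _ _ (pc a b) h
    have nn : ∀ a b, a ≠ b → nm (pt ω a - pt ω b) ≠ 0 := fun a b h => by
      have : pt ω a - pt ω b = ω.2 * ((a : K F t) - b) := by unfold pt; ring
      rw [this, nm_mul]
      exact mul_ne_zero hz (norm_sub_ne ht h2 h)
    have ne : ∀ a b, a ≠ b → pt ω a ≠ pt ω b := fun a b h e =>
      nn a b h (by rw [e, sub_self, nm_zero])
    have dd : ∀ a b c, b ≠ c → an ω a b ≠ an ω a c := fun a b c h e => h (mul_left_cancel e)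
    by_contra hn
    simp only [not_or, not_and] at hn
    obtain ⟨n1, n2, n3, n4, n5, n6, n7, n8, n9, n10, n11, n12⟩ := hn
    refine hno ⟨_, ka, _, kb, _, kc, ne _ _ n1, ne _ _ n2, ne _ _ n3, ?_⟩
    refine traces ht h2 (hLn hL') (hCn hC') (c := ω.1) (nn _ _ n1) (nn _ _ n2) (nn _ _ n3)
      (pc a b) (pc a c) (pc b c) (dd _ _ _ n3) ?_ ?_ (tr _ _ lb) (tr _ _ lc) (tr _ _ lc')
      (by rwa [nm_pt]) (by rw [nm_pt, nm_pt]) (by rw [nm_pt, nm_pt])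
      (fun h => n4 h (tr _ _ lb) (tr _ _ lc)) (fun h => n5 h (an_comm ω a b ▸ lb) (tr _ _ lc'))
      (fun h => n6 h (an_comm ω a c ▸ lc) (an_comm ω b c ▸ lc')) (fun h => n10 h k0)
      (fun h => n11 h k0) (fun h => n12 h k0) (fun h => n7 h k0) (fun h => n8 h k0)
      (fun h => n9 h k0)
    · rw [an_comm ω a b]; exact dd _ _ _ n2
    · rw [an_comm ω a c, an_comm ω b c]; exact dd _ _ _ n1
  simp only [Sm_add] at up
  have s1 := Sm_sw23 (t := t) (fun _ a b _ => ind (a = b))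
  have s2 := Sm_rot' (t := t) (fun _ a b _ => ind (a = b))
  have s3 := Sm_sw12
    (fun ω a b c => ind (pL L (pt ω a) ∧ (pt ω a, an ω a b) ∈ L ∧ (pt ω a, an ω a c) ∈ L))
  have s4 := Sm_rot
    (fun ω a b c => ind (pL L (pt ω a) ∧ (pt ω a, an ω a b) ∈ L ∧ (pt ω a, an ω a c) ∈ L))
  have s5 := Sm_sw23 (fun ω a b _ => ind (pP C (pt ω a) (pt ω b) ∧ (ω.1, nm ω.2) ∈ C))
  have s6 := Sm_rot' (fun ω a b _ => ind (pP C (pt ω a) (pt ω b) ∧ (ω.1, nm ω.2) ∈ C))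
  have s7 := Sm_sw12 (fun ω a _ _ => ind (pC C (pt ω a) ∧ (ω.1, nm ω.2) ∈ C))
  have s8 := Sm_rot (fun ω a _ _ => ind (pC C (pt ω a) ∧ (ω.1, nm ω.2) ∈ C))
  rw [← s1, ← s2, ← s3, ← s4, ← s5, ← s6, ← s7, ← s8] at up
  have d1 : q ^ 4 * u ^ 2 ≤ 2 * (u * q ^ 5) :=
    calc q ^ 4 * u ^ 2 = q ^ 4 * u * u := by ring
      _ ≤ q ^ 4 * u * (2 * q) := by gcongr
      _ = _ := by ring
  have d2 : q ^ 4 * (u * 4) ≤ 4 * (u * q ^ 5) :=
    calc q ^ 4 * (u * 4) = 4 * (u * q ^ 4) := by ring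
      _ ≤ _ := by gcongr; norm_num
  have d3 : 2 * q ^ 3 * u ^ 3 ≤ 8 * (u * q ^ 5) :=
    calc 2 * q ^ 3 * u ^ 3 = 2 * q ^ 3 * u * u ^ 2 := by ring
      _ ≤ 2 * q ^ 3 * u * (2 * q) ^ 2 := by gcongr
      _ = _ := by ring
  have d4 : u * q ^ 5 < u * (X / 81) := by gcongr
  nlinarith

end Pool.Agent.P.MP_1d6da1_co.Sph
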