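import Pool.Agent.P.MP_1d6da1_co.Sph.Frame
import Pool.Agent.P.MP_1d6da1_co.Sph.Loc4

namespace Pool.Agent.P.MP_1d6da1_co.Sph

open Finset
open QuadraticAlgebra (re_smul im_smul re_sub im_sub re_add im_add)

section
variable {F : Type} [Field F] {V : Type} [AddCommGroup V] [Module F V]

/-- Every proper subset of `T` is cut out by a member of `M`. -/
def Sh (B : V →ₗ[F] V →ₗ[F] F) (M T : Finset V) : Prop :=
  ∀ I : Finset V, I ⊂ T → ∃ m ∈ M, ∀ x ∈ T, B m x = 0 ↔ x ∈ I

theorem iso_perp [Fintype F] [Fintype V] [DecidableEq F] {B : V →ₗ[F] V →ₗ[F] F} (hB : Nd B)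
    (h2 : (2 : F) ≠ 0) (S : Finset V) (e : V) (he : B e e ≠ 0)
    (hS : ∀ v ∈ S, ∀ s : F, v + s • e ∈ S) (hS' : ∀ (s : F) v, s ≠ 0 → (s • v ∈ S ↔ v ∈ S))
    {A : Finset V} (hA : Pd F A) (hi : ∀ x ∈ A, B x x = 0) (hAS : A ⊆ S) :
    (Fintype.card F : ℝ) ^ 2 * A.card ≤ 3 * S.card := by
  classical
  have h1 := sum_proj_le hA (fun v => ind (v ∈ S ∧ B v v = 0)) (fun _ => ind0 _) (by
    intro s v hs
    simp [hS' s v hs, hs])
  rw [Finset.sum_congr rfl fun y hy => ind_pos ⟨hAS hy, hi y hy⟩, sum_ind] at h1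
  have h3 : (Fintype.card F : ℝ) * (S.filter fun v => B v v = 0).card ≤ 2 * S.card := by
    exact_mod_cast iso_count hB S e he hS 0
  have h4 : (3 : ℝ) ≤ Fintype.card F := by exact_mod_cast three_le_card h2
  have e1 : (univ.filter fun v => v ∈ S ∧ B v v = 0) = S.filter fun v => B v v = 0 := by
    ext; simp
  rw [e1, Finset.sum_const, nsmul_eq_mul, mul_one] at h1
  have h5 : (0 : ℝ) ≤ A.card := Nat.cast_nonneg _
  set q : ℝ := (Fintype.card F : ℝ)
  have h6 : q * ((q - 1) * A.card) ≤ 2 * S.card :=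
    (mul_le_mul_of_nonneg_left h1 (by linarith)).trans h3
  nlinarith [mul_nonneg (mul_nonneg h5 (by linarith : 0 ≤ q)) (by linarith : 0 ≤ q - 3)]

theorem ex_aniso {B : V →ₗ[F] V →ₗ[F] F} (hB : Nd B) (h2 : (2 : F) ≠ 0) {x : V} (hx : x ≠ 0) :
    ∃ e, B e e ≠ 0 := by
  obtain ⟨y, hy⟩ := hB.2 x hx
  obtain ⟨e, -, h⟩ := aniso_of hB h2 (fun _ => True) (fun _ _ _ _ => trivial) trivial trivial hy
  exact ⟨e, h⟩

end

/-- The symmetric statement in dimension `n` with constant `C`. -/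
def Sym (n : ℕ) (C : ℝ) : Prop :=
  ∀ (F : Type) [Field F] [Fintype F] (V : Type) [AddCommGroup V] [Module F V] [Fintype V]
    (B : V →ₗ[F] V →ₗ[F] F), (2 : F) ≠ 0 → Nd B → Fintype.card V = Fintype.card F ^ n →
    ∀ δ : ℝ, 0 < δ → C ≤ δ ^ 28 * Fintype.card F → ∀ A M : Finset V, Pd F A →
      (∀ x ∈ A, B x x = 0) → δ * (Fintype.card F : ℝ) ^ n ≤ A.card * (Fintype.card F : ℝ) ^ 2 →
      δ * (Fintype.card F : ℝ) ^ n ≤ M.card → ∃ T ⊆ A, T.card = n ∧ Sh B M T

theorem del_le {δ q C : ℝ} (h0 : 0 < δ) (h1 : δ ≤ 1) (hq : 0 ≤ q) (h : C ≤ δ ^ 28 * q) (k : ℕ)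
    (hk : k ≤ 28) : C ≤ δ ^ k * q :=
  h.trans (mul_le_mul_of_nonneg_right (pow_le_pow_of_le_one h0.le h1 hk) hq)

theorem card_lines {F : Type} [Field F] [Fintype F] {t : F} {α : Type} (ht : t ≠ 0)
    (h2 : (2 : F) ≠ 0) {k : F} (hk : k ≠ 0) (M : Finset α) (a : α → F) (b : α → K F t)
    (hb : ∀ m ∈ M, nm (b m) ≠ 0) (hi : ∀ m ∈ M, ∀ m' ∈ M, a m = a m' → b m = b m' → m = m')
    (L : Finset (K F t × U F t))
    (hL : ∀ m ∈ M, ∀ y, a m + k * ip (b m) y = 0 → (y, tau (b m)) ∈ L) : M.card ≤ L.card := by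
  classical
  have := Finset.card_mul_le_card_mul (s := M) (t := L) (m := Fintype.card F)
    (n := Fintype.card F) (fun m r => r.2 = tau (b m) ∧ a m + k * ip (b m) r.1 = 0) (by
      intro m hm
      have h1 := trans_count (F := F) (univ : Finset (K F t)) ((nm (b m))⁻¹ • b m)
        (fun y => ip (b m) y) (-a m / k) (fun _ _ _ => mem_univ _) (by
          intro v s
          have := hb m hm
          simp only [ip, re_add, im_add, re_smul, im_smul, smul_eq_mul]
          field_simp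
          rw [nrm]; ring)
      rw [Finset.card_univ, card_K, sq] at h1
      rw [← Nat.eq_of_mul_eq_mul_left Fintype.card_pos h1]
      refine Finset.card_le_card_of_injOn (fun y => (y, tau (b m))) ?_
        fun y _ y' _ e => (Prod.ext_iff.1 e).1
      intro y hy
      simp only [coe_filter, mem_univ, true_and, Set.mem_ofPred_eq] at hy
      have e : a m + k * ip (b m) y = 0 := by rw [hy]; field_simp; ring
      exact mem_coe.2 ((Finset.mem_bipartiteAbove _).2 ⟨hL m hm y e, rfl, e⟩)) (by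
      intro r _
      refine le_trans (Finset.card_le_card_of_injOn b ?_ ?_) (card_par_le ht h2 (-r.2))
      · intro m hm
        obtain ⟨h1, h3, -⟩ := (Finset.mem_bipartiteBelow _).1 (mem_coe.1 hm)
        simp only [coe_filter, mem_univ, true_and, Set.mem_ofPred_eq]
        rw [h3]; exact par_neg_tau (hb m h1)
      · intro m hm m' hm' e
        obtain ⟨h1, -, h3⟩ := (Finset.mem_bipartiteBelow _).1 (mem_coe.1 hm)
        obtain ⟨h1', -, h3'⟩ := (Finset.mem_bipartiteBelow _).1 (mem_coe.1 hm')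
        refine hi m h1 m' h1' ?_ e
        rw [e] at h3
        linear_combination h3 - h3')
  exact Nat.le_of_mul_le_mul_right this Fintype.card_pos

theorem base : Sym 4 (2 ^ 88) := by
  intro F _ _ V _ _ _ B h2 hB hV δ hδ hC A M hA hiso hAc hMc
  classical
  have hq1 := one_le_q (F := F)
  have hVr : (Fintype.card V : ℝ) = (Fintype.card F : ℝ) ^ 4 := by exact_mod_cast hV
  have hMV : (M.card : ℝ) ≤ (Fintype.card F : ℝ) ^ 4 := by
    rw [← hVr]; exact_mod_cast Finset.card_le_univ M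
  have hδ1 : δ ≤ 1 := le_of_mul_le_mul_right (by linarith) (pow_pos (by linarith) 4 :
    (0 : ℝ) < (Fintype.card F : ℝ) ^ 4)
  have d1 := del_le hδ hδ1 (by linarith) hC 1 (by norm_num)
  have d2 := del_le hδ hδ1 (by linarith) hC 2 (by norm_num)
  rw [pow_one] at d1
  have hA2 : δ * (Fintype.card F : ℝ) ^ 2 ≤ A.card :=
    le_of_mul_le_mul_right (a := (Fintype.card F : ℝ) ^ 2) (by linarith) (by positivity)
  obtain ⟨z, hz⟩ : A.Nonempty := by
    rw [← Finset.card_pos, ← Nat.cast_pos (α := ℝ)]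
    exact lt_of_lt_of_le (by positivity) hA2
  obtain ⟨e, he⟩ := ex_aniso hB h2 (hA.1 z hz)
  have i1 : (Fintype.card F : ℝ) * (univ.filter fun v => B v v = 0).card
      ≤ 2 * (Fintype.card F : ℝ) ^ 4 := by
    rw [← hVr]; exact_mod_cast iso_count hB univ e he (fun _ _ _ => mem_univ _) 0
  have i2 : ((M.filter fun v => B v v = 0).card : ℝ) ≤ (univ.filter fun v => B v v = 0).card := by
    exact_mod_cast Finset.card_le_card (filter_subset_filter _ (subset_univ M))
  have i3 : ((M.filter fun v => B v v = 0).card : ℝ) + (M.filter fun v => ¬ B v v = 0).card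
    = M.card := by exact_mod_cast Finset.card_filter_add_card_filter_not (s := M) _
  obtain ⟨M1, hM1, i4, hsq⟩ := class_split (M.filter fun v => ¬ B v v = 0) (fun v => B v v)
    fun m hm => (mem_filter.1 hm).2
  have i4' : ((M.filter fun v => ¬ B v v = 0).card : ℝ) ≤ 2 * M1.card := by exact_mod_cast i4
  have hM1M : ∀ m ∈ M1, m ∈ M ∧ B m m ≠ 0 := fun m hm => mem_filter.1 (hM1 hm)
  have hk1 : ∀ x ∈ A, (Fintype.card F : ℝ) * (univ.filter fun m => B m x = 0).card
      = (Fintype.card F : ℝ) ^ 4 := fun x hx => by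
    rw [← hVr]; exact_mod_cast card_ker hB (hA.1 x hx)
  have hrich := ex_rich hB hA M1
  rw [hVr] at hrich
  set q : ℝ := (Fintype.card F : ℝ) with hq
  have q0 : 0 < q := by linarith
  have q2 := pow_pos q0 2
  have q3 := pow_pos q0 3
  have i5 : ((univ.filter fun v => B v v = 0).card : ℝ) ≤ 2 * q ^ 3 :=
    le_of_mul_le_mul_left (a := q) (by linarith) q0
  have i6 : δ * q ^ 4 / 4 ≤ M1.card := by nlinarith
  obtain ⟨x0, hx0, i7⟩ := hrich (by
    calc 4 * q * q ^ 4 = 16 * q ^ 5 / 4 := by ring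
      _ ≤ (δ ^ 2 * q) * q ^ 5 / 4 := by gcongr; linarith
      _ = δ * q ^ 4 / 4 * (δ * q ^ 2) := by ring
      _ ≤ _ := by gcongr)
  set ML := M1.filter fun m => B m x0 = 0 with hML
  set MC := M1.filter fun m => ¬ B m x0 = 0 with hMC
  have j1 : δ * q ^ 3 / 8 ≤ ML.card := by
    refine le_trans ?_ i7
    rw [le_div_iff₀ (by positivity)]; linarith
  have k1 : ((univ.filter fun m => B m x0 = 0).card : ℝ) = q ^ 3 :=
    mul_left_cancel₀ q0.ne' (by rw [hk1 x0 hx0]; ring)
  have j2 : δ * q ^ 4 / 8 ≤ MC.card := by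
    have a1 : (ML.card : ℝ) + MC.card = M1.card := by
      exact_mod_cast Finset.card_filter_add_card_filter_not (s := M1) _
    have a2 : (ML.card : ℝ) ≤ (univ.filter fun m => B m x0 = 0).card := by
      exact_mod_cast Finset.card_le_card (filter_subset_filter _ (subset_univ M1))
    nlinarith
  obtain ⟨m0, hm0⟩ : ML.Nonempty := by
    rw [← Finset.card_pos, ← Nat.cast_pos (α := ℝ)]
    exact lt_of_lt_of_le (by positivity) j1
  set A' := A.filter fun x => ¬ B x x0 = 0 with hA'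
  have j3 : δ * q ^ 2 / 2 ≤ A'.card := by
    have a1 : ((A.filter fun x => B x x0 = 0).card : ℝ) + A'.card = A.card := by
      exact_mod_cast Finset.card_filter_add_card_filter_not (s := A) _
    have a2 := iso_perp hB h2 (univ.filter fun m => B m x0 = 0) m0
      (hM1M _ (mem_filter.1 hm0).1).2 (fun v hv s => by simpa [(mem_filter.1 hm0).2] using hv)
      (fun s v hs => by simp [hs]) (hA.mono (filter_subset (fun x => B x x0 = 0) A))
      (fun x hx => hiso x (mem_filter.1 hx).1) (filter_subset_filter _ (subset_univ A))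
    rw [k1, ← hq] at a2
    have a3 : ((A.filter fun x => B x x0 = 0).card : ℝ) ≤ 3 * q :=
      le_of_mul_le_mul_left (a := q ^ 2) (by linarith) q2
    nlinarith
  obtain ⟨k, t, a, b, hk, ht, hf⟩ := frame hB h2 hV (hA.1 x0 hx0) (hiso x0 hx0)
  have nb : ∀ m ∈ ML, B m m = k * nm (b m) := fun m hm => by
    rw [hf m m, (mem_filter.1 hm).2, ip_self]; ring
  have nb0 : ∀ m ∈ ML, nm (b m) ≠ 0 := fun m hm h =>
    (hM1M m (mem_filter.1 hm).1).2 (by rw [nb m hm, h, mul_zero])
  set p : V → K F t := fun x => (B x x0)⁻¹ • b x with hp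
  have pinj : Set.InjOn p A' := by
    intro x hx y hy h
    obtain ⟨x1, x2⟩ := mem_filter.1 hx
    obtain ⟨y1, y2⟩ := mem_filter.1 hy
    exact hA.2 x x1 y y1 _ (fr_eq hB h2 hf x2 y2 h (by rw [hiso x x1, hiso y y1]; simp))
  set C := MC.image fun m => (p m, B m m / (k * (B m x0) ^ 2)) with hCd
  set L : Finset (K F t × U F t) :=
    univ.filter fun r => ∃ m ∈ ML, r.2 = tau (b m) ∧ a m + k * ip (b m) r.1 = 0 with hLd
  have l1 : (ML.card : ℝ) ≤ L.card := by
    have := card_lines ht h2 hk ML a b nb0 (fun m hm m' hm' e1 e2 => by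
      simpa using fr_inj hB hf (s := 1) (by simpa using e1) (by simpa using e2)
        (by rw [(mem_filter.1 hm).2, (mem_filter.1 hm').2]; simp)) L
      fun m hm y h => mem_filter.2 ⟨mem_univ _, m, hm, rfl, h⟩
    exact_mod_cast this
  have l2 : (MC.card : ℝ) ≤ q * C.card := by
    have := Finset.card_le_mul_card_image (f := fun m => (p m, B m m / (k * (B m x0) ^ 2))) MC
      (Fintype.card F) (by
        intro r _
        refine Finset.card_le_card_of_injOn (fun m => B m x0) (fun _ _ => mem_coe.2 (mem_univ _)) ?_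
        intro m hm m' hm' e
        obtain ⟨a1, a2⟩ := mem_filter.1 (mem_coe.1 hm)
        obtain ⟨b1, b2⟩ := mem_filter.1 (mem_coe.1 hm')
        have a3 := (mem_filter.1 a1).2
        have b3 := (mem_filter.1 b1).2
        obtain ⟨e1, e2⟩ := Prod.ext_iff.1 (a2.trans b2.symm)
        have := fr_eq hB h2 hf a3 b3 e1 (by
          simp only at e e2
          rw [e] at e2 ⊢
          field_simp at e2
          rw [e2])
        simp only at e
        rwa [e, div_self b3, one_smul] at this)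
    rw [hq]; exact_mod_cast this
  have l3 : δ * q ^ 3 / 8 ≤ C.card := le_of_mul_le_mul_left (a := q) (by linarith) q0
  obtain ⟨x', hx', y', hy', w', hw', n1, n2, n3, tr⟩ := loc ht h2 (A'.image p) L C
    (by
      intro y z θ hz h
      obtain ⟨m, hm, e1, e2⟩ := (mem_filter.1 h).2
      refine mem_filter.2 ⟨mem_univ _, m, hm, e1, ?_⟩
      simp only at e1 e2
      rw [e1, par_tau h2 (nb0 m hm)] at hz
      simp only [ip, re_add, im_add] at hz e2 ⊢
      linear_combination e2 + k * hz)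
    (by
      intro r hr
      obtain ⟨m, hm, rfl⟩ := mem_image.1 hr
      obtain ⟨a1, a2⟩ := mem_filter.1 hm
      exact div_ne_zero (hM1M m a1).2 (mul_ne_zero hk (pow_ne_zero 2 a2)))
    (by
      intro r hr z hz r' hr'
      obtain ⟨m, hm, rfl⟩ := mem_image.1 hr
      obtain ⟨a1, a2⟩ := mem_filter.1 hm
      obtain ⟨m', hm', e1, -⟩ := (mem_filter.1 hr').2
      obtain ⟨σ, hσ⟩ := hsq m a1 m' (mem_filter.1 hm').1
      rw [e1]
      simp only at hz
      refine tau_sq (σ := σ / (k * B m x0)) ?_ (nb0 m' hm') ?_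
      · rw [hz]; exact div_ne_zero (hM1M m a1).2 (mul_ne_zero hk (pow_ne_zero 2 a2))
      · rw [hz, nb m' hm'] at *
        field_simp
        linear_combination hσ)
    (by
      rw [Finset.card_image_of_injOn pinj, ← hq]
      have a1 : δ / 2 ≤ A'.card / q ^ 2 := by rw [le_div_iff₀ q2]; linarith
      have a2 : δ * q / 8 ≤ L.card / q ^ 2 := by rw [le_div_iff₀ q2]; linarith
      have a3 : (0 : ℝ) ≤ (A'.card / q ^ 2) ^ 3 := pow_nonneg (le_trans (by positivity) a1) 3
      calc 81 ^ 4 * q ^ 23 < 2 ^ 88 * q ^ 23 / 2 ^ 60 := by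
            have := pow_pos q0 23
            linarith
        _ ≤ δ ^ 28 * q * q ^ 23 / 2 ^ 60 := by gcongr
        _ = ((δ / 2) ^ 3 * (δ * q ^ 3 / 8) * (δ * q / 8) ^ 3) ^ 4 := by ring
        _ ≤ _ := pow_le_pow_left₀ (by positivity) (mul_le_mul (mul_le_mul
            (pow_le_pow_left₀ (by positivity) a1 3) l3 (by positivity) a3)
            (pow_le_pow_left₀ (by positivity) a2 3) (by positivity)
            (mul_nonneg a3 (Nat.cast_nonneg _))) 4)
  obtain ⟨x, hx, rfl⟩ := mem_image.1 hx'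
  obtain ⟨y, hy, rfl⟩ := mem_image.1 hy'
  obtain ⟨w, hw, rfl⟩ := mem_image.1 hw'
  obtain ⟨x1, x2⟩ := mem_filter.1 hx
  obtain ⟨y1, y2⟩ := mem_filter.1 hy
  obtain ⟨w1, w2⟩ := mem_filter.1 hw
  have n0 : ∀ v, ¬ B v x0 = 0 → x0 ≠ v := fun v hv h => hv (h ▸ hiso x0 hx0)
  refine ⟨{x0, x, y, w}, ?_, ?_, fun I hI => ?_⟩
  · simp [Finset.insert_subset_iff, hx0, x1, y1, w1]
  · rw [Finset.card_insert_of_notMem (by simp [n0, x2, y2, w2]), Finset.card_eq_three.2
      ⟨x, y, w, fun h => n1 (h ▸ rfl), fun h => n2 (h ▸ rfl), fun h => n3 (h ▸ rfl), rfl⟩]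
  · obtain ⟨⟨r, hr, c1, c2, c3⟩, t2⟩ := tr (x ∈ I) (y ∈ I) (w ∈ I)
    simp only [Finset.mem_insert, Finset.mem_singleton, forall_eq_or_imp, forall_eq]
    by_cases h0 : x0 ∈ I
    · obtain ⟨r, hr, c1, c2, c3⟩ := t2 fun h => hI.2 (by
        simp [Finset.insert_subset_iff, h0, h.1, h.2.1, h.2.2])
      obtain ⟨m, hm, e1, e2⟩ := (mem_filter.1 hr).2
      obtain ⟨a1, a2⟩ := mem_filter.1 hm
      rw [e1, line_iff h2 hk hf (by assumption) a2 (nb0 m hm) e2] at c1 c2 c3
      exact ⟨m, (hM1M m a1).1, iff_of_true a2 h0, c1, c2, c3⟩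
    · obtain ⟨m, hm, rfl⟩ := mem_image.1 hr
      obtain ⟨a1, a2⟩ := mem_filter.1 hm
      exact ⟨m, (hM1M m a1).1, iff_of_false a2 h0,
        (circ_iff h2 hk hf x2 (hiso x x1) a2).symm.trans c1,
        (circ_iff h2 hk hf y2 (hiso y y1) a2).symm.trans c2,
        (circ_iff h2 hk hf w2 (hiso w w1) a2).symm.trans c3⟩

end Pool.Agent.P.MP_1d6da1_co.Sph
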