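import Pool.Agent.P.MP_1d6da1_co.Sph.AF7
import Pool.Agent.P.MP_1d6da1_co.Sph.Base

namespace Pool.Agent.P.MP_1d6da1_co.Sph

open Finset Module

open Classical in
theorem fibc {F : Type} [Field F] [Fintype F] {V α : Type} [AddCommGroup V] [Module F V]
    (R : Finset α) (Z : Finset V) (π : α → V) (hπ : ∀ m ∈ R, π m ≠ 0) (t : ℕ)
    (hZ : ∀ m ∈ R, ∀ s : F, s ≠ 0 → s • π m ∈ Z)
    (hf : ∀ m ∈ R, ∀ S ⊆ R, (∀ m' ∈ S, ∃ s : F, π m' = s • π m) → S.card ≤ t) :
    (Fintype.card F - 1 : ℝ) * R.card ≤ t * Z.card := by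
  have := Finset.card_le_mul_card_image_of_maps_to (f := fun p : F × α => p.1 • π p.2)
    (s := univ.erase (0 : F) ×ˢ R) (t := Z)
    (fun p hp => hZ _ (mem_product.1 hp).2 _ (mem_erase.1 (mem_product.1 hp).1).1) t (by
      intro w _
      rcases Finset.eq_empty_or_nonempty ((univ.erase (0 : F) ×ˢ R).filter
        fun p => p.1 • π p.2 = w) with h | ⟨p, hp⟩
      · rw [h]; exact Nat.zero_le _
      simp only [mem_filter, mem_product, mem_erase, mem_univ, and_true] at hp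
      refine le_trans (Finset.card_le_card_of_injOn (fun p => p.2) ?_ ?_) (hf _ hp.1.2
        (R.filter fun m' => ∃ s : F, π m' = s • π p.2) (filter_subset _ _)
        fun _ a => (mem_filter.1 a).2)
      · intro p' hp'
        simp only [coe_filter, mem_product, mem_erase, mem_univ, and_true,
          Set.mem_ofPred_eq] at hp' ⊢
        exact ⟨hp'.1.2, p'.1⁻¹ * p.1, by
          rw [mul_smul, hp.2, ← hp'.2, smul_smul, inv_mul_cancel₀ hp'.1.1, one_smul]⟩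
      · intro a ha b hb e
        simp only [coe_filter, mem_product, Set.mem_ofPred_eq] at ha hb e
        refine Prod.ext (smul_left_injective F (hπ _ ha.1.2) ?_) e
        change a.1 • π a.2 = b.1 • π a.2
        rw [ha.2, e, hb.2])
  rw [Finset.card_product, Finset.card_erase_of_mem (mem_univ _), Finset.card_univ] at this
  rw [← Nat.cast_pred Fintype.card_pos]
  exact_mod_cast this

variable {F : Type} [Field F] {V : Type} [AddCommGroup V] [Module F V] {B : V →ₗ[F] V →ₗ[F] F}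
  {X Y : Finset V} {t : ℕ}

theorem Cfg.model (h : Cfg B X Y t) {m0 : V} (hm : m0 ∈ Y) (an : B m0 m0 ≠ 0) {k : Subfield F}
    {R : Finset F} (hk : ∀ x, x ∈ k ↔ x ∈ R) {v1 v2 v3 v4 : V} (i4 : Ind4 F v1 v2 v3 v4)
    (hv : ∀ i, B m0 (![v1, v2, v3, v4] i) = 0) {β : F} (hβ : β ≠ 0)
    (hG : ∀ i j, B (![v1, v2, v3, v4] i) (![v1, v2, v3, v4] j) / β ∈ k) {A : Finset V} (hA : A ⊆ X)
    (hA' : ∀ p ∈ A, ∃ s : F, s ≠ 0 ∧ ∃ c : Fin 4 → k, ∑ i, (c i : F) • ![v1, v2, v3, v4] i = s • p)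
    {ν Z : ℝ} (hZ : 64 * ((t : ℝ) + 3) ^ 2 ≤ Z) (hν : Z ^ 210 ≤ ν) (hY : (Y.card : ℝ) ≤ ν ^ 3)
    (hR : (R.card : ℝ) ≤ Z * ν) (hAc : ν ^ 2 / Z ≤ A.card)
    (hg : ∀ p ∈ A, ν ^ 2 / Z ≤ ∑ y ∈ Y, ind (Gd B X t m0 y ∧ B y p = 0)) :
    ∃ T ⊆ X, T.card = 4 ∧ ∀ I ⊆ T, ∃ y ∈ Y, ∀ x ∈ T, B y x = 0 ↔ x ∈ I := by
  classical
  have hB := h.nd
  have t0 : (0 : ℝ) ≤ t := Nat.cast_nonneg _
  have Z5 : 512 ≤ Z := by nlinarith
  have Z0 : 0 < Z := by linarith
  have kk : ∀ j, j ≤ 210 → Z ^ j ≤ ν := fun j hj => (pow_le_pow_right₀ (by linarith) hj).trans hν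
  have ν0 : 0 < ν := lt_of_lt_of_le (pow_pos Z0 1) (kk 1 (by norm_num))
  let _ : Fintype k := Fintype.subtype R fun x => (hk x).symm
  have cq : Fintype.card k = R.card := Fintype.card_of_subtype R fun x => (hk x).symm
  have k2 : (2 : k) ≠ 0 := fun e => h.two (congrArg Subtype.val e)
  set v := ![v1, v2, v3, v4] with hvd
  set ι : (Fin 4 → k) → V := fun c => ∑ i, (c i : F) • v i with hι
  have ι1 : ∀ c c', ι (c + c') = ι c + ι c' := fun c c' => by
    simp [hι, add_smul, Finset.sum_add_distrib]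
  have ι2 : ∀ (s : k) c, ι (s • c) = (s : F) • ι c := fun s c => by
    simp [hι, Finset.smul_sum, smul_smul]
  have ι3 : ∀ c, c ≠ 0 → ι c ≠ 0 := fun c hc e =>
    hc (funext fun i => Subtype.ext (li4 i4 _ e i))
  have ι4 : ∀ c, B m0 (ι c) = 0 := fun c => by simp [hι, hv]
  have ι5 : ∀ c c', B (ι c) (ι c') / β ∈ k := fun c c' => by
    simp only [hι, map_sum, map_smul, LinearMap.sum_apply, LinearMap.smul_apply, smul_eq_mul,
      Finset.mul_sum, Finset.sum_div, mul_div_assoc]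
    exact sum_mem fun i _ => sum_mem fun j _ => mul_mem (c' i).2 (mul_mem (c j).2 (hG j i))
  obtain ⟨Bk, hBk⟩ : ∃ Bk : (Fin 4 → k) →ₗ[k] (Fin 4 → k) →ₗ[k] k,
      ∀ c c', (Bk c c' : F) = B (ι c) (ι c') / β :=
    ⟨LinearMap.mk₂ k (fun c c' => ⟨_, ι5 c c'⟩) (fun _ _ _ => Subtype.ext (by simp [ι1, add_div]))
      (fun _ _ _ => Subtype.ext (by simp [ι2, mul_div_assoc]))
      (fun _ _ _ => Subtype.ext (by simp [ι1, add_div]))
      (fun _ _ _ => Subtype.ext (by simp [ι2, mul_div_assoc])), fun _ _ => rfl⟩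
  have z : ∀ c c', Bk c c' = 0 ↔ B (ι c) (ι c') = 0 := fun c c' => by
    rw [← ZeroMemClass.coe_eq_zero, hBk, div_eq_zero_iff, or_iff_left hβ]
  have nd : Nd Bk := by
    refine ⟨fun c c' => Subtype.ext (by rw [hBk, hBk, hB.1]), fun c hc => ?_⟩
    obtain ⟨w, hw⟩ := hB.2 _ (ι3 c hc)
    obtain ⟨a, b, d, e, e'⟩ := sp14 hB h.dim (h.pY.1 m0 hm) i4 (hv 0) (hv 1) (hv 2) (hv 3)
      (w := w - (B m0 w / B m0 m0) • m0) (by simp [an])
    by_contra hn
    simp only [not_exists, not_not, z] at hn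
    have a0 : ∀ i, B (ι c) (v i) = 0 := fun i => by
      have : ι (Pi.single i 1) = v i := by
        simp only [hι]
        rw [Finset.sum_eq_single i (fun j _ n => by simp [n]) (by simp)]; simp
      exact this ▸ hn (Pi.single i 1)
    have := congrArg (B (ι c)) e'
    simp only [map_sub, map_add, map_smul, hB.1 (ι c) m0, ι4, smul_eq_mul, mul_zero, sub_zero,
      show B (ι c) v1 = 0 from a0 0, show B (ι c) v2 = 0 from a0 1, show B (ι c) v3 = 0 from a0 2,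
      show B (ι c) v4 = 0 from a0 3, add_zero] at this
    exact hw this
  have ex : ∀ p, ∃ (s : F) (c : Fin 4 → k), p ∈ A → s ≠ 0 ∧ ι c = s • p := fun p => by
    by_cases a : p ∈ A
    · obtain ⟨s, a1, c, a2⟩ := hA' p a; exact ⟨s, c, fun _ => ⟨a1, a2⟩⟩
    · exact ⟨0, 0, fun e => absurd e a⟩
  choose σ co hco using ex
  have zo : ∀ w, ∀ p ∈ A, B w (ι (co p)) = 0 ↔ B w p = 0 := fun w p a => by
    simp [(hco p a).2, (hco p a).1]
  have mA : ∀ p ∈ A, B m0 p = 0 := fun p a => (zo m0 p a).1 (ι4 _)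
  have cs : ∀ p ∈ A, ∀ p' ∈ A, ∀ s : k, co p = s • co p' → p = p' := fun p a p' a' s e => by
    have := congrArg ι e
    rw [ι2, (hco p a).2, (hco p' a').2] at this
    refine h.pX.2 p (hA a) p' (hA a') ((σ p)⁻¹ * s * σ p') ?_
    rw [mul_smul, mul_smul, ← this, smul_smul, inv_mul_cancel₀ (hco p a).1, one_smul]
  have ci : Set.InjOn co A := fun p a p' a' e => cs p a p' a' 1 (by rwa [one_smul])
  have pd : Pd k (A.image co) := by
    refine ⟨fun c hc e => ?_, fun c hc c' hc' s e => ?_⟩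
    · obtain ⟨p, a, rfl⟩ := mem_image.1 hc
      have := (hco p a).2
      rw [e] at this
      exact smul_ne_zero (hco p a).1 (h.pX.1 p (hA a)) (by rw [← this]; simp [hι])
    · obtain ⟨p, a, rfl⟩ := mem_image.1 hc
      obtain ⟨p', a', rfl⟩ := mem_image.1 hc'
      rw [cs p a p' a' s e]
  have zz : ∀ p ∈ A, ∀ p' ∈ A, Bk (co p) (co p') = 0 ↔ B p p' = 0 := fun p a p' a' => by
    rw [z, zo _ _ a', hB.1, zo _ _ a, hB.1]
  have iso : ∀ c ∈ A.image co, Bk c c = 0 := fun c hc => by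
    obtain ⟨p, a, rfl⟩ := mem_image.1 hc
    exact (zz p a p a).2 (h.iso p (hA a))
  have cV : Fintype.card (Fin 4 → k) = Fintype.card k ^ 4 := by simp
  set Yr := Y.filter fun y => Gd B X t m0 y ∧ 2 < (A.filter fun p => B y p = 0).card with hYr
  have tri : ∀ y ∈ Yr, ∃ p1 ∈ A, ∃ p2 ∈ A, ∃ p3 ∈ A, p1 ≠ p2 ∧ p1 ≠ p3 ∧ p2 ≠ p3 ∧
      B y p1 = 0 ∧ B y p2 = 0 ∧ B y p3 = 0 := fun y hy => by
    obtain ⟨p1, p2, p3, a1, a2, a3, n1, n2, n3⟩ := Finset.two_lt_card_iff.1 (mem_filter.1 hy).2.2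
    exact ⟨p1, (mem_filter.1 a1).1, p2, (mem_filter.1 a2).1, p3, (mem_filter.1 a3).1, n1, n2, n3,
      (mem_filter.1 a1).2, (mem_filter.1 a2).2, (mem_filter.1 a3).2⟩
  have eu : ∀ y, ∃ u : Fin 4 → k, y ∈ Yr → u ≠ 0 ∧ ∀ p ∈ A, Bk u (co p) = 0 ↔ B y p = 0 := by
    intro y
    by_cases hy : y ∈ Yr
    · obtain ⟨p1, a1, p2, a2, p3, a3, n1, n2, n3, b1, b2, b3⟩ := tri y hy
      obtain ⟨u, u0, u1, u2, u3⟩ := ex_perp Bk cV (co p1) (co p2) (co p3)
      rw [z, zo _ _ (by assumption)] at u1 u2 u3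
      have g := (mem_filter.1 hy).2.1.1
      obtain ⟨a, b, e⟩ := sp32 hB h.dim (gram_ind hB g) (h.ind3 g (hA a1) (hA a2) (hA a3) n1 n2 n3
        ⟨mA _ a1, b1⟩ ⟨mA _ a2, b2⟩ ⟨mA _ a3, b3⟩) (mA _ a1) (mA _ a2) (mA _ a3) b1 b2 b3 u1 u2 u3
      have hb : b ≠ 0 := fun e0 => ι3 u u0 (by
        have := ι4 u
        rw [e, e0] at this
        have ha : a = 0 := by simpa [an] using this
        rw [e, e0, ha]; simp)
      exact ⟨u, fun _ => ⟨u0, fun p a => by rw [z, zo _ _ a, e]; simp [mA p a, hb]⟩⟩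
    · exact ⟨0, fun e => absurd e hy⟩
  choose u hu using eu
  have q3 : (3 : ℝ) ≤ Fintype.card k := by exact_mod_cast three_le_card k2
  have sm : ∀ p ∈ A, ∀ p' ∈ A, B p p' ≠ 0 → Bk (co p + co p') (co p + co p') ≠ 0 := by
    intro p a p' a' n
    simp only [map_add, LinearMap.add_apply, iso _ (mem_image_of_mem _ a),
      iso _ (mem_image_of_mem _ a'), nd.1 (co p') (co p), zero_add, add_zero, ← two_mul]
    exact mul_ne_zero k2 fun e => n ((zz p a p' a').1 e)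
  have c1 : ∀ y ∈ Yr, ∑ p ∈ A, ind (B y p = 0) ≤ 3 * Fintype.card k := by
    intro y hy
    obtain ⟨p1, a1, p2, a2, -, -, n1, -, -, b1, b2, -⟩ := tri y hy
    obtain ⟨u0, u1⟩ := hu y hy
    have := iso_perp nd k2 (univ.filter fun c => Bk c (u y) = 0) (co p1 + co p2)
      (sm _ a1 _ a2 (h.no (mem_filter.1 hy).2.1.1 (hA a1) (hA a2) n1 ⟨mA _ a1, b1⟩ ⟨mA _ a2, b2⟩))
      (fun c hc s => by
        simpa [nd.1 (co p1), nd.1 (co p2), (u1 _ a1).2 b1, (u1 _ a2).2 b2] using hc)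
      (fun s c hs => by simp [hs]) (A := (A.filter fun p => B y p = 0).image co)
      (pd.mono (Finset.image_subset_image (filter_subset _ _)))
      (fun c hc => iso c (Finset.image_subset_image (filter_subset _ _) hc)) (fun c hc => by
        obtain ⟨p, a, rfl⟩ := mem_image.1 hc
        simpa [nd.1 (co p)] using (u1 p (mem_filter.1 a).1).2 (mem_filter.1 a).2)
    have e := card_ker nd u0
    rw [cV, pow_succ'] at e
    rw [Nat.eq_of_mul_eq_mul_left Fintype.card_pos e, Finset.card_image_of_injOn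
      (ci.mono (coe_subset.2 (filter_subset _ _)))] at this
    rw [sum_ind]
    push_cast at this
    exact le_of_mul_le_mul_left (a := (Fintype.card k : ℝ) ^ 2) (by linarith) (by positivity)
  have A0 : (0 : ℝ) < A.card := lt_of_lt_of_le (by positivity) hAc
  have c2 : (A.card : ℝ) ≤ 3 * (Fintype.card k : ℝ) ^ 2 := by
    obtain ⟨p, a⟩ : A.Nonempty := by rwa [← Finset.card_pos, ← Nat.cast_pos (α := ℝ)]
    obtain ⟨e, he⟩ := ex_aniso nd k2 (pd.1 _ (mem_image_of_mem _ a))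
    have := iso_perp nd k2 univ e he (fun _ _ _ => mem_univ _) (fun _ _ _ => by simp) pd iso
      (subset_univ _)
    rw [Finset.card_image_of_injOn ci, Finset.card_univ, cV] at this
    push_cast at this
    exact le_of_mul_le_mul_left (a := (Fintype.card k : ℝ) ^ 2) (by linarith) (by positivity)
  have c3 : ν ^ 4 / Z ^ 2 ≤ ν ^ 3 * 2 + Yr.card * (3 * Fintype.card k) := by
    have a1 := mul_le_sum A _ hg
    rw [Finset.sum_comm, ← Finset.sum_filter_add_sum_filter_not Y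
      fun y => Gd B X t m0 y ∧ 2 < (A.filter fun p => B y p = 0).card] at a1
    have a2 := sum_le_mul Yr (fun y => ∑ p ∈ A, ind (Gd B X t m0 y ∧ B y p = 0)) le_rfl
      (by positivity) fun y hy =>
        (Finset.sum_le_sum fun p _ => ind_mono fun e => e.2).trans (c1 y hy)
    have a3 := sum_le_mul (Y.filter fun y => ¬ (Gd B X t m0 y ∧
      2 < (A.filter fun p => B y p = 0).card)) (fun y => ∑ p ∈ A, ind (Gd B X t m0 y ∧ B y p = 0))
      (le_trans (by exact_mod_cast Finset.card_filter_le _ _) hY) zero_le_two fun y hy => by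
        by_cases g : Gd B X t m0 y
        · simp only [g, true_and, sum_ind]
          exact_mod_cast not_lt.1 fun e => (mem_filter.1 hy).2 ⟨g, e⟩
        · simp [g, ind]
    have a4 : ν ^ 4 / Z ^ 2 ≤ A.card * (ν ^ 2 / Z) :=
      calc _ = ν ^ 2 / Z * (ν ^ 2 / Z) := by field_simp
        _ ≤ _ := by gcongr
    linarith
  set M := (univ.erase (0 : k) ×ˢ Yr).image fun p => p.1 • u p.2 with hM
  have c4 := fibc (F := k) Yr M u (fun y hy => (hu y hy).1) t
    (fun m hm s hs => mem_image.2 ⟨(s, m), mem_product.2 ⟨mem_erase.2 ⟨hs, mem_univ _⟩, hm⟩, rfl⟩)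
    (by
      intro y hy S hS hS'
      obtain ⟨p1, a1, p2, a2, p3, a3, n1, n2, n3, b1, b2, b3⟩ := tri y hy
      refine (h.few (mem_filter.1 hy).2.1 (hA a1) (hA a2) (hA a3) n1 n2 n3 ⟨mA _ a1, b1⟩
        ⟨mA _ a2, b2⟩ ⟨mA _ a3, b3⟩ (hS.trans (filter_subset _ _)) fun w hw => ?_).le
      have w1 := hS hw
      obtain ⟨s, w2⟩ := hS' w hw
      have : ∀ p ∈ A, B y p = 0 → B w p = 0 := fun p a e => ((hu w w1).2 p a).1 (by
        simp [w2, ((hu y hy).2 p a).2 e])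
      exact ⟨this _ a1 b1, this _ a2 b2, this _ a3 b3⟩)
  have main := base k (Fin 4 → k) Bk k2 nd cV (1 / Z ^ 7) (by positivity)
  rw [← cq] at hR
  set q : ℝ := (Fintype.card k : ℝ) with hq
  have q0 : 0 < q := by linarith
  have d1 : ν ≤ Z * q := by
    refine (pow_le_pow_iff_left₀ ν0.le (by positivity) two_ne_zero).1 ?_
    rw [div_le_iff₀ Z0] at hAc
    nlinarith [mul_pos Z0 (pow_pos q0 2)]
  have d2 : q ^ 4 / Z ^ 7 ≤ ν ^ 4 / Z ^ 3 := by
    calc _ ≤ (Z * ν) ^ 4 / Z ^ 7 := by gcongr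
      _ = _ := by field_simp
  obtain ⟨T, hT, hc, hS⟩ := main (by
      have a1 : (2 : ℝ) ^ 88 ≤ Z ^ 13 :=
        le_trans (by norm_num) (pow_le_pow_left₀ (by norm_num) Z5 13)
      rw [div_pow, one_pow, div_mul_eq_mul_div, one_mul, le_div_iff₀ (pow_pos (pow_pos Z0 7) 28)]
      refine le_of_mul_le_mul_left (le_trans ?_ (hν.trans d1)) Z0
      calc _ ≤ Z * (Z ^ 13 * (Z ^ 7) ^ 28) := mul_le_mul_of_nonneg_left
            (mul_le_mul_of_nonneg_right a1 (pow_pos (pow_pos Z0 7) 28).le) Z0.le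
        _ = _ := by ring) (A.image co) M pd iso (by
      rw [Finset.card_image_of_injOn ci]
      calc 1 / Z ^ 7 * q ^ 4 = q ^ 2 / Z ^ 7 * q ^ 2 := by ring
        _ ≤ (Z * ν) ^ 2 / Z ^ 3 * q ^ 2 := by gcongr <;> linarith
        _ = ν ^ 2 / Z * q ^ 2 := by field_simp
        _ ≤ _ := by gcongr) (by
      have a1 : ν ^ 3 * 2 ≤ ν ^ 4 / (2 * Z ^ 2) := by
        rw [le_div_iff₀ (by positivity)]
        calc _ = 4 * Z ^ 2 * ν ^ 3 := by ring
          _ ≤ Z * Z ^ 2 * ν ^ 3 := by gcongr; linarith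
          _ = Z ^ 3 * ν ^ 3 := by ring
          _ ≤ ν * ν ^ 3 := by gcongr; exact kk 3 (by norm_num)
          _ = _ := by ring
      have a2 : ν ^ 4 / Z ^ 2 = 2 * (ν ^ 4 / (2 * Z ^ 2)) := by field_simp
      have a3 : (0 : ℝ) ≤ Yr.card * (q - 2) := mul_nonneg (Nat.cast_nonneg _) (by linarith)
      have a4 : 12 * (t * (M.card : ℝ)) ≤ Z * M.card := by
        rw [← mul_assoc]; gcongr; nlinarith
      have a5 : ν ^ 4 / Z ^ 3 ≤ M.card := by
        refine le_of_mul_le_mul_left (le_trans (le_of_eq ?_)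
          (show ν ^ 4 / Z ^ 2 ≤ Z * M.card by nlinarith)) Z0
        field_simp
      rw [one_div_mul_eq_div]; linarith)
  obtain ⟨T', hT', rfl⟩ := Finset.subset_image_iff.1 hT
  have ci' := ci.mono (coe_subset.2 hT')
  rw [Finset.card_image_of_injOn ci'] at hc
  refine ⟨T', hT'.trans hA, hc, fun I hI => ?_⟩
  rcases hI.eq_or_ssubset with rfl | hI'
  · exact ⟨m0, hm, fun x hx => iff_of_true (mA x (hT' hx)) hx⟩
  have mi : ∀ x ∈ T', co x ∈ I.image co ↔ x ∈ I := fun x hx =>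
    ⟨fun e => by
      obtain ⟨x', a, b⟩ := mem_image.1 e
      rwa [← ci' (hI a) hx b], mem_image_of_mem _⟩
  obtain ⟨m, hm', h1⟩ := hS (I.image co) ⟨Finset.image_subset_image hI, fun e =>
    hI'.2 fun x hx => (mi x hx).1 (e (mem_image_of_mem _ hx))⟩
  obtain ⟨⟨s, y⟩, hp, rfl⟩ := mem_image.1 hm'
  obtain ⟨a1, a2⟩ := mem_product.1 hp
  refine ⟨y, (mem_filter.1 a2).1, fun x hx => ?_⟩
  rw [← mi x hx, ← h1 _ (mem_image_of_mem _ hx), ← (hu y a2).2 x (hT' hx)]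
  simp [(mem_erase.1 a1).1]

end Pool.Agent.P.MP_1d6da1_co.Sph
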