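import Pool.Agent.P.MP_1d6da1_co.Sph.AF8

namespace Pool.Agent.P.MP_1d6da1_co.Sph

open Finset Module

theorem ex_pair {α β : Type} (A : Finset α) (Y : Finset β) (r : β → α → Prop) {n c m : ℝ}
    (hY : (Y.card : ℝ) ≤ n) (hc : 0 ≤ c) (h : ∀ p ∈ A, c ≤ ∑ y ∈ Y, ind (r y p)) (hm : 0 ≤ m)
    (hlt : n * (n * 16 + 2 * (A.card * (A.card * m))) < (A.card * c) ^ 2) :
    ∃ p ∈ A, ∃ p' ∈ A, p ≠ p' ∧
      m < ∑ y ∈ Y, ind (4 < ∑ x ∈ A, ind (r y x) ∧ r y p ∧ r y p') := by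
  classical
  by_contra hn
  simp only [not_exists, not_and, not_lt] at hn
  have a1 := mul_le_sum A _ h
  rw [Finset.sum_comm] at a1
  have a2 := cs_le Y _ hY (by positivity) a1
  have a3 : ∀ y ∈ Y, (∑ x ∈ A, ind (r y x)) ^ 2 ≤ 16 + 2 * ∑ p ∈ A, ∑ p' ∈ A,
      ind (p ≠ p' ∧ 4 < ∑ x ∈ A, ind (r y x) ∧ r y p ∧ r y p') := by
    intro y _
    have b0 := sum_ind_nonneg A (r y)
    by_cases g : 4 < ∑ x ∈ A, ind (r y x)
    · have b1 : (∑ x ∈ A, ind (r y x)) ^ 2 ≤ ∑ p ∈ A, (∑ p' ∈ A,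
          ind (p ≠ p' ∧ 4 < ∑ x ∈ A, ind (r y x) ∧ r y p ∧ r y p') + ind (r y p)) := by
        rw [sq, Finset.sum_mul_sum]
        refine Finset.sum_le_sum fun p hp => ?_
        rw [← Finset.add_sum_erase _ _ hp, add_comm]
        refine add_le_add (le_trans (Finset.sum_le_sum fun p' hp' => ?_)
          (Finset.sum_le_sum_of_subset_of_nonneg (erase_subset p A) fun _ _ _ => ind0 _))
          (by rw [← ind_and, and_self])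
        rw [← ind_and]
        exact ind_mono fun e => ⟨(mem_erase.1 hp').1.symm, g, e⟩
      rw [Finset.sum_add_distrib] at b1
      nlinarith
    · have : 0 ≤ ∑ p ∈ A, ∑ p' ∈ A, ind (p ≠ p' ∧ 4 < ∑ x ∈ A, ind (r y x) ∧ r y p ∧ r y p') :=
        Finset.sum_nonneg fun _ _ => sum_ind_nonneg _ _
      nlinarith
  have a4 := Finset.sum_le_sum a3
  rw [Finset.sum_add_distrib, ← Finset.mul_sum, Finset.sum_comm (s := Y)] at a4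
  have a5 := sum_le_mul Y (fun _ => (16 : ℝ)) hY (by norm_num) fun _ _ => le_rfl
  have a6 := sum_le_mul A (fun p => ∑ y ∈ Y, ∑ p' ∈ A,
      ind (p ≠ p' ∧ 4 < ∑ x ∈ A, ind (r y x) ∧ r y p ∧ r y p')) le_rfl
      (c := A.card * m) (by positivity) fun p hp => by
    rw [Finset.sum_comm]
    refine sum_le_mul _ _ le_rfl hm fun p' hp' => ?_
    by_cases e : p = p'
    · simpa [e, ind] using hm
    · exact (Finset.sum_le_sum fun y _ => ind_mono fun e => e.2).trans (hn p hp p' hp' e)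
  have n0 : 0 ≤ n := le_trans (Nat.cast_nonneg _) hY
  have := mul_le_mul_of_nonneg_left (show ∑ y ∈ Y, (∑ x ∈ A, ind (r y x)) ^ 2
    ≤ n * 16 + 2 * (A.card * (A.card * m)) by linarith) n0
  linarith

variable {F : Type} [Field F] {V : Type} [AddCommGroup V] [Module F V] {B : V →ₗ[F] V →ₗ[F] F}
  {X Y : Finset V} {t : ℕ}

theorem cram (k : Subfield F) (M : Fin 3 → Fin 3 → F) (hM : ∀ i j, M i j ∈ k)
    (hi : ∀ a : Fin 3 → F, (∀ i, ∑ j, M i j * a j = 0) → ∀ j, a j = 0) (a : Fin 3 → F)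
    (ha : ∀ i, ∑ j, M i j * a j ∈ k) (j : Fin 3) : a j ∈ k := by
  set N : Matrix (Fin 3) (Fin 3) k := Matrix.of fun i j => ⟨M i j, hM i j⟩ with hN
  have e : ∀ (c : Fin 3 → k) i, (N.mulVecLin c i : F) = ∑ j, M i j * c j := fun c i => by
    simp [hN, Matrix.mulVec, dotProduct]
  obtain ⟨c, hc⟩ := (LinearMap.injective_iff_surjective (f := N.mulVecLin)).1
    ((injective_iff_map_eq_zero _).2 fun c hc => funext fun j => Subtype.ext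
      (hi (fun j => c j) (fun i => by rw [← e, hc]; rfl) j)) fun i => ⟨_, ha i⟩
  have := hi (fun j => a j - c j) (fun i => by
    simp only [mul_sub, Finset.sum_sub_distrib, ← e, hc, sub_self]) j
  rw [sub_eq_zero.1 this]
  exact (c j).2

theorem five0 (hB : Nd B) (h2 : (2 : F) ≠ 0) (k : Subfield F) {v1 v2 v3 : V} (i1 : B v1 v1 = 0)
    (i2 : B v2 v2 = 0) (i3 : B v3 v3 = 0) (n : B v1 v2 ≠ 0) {a1 a2 a3 b1 b2 b3 : F} (k1 : a1 ∈ k)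
    (k2 : a2 ∈ k) (k3 : a3 ∈ k) (l1 : b1 ∈ k) (l2 : b2 ∈ k) (l3 : b3 ∈ k)
    (ia : B (a1 • v1 + a2 • v2 + a3 • v3) (a1 • v1 + a2 • v2 + a3 • v3) = 0)
    (ib : B (b1 • v1 + b2 • v2 + b3 • v3) (b1 • v1 + b2 • v2 + b3 • v3) = 0)
    (d : a3 * b3 * (a1 * b2 - a2 * b1) ≠ 0) :
    B v1 v3 / B v1 v2 ∈ k ∧ B v2 v3 / B v1 v2 ∈ k := by
  simp only [map_add, map_smul, LinearMap.add_apply, LinearMap.smul_apply, smul_eq_mul, i1, i2, i3,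
    hB.1 v2 v1, hB.1 v3 v1, hB.1 v3 v2] at ia ib
  have e1 : B v1 v3 / B v1 v2
      = (b1 * b2 * a2 * a3 - a1 * a2 * b2 * b3) / (a3 * b3 * (a1 * b2 - a2 * b1)) := by
    rw [div_eq_div_iff n d]
    exact mul_left_cancel₀ h2 (by linear_combination b2 * b3 * ia - a2 * a3 * ib)
  have e2 : B v2 v3 / B v1 v2
      = (a1 * a2 * b1 * b3 - b1 * b2 * a1 * a3) / (a3 * b3 * (a1 * b2 - a2 * b1)) := by
    rw [div_eq_div_iff n d]
    exact mul_left_cancel₀ h2 (by linear_combination a1 * a3 * ib - b1 * b3 * ia)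
  rw [e1, e2]
  constructor <;> apply_rules [div_mem, sub_mem, mul_mem]

theorem Ind3.smul {x y z : V} (h : Ind3 F x y z) {a b c : F} (ha : a ≠ 0) (hb : b ≠ 0)
    (hc : c ≠ 0) : Ind3 F (a • x) (b • y) (c • z) := fun a' b' c' e => by
  simpa [ha, hb, hc] using h (a' * a) (b' * b) (c' * c) (by simpa [mul_smul] using e)

/-- The output of the plane step. -/
structure Des (B : V →ₗ[F] V →ₗ[F] F) (X Y : Finset V) (t : ℕ) (m0 x0 ψ1 ψ2 ψ3 : V)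
    (k : Subfield F) (A : Finset V) : Prop where
  c : Cfg B X Y t
  hm : m0 ∈ Y
  hx : x0 ∈ X
  h0 : B m0 x0 = 0
  hA : A ⊆ X
  i4 : Ind4 F m0 ψ1 ψ2 ψ3
  p1 : B ψ1 x0 = 0
  p2 : B ψ2 x0 = 0
  p3 : B ψ3 x0 = 0
  hp : ∀ p ∈ A, p ≠ x0 ∧ B m0 p = 0 ∧ B p x0 ≠ 0
  hq : ∀ p ∈ A, B ψ1 p ≠ 0 ∧ B ψ2 p / B ψ1 p ∈ k ∧ B ψ3 p / B ψ1 p ∈ k

/-- Normalised representative of a point. -/
def nr (B : V →ₗ[F] V →ₗ[F] F) (ψ p : V) : V := (B ψ p)⁻¹ • p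

variable {m0 x0 ψ1 ψ2 ψ3 : V} {k : Subfield F} {A : Finset V}

theorem Des.z (h : Des B X Y t m0 x0 ψ1 ψ2 ψ3 k A) {p : V} (hp : p ∈ A) (w : V) :
    B w (nr B ψ1 p) = 0 ↔ B w p = 0 := by simp [nr, (h.hq p hp).1]

theorem Des.iso (h : Des B X Y t m0 x0 ψ1 ψ2 ψ3 k A) {p : V} (hp : p ∈ A) :
    B (nr B ψ1 p) (nr B ψ1 p) = 0 := by simp [nr, h.c.iso p (h.hA hp)]

theorem Des.ind3 (h : Des B X Y t m0 x0 ψ1 ψ2 ψ3 k A) {y x1 x2 x3 : V} (g : gram B m0 y ≠ 0)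
    (m1 : x1 ∈ A) (m2 : x2 ∈ A) (m3 : x3 ∈ A) (n1 : x1 ≠ x2) (n2 : x1 ≠ x3) (n3 : x2 ≠ x3)
    (b1 : B y x1 = 0) (b2 : B y x2 = 0) (b3 : B y x3 = 0) :
    Ind3 F (nr B ψ1 x1) (nr B ψ1 x2) (nr B ψ1 x3) :=
  (h.c.ind3 g (h.hA m1) (h.hA m2) (h.hA m3) n1 n2 n3 ⟨(h.hp _ m1).2.1, b1⟩ ⟨(h.hp _ m2).2.1, b2⟩
    ⟨(h.hp _ m3).2.1, b3⟩).smul (inv_ne_zero (h.hq _ m1).1) (inv_ne_zero (h.hq _ m2).1)
    (inv_ne_zero (h.hq _ m3).1)

theorem Des.ind4 (h : Des B X Y t m0 x0 ψ1 ψ2 ψ3 k A) {y x1 x2 x3 : V} (g : gram B m0 y ≠ 0)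
    (m1 : x1 ∈ A) (m2 : x2 ∈ A) (m3 : x3 ∈ A) (n1 : x1 ≠ x2) (n2 : x1 ≠ x3) (n3 : x2 ≠ x3)
    (b1 : B y x1 = 0) (b2 : B y x2 = 0) (b3 : B y x3 = 0) (b0 : B y x0 ≠ 0) {s : F} (hs : s ≠ 0) :
    Ind4 F (nr B ψ1 x1) (nr B ψ1 x2) (nr B ψ1 x3) (s • x0) := by
  intro a b c d e
  have := congrArg (B y) e
  simp only [map_add, map_smul, (h.z m1 y).2 b1, (h.z m2 y).2 b2, (h.z m3 y).2 b3, smul_eq_mul,
    mul_zero, zero_add, map_zero, mul_eq_zero, hs, b0, or_false] at this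
  obtain ⟨r1, r2, r3⟩ := h.ind3 g m1 m2 m3 n1 n2 n3 b1 b2 b3 a b c (by simpa [this] using e)
  exact ⟨r1, r2, r3, this⟩

theorem Des.coord (h : Des B X Y t m0 x0 ψ1 ψ2 ψ3 k A) {y x1 x2 x3 p : V} (g : gram B m0 y ≠ 0)
    (m1 : x1 ∈ A) (m2 : x2 ∈ A) (m3 : x3 ∈ A) (n1 : x1 ≠ x2) (n2 : x1 ≠ x3) (n3 : x2 ≠ x3)
    (b1 : B y x1 = 0) (b2 : B y x2 = 0) (b3 : B y x3 = 0) (b0 : B y x0 ≠ 0) (hp : p ∈ A)
    {s : F} (hs : s ≠ 0) : ∃ a1 ∈ k, ∃ a2 ∈ k, ∃ a3 ∈ k, ∃ a : F,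
      nr B ψ1 p = a1 • nr B ψ1 x1 + a2 • nr B ψ1 x2 + a3 • nr B ψ1 x3 + a • s • x0 := by
  have i4 := h.ind4 g m1 m2 m3 n1 n2 n3 b1 b2 b3 b0 hs
  have zm : ∀ p ∈ A, B m0 (nr B ψ1 p) = 0 := fun p a => (h.z a m0).2 (h.hp p a).2.1
  obtain ⟨a1, a2, a3, a, e⟩ := sp14 h.c.nd h.c.dim (h.c.pY.1 m0 h.hm) i4 (zm _ m1) (zm _ m2)
    (zm _ m3) (by simp [h.h0]) (zm _ hp)
  have mk : ∀ p ∈ A, ∀ i, B (![ψ1, ψ2, ψ3] i) (nr B ψ1 p) ∈ k := fun p a i => by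
    obtain ⟨r1, r2, r3⟩ := h.hq p a
    rw [div_eq_inv_mul] at r2 r3
    fin_cases i <;> simp [nr, r1, r2, r3]
  have := cram k (fun i j => B (![ψ1, ψ2, ψ3] i) (![nr B ψ1 x1, nr B ψ1 x2, nr B ψ1 x3] j))
    (fun i j => by fin_cases j; exacts [mk _ m1 i, mk _ m2 i, mk _ m3 i]) (fun c hc => by
      obtain ⟨d, e⟩ := sp41 h.c.nd h.c.dim (h.c.pX.1 x0 h.hx) h.i4 h.h0 h.p1 h.p2 h.p3
        (w := c 0 • nr B ψ1 x1 + c 1 • nr B ψ1 x2 + c 2 • nr B ψ1 x3)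
        (by simp [zm _ m1, zm _ m2, zm _ m3])
        (by simpa [Fin.sum_univ_three, mul_comm] using hc 0)
        (by simpa [Fin.sum_univ_three, mul_comm] using hc 1)
        (by simpa [Fin.sum_univ_three, mul_comm] using hc 2)
      obtain ⟨r1, r2, r3, -⟩ := i4 (c 0) (c 1) (c 2) (-(d / s)) (by
        rw [e, smul_smul, neg_mul, div_mul_cancel₀ _ hs, neg_smul, add_neg_cancel])
      simp [Fin.forall_fin_succ, r1, r2, r3]) ![a1, a2, a3] (fun i => by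
      have := mk p hp i
      rw [e] at this
      fin_cases i <;> simpa [Fin.sum_univ_three, mul_comm, h.p1, h.p2, h.p3] using this)
  exact ⟨a1, this 0, a2, this 1, a3, this 2, a, e⟩

theorem Des.five (h : Des B X Y t m0 x0 ψ1 ψ2 ψ3 k A) {y x1 x2 x3 : V} (g : gram B m0 y ≠ 0)
    (m1 : x1 ∈ A) (m2 : x2 ∈ A) (m3 : x3 ∈ A) (n1 : x1 ≠ x2) (n2 : x1 ≠ x3) (n3 : x2 ≠ x3)
    (b1 : B y x1 = 0) (b2 : B y x2 = 0) (b3 : B y x3 = 0) (b0 : B y x0 ≠ 0)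
    (h5 : 4 < ∑ x ∈ A, ind (B y x = 0)) :
    B (nr B ψ1 x1) (nr B ψ1 x3) / B (nr B ψ1 x1) (nr B ψ1 x2) ∈ k ∧
      B (nr B ψ1 x2) (nr B ψ1 x3) / B (nr B ψ1 x1) (nr B ψ1 x2) ∈ k := by
  classical
  rw [sum_ind] at h5
  have c5 : 4 < (A.filter fun x => B y x = 0).card := by exact_mod_cast h5
  obtain ⟨p, hp, p', hp', n⟩ := Finset.one_lt_card.1
    (show 1 < ((A.filter fun x => B y x = 0) \ {x1, x2, x3}).card by
      have := Finset.le_card_sdiff {x1, x2, x3} (A.filter fun x => B y x = 0)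
      have := Finset.card_le_three (a := x1) (b := x2) (c := x3)
      omega)
  simp only [mem_sdiff, mem_filter, mem_insert, mem_singleton, not_or] at hp hp'
  have co : ∀ p ∈ A, B y p = 0 → ∃ a1 ∈ k, ∃ a2 ∈ k, ∃ a3 ∈ k,
      nr B ψ1 p = a1 • nr B ψ1 x1 + a2 • nr B ψ1 x2 + a3 • nr B ψ1 x3 := fun p a b => by
    obtain ⟨a1, k1, a2, k2, a3, k3, c, e⟩ := h.coord g m1 m2 m3 n1 n2 n3 b1 b2 b3 b0 a one_ne_zero
    have := congrArg (B y) e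
    simp only [map_add, map_smul, (h.z m1 y).2 b1, (h.z m2 y).2 b2, (h.z m3 y).2 b3, smul_eq_mul,
      (h.z a y).2 b, mul_zero, zero_add, one_mul, zero_eq_mul, b0, or_false] at this
    exact ⟨a1, k1, a2, k2, a3, k3, by simpa [this] using e⟩
  obtain ⟨a1, k1, a2, k2, a3, k3, e⟩ := co p hp.1.1 hp.1.2
  obtain ⟨c1, l1, c2, l2, c3, l3, e'⟩ := co p' hp'.1.1 hp'.1.2
  have z3 : ∀ p ∈ A, B y p = 0 → p ≠ x1 → p ≠ x2 → ∀ a1 a2 a3 : F,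
      nr B ψ1 p = a1 • nr B ψ1 x1 + a2 • nr B ψ1 x2 + a3 • nr B ψ1 x3 → a3 ≠ 0 :=
    fun p a b d1 d2 a1 a2 a3 e e0 => one_ne_zero (h.ind3 g a m1 m2 d1 d2 n1 b b1 b2 1 (-a1) (-a2)
      (by rw [e, e0]; module)).1
  refine five0 h.c.nd h.c.two k (h.iso m1) (h.iso m2) (h.iso m3) (by
      rw [Ne, h.z m2, h.c.nd.1, h.z m1]
      exact h.c.no g (h.hA m2) (h.hA m1) n1.symm ⟨(h.hp _ m2).2.1, b2⟩ ⟨(h.hp _ m1).2.1, b1⟩)
    k1 k2 k3 l1 l2 l3 (e ▸ h.iso hp.1.1) (e' ▸ h.iso hp'.1.1) (mul_ne_zero (mul_ne_zero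
      (z3 p hp.1.1 hp.1.2 hp.2.1 hp.2.2.1 _ _ _ e) (z3 p' hp'.1.1 hp'.1.2 hp'.2.1 hp'.2.2.1 _ _ _ e'))
      fun e0 => ?_)
  have r := (h.ind3 g hp.1.1 hp'.1.1 m3 n hp.2.2.2 hp'.2.2.2 hp.1.2 hp'.1.2 b3 c1 (-a1)
    (a1 * c3 - c1 * a3) (by
      rw [e, e']
      linear_combination (norm := module) -(e0 • nr B ψ1 x2))).2.1
  exact one_ne_zero (h.ind3 g hp.1.1 m2 m3 hp.2.2.1 hp.2.2.2 n3 hp.1.2 b2 b3 1 (-a2) (-a3)
    (by rw [e, neg_eq_zero.1 r]; module)).1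

theorem Des.basis (h : Des B X Y t m0 x0 ψ1 ψ2 ψ3 k A)
    {ν Z : ℝ} (hZ : 64 * ((t : ℝ) + 3) ^ 2 ≤ Z) (hν : Z ^ 210 ≤ ν) (hY : (Y.card : ℝ) ≤ ν ^ 3)
    (hAc : ν ^ 2 / Z ≤ A.card)
    (hg : ∀ p ∈ A, ν ^ 2 / Z ≤ ∑ y ∈ Y, ind (Gd B X t m0 y ∧ B y p = 0)) :
    ∃ v1 v2 v3 v4, Ind4 F v1 v2 v3 v4 ∧ (∀ i, B m0 (![v1, v2, v3, v4] i) = 0) ∧ B v1 v2 ≠ 0 ∧
      (∀ i j, B (![v1, v2, v3, v4] i) (![v1, v2, v3, v4] j) / B v1 v2 ∈ k) ∧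
      (∀ p ∈ A, ∃ s : F, s ≠ 0 ∧ ∃ c : Fin 4 → k, ∑ i, (c i : F) • ![v1, v2, v3, v4] i = s • p) ∧
      B v1 v1 = 0 ∧ B v2 v2 = 0 ∧ B v4 v4 = 0 ∧ B v4 v1 ≠ 0 ∧ B v4 v2 ≠ 0 ∧
      ∀ p ∈ A, B v4 p ≠ 0 := by
  classical
  have hB := h.c.nd
  have t0 : (0 : ℝ) ≤ t := Nat.cast_nonneg _
  have Z5 : 512 ≤ Z := by nlinarith
  have Z0 : 0 < Z := by linarith
  have kk : ∀ j, j ≤ 210 → Z ^ j ≤ ν := fun j hj => (pow_le_pow_right₀ (by linarith) hj).trans hν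
  have ν1 : 1 ≤ ν := by simpa using kk 0 (by norm_num)
  have ν0 : 0 < ν := by linarith
  obtain ⟨x1, m1, x2, m2, n1, hc⟩ := ex_pair A Y (fun y p => Gd B X t m0 y ∧ B y p = 0) hY
    (by positivity) hg (m := 2 * t) (by positivity) (by
      have A0 : (0 : ℝ) < A.card := lt_of_lt_of_le (by positivity) hAc
      generalize (A.card : ℝ) = a at *
      rw [div_le_iff₀ Z0] at hAc
      have a1 : 16 * Z ^ 4 ≤ ν ^ 2 / 2 := by
        have := kk 5 (by norm_num)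
        nlinarith [pow_pos Z0 4]
      have a2 : 4 * t * Z ^ 2 ≤ ν / 4 := by
        have := kk 3 (by norm_num)
        have : 16 * t ≤ Z := by nlinarith
        nlinarith [pow_pos Z0 2]
      rw [← mul_div_assoc, div_pow, lt_div_iff₀ (by positivity)]
      calc _ = 16 * Z ^ 2 * ν ^ 2 * (ν ^ 2) ^ 2 + 4 * t * Z ^ 2 * ν ^ 3 * a ^ 2 := by ring
        _ ≤ 16 * Z ^ 2 * ν ^ 2 * (a * Z) ^ 2 + ν / 4 * ν ^ 3 * a ^ 2 := by gcongr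
        _ = 16 * Z ^ 4 * (ν ^ 2 * a ^ 2) + ν ^ 4 * a ^ 2 / 4 := by ring
        _ ≤ ν ^ 2 / 2 * (ν ^ 2 * a ^ 2) + ν ^ 4 * a ^ 2 / 4 := by gcongr
        _ = 3 / 4 * (a * ν ^ 2) ^ 2 := by ring
        _ < _ := by linarith [show 0 < (a * ν ^ 2) ^ 2 by positivity])
  rw [sum_ind] at hc
  set S := Y.filter fun y => 4 < ∑ x ∈ A, ind (Gd B X t m0 y ∧ B y x = 0) ∧
    (Gd B X t m0 y ∧ B y x1 = 0) ∧ Gd B X t m0 y ∧ B y x2 = 0 with hS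
  have hc' : 2 * t < S.card := by exact_mod_cast hc
  have mS : ∀ y ∈ S, Gd B X t m0 y ∧ B y x1 = 0 ∧ B y x2 = 0 ∧ 4 < ∑ x ∈ A, ind (B y x = 0) :=
    fun y hy => by
      obtain ⟨-, a, ⟨g, b⟩, -, c⟩ := mem_filter.1 hy
      exact ⟨g, b, c, by simpa only [g, true_and] using a⟩
  have fw : ∀ x ∈ X, x1 ≠ x → x2 ≠ x → B m0 x = 0 → (S.filter fun y => B y x = 0).card ≤ t := by
    intro x hx a1 a2 a3
    rcases (S.filter fun y => B y x = 0).eq_empty_or_nonempty with e | ⟨y, hy⟩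
    · simp [e]
    obtain ⟨g, b1, b2, -⟩ := mS y (mem_filter.1 hy).1
    exact (h.c.few g (h.hA m1) (h.hA m2) hx n1 a1 a2 ⟨(h.hp _ m1).2.1, b1⟩ ⟨(h.hp _ m2).2.1, b2⟩
      ⟨a3, (mem_filter.1 hy).2⟩ ((filter_subset _ _).trans (filter_subset _ _)) fun w hw =>
        ⟨(mS w (mem_filter.1 hw).1).2.1, (mS w (mem_filter.1 hw).1).2.2.1, (mem_filter.1 hw).2⟩).le
  have th : ∀ y ∈ S, ∃ x ∈ A, x1 ≠ x ∧ x2 ≠ x ∧ B y x = 0 := fun y hy => by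
    have := (mS y hy).2.2.2
    rw [sum_ind] at this
    have c5 : 4 < (A.filter fun x => B y x = 0).card := by exact_mod_cast this
    obtain ⟨x, a, b⟩ := Finset.exists_mem_notMem_of_card_lt_card
      (lt_of_le_of_lt (Finset.card_le_two (a := x1) (b := x2)) (lt_trans (by norm_num) c5))
    simp only [mem_insert, mem_singleton, not_or] at b
    exact ⟨x, (mem_filter.1 a).1, Ne.symm b.1, Ne.symm b.2, (mem_filter.1 a).2⟩
  have f0 := fw x0 h.hx (h.hp _ m1).1 (h.hp _ m2).1 h.h0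
  obtain ⟨y, hy, b0⟩ := Finset.exists_mem_notMem_of_card_lt_card
    (show (S.filter fun y => B y x0 = 0).card < S.card by omega)
  obtain ⟨x3, m3, n2, n3, b3⟩ := th y hy
  have f3 := fw x3 (h.hA m3) n2 n3 (h.hp _ m3).2.1
  obtain ⟨y', hy', d0⟩ := Finset.exists_mem_notMem_of_card_lt_card
    (lt_of_le_of_lt (Finset.card_union_le (S.filter fun y => B y x0 = 0)
      (S.filter fun y => B y x3 = 0)) (show _ < S.card by omega))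
  obtain ⟨x4, m4, n4, n5, d4⟩ := th y' hy'
  simp only [mem_union, mem_filter, hy, hy', true_and, not_or] at b0 d0
  obtain ⟨g, b1, b2, b5⟩ := mS y hy
  obtain ⟨g', d1, d2, d5⟩ := mS y' hy'
  have b4 : B y x4 ≠ 0 := fun e => d0.2 (h.c.circ g.1 (h.hA m1) (h.hA m2) (h.hA m4) n1 n4 n5
    ⟨(h.hp _ m1).2.1, b1⟩ ⟨(h.hp _ m2).2.1, b2⟩ ⟨(h.hp _ m4).2.1, e⟩ d1 d2 d4 (h.hp _ m3).2.1 b3)
  obtain ⟨k13, k23⟩ := h.five g.1 m1 m2 m3 n1 n2 n3 b1 b2 b3 b0 b5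
  obtain ⟨k14, k24⟩ := h.five g'.1 m1 m2 m4 n1 n4 n5 d1 d2 d4 d0.1 d5
  obtain ⟨a1, l1, a2, l2, a3, l3, a, e⟩ := h.coord g.1 m1 m2 m3 n1 n2 n3 b1 b2 b3 b0 m4 one_ne_zero
  rw [one_smul] at e
  have ha : a ≠ 0 := fun e0 => b4 ((h.z m4 y).1 (by
    simp [e, e0, (h.z m1 y).2 b1, (h.z m2 y).2 b2, (h.z m3 y).2 b3]))
  have ha3 : a3 ≠ 0 := fun e0 => d0.1 (by
    simpa [e, e0, ha, (h.z m1 y').2 d1, (h.z m2 y').2 d2] using (h.z m4 y').2 d4)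
  have hβ : B (nr B ψ1 x1) (nr B ψ1 x2) ≠ 0 := by
    rw [Ne, h.z m2, hB.1, h.z m1]
    exact h.c.no g.1 (h.hA m2) (h.hA m1) n1.symm ⟨(h.hp _ m2).2.1, b2⟩ ⟨(h.hp _ m1).2.1, b1⟩
  have i4 := h.ind4 g.1 m1 m2 m3 n1 n2 n3 b1 b2 b3 b0 ha
  have co := fun p (hp : p ∈ A) => h.coord g.1 m1 m2 m3 n1 n2 n3 b1 b2 b3 b0 hp ha
  have j1 := h.iso m1
  have j2 := h.iso m2
  have j3 := h.iso m3
  have j4 := h.iso m4
  have j5 : B (a • x0) (a • x0) = 0 := by simp [h.c.iso x0 h.hx]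
  have zm : ∀ p ∈ A, B m0 (nr B ψ1 p) = 0 := fun p a => (h.z a m0).2 (h.hp p a).2.1
  have z1 := zm _ m1
  have z2 := zm _ m2
  have z3 := zm _ m3
  have z4 : B m0 (a • x0) = 0 := by simp [h.h0]
  have z5 : ∀ p ∈ A, B (a • x0) (nr B ψ1 p) ≠ 0 := fun p hp => by
    rw [Ne, h.z hp, hB.1]; simp [ha, (h.hp p hp).2.2]
  have z6 := z5 _ m1
  have z7 := z5 _ m2
  rw [e] at k14 k24 j4
  generalize nr B ψ1 x1 = v1 at *
  generalize nr B ψ1 x2 = v2 at *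
  generalize nr B ψ1 x3 = v3 at *
  generalize a • x0 = v4 at *
  have is : ∀ c1 c2 c3 c4 : F, B (c1 • v1 + c2 • v2 + c3 • v3 + c4 • v4)
      (c1 • v1 + c2 • v2 + c3 • v3 + c4 • v4) = 0 → c1 * c2 + c1 * c3 * (B v1 v3 / B v1 v2)
      + c2 * c3 * (B v2 v3 / B v1 v2) + c4 * (c1 * (B v1 v4 / B v1 v2) + c2 * (B v2 v4 / B v1 v2)
      + c3 * (B v3 v4 / B v1 v2)) = 0 := fun c1 c2 c3 c4 e => by
    simp only [map_add, map_smul, LinearMap.add_apply, LinearMap.smul_apply, smul_eq_mul, j1, j2,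
      j3, j5, hB.1 v2 v1, hB.1 v3 v1, hB.1 v3 v2, hB.1 v4 v1, hB.1 v4 v2, hB.1 v4 v3] at e
    field_simp
    exact mul_left_cancel₀ h.c.two (by linear_combination e)
  have r1 : B v1 v4 / B v1 v2 ∈ k := by
    convert sub_mem (sub_mem k14 l2) (mul_mem l3 k13) using 1
    simp only [map_add, map_smul, smul_eq_mul, j1]; field_simp; ring
  have r2 : B v2 v4 / B v1 v2 ∈ k := by
    convert sub_mem (sub_mem k24 l1) (mul_mem l3 k23) using 1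
    simp only [map_add, map_smul, smul_eq_mul, j2, hB.1 v2 v1]; field_simp; ring
  have r3 : B v3 v4 / B v1 v2 ∈ k := by
    have := is a1 a2 a3 1 (by rwa [one_smul])
    rw [show B v3 v4 / B v1 v2 = -(a1 * a2 + a1 * a3 * (B v1 v3 / B v1 v2)
      + a2 * a3 * (B v2 v3 / B v1 v2) + a1 * (B v1 v4 / B v1 v2) + a2 * (B v2 v4 / B v1 v2)) / a3 by
        rw [eq_div_iff ha3]; linear_combination this]
    exact div_mem (neg_mem (add_mem (add_mem (add_mem (add_mem (mul_mem l1 l2)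
      (mul_mem (mul_mem l1 l3) k13)) (mul_mem (mul_mem l2 l3) k23)) (mul_mem l1 r1))
      (mul_mem l2 r2))) l3
  refine ⟨v1, v2, v3, v4, i4, by simp [Fin.forall_fin_succ, z1, z2, z3, z4], hβ, by
      simp [Fin.forall_fin_succ, hB.1 v2 v1, hB.1 v3 v1, hB.1 v3 v2, hB.1 v4 v1, hB.1 v4 v2,
        hB.1 v4 v3, j1, j2, j3, j5, hβ, k13, k23, r1, r2, r3], fun p hp => ?_, j1, j2, j5, z6, z7,
    fun p hp e => z5 p hp ((h.z hp _).2 e)⟩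
  obtain ⟨c1, s1, c2, s2, c3, s3, c4, e'⟩ := co p hp
  have q1 := is c1 c2 c3 c4 (e' ▸ h.iso hp)
  have q2 : c1 * (B v1 v4 / B v1 v2) + c2 * (B v2 v4 / B v1 v2) + c3 * (B v3 v4 / B v1 v2) ≠ 0 :=
    fun e0 => z5 p hp (by
      simp only [e', map_add, map_smul, smul_eq_mul, j5, hB.1 v4 v1, hB.1 v4 v2, hB.1 v4 v3]
      field_simp at e0
      linear_combination e0)
  have s4 : c4 ∈ k := by
    rw [show c4 = -(c1 * c2 + c1 * c3 * (B v1 v3 / B v1 v2) + c2 * c3 * (B v2 v3 / B v1 v2)) / _ by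
      rw [eq_div_iff q2]; linear_combination q1]
    exact div_mem (neg_mem (add_mem (add_mem (mul_mem s1 s2) (mul_mem (mul_mem s1 s3) k13))
      (mul_mem (mul_mem s2 s3) k23))) (add_mem (add_mem (mul_mem s1 r1) (mul_mem s2 r2))
      (mul_mem s3 r3))
  exact ⟨_, inv_ne_zero (h.hq p hp).1, ![⟨c1, s1⟩, ⟨c2, s2⟩, ⟨c3, s3⟩, ⟨c4, s4⟩], by
    simpa [Fin.sum_univ_four, nr] using e'.symm⟩

open Classical in
theorem Des.cone (h : Des B X Y t m0 x0 ψ1 ψ2 ψ3 k A) (i0 : B m0 m0 = 0) {R : Finset F}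
    (hk : ∀ x, x ∈ k ↔ x ∈ R) {ν Z : ℝ} (hZ : 64 * ((t : ℝ) + 3) ^ 2 ≤ Z) (hν : Z ^ 210 ≤ ν)
    (hY : (Y.card : ℝ) ≤ ν ^ 3) (hR : (R.card : ℝ) ≤ Z * ν) (hAc : ν ^ 2 / Z ≤ A.card)
    (hg : ∀ p ∈ A, ν ^ 2 / Z ≤ ∑ y ∈ Y, ind (Gd B X t m0 y ∧ B y p = 0))
    (hE : ∀ p ∈ A, (X.filter fun x => B m0 x = 0 ∧ B p x = 0).card < t) : False := by
  have hB := h.c.nd
  obtain ⟨v1, v2, v3, v4, i4, hv, hβ, hG, hc, j1, j2, j4, n1, n2, n3⟩ := h.basis hZ hν hY hAc hg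
  have z1 : B m0 v1 = 0 := hv 0
  have z2 : B m0 v2 = 0 := hv 1
  have z4 : B m0 v4 = 0 := hv 3
  set u := (B v2 v4 / B v1 v2) • v1 - (B v1 v4 / B v1 v2) • v2 with hu
  have c1 : ∀ p ∈ A, B u p / B v4 p ∈ R := fun p hp => by
    obtain ⟨s, hs, c, e⟩ := hc p hp
    have a : ∀ i, B (![v1, v2, v3, v4] i) (s • p) / B v1 v2 ∈ k := fun i => by
      simp only [← e, map_sum, map_smul, smul_eq_mul, Finset.sum_div, mul_div_assoc]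
      exact sum_mem fun j _ => mul_mem (c j).2 (hG i j)
    have := n3 p hp
    rw [← hk]
    convert div_mem (sub_mem (mul_mem (hG 1 3) (a 0)) (mul_mem (hG 0 3) (a 1))) (a 3) using 1
    simp [hu]; field_simp
  have c2 := Finset.card_le_mul_card_image_of_maps_to c1 t fun ρ _ => by
    rcases (A.filter fun p => B u p / B v4 p = ρ).eq_empty_or_nonempty with e | ⟨p, hp⟩
    · simp [e]
    obtain ⟨a1, a2⟩ := mem_filter.1 hp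
    refine le_trans (Finset.card_le_card fun x hx => ?_) (hE p a1).le
    obtain ⟨b1, b2⟩ := mem_filter.1 hx
    refine mem_filter.2 ⟨h.hA b1, (h.hp x b1).2.1, ?_⟩
    by_contra n
    rw [div_eq_iff (n3 _ a1)] at a2
    rw [div_eq_iff (n3 _ b1)] at b2
    have g := fun a b c => gram3 hB h.c.two (h.c.iso p (h.hA a1)) (h.c.iso x (h.hA b1)) j4 n
      (by rw [hB.1]; exact n3 p a1) (by rw [hB.1]; exact n3 x b1) (a := a) (b := b) (c := c)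
    have p0 : B p m0 = 0 := by rw [hB.1, (h.hp p a1).2.1]
    have x0 : B x m0 = 0 := by rw [hB.1, (h.hp x b1).2.1]
    have v0 : B v4 m0 = 0 := by rw [hB.1, z4]
    obtain ⟨a, e⟩ := sp41 hB h.c.dim (h.c.pY.1 m0 h.hm) (x := p) (y := x) (z := v4) (v := m0)
      (w := u - ρ • v4) (fun a b c d e => by
        obtain ⟨rfl, rfl, rfl⟩ := g a b c (by simpa [p0] using congrArg (B p) e)
          (by simpa [x0] using congrArg (B x) e) (by simpa [v0] using congrArg (B v4) e)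
        exact ⟨rfl, rfl, rfl, by simpa [h.c.pY.1 m0 h.hm] using e⟩) p0 x0 v0 i0
      (by rw [hB.1]; simp [a2]) (by rw [hB.1]; simp [b2])
      (by simp [hu, j4, hB.1 v4]; ring) (by simp [hu, z1, z2, z4])
    have e1 := congrArg (B v1) e
    have e2 := congrArg (B v2) e
    simp only [hu, map_sub, map_smul, smul_eq_mul, j1, j2, hB.1 v1 m0, hB.1 v2 m0, z1, z2,
      hB.1 v2 v1, div_mul_cancel₀ _ hβ, mul_zero] at e1 e2
    rw [hB.1] at n1 n2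
    exact mul_ne_zero h.c.two (mul_ne_zero n1 n2)
      (by linear_combination B v1 v4 * e2 - B v2 v4 * e1)
  have c3 : (A.card : ℝ) ≤ t * R.card := by exact_mod_cast c2
  have t0 : (0 : ℝ) ≤ t := Nat.cast_nonneg _
  have Z5 : 512 ≤ Z := by nlinarith
  have Z0 : 0 < Z := by linarith
  have k3 : Z ^ 3 ≤ ν := (pow_le_pow_right₀ (by linarith) (by norm_num)).trans hν
  have ν0 : 0 < ν := lt_of_lt_of_le (by positivity) k3
  rw [div_le_iff₀ Z0] at hAc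
  have : ν ^ 2 < ν ^ 2 :=
    calc _ ≤ t * (Z * ν) * Z := hAc.trans (by gcongr; exact c3.trans (by gcongr))
      _ < Z * (Z * ν) * Z := by gcongr; nlinarith
      _ = Z ^ 3 * ν := by ring
      _ ≤ ν * ν := by gcongr
      _ = _ := by ring
  exact lt_irrefl _ this

end Pool.Agent.P.MP_1d6da1_co.Sph
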