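import Mathlib

namespace Pool.Agent.P.MP_1d6da1_co.Sph

open Finset QuadraticAlgebra

abbrev K (F : Type) [Field F] (t : F) := QuadraticAlgebra F (-t) 0

abbrev U (F : Type) [Field F] (t : F) := unitary (K F t)

variable {F : Type} [Field F] {t : F}

noncomputable instance instFinK [Fintype F] : Fintype (K F t) :=
  Fintype.ofEquiv (F × F) (QuadraticAlgebra.equivProd _ _).symm

noncomputable instance instFinU [Fintype F] : Fintype (U F t) := Fintype.ofFinite _

theorem card_K [Fintype F] : Fintype.card (K F t) = Fintype.card F ^ 2 := by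
  rw [Fintype.card_congr (QuadraticAlgebra.equivProd (-t) (0 : F)), Fintype.card_prod, sq]

/-- The norm form. -/
def nm (z : K F t) : F := z.re ^ 2 + t * z.im ^ 2

theorem nrm (z : K F t) : nm z = z.re ^ 2 + t * z.im ^ 2 := rfl

theorem nm_eq (z : K F t) : nm z = QuadraticAlgebra.norm z := by
  rw [norm_def, nrm]; ring

theorem nm_mul (z w : K F t) : nm (z * w) = nm z * nm w := by
  simp only [nm_eq, map_mul]

theorem nm_neg (z : K F t) : nm (-z) = nm z := by simp [nrm]

theorem nm_star (z : K F t) : nm (star z) = nm z := by simp [nrm]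

theorem nm_smul (s : F) (z : K F t) : nm (s • z) = s ^ 2 * nm z := by
  simp only [nrm, re_smul, im_smul, smul_eq_mul]; ring

theorem nm_zero : nm (0 : K F t) = 0 := by simp [nrm]

theorem mul_star_eq (z : K F t) : z * star z = (nm z) • (1 : K F t) := by
  rw [← algebraMap_norm_eq_mul_star, Algebra.algebraMap_eq_smul_one, nm_eq]

theorem U_norm (u : U F t) : nm (u : K F t) = 1 := by
  rw [nm_eq]; exact norm_eq_one_iff_mem_unitary.2 u.2

theorem mem_U {z : K F t} (h : nm z = 1) : z ∈ unitary (K F t) :=
  norm_eq_one_iff_mem_unitary.1 (by rw [← nm_eq]; exact h)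

theorem U_mul_star (u : U F t) : (u : K F t) * star (u : K F t) = 1 := by
  rw [mul_star_eq, U_norm, one_smul]

theorem cancelK {w z z' : K F t} (hw : nm w ≠ 0) (h : w * z = w * z') : z = z' :=
  (isUnit_iff_norm_isUnit.2 (IsUnit.mk0 _ (by rwa [← nm_eq]))).mul_left_cancel h

theorem quad_le_two [Fintype F] [DecidableEq F] {a : F} (b c : F) (ha : a ≠ 0) :
    (univ.filter fun s : F => a * s ^ 2 + b * s + c = 0).card ≤ 2 := by
  have hd : (Polynomial.C a * Polynomial.X ^ 2 + Polynomial.C b * Polynomial.X
      + Polynomial.C c).natDegree = 2 := Polynomial.natDegree_quadratic ha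
  have h0 : (Polynomial.C a * Polynomial.X ^ 2 + Polynomial.C b * Polynomial.X
      + Polynomial.C c) ≠ 0 := by
    intro h; rw [h] at hd; simp at hd
  refine le_trans ?_ hd.le
  apply Polynomial.card_le_degree_of_subset_roots
  intro s hs
  simp only [Finset.mem_val, Finset.mem_filter] at hs
  rw [Polynomial.mem_roots h0]
  simp [hs.2]

theorem card_norm_le [Fintype F] [DecidableEq F] (ρ : F) :
    (univ.filter fun z : K F t => nm z = ρ).card ≤ 2 * Fintype.card F := by
  have := Finset.card_le_mul_card_image_of_maps_to (f := fun z : K F t => z.im)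
    (s := univ.filter fun z : K F t => nm z = ρ) (t := univ) (fun _ _ => mem_univ _) 2 (by
      intro b _
      refine le_trans ?_ (quad_le_two (a := 1) 0 (t * b ^ 2 - ρ) one_ne_zero)
      refine Finset.card_le_card_of_injOn (fun z => z.re) ?_ ?_
      · intro z hz
        simp only [coe_filter, mem_filter, mem_univ, true_and, Set.mem_ofPred_eq] at hz ⊢
        rw [← hz.1, ← hz.2, nrm]; ring
      · intro z hz z' hz' h
        simp only [coe_filter, mem_filter, mem_univ, true_and, Set.mem_ofPred_eq] at hz hz'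
        ext
        · exact h
        · rw [hz.2, hz'.2])
  simpa using this

theorem card_U_le [Fintype F] : Fintype.card (U F t) ≤ 2 * Fintype.card F := by
  classical
  refine le_trans ?_ (card_norm_le (t := t) 1)
  rw [← Finset.card_univ]
  refine Finset.card_le_card_of_injOn (fun u => (u : K F t)) ?_ ?_
  · intro u _
    simp [U_norm]
  · intro u _ u' _ h
    exact Subtype.ext h

theorem norm_sub_ne (ht : t ≠ 0) (h2 : (2 : F) ≠ 0) {u u' : U F t} (h : u ≠ u') :
    nm ((u : K F t) - (u' : K F t)) ≠ 0 := by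
  intro h0
  apply h
  have h1 := U_norm u
  have h1' := U_norm u'
  rw [nrm] at h0 h1 h1'
  simp only [re_sub, im_sub] at h0
  set a := (u : K F t).re
  set b := (u : K F t).im
  set a' := (u' : K F t).re
  set b' := (u' : K F t).im
  have e : a * a' + t * (b * b') = 1 := by
    apply mul_left_cancel₀ h2
    linear_combination h1 + h1' - h0
  have e2 : a * b' - a' * b = 0 := by
    have : t * (a * b' - a' * b) ^ 2 = 0 := by
      linear_combination (a' ^ 2 + t * b' ^ 2) * h1 + h1' - (a * a' + t * (b * b') + 1) * e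
    exact pow_eq_zero_iff (two_ne_zero) |>.1 ((mul_eq_zero.1 this).resolve_left ht)
  apply Subtype.ext
  ext
  · change a = a'
    linear_combination (-a) * h1' + a' * e + t * b' * e2
  · change b = b'
    linear_combination (-b) * h1' + b' * e - a' * e2

/-- `z` has direction `θ`. -/
def par (θ : U F t) (z : K F t) : Prop := z = (θ : K F t) * star z

theorem par_zero (θ : U F t) : par θ 0 := by simp [par]

theorem par_add {θ : U F t} {z w : K F t} (hz : par θ z) (hw : par θ w) : par θ (z + w) := by
  unfold par at *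
  rw [star_add, mul_add, ← hz, ← hw]

theorem par_neg {θ : U F t} {z : K F t} (hz : par θ z) : par θ (-z) := by
  unfold par at *
  rw [star_neg, mul_neg, ← hz]

theorem par_sub {θ : U F t} {z w : K F t} (hz : par θ z) (hw : par θ w) : par θ (z - w) := by
  rw [sub_eq_add_neg]; exact par_add hz (par_neg hw)

theorem star_smul' (s : F) (z : K F t) : star (s • z) = s • star z := by
  ext <;> simp

theorem par_smul {θ : U F t} {z : K F t} (s : F) (hz : par θ z) : par θ (s • z) := by
  unfold par at *
  rw [star_smul', mul_smul_comm, ← hz]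

theorem par_unique {θ θ' : U F t} {w : K F t} (hw : nm w ≠ 0) (h : par θ w) (h' : par θ' w) :
    θ = θ' := by
  apply Subtype.ext
  apply cancelK (w := star w) (by rwa [nm_star])
  rw [mul_comm, ← h, mul_comm, ← h']

theorem exists_par (ht : t ≠ 0) (h2 : (2 : F) ≠ 0) (θ : U F t) :
    ∃ w : K F t, nm w ≠ 0 ∧ par θ w := by
  by_cases h : θ = -1
  · refine ⟨⟨0, 1⟩, by simp [nrm, ht], ?_⟩
    subst h
    unfold par
    simp only [Unitary.coe_neg, OneMemClass.coe_one]
    ext <;> simp
  · refine ⟨(θ : K F t) - ((-1 : U F t) : K F t), norm_sub_ne ht h2 h, ?_⟩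
    unfold par
    have := U_mul_star θ
    simp only [Unitary.coe_neg, OneMemClass.coe_one, sub_neg_eq_add, star_add, star_one]
    linear_combination -this

theorem par_line (h2 : (2 : F) ≠ 0) {θ : U F t} {w z : K F t} (hw : nm w ≠ 0) (h : par θ w)
    (hz : par θ z) : ∃ s : F, z = s • w := by
  have e : z * star w = w * star z := by
    unfold par at h hz
    linear_combination (star w) * hz - (star z) * h
  have e2 := congrArg QuadraticAlgebra.im e
  simp only [im_mul, re_star, im_star] at e2
  have e3 : z.im * w.re - z.re * w.im = 0 := by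
    apply mul_left_cancel₀ h2
    linear_combination e2
  refine ⟨(z.re * w.re + t * (z.im * w.im)) / nm w, ?_⟩
  ext
  · simp only [re_smul, smul_eq_mul]
    field_simp
    rw [nrm]
    linear_combination (-t * w.im) * e3
  · simp only [im_smul, smul_eq_mul]
    field_simp
    rw [nrm]
    linear_combination w.re * e3

open Classical in
theorem card_par_le [Fintype F] (ht : t ≠ 0) (h2 : (2 : F) ≠ 0) (θ : U F t) :
    (univ.filter fun z : K F t => par θ z).card ≤ Fintype.card F := by
  obtain ⟨w, hw, h⟩ := exists_par ht h2 θ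
  refine le_trans (Finset.card_le_card (t := univ.image fun s : F => s • w) ?_) ?_
  · intro z hz
    obtain ⟨s, hs⟩ := par_line h2 hw h (mem_filter.1 hz).2
    exact mem_image.2 ⟨s, mem_univ _, hs.symm⟩
  · exact Finset.card_image_le.trans (by simp)

/-- Functions constant along two different directions are uncorrelated. -/
theorem orth [Fintype F] (ht : t ≠ 0) (h2 : (2 : F) ≠ 0) {θ θ' : U F t} (hne : θ ≠ θ')
    (g g' : K F t → ℝ) (hg : ∀ y z, par θ z → g (y + z) = g y)
    (hg' : ∀ y z, par θ' z → g' (y + z) = g' y) :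
    (Fintype.card F : ℝ) ^ 2 * ∑ y, g y * g' y = (∑ y, g y) * ∑ y, g' y := by
  obtain ⟨w, hw, h⟩ := exists_par ht h2 θ
  obtain ⟨w', hw', h'⟩ := exists_par ht h2 θ'
  have hb : Function.Bijective fun p : F × F => p.1 • w + p.2 • w' := by
    rw [Fintype.bijective_iff_injective_and_card]
    refine ⟨?_, by rw [card_K, Fintype.card_prod, sq]⟩
    rintro ⟨a, b⟩ ⟨a', b'⟩ e
    simp only at e
    have e1 : (a - a') • w = (b' - b) • w' := by
      rw [sub_smul, sub_smul]; linear_combination e
    have ha : a - a' = 0 := by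
      by_contra ha
      refine hne (par_unique (w := (a - a') • w) ?_ (par_smul _ h) (e1 ▸ par_smul _ h'))
      rw [nm_smul]
      exact mul_ne_zero (pow_ne_zero 2 ha) hw
    have hb : b' - b = 0 := by
      rw [ha, zero_smul] at e1
      rcases smul_eq_zero.1 e1.symm with h0 | h0
      · exact h0
      · rw [h0] at hw'; exact absurd nm_zero hw'
    rw [Prod.mk.injEq]
    exact ⟨sub_eq_zero.1 ha, (sub_eq_zero.1 hb).symm⟩
  have e1 : ∀ y, ∑ y', g' y' = ∑ p : F × F, g' (y + p.1 • w) := by
    intro y
    rw [← Equiv.sum_comp (Equiv.addLeft y) g', ← hb.sum_comp (fun z => g' (Equiv.addLeft y z))]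
    refine Finset.sum_congr rfl fun p _ => ?_
    simp only [Equiv.coe_addLeft]
    rw [← add_assoc, hg' _ _ (par_smul _ h')]
  have e2 : ∀ p : F × F, ∑ y, g y * g' (y + p.1 • w) = ∑ y, g y * g' y := by
    intro p
    rw [← Equiv.sum_comp (Equiv.addRight (p.1 • w)) (fun y => g y * g' y)]
    refine Finset.sum_congr rfl fun y _ => ?_
    simp only [Equiv.coe_addRight]
    rw [hg _ _ (par_smul _ h)]
  have e3 : ∀ y, g y * ∑ y', g' y' = ∑ p : F × F, g y * g' (y + p.1 • w) :=
    fun y => by rw [e1 y, Finset.mul_sum]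
  rw [Finset.sum_mul]
  simp only [e3]
  rw [Finset.sum_comm (s := (univ : Finset (K F t)))]
  simp only [e2]
  simp [sq]

/-- The tangent direction at `c + z` of the circle with centre `c`. -/
noncomputable def tau (z : K F t) : U F t := by
  classical
  exact if h : nm z ≠ 0 then ⟨-((nm z)⁻¹ • (z * z)), mem_U (by
    rw [nm_neg, nm_smul, nm_mul]; field_simp)⟩ else 1

theorem tau_coe {z : K F t} (h : nm z ≠ 0) :
    (tau z : K F t) = -((nm z)⁻¹ • (z * z)) := by
  unfold tau; rw [dif_pos h]

theorem par_chord {z : K F t} (h : nm z ≠ 0) (u u' : U F t) :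
    par (tau z * u * u') (z * u - z * u') := by
  unfold par
  have h1 := U_mul_star u
  have h1' := U_mul_star u'
  have h3 : ((nm z)⁻¹ • (z * z)) * star z = z := by
    rw [smul_mul_assoc, mul_assoc, mul_star_eq, mul_smul_comm, smul_smul, inv_mul_cancel₀ h,
      one_smul, mul_one]
  simp only [Submonoid.coe_mul, tau_coe h, star_sub, star_mul]
  set a := (nm z)⁻¹ • (z * z)
  linear_combination (a * star z * (u' : K F t)) * h1 - (a * star z * (u : K F t)) * h1'
    + ((u' : K F t) - u) * h3

theorem pair_bij [Fintype F] (ht : t ≠ 0) (h2 : (2 : F) ≠ 0) {u u' : U F t} (h : u ≠ u') :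
    Function.Bijective fun p : K F t × K F t => (p.1 + p.2 * u, p.1 + p.2 * u') := by
  rw [← Finite.injective_iff_bijective]
  rintro ⟨c, z⟩ ⟨c', z'⟩ e
  simp only [Prod.mk.injEq] at e
  have hz : z = z' := by
    apply cancelK (norm_sub_ne ht h2 h)
    linear_combination e.1 - e.2
  subst hz
  rw [Prod.mk.injEq]
  exact ⟨by linear_combination e.1, rfl⟩

theorem char_ne [Fintype F] (h2 : (2 : F) ≠ 0) : ringChar F ≠ 2 := by
  intro h
  apply h2
  have := ringChar.Nat.cast_ringChar (R := F)
  rw [h] at this
  exact_mod_cast this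

theorem exists_norm [Fintype F] (ht : t ≠ 0) (h2 : (2 : F) ≠ 0) (ρ : F) :
    ∃ z : K F t, nm z = ρ := by
  have hd : (Polynomial.C t * Polynomial.X ^ 2 + Polynomial.C 0 * Polynomial.X
      + Polynomial.C (-ρ)).degree = 2 := Polynomial.degree_quadratic ht
  obtain ⟨a, b, h⟩ := FiniteField.exists_root_sum_quadratic (f := Polynomial.X ^ 2)
    (by simp) hd (FiniteField.odd_card_of_char_ne_two (char_ne h2))
  refine ⟨⟨a, b⟩, ?_⟩
  rw [nrm]
  simp at h
  linear_combination h

theorem three_le_card [Fintype F] (h2 : (2 : F) ≠ 0) : 3 ≤ Fintype.card F := by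
  have h1 := FiniteField.odd_card_of_char_ne_two (char_ne h2)
  have h3 : 1 < Fintype.card F := Fintype.one_lt_card
  omega

end Pool.Agent.P.MP_1d6da1_co.Sph
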