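import Mathlib

namespace Pool.Agent.P.MP_1d6da1_co.Sph

open Finset

theorem cs1 {α : Type*} (s : Finset α) (g h : α → ℝ) (hg : ∀ x ∈ s, |g x| ≤ 1) :
    (∑ x ∈ s, g x * h x) ^ 2 ≤ s.card * ∑ x ∈ s, h x ^ 2 := by
  refine (Finset.sum_mul_sq_le_sq_mul_sq s g h).trans ?_
  refine mul_le_mul_of_nonneg_right ?_ (Finset.sum_nonneg fun _ _ => sq_nonneg _)
  calc ∑ x ∈ s, g x ^ 2 ≤ ∑ x ∈ s, (1 : ℝ) :=
        Finset.sum_le_sum fun x hx => by
          have := hg x hx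
          rw [← sq_abs]
          nlinarith [abs_nonneg (g x)]
    _ = s.card := by simp

theorem cs3 {α ι κ : Type*} [Fintype ι] [Fintype κ] (s : Finset α) (g h : α → ι → κ → ℝ)
    (hg : ∀ x a b, |g x a b| ≤ 1) :
    (∑ x ∈ s, ∑ a, ∑ b, g x a b * h x a b) ^ 2
      ≤ s.card * Fintype.card ι * Fintype.card κ * ∑ x ∈ s, ∑ a, ∑ b, h x a b ^ 2 := by
  have := cs1 (s ×ˢ ((univ : Finset ι) ×ˢ (univ : Finset κ))) (fun p => g p.1 p.2.1 p.2.2)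
    (fun p => h p.1 p.2.1 p.2.2) (fun p _ => hg _ _ _)
  simp only [Finset.sum_product, Finset.card_product, Finset.card_univ] at this
  push_cast at this
  linarith

theorem sw23 {ι : Type*} [Fintype ι] (G : ι → ι → ι → ℝ) :
    ∑ a, ∑ b, ∑ c, G a b c = ∑ a, ∑ c, ∑ b, G a b c :=
  Finset.sum_congr rfl fun _ _ => Finset.sum_comm

theorem rot3 {ι : Type*} [Fintype ι] (G : ι → ι → ι → ℝ) :
    ∑ a, ∑ b, ∑ c, G a b c = ∑ b, ∑ c, ∑ a, G a b c := by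
  rw [Finset.sum_comm]
  exact Finset.sum_congr rfl fun _ _ => Finset.sum_comm

theorem rot3' {ι : Type*} [Fintype ι] (G : ι → ι → ι → ℝ) :
    ∑ a, ∑ b, ∑ c, G a b c = ∑ c, ∑ a, ∑ b, G a b c := by
  rw [rot3, rot3]

theorem sw4 {ι : Type*} [Fintype ι] (G : ι → ι → ι → ι → ℝ) :
    ∑ b, ∑ c, ∑ a, ∑ a', G a a' b c = ∑ a, ∑ a', ∑ b, ∑ c, G a a' b c := by
  rw [rot3' (fun b c a => ∑ a', G a a' b c)]
  exact Finset.sum_congr rfl fun a _ => rot3' (fun b c a' => G a a' b c)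

/-- Replacement of an edge weight: two Cauchy-Schwarz steps. -/
theorem edge_cs {α ι : Type*} [Fintype ι] (s : Finset α) (g1 g2 D : α → ι → ι → ℝ)
    (h1 : ∀ x a b, |g1 x a b| ≤ 1) (h2 : ∀ x a b, |g2 x a b| ≤ 1) :
    (∑ x ∈ s, ∑ a, ∑ b, ∑ c, g1 x a c * g2 x b c * D x a b) ^ 4
      ≤ (s.card : ℝ) ^ 3 * (Fintype.card ι : ℝ) ^ 8
        * ∑ x ∈ s, ∑ b, ∑ b', (∑ a, D x a b * D x a b') ^ 2 := by
  set n : ℝ := (s.card : ℝ) with hn
  set u : ℝ := (Fintype.card ι : ℝ) with hu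
  have e1 : ∑ x ∈ s, ∑ a, ∑ b, ∑ c, g1 x a c * g2 x b c * D x a b
      = ∑ x ∈ s, ∑ c, ∑ a, g1 x a c * ∑ b, g2 x b c * D x a b := by
    refine Finset.sum_congr rfl fun x _ => ?_
    rw [rot3']
    refine Finset.sum_congr rfl fun c _ => Finset.sum_congr rfl fun a _ => ?_
    rw [Finset.mul_sum]
    exact Finset.sum_congr rfl fun b _ => by ring
  have c1 := cs3 s (fun x c a => g1 x a c) (fun x c a => ∑ b, g2 x b c * D x a b)
    (fun x c a => h1 _ _ _)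
  have e2 : ∑ x ∈ s, ∑ c, ∑ a, (∑ b, g2 x b c * D x a b) ^ 2
      = ∑ x ∈ s, ∑ c, ∑ p : ι × ι, (g2 x p.1 c * g2 x p.2 c) * ∑ a, D x a p.1 * D x a p.2 := by
    refine Finset.sum_congr rfl fun x _ => Finset.sum_congr rfl fun c _ => ?_
    have l1 : ∀ a, (∑ b, g2 x b c * D x a b) ^ 2
        = ∑ b, ∑ b', (g2 x b c * D x a b) * (g2 x b' c * D x a b') :=
      fun a => by rw [sq, Finset.sum_mul_sum]
    simp only [l1, Fintype.sum_prod_type]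
    rw [rot3]
    refine Finset.sum_congr rfl fun b _ => Finset.sum_congr rfl fun b' _ => ?_
    rw [Finset.mul_sum]
    exact Finset.sum_congr rfl fun a _ => by ring
  have c2 := cs3 s (fun x c (p : ι × ι) => g2 x p.1 c * g2 x p.2 c)
    (fun x _ (p : ι × ι) => ∑ a, D x a p.1 * D x a p.2)
    (fun x c p => by
      rw [abs_mul]
      exact mul_le_one₀ (h2 _ _ _) (abs_nonneg _) (h2 _ _ _))
  have e3 : ∑ x ∈ s, ∑ _c : ι, ∑ p : ι × ι, (∑ a, D x a p.1 * D x a p.2) ^ 2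
      = u * ∑ x ∈ s, ∑ b, ∑ b', (∑ a, D x a b * D x a b') ^ 2 := by
    rw [Finset.mul_sum]
    refine Finset.sum_congr rfl fun x _ => ?_
    rw [Finset.sum_const, Finset.card_univ, nsmul_eq_mul, Fintype.sum_prod_type]
  rw [e3, Fintype.card_prod] at c2
  rw [e2] at c1
  rw [e1]
  push_cast at c2
  set E := ∑ x ∈ s, ∑ c, ∑ a, g1 x a c * ∑ b, g2 x b c * D x a b
  set Y := ∑ x ∈ s, ∑ c, ∑ p : ι × ι, (g2 x p.1 c * g2 x p.2 c) * ∑ a, D x a p.1 * D x a p.2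
  set Bx := ∑ x ∈ s, ∑ b, ∑ b', (∑ a, D x a b * D x a b') ^ 2
  have hn0 : 0 ≤ n := Nat.cast_nonneg _
  have hu0 : 0 ≤ u := Nat.cast_nonneg _
  calc E ^ 4 = (E ^ 2) ^ 2 := by ring
    _ ≤ (n * u * u * Y) ^ 2 := pow_le_pow_left₀ (sq_nonneg _) c1 2
    _ = (n * u * u) ^ 2 * Y ^ 2 := by ring
    _ ≤ (n * u * u) ^ 2 * (n * u * (u * u) * (u * Bx)) :=
        mul_le_mul_of_nonneg_left c2 (sq_nonneg _)
    _ = n ^ 3 * u ^ 8 * Bx := by ring

/-- Replacement of a vertex weight: one Cauchy-Schwarz step. -/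
theorem vert_cs {α ι : Type*} [Fintype ι] (s : Finset α) (g φ : α → ι → ι → ℝ) (b0 : α → ι → ℝ)
    (h1 : ∀ x a b, |g x a b| ≤ 1) :
    (∑ x ∈ s, ∑ a, ∑ b, ∑ c, g x b c * (b0 x a * φ x a b * φ x a c)) ^ 2
      ≤ (s.card : ℝ) * (Fintype.card ι : ℝ) ^ 2
        * ∑ a, ∑ a', ∑ x ∈ s, b0 x a * b0 x a' * (∑ b, φ x a b * φ x a' b) ^ 2 := by
  have e1 : ∑ x ∈ s, ∑ a, ∑ b, ∑ c, g x b c * (b0 x a * φ x a b * φ x a c)
      = ∑ x ∈ s, ∑ b, ∑ c, g x b c * ∑ a, b0 x a * φ x a b * φ x a c := by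
    refine Finset.sum_congr rfl fun x _ => ?_
    rw [rot3]
    refine Finset.sum_congr rfl fun b _ => Finset.sum_congr rfl fun c _ => ?_
    rw [Finset.mul_sum]
  have c1 := cs3 s g (fun x b c => ∑ a, b0 x a * φ x a b * φ x a c) h1
  have e2 : ∑ x ∈ s, ∑ b, ∑ c, (∑ a, b0 x a * φ x a b * φ x a c) ^ 2
      = ∑ a, ∑ a', ∑ x ∈ s, b0 x a * b0 x a' * (∑ b, φ x a b * φ x a' b) ^ 2 := by
    have : ∀ x, ∑ b, ∑ c, (∑ a, b0 x a * φ x a b * φ x a c) ^ 2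
        = ∑ a, ∑ a', b0 x a * b0 x a' * (∑ b, φ x a b * φ x a' b) ^ 2 := by
      intro x
      have l1 : ∀ b c, (∑ a, b0 x a * φ x a b * φ x a c) ^ 2
          = ∑ a, ∑ a', (b0 x a * φ x a b * φ x a c) * (b0 x a' * φ x a' b * φ x a' c) :=
        fun b c => by rw [sq, Finset.sum_mul_sum]
      have l2 : ∀ a a', b0 x a * b0 x a' * (∑ b, φ x a b * φ x a' b) ^ 2
          = ∑ b, ∑ c, (b0 x a * φ x a b * φ x a c) * (b0 x a' * φ x a' b * φ x a' c) := by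
        intro a a'
        rw [sq, Finset.sum_mul_sum, Finset.mul_sum]
        refine Finset.sum_congr rfl fun b _ => ?_
        rw [Finset.mul_sum]
        exact Finset.sum_congr rfl fun c _ => by ring
      simp only [l1, l2]
      exact sw4 _
    simp only [this]
    rw [Finset.sum_comm]
    exact Finset.sum_congr rfl fun a _ => Finset.sum_comm
  rw [e1, ← e2]
  calc _ ≤ _ := c1
    _ = _ := by ring

end Pool.Agent.P.MP_1d6da1_co.Sph
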