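import Pool.Agent.P.MP_1d6da1_co.Sph.Lin

namespace Pool.Agent.P.MP_1d6da1_co.Sph

open Finset
open QuadraticAlgebra (re_smul im_smul re_sub im_sub re_add im_add re_zero im_zero re_mul im_mul
  re_neg im_neg re_star im_star)

variable {F : Type} [Field F] {t : F} {V : Type} [AddCommGroup V] [Module F V]

def ip (b z : K F t) : F := b.re * z.re + t * (b.im * z.im)

theorem ip_self (b : K F t) : ip b b = nm b := by rw [ip, nrm]; ring

theorem par_tau (h2 : (2 : F) ≠ 0) {b z : K F t} (hb : nm b ≠ 0) :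
    par (tau b) z ↔ ip b z = 0 := by
  have e : ∀ w : K F t, star b * ((tau b : K F t) * w) = -(b * w) := by
    intro w
    rw [tau_coe hb]
    have h3 : ((nm b)⁻¹ • (b * b)) * star b = b := by
      rw [smul_mul_assoc, mul_assoc, mul_star_eq, mul_smul_comm, smul_smul, inv_mul_cancel₀ hb,
        one_smul, mul_one]
    linear_combination (-w) * h3
  unfold par ip
  constructor
  · intro h
    have h1 := congrArg QuadraticAlgebra.re (e (star z))
    rw [← h] at h1
    simp only [re_mul, re_neg, re_star, im_star] at h1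
    apply mul_left_cancel₀ h2
    linear_combination h1
  · intro h
    apply cancelK (w := star b) (by rwa [nm_star])
    rw [e]
    ext
    · simp only [re_mul, re_neg, re_star, im_star]
      linear_combination 2 * h
    · simp only [im_mul, im_neg, re_star, im_star]
      ring

theorem par_neg_tau {b : K F t} (hb : nm b ≠ 0) : par (-tau b) b := by
  unfold par
  rw [Unitary.coe_neg, tau_coe hb, neg_neg, smul_mul_assoc, mul_assoc, mul_star_eq, mul_smul_comm,
    smul_smul, inv_mul_cancel₀ hb, one_smul, mul_one]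

theorem tau_sq {z b : K F t} {σ : F} (hz : nm z ≠ 0) (hb : nm b ≠ 0)
    (h : nm z * nm b = σ * σ) : ∃ s : U F t, tau b = tau z * s * s := by
  have hσ : σ ≠ 0 := fun h0 => mul_ne_zero hz hb (by rw [h, h0, mul_zero])
  refine ⟨⟨σ⁻¹ • (b * star z), mem_U ?_⟩, Subtype.ext ?_⟩
  · rw [nm_smul, nm_mul, nm_star, mul_comm (nm b), h]; field_simp
  · simp only [Submonoid.coe_mul, tau_coe hz, tau_coe hb]
    have e : (nm z)⁻¹ • (z * z) * σ⁻¹ • (b * star z) * σ⁻¹ • (b * star z)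
        = ((nm z)⁻¹ * σ⁻¹ * σ⁻¹) • ((z * star z) * (z * star z) * (b * b)) := by
      simp only [smul_mul_assoc, mul_smul_comm, smul_smul]
      congr 1 <;> ring
    rw [neg_mul, neg_mul, e, mul_star_eq]
    simp only [smul_mul_assoc, mul_smul_comm, smul_smul, one_mul]
    congr 2
    field_simp
    linear_combination -h

theorem ex_perp [Fintype F] [Fintype V] (B : V →ₗ[F] V →ₗ[F] F)
    (hV : Fintype.card V = Fintype.card F ^ 4) (u1 u2 u3 : V) :
    ∃ s, s ≠ 0 ∧ B s u1 = 0 ∧ B s u2 = 0 ∧ B s u3 = 0 := by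
  obtain ⟨x, y, h, e⟩ := Fintype.exists_ne_map_eq_of_card_lt
    (fun v => (B v u1, B v u2, B v u3)) (by
      simp only [Fintype.card_prod, hV]
      have : 1 < Fintype.card F := Fintype.one_lt_card
      calc _ = Fintype.card F ^ 3 := by ring
        _ < _ := Nat.pow_lt_pow_right this (by norm_num))
  simp only [Prod.mk.injEq] at e
  exact ⟨x - y, sub_ne_zero.2 h, by simp [e.1], by simp [e.2.1], by simp [e.2.2]⟩

theorem frame [Fintype F] [Fintype V] {B : V →ₗ[F] V →ₗ[F] F} (hB : Nd B) (h2 : (2 : F) ≠ 0)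
    (hV : Fintype.card V = Fintype.card F ^ 4) {x : V} (hx : x ≠ 0) (hi : B x x = 0) :
    ∃ (k t : F) (a : V → F) (b : V → K F t), k ≠ 0 ∧ t ≠ 0 ∧
      ∀ v w, B v w = a v * B w x + B v x * a w + k * ip (b v) (b w) := by
  obtain ⟨e, he⟩ := ex_one hB hx
  obtain ⟨x', p1, p2⟩ : ∃ x', B x' x = 1 ∧ B x' x' = 0 := by
    refine ⟨e - (B e e / 2) • x, by simp [he, hi], ?_⟩
    simp only [map_sub, map_smul, smul_eq_mul, LinearMap.sub_apply, LinearMap.smul_apply,
      hB.1 x e, he, hi]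
    field_simp; ring
  have p3 : B x x' = 1 := by rw [hB.1, p1]
  obtain ⟨e1, ⟨q1, q2⟩, q3⟩ : ∃ e1, (B e1 x = 0 ∧ B e1 x' = 0) ∧ B e1 e1 ≠ 0 := by
    obtain ⟨s, s0, s1, s2, -⟩ := ex_perp B hV x x' x
    obtain ⟨y, hy⟩ := hB.2 s s0
    refine aniso_of hB h2 _ (fun _ _ h h' => by simp [h.1, h.2, h'.1, h'.2]) ⟨s1, s2⟩
      (y := y - B y x' • x - B y x • x') ⟨by simp [p1, hi], by simp [p2, p3]⟩ ?_
    simpa [s1, s2] using hy
  have q4 : B x e1 = 0 := by rw [hB.1, q1]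
  have q5 : B x' e1 = 0 := by rw [hB.1, q2]
  obtain ⟨e2, ⟨r1, r2, r3⟩, r4⟩ :
      ∃ e2, (B e2 x = 0 ∧ B e2 x' = 0 ∧ B e2 e1 = 0) ∧ B e2 e2 ≠ 0 := by
    obtain ⟨s, s0, s1, s2, s3⟩ := ex_perp B hV x x' e1
    obtain ⟨y, hy⟩ := hB.2 s s0
    refine aniso_of hB h2 _ (fun _ _ h h' => by simp [h.1, h.2.1, h.2.2, h'.1, h'.2.1, h'.2.2])
      ⟨s1, s2, s3⟩ (y := y - B y x' • x - B y x • x' - (B y e1 / B e1 e1) • e1)
      ⟨by simp [p1, hi, q1], by simp [p2, p3, q2], by simp [q3, q4, q5]⟩ ?_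
    simpa [s1, s2, s3] using hy
  have r5 : B x e2 = 0 := by rw [hB.1, r1]
  have r6 : B x' e2 = 0 := by rw [hB.1, r2]
  have r7 : B e1 e2 = 0 := by rw [hB.1, r3]
  have hb : Function.Bijective fun p : F × F × F × F =>
      p.1 • x + p.2.1 • x' + p.2.2.1 • e1 + p.2.2.2 • e2 := by
    rw [Fintype.bijective_iff_injective_and_card]
    refine ⟨?_, by simp only [Fintype.card_prod, hV]; ring⟩
    rintro ⟨a, b, c, d⟩ ⟨a', b', c', d'⟩ h
    have h1 := congrArg (fun v => B v x') h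
    have h3 := congrArg (fun v => B v x) h
    have h4 := congrArg (fun v => B v e1) h
    have h5 := congrArg (fun v => B v e2) h
    simp [p1, p2, p3, hi, q1, q2, q3, q4, q5, r1, r2, r3, r4, r5, r6, r7] at h1 h3 h4 h5
    simp [h1, h3, h4, h5]
  refine ⟨B e1 e1, B e2 e2 / B e1 e1, fun v => B v x',
    fun v => ⟨B v e1 / B e1 e1, B v e2 / B e2 e2⟩, q3, div_ne_zero r4 q3, fun v w => ?_⟩
  obtain ⟨⟨a, b, c, d⟩, rfl⟩ := hb.2 w
  simp only [ip, map_add, map_smul, smul_eq_mul, LinearMap.add_apply, LinearMap.smul_apply,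
    p1, p2, p3, hi, q1, q2, q4, q5, r1, r2, r3, r5, r6, r7]
  field_simp
  ring

section
variable {B : V →ₗ[F] V →ₗ[F] F} {x0 : V} {k : F} {a : V → F} {b : V → K F t}

theorem fr_inj (hB : Nd B)
    (hf : ∀ v w, B v w = a v * B w x0 + B v x0 * a w + k * ip (b v) (b w)) {v w : V} {s : F}
    (h1 : a v = s * a w) (h3 : b v = s • b w) (h4 : B v x0 = s * B w x0) : v = s • w := by
  rw [← sub_eq_zero]
  by_contra h
  obtain ⟨y, hy⟩ := hB.2 _ h
  apply hy
  simp only [map_sub, map_smul, smul_eq_mul, LinearMap.sub_apply, LinearMap.smul_apply]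
  rw [hf v y, hf w y, h1, h3, h4]
  simp only [ip, re_smul, im_smul, smul_eq_mul]
  ring

theorem fr_eq (hB : Nd B) (h2 : (2 : F) ≠ 0)
    (hf : ∀ v w, B v w = a v * B w x0 + B v x0 * a w + k * ip (b v) (b w)) {v w : V}
    (hv : B v x0 ≠ 0) (hw : B w x0 ≠ 0) (h1 : (B v x0)⁻¹ • b v = (B w x0)⁻¹ • b w)
    (h3 : B v v / (B v x0) ^ 2 = B w w / (B w x0) ^ 2) : v = (B v x0 / B w x0) • w := by
  have e : b v = (B v x0 / B w x0) • b w := by
    rw [div_eq_mul_inv, mul_smul, ← h1, smul_smul, mul_inv_cancel₀ hv, one_smul]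
  refine fr_inj hB hf ?_ e (by field_simp)
  rw [hf v v, hf w w, e, ip_self, ip_self, nm_smul] at h3
  field_simp at h3 ⊢
  apply mul_left_cancel₀ (mul_ne_zero h2 hw)
  linear_combination h3

theorem circ_iff (h2 : (2 : F) ≠ 0) (hk : k ≠ 0)
    (hf : ∀ v w, B v w = a v * B w x0 + B v x0 * a w + k * ip (b v) (b w)) {x m : V}
    (hx : B x x0 ≠ 0) (hi : B x x = 0) (hm : B m x0 ≠ 0) :
    nm ((B x x0)⁻¹ • b x - (B m x0)⁻¹ • b m) = B m m / (k * (B m x0) ^ 2) ↔ B m x = 0 := by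
  have e : nm ((B x x0)⁻¹ • b x - (B m x0)⁻¹ • b m) - B m m / (k * (B m x0) ^ 2)
      = -2 / (k * B x x0 * B m x0) * B m x := by
    have e1 : a x = -k * ip (b x) (b x) / (2 * B x x0) := by
      rw [hf x x] at hi
      field_simp
      linear_combination hi
    rw [hf m x, hf m m, e1]
    simp only [ip, nrm, re_sub, im_sub, re_smul, im_smul, smul_eq_mul]
    field_simp
    ring
  rw [← sub_eq_zero, e, mul_eq_zero, or_iff_right]
  exact div_ne_zero (neg_ne_zero.2 h2) (mul_ne_zero (mul_ne_zero hk hx) hm)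

theorem line_iff (h2 : (2 : F) ≠ 0) (hk : k ≠ 0)
    (hf : ∀ v w, B v w = a v * B w x0 + B v x0 * a w + k * ip (b v) (b w)) {x m : V} {y : K F t}
    (hx : B x x0 ≠ 0) (hm : B m x0 = 0) (hn : nm (b m) ≠ 0) (hy : a m + k * ip (b m) y = 0) :
    par (tau (b m)) ((B x x0)⁻¹ • b x - y) ↔ B m x = 0 := by
  have e : B m x = (k * B x x0) * ip (b m) ((B x x0)⁻¹ • b x - y) := by
    rw [hf m x, hm]
    simp only [ip, re_sub, im_sub, re_smul, im_smul, smul_eq_mul] at hy ⊢
    field_simp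
    linear_combination (B x x0) * hy
  rw [par_tau h2 hn, e, mul_eq_zero, or_iff_right (mul_ne_zero hk hx)]

end

theorem class_split [Fintype F] [DecidableEq F] {α : Type*} (M : Finset α)
    (g : α → F) (h0 : ∀ m ∈ M, g m ≠ 0) :
    ∃ M1 ⊆ M, M.card ≤ 2 * M1.card ∧ ∀ m ∈ M1, ∀ m' ∈ M1, IsSquare (g m * g m') := by
  classical
  have e := Finset.card_filter_add_card_filter_not (s := M) fun m => IsSquare (g m)
  by_cases h : M.card ≤ 2 * (M.filter fun m => IsSquare (g m)).card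
  · exact ⟨_, filter_subset _ _, h, fun m hm m' hm' =>
      (mem_filter.1 hm).2.mul (mem_filter.1 hm').2⟩
  · refine ⟨M.filter fun m => ¬ IsSquare (g m), filter_subset _ _, by omega, fun m hm m' hm' => ?_⟩
    obtain ⟨a1, a2⟩ := mem_filter.1 hm
    obtain ⟨b1, b2⟩ := mem_filter.1 hm'
    rw [← quadraticChar_one_iff_isSquare (mul_ne_zero (h0 m a1) (h0 m' b1)), map_mul,
      quadraticChar_neg_one_iff_not_isSquare.2 a2, quadraticChar_neg_one_iff_not_isSquare.2 b2]
    norm_num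

end Pool.Agent.P.MP_1d6da1_co.Sph
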