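import Pool.Agent.P.MP_1d6da1_co.Sph.Step

namespace Pool.Agent.P.MP_1d6da1_co.Sph

open Finset

section
variable {F : Type} [Field F] [Fintype F] {V : Type} [AddCommGroup V] [Module F V] [Fintype V]

theorem mixing {B : V →ₗ[F] V →ₗ[F] F} (hB : Nd B) {X Y : Finset V}
    (hX : Pd F X) (hY : Pd F Y) :
    (∑ y ∈ Y, Nx B X y - Y.card * (X.card / Fintype.card F)) ^ 2 * (Fintype.card F : ℝ) ^ 2
      ≤ 2 * (X.card * Y.card * Fintype.card V) := by
  have h1 := (sum_proj_le hY (fun v => (Nx B X v - X.card / Fintype.card F) ^ 2)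
    (fun _ => sq_nonneg _) (fun s v hs => by simp [Nx, hs])).trans (variance hB hX)
  have h3 := cs_dev Y (Nx B X) (X.card / Fintype.card F) _ le_rfl
  have h4 : (2 : ℝ) ≤ Fintype.card F := by exact_mod_cast Fintype.one_lt_card
  rw [le_div_iff₀ (by linarith)] at h1
  have h5 : 0 ≤ ∑ y ∈ Y, (Nx B X y - X.card / Fintype.card F) ^ 2 :=
    Finset.sum_nonneg fun _ _ => sq_nonneg _
  set W := ∑ y ∈ Y, (Nx B X y - X.card / Fintype.card F) ^ 2
  set q : ℝ := (Fintype.card F : ℝ)
  calc _ ≤ Y.card * W * (2 * ((q - 1) * q)) := by gcongr; nlinarith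
    _ = 2 * (Y.card * ((q - 1) * W * q)) := by ring
    _ ≤ 2 * (Y.card * (Fintype.card V * X.card)) := by gcongr
    _ = _ := by ring

theorem card_shatter_le {B : V →ₗ[F] V →ₗ[F] F} (hB : Nd B) {α : Type} (T : Finset α) (g : α → V)
    {m0 : V} (h0 : m0 ≠ 0) (h1 : ∀ x ∈ T, B m0 (g x) = 0)
    (h : ∀ x ∈ T, ∃ m, B m (g x) ≠ 0 ∧ ∀ y ∈ T, y ≠ x → B m (g y) = 0) :
    Fintype.card F ^ (T.card + 1) ≤ Fintype.card V := by
  classical
  rw [← card_ker hB h0, pow_succ']
  refine Nat.mul_le_mul_left _ ?_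
  rw [← Fintype.card_coe, ← Fintype.card_fun, ← Finset.card_univ]
  refine Finset.card_le_card_of_injOn (fun c => ∑ x : T, c x • g x) ?_ ?_
  · intro c _
    simp only [coe_filter, mem_univ, true_and, Set.mem_ofPred_eq]
    rw [hB.1, map_sum]
    exact Finset.sum_eq_zero fun x _ => by simp [h1 x x.2]
  · intro c _ c' _ e
    funext x
    obtain ⟨m, a1, a2⟩ := h x x.2
    have key : ∀ c : T → F, B m (∑ y : T, c y • g y) = c x * B m (g x) := by
      intro c
      rw [map_sum, Finset.sum_eq_single x (fun y _ hy => by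
        simp [a2 y y.2 fun e => hy (Subtype.ext e)]) (by simp)]
      simp
    have := congrArg (B m) e
    simp only [key] at this
    exact mul_right_cancel₀ a1 this

end

variable {F : Type} [Field F] {d : ℕ}

/-- The form on the space of spheres. -/
def B0 (F : Type) [Field F] (d : ℕ) :
    ((Fin d → F) × F × F) →ₗ[F] ((Fin d → F) × F × F) →ₗ[F] F :=
  LinearMap.mk₂ F (fun v w => -2 * ∑ i, v.1 i * w.1 i + v.2.1 * w.2.2 + v.2.2 * w.2.1)
    (fun _ _ _ => by simp [add_mul, Finset.sum_add_distrib]; ring)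
    (fun _ _ _ => by simp [mul_assoc, ← Finset.mul_sum]; ring)
    (fun _ _ _ => by simp [mul_add, Finset.sum_add_distrib]; ring)
    (fun c _ _ => by simp [mul_left_comm _ c, ← Finset.mul_sum]; ring)

theorem B0_apply (v w : (Fin d → F) × F × F) :
    B0 F d v w = -2 * ∑ i, v.1 i * w.1 i + v.2.1 * w.2.2 + v.2.2 * w.2.1 := rfl

theorem B0_nd (h2 : (2 : F) ≠ 0) : Nd (B0 F d) := by
  refine ⟨fun x y => by simp only [B0_apply, mul_comm (x.1 _)]; ring, fun x hx => ?_⟩
  by_contra h
  simp only [not_exists, not_not] at h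
  refine hx (Prod.ext (funext fun i => ?_) (Prod.ext ?_ ?_))
  · simpa [B0_apply, Pi.single_apply, h2] using h (Pi.single i 1, 0, 0)
  · simpa [B0_apply] using h (0, 0, 1)
  · simpa [B0_apply] using h (0, 1, 0)

def lift (x : Fin d → F) (r : F) : (Fin d → F) × F × F := (x, ∑ i, x i ^ 2 - r, 1)

theorem B0_lift (x y : Fin d → F) (r s : F) :
    B0 F d (lift y r) (lift x s) = ∑ i, (x i - y i) ^ 2 - r - s := by
  simp only [B0_apply, lift, sub_sq, Finset.sum_add_distrib, Finset.sum_sub_distrib, mul_assoc,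
    ← Finset.mul_sum, mul_comm (y _)]
  ring

theorem lift_zero (x y : Fin d → F) (r : F) :
    B0 F d (lift y r) (lift x 0) = 0 ↔ ∑ i, (x i - y i) ^ 2 = r := by
  rw [B0_lift, sub_zero, sub_eq_zero]

theorem lift_inj {x y : Fin d → F} {r s : F} (h : lift x r = lift y s) : x = y ∧ r = s := by
  simp only [lift, Prod.mk.injEq] at h
  obtain ⟨rfl, h, -⟩ := h
  exact ⟨rfl, sub_right_injective h⟩

theorem pd_one (Y : Finset ((Fin d → F) × F × F)) (h : ∀ y ∈ Y, y.2.2 = 1) : Pd F Y := by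
  refine ⟨fun x hx e => by simpa [e] using h x hx, fun x hx y hy s e => ?_⟩
  have := congrArg (fun v => v.2.2) e
  simp only [h x hx, Prod.smul_snd, h y hy, smul_eq_mul, mul_one] at this
  rw [e, ← this, one_smul]

theorem pd_image {α : Type} [DecidableEq F] (S : Finset α) (f : α → Fin d → F) (g : α → F) :
    Pd F (S.image fun a => lift (f a) (g a)) :=
  pd_one _ fun y hy => by obtain ⟨a, -, rfl⟩ := mem_image.1 hy; rfl

omit [Field F] in
theorem card_W [Fintype F] : Fintype.card ((Fin d → F) × F × F) = Fintype.card F ^ (d + 1 + 1) := by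
  simp [pow_succ, mul_assoc]

theorem Nx_lift [DecidableEq F] (P : Finset (Fin d → F)) (y : Fin d → F) (r : F) :
    Nx (B0 F d) (P.image fun x => lift x 0) (lift y r)
      = (P.filter fun x => ∑ i, (x i - y i) ^ 2 = r).card := by
  rw [Nx, Finset.sum_image fun _ _ _ _ h => (lift_inj h).1]
  simp only [lift_zero, sum_ind]

theorem card_null [Fintype F] [DecidableEq F] (h2 : (2 : F) ≠ 0) (y0 : Fin (d + 1) → F) :
    (univ.filter fun y : Fin (d + 1) → F => ∑ i, (y i - y0 i) ^ 2 = 0).card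
      ≤ 2 * Fintype.card F ^ d := by
  have h := iso_count (B0_nd h2) (univ.filter fun v : (Fin (d + 1) → F) × F × F => v.2 = 0)
    (Pi.single 0 1, 0, 0) (by simp [B0_apply, Pi.single_apply, h2])
    (fun v hv s => by simpa [Prod.ext_iff] using hv) 0
  have e : (univ.filter fun v : (Fin (d + 1) → F) × F × F => v.2 = 0).card
      ≤ Fintype.card F ^ (d + 1) := by
    refine le_trans (Finset.card_le_card_of_injOn (fun v => v.1) (t := univ)
      (fun _ _ => mem_coe.2 (mem_univ _)) fun v hv w hw e => Prod.ext e ?_) (by simp)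
    simp only [coe_filter, mem_univ, true_and, Set.mem_ofPred_eq] at hv hw
    rw [hv, hw]
  refine Nat.le_of_mul_le_mul_left (le_trans (Nat.mul_le_mul_left _ ?_) (h.trans
    ((Nat.mul_le_mul_left 2 e).trans (le_of_eq (by ring))))) Fintype.card_pos
  refine Finset.card_le_card_of_injOn (fun y => (y - y0, 0)) ?_
    fun y _ y' _ e => sub_left_injective (Prod.ext_iff.1 e).1
  intro y hy
  simp only [coe_filter, mem_filter, mem_univ, true_and, Set.mem_ofPred_eq, B0_apply,
    Pi.sub_apply, ← sq] at hy ⊢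
  simp [hy]

theorem proj_inj {V : Type} [AddCommGroup V] [Module F V] {B : V →ₗ[F] V →ₗ[F] F} (hB : Nd B)
    (h2 : (2 : F) ≠ 0) (l : V →ₗ[F] F) {m0 m m' : V} {s s' c : F} (hs : s ≠ 0) (l0 : l m0 = 1)
    (l1 : l m = 1) (l2 : l m' = 1) (b1 : B m m = B m0 m0) (b2 : B m' m' = B m0 m0)
    (hn : B m0 m ≠ B m0 m0) (e : s • m = s' • m' + c • m0) : s = s' ∧ m = m' := by
  have e1 := congrArg l e
  have e2 := congrArg (B m0) e
  have e3 := congrArg (fun v => B v v) e
  simp only [map_add, map_smul, smul_eq_mul, l0, l1, l2, mul_one, LinearMap.add_apply,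
    LinearMap.smul_apply, b1, b2, hB.1 m' m0] at e1 e2 e3
  have hc : c = 0 := by
    have : c * (2 * s * (B m0 m - B m0 m0)) = 0 := by
      have : s' = s - c := by rw [e1]; ring
      subst this
      linear_combination (2 * c) * e2 - e3
    exact (mul_eq_zero.1 this).resolve_right (mul_ne_zero (mul_ne_zero h2 hs) (sub_ne_zero.2 hn))
  rw [hc, add_zero] at e1
  rw [hc, zero_smul, add_zero, ← e1] at e
  exact ⟨e1, smul_right_injective V hs e⟩

theorem sphere_shatter (k : ℕ) [Fintype F] (h2 : (2 : F) ≠ 0) {r : F} (hr : r ≠ 0)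
    (P Q : Finset (Fin (3 + k) → F)) {δ : ℝ} (hδ : 0 < δ)
    (hC : (4 ^ 28) ^ (k + 1) * 2 ^ 88 ≤ δ ^ 28 * Fintype.card F)
    (hP : δ * (Fintype.card F : ℝ) ^ (3 + k) ≤ P.card)
    (hQ : δ * (Fintype.card F : ℝ) ^ (3 + k) ≤ Q.card) :
    ∃ T ⊆ P, T.card = 3 + k + 1 ∧ ∀ I ⊆ T, ∃ y ∈ Q, ∀ x ∈ T, ∑ i, (x i - y i) ^ 2 = r ↔ x ∈ I := by
  classical
  have hB := B0_nd (d := 3 + k) h2
  have hq3 : (3 : ℝ) ≤ Fintype.card F := by exact_mod_cast three_le_card h2
  have hPq : (P.card : ℝ) ≤ (Fintype.card F : ℝ) ^ (3 + k) := by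
    have := Finset.card_le_univ P
    rw [Fintype.card_fun, Fintype.card_fin] at this; exact_mod_cast this
  have hδ1 : δ ≤ 1 := le_of_mul_le_mul_right (by linarith) (pow_pos (by linarith) _ :
    (0 : ℝ) < (Fintype.card F : ℝ) ^ (3 + k))
  have hC' : 2 ^ 88 ≤ δ ^ 28 * (Fintype.card F : ℝ) :=
    le_trans (le_mul_of_one_le_left (by positivity) (one_le_pow₀ (by norm_num))) hC
  have d1 := del_le hδ hδ1 (by linarith) hC' 1 (by norm_num)
  have d2 := del_le hδ hδ1 (by linarith) hC' 2 (by norm_num)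
  rw [pow_one] at d1
  have mix := mixing hB (pd_image P (fun x => x) fun _ => 0) (pd_image Q (fun x => x) fun _ => r)
  rw [Finset.sum_image fun _ _ _ _ h => (lift_inj h).1,
    Finset.card_image_of_injective _ fun _ _ h => (lift_inj h).1,
    Finset.card_image_of_injective _ fun _ _ h => (lift_inj h).1, card_W] at mix
  simp only [Nx_lift] at mix
  push_cast at mix
  have hres := fun m0 hm0 A' M' => restrict (sym_all k) h2 hB (by rw [card_W]; congr 1; ring)
    (m0 := m0) hm0 (δ := δ / 4) (by positivity) (by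
      rw [div_pow, div_mul_eq_mul_div, le_div_iff₀ (by positivity)]
      rw [pow_succ] at hC; linarith) (A := A') (M := M')
  have hnull : ∀ y0 : Fin (3 + k) → F, ((univ.filter fun y : Fin (3 + k) → F =>
      ∑ i, (y i - y0 i) ^ 2 = 0).card : ℝ) ≤ 2 * (Fintype.card F : ℝ) ^ (2 + k) := by
    have : ∀ n, n = 2 + k + 1 → ∀ y0 : Fin n → F, (univ.filter fun y : Fin n → F =>
      ∑ i, (y i - y0 i) ^ 2 = 0).card ≤ 2 * Fintype.card F ^ (2 + k) := by
      rintro n rfl; exact card_null h2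
    intro y0
    exact_mod_cast this _ (by ring) y0
  have cq : ((univ.erase (0 : F)).card : ℝ) = Fintype.card F - 1 := by
    rw [Finset.card_erase_of_mem (mem_univ _), Finset.card_univ, Nat.cast_pred Fintype.card_pos]
  set q : ℝ := (Fintype.card F : ℝ) with hq
  have q0 : 0 < q := by linarith
  obtain ⟨R, hR⟩ : ∃ R, R = q ^ k := ⟨_, rfl⟩
  have R1 : 1 ≤ R := hR ▸ one_le_pow₀ (by linarith)
  have e2 : q ^ (2 + k) = R * q ^ 2 := by rw [hR]; ring
  have e3 : q ^ (3 + k) = R * q ^ 3 := by rw [hR]; ring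
  have e4 : q ^ (4 + k) = R * q ^ 4 := by rw [hR]; ring
  have e5 : q ^ (3 + k + 1 + 1) = R * q ^ 5 := by rw [hR]; ring
  rw [e2] at hnull
  rw [e3] at hP hQ
  rw [e4] at hres
  rw [e5] at mix
  have P0 : (0 : ℝ) < P.card := lt_of_lt_of_le (by positivity) hP
  have Q0 : (0 : ℝ) < Q.card := lt_of_lt_of_le (by positivity) hQ
  obtain ⟨y0, hy0, j1⟩ := ex_avg Q
    (fun y => ((P.filter fun x => ∑ i, (x i - y i) ^ 2 = r).card : ℝ)) (P.card / (2 * q))
    (by rwa [← Finset.card_pos, ← Nat.cast_pos (α := ℝ)]) (by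
      refine le_trans (le_of_eq (by field_simp)) (half_le (a := Q.card * (P.card / q))
        (by positivity) ((le_div_iff₀ (by positivity)).2 mix) ?_)
      have a1 : 8 * (R * q ^ 5) ≤ P.card * Q.card :=
        calc 8 * (R * q ^ 5) ≤ (δ ^ 2 * q) * (R * (R * q ^ 5)) := by
              gcongr
              · linarith
              · exact le_mul_of_one_le_left (by positivity) R1
          _ = δ * (R * q ^ 3) * (δ * (R * q ^ 3)) := by ring
          _ ≤ _ := by gcongr
      calc _ = (P.card * Q.card / q ^ 2) * (8 * (R * q ^ 5)) := by ring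
        _ ≤ (P.card * Q.card / q ^ 2) * (P.card * Q.card) := by gcongr
        _ = _ := by ring)
  have b0 : ∀ y : Fin (3 + k) → F, B0 F _ (lift y r) (lift y r) = -2 * r := fun y => by
    rw [B0_lift]; simp; ring
  have b1 : B0 F _ (lift y0 r) (lift y0 r) ≠ 0 := by
    rw [b0]; exact mul_ne_zero (neg_ne_zero.2 h2) hr
  set m0 := lift y0 r with hm0
  set Q' := Q.filter fun y => ¬ ∑ i, (y i - y0 i) ^ 2 = 0 with hQ'
  set f : F × (Fin (3 + k) → F) → _ := fun p =>
    p.1 • (lift p.2 r - (B0 F _ m0 (lift p.2 r) / B0 F _ m0 m0) • m0) with hf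
  have fi : Set.InjOn f (univ.erase (0 : F) ×ˢ Q' : Finset _) := by
    rintro ⟨s, y⟩ hp ⟨s', y'⟩ hp' e
    simp only [coe_product, Set.mem_prod, mem_coe, mem_erase, mem_univ, and_true] at hp hp'
    obtain ⟨a1, a2⟩ := proj_inj hB h2 ((LinearMap.snd F F F).comp (LinearMap.snd F _ _))
      (m0 := m0) (m := lift y r) (m' := lift y' r) (s := s) (s' := s')
      (c := s * (B0 F _ m0 (lift y r) / B0 F _ m0 m0)
        - s' * (B0 F _ m0 (lift y' r) / B0 F _ m0 m0)) hp.1 rfl rfl rfl
      (by rw [hm0, b0, b0]) (by rw [hm0, b0, b0]) (by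
        rw [hm0, b0, B0_lift]
        intro h
        exact (mem_filter.1 hp.2).2 (by linear_combination h)) (by
        simp only [hf] at e
        linear_combination (norm := module) e)
    exact Prod.ext a1 (lift_inj a2).1
  have j2 : δ * (R * q ^ 3) / 2 ≤ Q'.card := by
    have a1 : ((Q.filter fun y => ∑ i, (y i - y0 i) ^ 2 = 0).card : ℝ) + Q'.card = Q.card := by
      exact_mod_cast Finset.card_filter_add_card_filter_not (s := Q) _
    have a2 : ((Q.filter fun y => ∑ i, (y i - y0 i) ^ 2 = 0).card : ℝ) ≤ _ :=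
      le_trans (Nat.cast_le.2 (Finset.card_le_card (filter_subset_filter _ (subset_univ Q))))
        (hnull y0)
    nlinarith [show 0 < R * q ^ 2 by positivity]
  obtain ⟨T, hT, hc, hS⟩ := hres m0 b1
    ((P.filter fun x => ∑ i, (x i - y0 i) ^ 2 = r).image fun x => lift x 0)
    ((univ.erase (0 : F) ×ˢ Q').image f) (pd_image _ (fun x => x) fun _ => 0) (by
      intro v hv
      obtain ⟨x, -, rfl⟩ := mem_image.1 hv
      rw [lift_zero]; simp) (by
      intro v hv
      obtain ⟨x, hx, rfl⟩ := mem_image.1 hv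
      exact (lift_zero _ _ _).2 (mem_filter.1 hx).2) (by
      intro v hv
      obtain ⟨x, -, rfl⟩ := mem_image.1 hv
      simp [hf, b1]) (by
      rw [Finset.card_image_of_injective _ fun _ _ h => (lift_inj h).1]
      rw [div_le_iff₀ (by positivity)] at j1
      nlinarith) (by
      rw [Finset.card_image_of_injOn fi, Finset.card_product, Nat.cast_mul, cq]
      calc δ / 4 * (R * q ^ 4) = q / 2 * (δ * (R * q ^ 3) / 2) := by ring
        _ ≤ _ := mul_le_mul (by linarith) j2 (by positivity) (by linarith))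
  obtain ⟨T', hT', rfl⟩ := Finset.subset_image_iff.1 hT
  have li : Function.Injective fun x : Fin (3 + k) → F => lift x 0 := fun _ _ h => (lift_inj h).1
  rw [Finset.card_image_of_injective _ li] at hc
  refine ⟨T', hT'.trans (filter_subset _ _), by omega, fun I hI => ?_⟩
  rcases hI.eq_or_ssubset with rfl | hI
  · exact ⟨y0, hy0, fun x hx => iff_of_true (mem_filter.1 (hT' hx)).2 hx⟩
  obtain ⟨m, hm, h1⟩ := hS (I.image fun x => lift x 0) (Finset.image_ssubset_image li |>.2 hI)
  obtain ⟨⟨s, y⟩, hp, rfl⟩ := mem_image.1 hm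
  obtain ⟨a1, a2⟩ := mem_product.1 hp
  refine ⟨y, (mem_filter.1 a2).1, fun x hx => ?_⟩
  have a3 := h1 _ (mem_image_of_mem _ hx)
  have a4 : B0 F _ m0 (lift x 0) = 0 := (lift_zero _ _ _).2 (mem_filter.1 (hT' hx)).2
  rw [li.mem_finset_image] at a3
  rw [← lift_zero, ← a3]
  simp [hf, a4, (mem_erase.1 a1).1]

end Pool.Agent.P.MP_1d6da1_co.Sph
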