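import Pool.Agent.P.MP_1d6da1_co.Sph.Loc3

namespace Pool.Agent.P.MP_1d6da1_co.Sph

open Finset

variable {F : Type} [Field F] [Fintype F] {V : Type} [AddCommGroup V] [Module F V]

/-- Symmetric and nondegenerate. -/
def Nd (B : V →ₗ[F] V →ₗ[F] F) : Prop :=
  (∀ x y, B x y = B y x) ∧ ∀ x, x ≠ 0 → ∃ y, B x y ≠ 0

/-- Nonzero vectors, no two on a line through the origin. -/
def Pd (F : Type) [Field F] {V : Type} [AddCommGroup V] [Module F V] (A : Finset V) : Prop :=
  (∀ x ∈ A, x ≠ 0) ∧ ∀ x ∈ A, ∀ y ∈ A, ∀ s : F, x = s • y → x = y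

omit [Fintype F] in
theorem Pd.mono {A A' : Finset V} (h : Pd F A) (hs : A' ⊆ A) : Pd F A' :=
  ⟨fun x hx => h.1 x (hs hx), fun x hx y hy => h.2 x (hs hx) y (hs hy)⟩

theorem trans_count [DecidableEq F] (S : Finset V) (e : V) (ψ : V → F) (c : F)
    (hS : ∀ v ∈ S, ∀ s : F, v + s • e ∈ S) (hψ : ∀ v (s : F), ψ (v + s • e) = ψ v + s) :
    Fintype.card F * (S.filter fun v => ψ v = c).card = S.card := by
  rw [← Finset.card_univ, ← Finset.card_product]
  refine Finset.card_bij (fun p _ => p.2 + p.1 • e) ?_ ?_ ?_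
  · intro p hp
    exact hS _ (mem_filter.1 (mem_product.1 hp).2).1 _
  · intro p hp p' hp' h
    have h1 := congrArg ψ h
    rw [hψ, hψ, (mem_filter.1 (mem_product.1 hp).2).2,
      (mem_filter.1 (mem_product.1 hp').2).2] at h1
    have h3 : p.1 = p'.1 := add_left_cancel h1
    rw [h3] at h
    exact Prod.ext h3 (add_right_cancel h)
  · intro v hv
    refine ⟨(ψ v - c, v + (c - ψ v) • e), mem_product.2 ⟨mem_univ _, mem_filter.2
      ⟨hS _ hv _, by rw [hψ]; ring⟩⟩, ?_⟩
    simp only [add_assoc, ← add_smul]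
    simp

omit [Fintype F] in
theorem ex_one {B : V →ₗ[F] V →ₗ[F] F} (hB : Nd B) {x : V} (hx : x ≠ 0) : ∃ e, B e x = 1 := by
  obtain ⟨y, hy⟩ := hB.2 x hx
  exact ⟨(B x y)⁻¹ • y, by rw [map_smul, LinearMap.smul_apply, hB.1 y x, smul_eq_mul,
    inv_mul_cancel₀ hy]⟩

omit [Fintype F] in
theorem ex_one2 {B : V →ₗ[F] V →ₗ[F] F} (hB : Nd B) {x y : V} (hy : y ≠ 0)
    (h : ∀ s : F, x ≠ s • y) : ∃ e, B e y = 0 ∧ B e x = 1 := by
  obtain ⟨e0, h0⟩ := ex_one hB hy
  obtain ⟨v, hv⟩ := ex_one hB (sub_ne_zero.2 (h (B e0 x)))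
  refine ⟨v - B v y • e0, by simp [h0], ?_⟩
  simp only [map_sub, map_smul, smul_eq_mul, LinearMap.sub_apply, LinearMap.smul_apply] at hv ⊢
  linear_combination hv

variable [Fintype V]

theorem card_ker [DecidableEq F] {B : V →ₗ[F] V →ₗ[F] F} (hB : Nd B) {x : V} (hx : x ≠ 0) :
    Fintype.card F * (univ.filter fun m => B m x = 0).card = Fintype.card V := by
  obtain ⟨e, he⟩ := ex_one hB hx
  exact trans_count univ e (fun m => B m x) 0 (fun _ _ _ => mem_univ _) fun v s => by simp [he]

theorem card_ker2 [DecidableEq F] {B : V →ₗ[F] V →ₗ[F] F} (hB : Nd B) {x y : V} (hy : y ≠ 0)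
    (h : ∀ s : F, x ≠ s • y) :
    Fintype.card F ^ 2 * (univ.filter fun m => B m y = 0 ∧ B m x = 0).card = Fintype.card V := by
  obtain ⟨e, h0, h1⟩ := ex_one2 hB hy h
  have := trans_count (univ.filter fun m => B m y = 0) e (fun m => B m x) 0
    (fun v hv s => by simpa [h0] using hv) fun v s => by simp [h1]
  rw [Finset.filter_filter] at this
  rw [sq, mul_assoc, this, card_ker hB hy]

/-- Number of members of `X` orthogonal to `m`. -/
noncomputable def Nx (B : V →ₗ[F] V →ₗ[F] F) (X : Finset V) (m : V) : ℝ :=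
  ∑ x ∈ X, ind (B m x = 0)

theorem variance {B : V →ₗ[F] V →ₗ[F] F} (hB : Nd B) {X : Finset V} (hX : Pd F X) :
    ∑ m, (Nx B X m - X.card / Fintype.card F) ^ 2
      ≤ Fintype.card V * X.card / Fintype.card F := by
  classical
  have hq := one_le_q (F := F)
  have k1 : ∀ x ∈ X, ∑ m, ind (B m x = 0) = Fintype.card V / Fintype.card F := by
    intro x hx
    rw [sum_ind, ← card_ker hB (hX.1 x hx)]
    push_cast; field_simp
  have k2 : ∀ x ∈ X, ∀ y ∈ X, x ≠ y → ∑ m, ind (B m y = 0) * ind (B m x = 0)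
      = Fintype.card V / Fintype.card F ^ 2 := by
    intro x hx y hy h
    simp only [← ind_and]
    rw [sum_ind, ← card_ker2 hB (hX.1 y hy) fun s e => h (hX.2 x hx y hy s e)]
    push_cast; field_simp
  set q : ℝ := (Fintype.card F : ℝ)
  set N : ℝ := (Fintype.card V : ℝ) with hN
  have e1 : ∀ m, (Nx B X m - X.card / q) ^ 2
      = ∑ y ∈ X, ∑ x ∈ X, (ind (B m y = 0) - 1 / q) * (ind (B m x = 0) - 1 / q) := by
    intro m
    rw [← Finset.sum_mul_sum, sq, Nx]
    simp [Finset.sum_sub_distrib, div_eq_mul_inv]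
  simp only [e1]
  rw [Finset.sum_comm]
  calc _ ≤ ∑ _y ∈ X, N / q := by
        refine Finset.sum_le_sum fun y hy => ?_
        rw [Finset.sum_comm, ← Finset.add_sum_erase _ _ hy, Finset.sum_eq_zero (s := X.erase y)]
        · have : ∀ m, (ind (B m y = 0) - 1 / q) * (ind (B m y = 0) - 1 / q)
              = (1 - 2 / q) * ind (B m y = 0) + 1 / q ^ 2 := by
            intro m
            by_cases h : B m y = 0
            · rw [ind_pos h]; ring
            · rw [ind_neg h]; ring
          simp only [this, Finset.sum_add_distrib, ← Finset.mul_sum, k1 y hy, Finset.sum_const,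
            Finset.card_univ, nsmul_eq_mul, ← hN]
          have : 0 ≤ N / q ^ 2 := by positivity
          have e : (1 - 2 / q) * (N / q) + N * (1 / q ^ 2) + 0 = N / q - N / q ^ 2 := by
            field_simp; ring
          linarith
        · intro x hx
          obtain ⟨h, hx⟩ := mem_erase.1 hx
          have : ∀ m, (ind (B m y = 0) - 1 / q) * (ind (B m x = 0) - 1 / q)
              = ind (B m y = 0) * ind (B m x = 0) - 1 / q * ind (B m y = 0)
                - 1 / q * ind (B m x = 0) + 1 / q ^ 2 := fun m => by ring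
          simp only [this, Finset.sum_add_distrib, Finset.sum_sub_distrib, ← Finset.mul_sum,
            k1 y hy, k1 x hx, k2 x hx y hy h, Finset.sum_const, Finset.card_univ, nsmul_eq_mul,
            ← hN]
          field_simp; ring
    _ = _ := by simp; ring

theorem cs_dev {α : Type*} (M : Finset α) (g : α → ℝ) (μ W : ℝ)
    (h : ∑ m ∈ M, (g m - μ) ^ 2 ≤ W) : (∑ m ∈ M, g m - M.card * μ) ^ 2 ≤ M.card * W := by
  have e : ∑ m ∈ M, g m - M.card * μ = ∑ m ∈ M, (g m - μ) := by
    simp [Finset.sum_sub_distrib]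
  rw [e]
  exact sq_sum_le_card_mul_sum_sq.trans (mul_le_mul_of_nonneg_left h (Nat.cast_nonneg _))

theorem ex_avg {α : Type*} (X : Finset α) (g : α → ℝ) (μ : ℝ) (hX : X.Nonempty)
    (h : X.card * μ ≤ ∑ x ∈ X, g x) : ∃ x ∈ X, μ ≤ g x := by
  refine Finset.exists_le_of_sum_le hX ?_
  simpa using h

theorem half_le {e a W : ℝ} (ha : 0 ≤ a) (h : (e - a) ^ 2 ≤ W) (h' : 4 * W ≤ a ^ 2) :
    a / 2 ≤ e := by
  by_contra hn
  nlinarith

theorem ex_rich [DecidableEq F] {B : V →ₗ[F] V →ₗ[F] F} (hB : Nd B) {X : Finset V}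
    (hX : Pd F X) (M : Finset V)
    (h : 4 * (Fintype.card F : ℝ) * Fintype.card V ≤ M.card * X.card) :
    ∃ x ∈ X, (M.card : ℝ) / (2 * Fintype.card F) ≤ (M.filter fun m => B m x = 0).card := by
  have hq := one_le_q (F := F)
  have hN : (0 : ℝ) < Fintype.card V := by exact_mod_cast Fintype.card_pos
  have v := cs_dev M _ _ _ ((Finset.sum_le_sum_of_subset_of_nonneg (subset_univ M)
    fun _ _ _ => sq_nonneg _).trans (variance hB hX))
  set q : ℝ := (Fintype.card F : ℝ)
  have hMX : (0 : ℝ) < M.card * X.card := lt_of_lt_of_le (by positivity) h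
  have := half_le (by positivity) v (by
    have e1 : (M.card * (X.card / q)) ^ 2 = (M.card * X.card / q ^ 2) * (M.card * X.card) := by
      field_simp
    have e2 : 4 * (M.card * (Fintype.card V * X.card / q))
        = (M.card * X.card / q ^ 2) * (4 * q * Fintype.card V) := by field_simp
    rw [e1, e2]; gcongr)
  simp only [← sum_ind]
  refine ex_avg X _ _ (Finset.card_pos.1 ?_) ?_
  · by_contra h0
    rw [Nat.eq_zero_of_not_pos h0] at hMX
    simp at hMX
  · rw [Finset.sum_comm]
    refine le_trans (le_of_eq ?_) this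
    field_simp

theorem cheb {α : Type*} [Fintype α] (g : α → ℝ) (a : ℝ) (p : α → Prop) [DecidablePred p]
    (h0 : ∀ m, 0 ≤ g m) (h : ∀ m, p m → a ≤ g m) : (univ.filter p).card * a ≤ ∑ m, g m :=
  calc _ = ∑ _m ∈ univ.filter p, a := by simp
    _ ≤ ∑ m ∈ univ.filter p, g m := Finset.sum_le_sum fun m hm => h m (mem_filter.1 hm).2
    _ ≤ _ := Finset.sum_le_sum_of_subset_of_nonneg (subset_univ _) fun _ _ _ => h0 _

open Classical in
theorem few_poor {B : V →ₗ[F] V →ₗ[F] F} (hB : Nd B) {X : Finset V} (hX : Pd F X)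
    (h0 : 0 < (X.card : ℝ)) :
    ((univ.filter fun m => Nx B X m < X.card / (2 * Fintype.card F)).card : ℝ) * X.card
      ≤ 4 * Fintype.card F * Fintype.card V := by
  have hq := one_le_q (F := F)
  have := (cheb (fun m => (Nx B X m - X.card / Fintype.card F) ^ 2)
    ((X.card / (2 * Fintype.card F)) ^ 2)
    (fun m => Nx B X m < X.card / (2 * Fintype.card F)) (fun _ => sq_nonneg _) (by
      intro m hm
      have e : (X.card / Fintype.card F : ℝ) = 2 * (X.card / (2 * Fintype.card F)) := by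
        field_simp
      have : (0 : ℝ) ≤ X.card / (2 * Fintype.card F) := by positivity
      rw [e]; nlinarith)).trans (variance hB hX)
  rw [div_pow, ← mul_div_assoc, div_le_div_iff₀ (by positivity) (by positivity)] at this
  refine le_of_mul_le_mul_right (a := (X.card : ℝ) * Fintype.card F) ?_ (by positivity)
  nlinarith

theorem sum_proj_le {Y : Finset V} (hY : Pd F Y) (g : V → ℝ) (h0 : ∀ v, 0 ≤ g v)
    (hg : ∀ (s : F) v, s ≠ 0 → g (s • v) = g v) :
    (Fintype.card F - 1 : ℝ) * ∑ y ∈ Y, g y ≤ ∑ v, g v := by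
  classical
  have hi : Set.InjOn (fun p : F × V => p.1 • p.2) ((univ.erase (0 : F)) ×ˢ Y : Finset _) := by
    rintro ⟨s, y⟩ hp ⟨s', y'⟩ hp' e
    simp only [coe_product, Set.mem_prod, mem_coe, mem_erase, mem_univ, and_true] at hp hp' e
    have h1 : y = y' := hY.2 y hp.2 y' hp'.2 (s⁻¹ * s') (by
      rw [mul_smul, ← e, smul_smul, inv_mul_cancel₀ hp.1, one_smul])
    subst h1
    exact Prod.ext (smul_left_injective F (hY.1 y hp.2) e) rfl
  calc _ = ∑ p ∈ (univ.erase (0 : F)) ×ˢ Y, g (p.1 • p.2) := by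
        rw [Finset.sum_product, Finset.sum_congr rfl fun s hs => Finset.sum_congr rfl
          fun y _ => hg s y (mem_erase.1 hs).1, Finset.sum_const, nsmul_eq_mul,
          Finset.card_erase_of_mem (mem_univ _), Finset.card_univ,
          Nat.cast_pred Fintype.card_pos]
    _ = ∑ v ∈ ((univ.erase (0 : F)) ×ˢ Y).image fun p => p.1 • p.2, g v :=
        (Finset.sum_image hi).symm
    _ ≤ _ := Finset.sum_le_sum_of_subset_of_nonneg (subset_univ _) fun _ _ _ => h0 _

omit [Fintype V] in
theorem iso_count [DecidableEq F] {B : V →ₗ[F] V →ₗ[F] F} (hB : Nd B) (S : Finset V) (e : V)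
    (he : B e e ≠ 0) (hS : ∀ v ∈ S, ∀ s : F, v + s • e ∈ S) (ρ : F) :
    Fintype.card F * (S.filter fun v => B v v = ρ).card ≤ 2 * S.card := by
  classical
  have h1 : ((univ : Finset F) ×ˢ S.filter fun v => B v v = ρ).card
      ≤ 2 * S.card := by
    refine Finset.card_le_mul_card_image_of_maps_to (f := fun p => p.2 + (-p.1) • e)
      (fun p hp => hS _ (mem_filter.1 (mem_product.1 hp).2).1 _) 2 fun v _ => ?_
    refine le_trans (Finset.card_le_card_of_injOn (fun p => p.1) ?_ ?_)
      (quad_le_two (2 * B v e) (B v v - ρ) he)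
    · intro p hp
      simp only [coe_filter, mem_product, mem_filter, mem_univ, true_and,
        Set.mem_ofPred_eq] at hp ⊢
      rw [← hp.1.2, ← hp.2]
      simp only [map_add, map_smul, smul_eq_mul, LinearMap.add_apply, LinearMap.smul_apply,
        hB.1 e p.2]
      ring
    · intro p hp p' hp' h
      simp only [coe_filter, Set.mem_ofPred_eq] at hp hp' h
      have := hp.2.trans hp'.2.symm
      rw [h] at this
      exact Prod.ext h (add_right_cancel this)
  rwa [Finset.card_product, Finset.card_univ] at h1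

theorem pencil_var (g : V → ℝ) (h1 : ∀ v, |g v| ≤ 1) (hm : ∑ v, g v = 0) :
    ∑ m0 : V, ∑ m : V, (∑ s : F, g (m + s • m0)) ^ 2
      ≤ Fintype.card F * (Fintype.card V : ℝ) ^ 2 := by
  have e1 : ∀ m0 m : V, (∑ s : F, g (m + s • m0)) ^ 2
      = ∑ s : F, ∑ s' : F, g (m + s • m0) * g (m + s' • m0) := fun m0 m => by
    rw [sq, Finset.sum_mul_sum]
  simp only [e1]
  rw [← Fintype.sum_prod_type', Finset.sum_comm]
  simp only [Finset.sum_comm (s := (univ : Finset (V × V)))]
  refine (sum2_le _ 0 ((Fintype.card V : ℝ) ^ 2) le_rfl ?_ ?_).trans (by simp)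
  · intro s s' h
    have hb : Function.Bijective fun p : V × V => (p.2 + s • p.1, p.2 + s' • p.1) := by
      rw [← Finite.injective_iff_bijective]
      rintro ⟨a, b⟩ ⟨a', b'⟩ e
      simp only [Prod.mk.injEq] at e
      have : (s - s') • a = (s - s') • a' := by
        rw [sub_smul, sub_smul]
        linear_combination (norm := module) e.1 - e.2
      have ha := smul_right_injective V (sub_ne_zero.2 h) this
      subst ha
      exact Prod.ext rfl (add_right_cancel e.1)
    refine le_of_eq ((hb.sum_comp fun p => g p.1 * g p.2).trans ?_)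
    rw [Fintype.sum_prod_type, ← Finset.sum_mul_sum, hm, zero_mul]
  · intro s
    refine (le_abs_self _).trans ((abs_sum_le _ fun p => am (h1 _) (h1 _)).trans ?_)
    rw [Fintype.card_prod]; push_cast; exact le_of_eq (by ring)

omit [Fintype F] [Fintype V] in
theorem aniso_of {B : V →ₗ[F] V →ₗ[F] F} (hB : Nd B) (h2 : (2 : F) ≠ 0) (S : V → Prop)
    (hS : ∀ x y, S x → S y → S (x + y)) {x y : V} (hx : S x) (hy : S y) (h : B x y ≠ 0) :
    ∃ e, S e ∧ B e e ≠ 0 := by
  by_contra hn
  simp only [not_exists, not_and, not_not] at hn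
  have := hn _ (hS x y hx hy)
  simp only [map_add, LinearMap.add_apply, hn x hx, hn y hy, hB.1 y x] at this
  exact h (mul_left_cancel₀ h2 (by linear_combination this))

end Pool.Agent.P.MP_1d6da1_co.Sph
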