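import Pool.Agent.P.MP_1d6da1_co.Sph.CS
import Pool.Agent.P.MP_1d6da1_co.Sph.Alg

namespace Pool.Agent.P.MP_1d6da1_co.Sph

open Finset

variable {F : Type} [Field F] [Fintype F] {t : F}

open Classical in
/-- Circles with a base point. -/
noncomputable def Om (F : Type) [Field F] [Fintype F] (t : F) : Finset (K F t × K F t) :=
  univ.filter fun p => nm p.2 ≠ 0

def pt (ω : K F t × K F t) (u : U F t) : K F t := ω.1 + ω.2 * u

noncomputable def an (ω : K F t × K F t) (u u' : U F t) : U F t := tau ω.2 * u * u'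

theorem card_Om : ((Om F t).card : ℝ) ≤ (Fintype.card F : ℝ) ^ 4 := by
  have : (Om F t).card ≤ Fintype.card F ^ 4 := by
    refine (Finset.card_le_univ _).trans ?_
    rw [Fintype.card_prod, card_K]; exact le_of_eq (by ring)
  exact_mod_cast this

theorem abs_sum_le {ι : Type*} [Fintype ι] (g : ι → ℝ) (h : ∀ i, |g i| ≤ 1) :
    |∑ i, g i| ≤ Fintype.card ι := by
  refine (Finset.abs_sum_le_sum_abs _ _).trans ?_
  calc ∑ i, |g i| ≤ ∑ _i : ι, (1 : ℝ) := Finset.sum_le_sum fun i _ => h i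
    _ = _ := by simp

theorem am {x y : ℝ} (hx : |x| ≤ 1) (hy : |y| ≤ 1) : |x * y| ≤ 1 := by
  rw [abs_mul]; exact mul_le_one₀ hx (abs_nonneg _) hy

theorem sq_sum_le {ι : Type*} [Fintype ι] (g : ι → ℝ) (h : ∀ i, |g i| ≤ 1) :
    (∑ i, g i) ^ 2 ≤ (Fintype.card ι : ℝ) ^ 2 := by
  rw [← sq_abs]
  exact pow_le_pow_left₀ (abs_nonneg _) (abs_sum_le g h) 2

theorem sum2_le {ι : Type*} [Fintype ι] (G : ι → ι → ℝ) (x y : ℝ) (hx : 0 ≤ x)
    (h1 : ∀ a b, a ≠ b → G a b ≤ x) (h2 : ∀ a, G a a ≤ y) :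
    ∑ a, ∑ b, G a b ≤ (Fintype.card ι : ℝ) ^ 2 * x + Fintype.card ι * y := by
  classical
  have : ∀ a, ∑ b, G a b ≤ Fintype.card ι * x + y := by
    intro a
    calc ∑ b, G a b ≤ ∑ b, (x + if a = b then y else 0) := by
          refine Finset.sum_le_sum fun b _ => ?_
          split_ifs with h
          · subst h; linarith [h2 a]
          · linarith [h1 a b h]
      _ = _ := by simp [Finset.sum_add_distrib]
  calc ∑ a, ∑ b, G a b ≤ ∑ _a : ι, (Fintype.card ι * x + y) := Finset.sum_le_sum fun a _ => this a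
    _ = _ := by simp; ring

theorem box_le (ht : t ≠ 0) (h2 : (2 : F) ≠ 0) (l0 : K F t → U F t → ℝ)
    (h1 : ∀ y θ, |l0 y θ| ≤ 1) (hinv : ∀ y z θ, par θ z → l0 (y + z) θ = l0 y θ)
    (hm : ∀ θ, ∑ y, l0 y θ = 0) :
    ∑ ω ∈ Om F t, ∑ b, ∑ b', (∑ a, l0 (pt ω b) (an ω a b) * l0 (pt ω b') (an ω a b')) ^ 2
      ≤ 2 * (Fintype.card (U F t) : ℝ) ^ 3 * (Fintype.card F : ℝ) ^ 4 := by
  set u : ℝ := (Fintype.card (U F t) : ℝ) with hu
  set q : ℝ := (Fintype.card F : ℝ) with hq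
  have hq0 : 0 < q := by rw [hq]; exact_mod_cast Fintype.card_pos
  have hu0 : 0 ≤ u := Nat.cast_nonneg _
  have e1 : ∀ ω b b', ∑ a, l0 (pt ω b) (an ω a b) * l0 (pt ω b') (an ω a b')
      = ∑ θ, l0 (pt ω b) (θ * b) * l0 (pt ω b') (θ * b') := fun ω b b' =>
    Equiv.sum_comp (Equiv.mulLeft (tau ω.2)) fun θ => l0 (pt ω b) (θ * b) * l0 (pt ω b') (θ * b')
  simp only [e1]
  rw [Finset.sum_comm]
  simp only [Finset.sum_comm (s := Om F t)]
  have hK : (Fintype.card (K F t) : ℝ) = q ^ 2 := by rw [card_K]; push_cast; rfl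
  refine (sum2_le _ (u * q ^ 4) (q ^ 4 * u ^ 2) (by positivity) ?_ ?_).trans (le_of_eq (by ring))
  · intro b b' hb
    have hX : ∀ (b θ θ' : U F t), θ ≠ θ' → ∑ y, l0 y (θ * b) * l0 y (θ' * b) = 0 := by
      intro b θ θ' hne
      have := orth ht h2 (θ := θ * b) (θ' := θ' * b) (fun h => hne (mul_right_cancel h))
        (fun y => l0 y (θ * b)) (fun y => l0 y (θ' * b)) (fun y z hz => hinv y z _ hz)
        (fun y z hz => hinv y z _ hz)
      rw [hm, zero_mul] at this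
      exact (mul_eq_zero.1 this).resolve_left (by positivity)
    calc ∑ ω ∈ Om F t, (∑ θ, l0 (pt ω b) (θ * b) * l0 (pt ω b') (θ * b')) ^ 2
        ≤ ∑ ω, (∑ θ, l0 (pt ω b) (θ * b) * l0 (pt ω b') (θ * b')) ^ 2 :=
          Finset.sum_le_sum_of_subset_of_nonneg (subset_univ _) fun _ _ _ => sq_nonneg _
      _ = ∑ p : K F t × K F t, (∑ θ, l0 p.1 (θ * b) * l0 p.2 (θ * b')) ^ 2 :=
          (pair_bij ht h2 hb).sum_comp fun p => (∑ θ, l0 p.1 (θ * b) * l0 p.2 (θ * b')) ^ 2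
      _ = ∑ θ, ∑ θ', (∑ y, l0 y (θ * b) * l0 y (θ' * b))
            * ∑ y, l0 y (θ * b') * l0 y (θ' * b') := by
          have l1 : ∀ p : K F t × K F t, (∑ θ, l0 p.1 (θ * b) * l0 p.2 (θ * b')) ^ 2
              = ∑ θ, ∑ θ', (l0 p.1 (θ * b) * l0 p.1 (θ' * b))
                * (l0 p.2 (θ * b') * l0 p.2 (θ' * b')) := by
            intro p
            rw [sq, Finset.sum_mul_sum]
            exact Finset.sum_congr rfl fun _ _ => Finset.sum_congr rfl fun _ _ => by ring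
          simp only [l1]
          rw [Finset.sum_comm]
          refine Finset.sum_congr rfl fun θ _ => ?_
          rw [Finset.sum_comm]
          refine Finset.sum_congr rfl fun θ' _ => ?_
          rw [Finset.sum_mul_sum, Fintype.sum_prod_type]
      _ ≤ u ^ 2 * 0 + u * q ^ 4 := by
          refine sum2_le _ 0 (q ^ 4) le_rfl (fun θ θ' h => by rw [hX b θ θ' h, zero_mul]) ?_
          intro θ
          have a1 := abs_sum_le (fun y => l0 y (θ * b) * l0 y (θ * b)) fun y => am (h1 _ _) (h1 _ _)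
          have a2 := abs_sum_le (fun y => l0 y (θ * b') * l0 y (θ * b'))
            fun y => am (h1 _ _) (h1 _ _)
          rw [hK] at a1 a2
          refine (le_abs_self _).trans ?_
          rw [abs_mul]
          calc _ ≤ q ^ 2 * q ^ 2 := mul_le_mul a1 a2 (abs_nonneg _) (by positivity)
            _ = _ := by ring
      _ = _ := by ring
  · intro b
    calc ∑ ω ∈ Om F t, (∑ θ, l0 (pt ω b) (θ * b) * l0 (pt ω b) (θ * b)) ^ 2
        ≤ ∑ _ω ∈ Om F t, u ^ 2 :=
          Finset.sum_le_sum fun ω _ => sq_sum_le _ fun θ => am (h1 _ _) (h1 _ _)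
      _ ≤ _ := by
          rw [Finset.sum_const, nsmul_eq_mul]
          exact mul_le_mul_of_nonneg_right card_Om (by positivity)

theorem vert_le (ht : t ≠ 0) (h2 : (2 : F) ≠ 0) (b0 : K F t → ℝ) (f : U F t → ℝ)
    (h1 : ∀ y, |b0 y| ≤ 1) (hf : ∀ θ, |f θ| ≤ 1) (hm : ∑ y, b0 y = 0) :
    ∑ a, ∑ a', ∑ ω ∈ Om F t, b0 (pt ω a) * b0 (pt ω a')
        * (∑ b, f (an ω a b) * f (an ω a' b)) ^ 2
      ≤ 2 * (Fintype.card F : ℝ) ^ 3 * (Fintype.card (U F t) : ℝ) ^ 4
        + (Fintype.card F : ℝ) ^ 4 * (Fintype.card (U F t) : ℝ) ^ 3 := by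
  classical
  set u : ℝ := (Fintype.card (U F t) : ℝ) with hu
  set q : ℝ := (Fintype.card F : ℝ) with hq
  have hq0 : 0 ≤ q := Nat.cast_nonneg _
  have hu0 : 0 ≤ u := Nat.cast_nonneg _
  have e1 : ∀ ω a a', ∑ b, f (an ω a b) * f (an ω a' b) = ∑ θ, f (θ * a) * f (θ * a') := by
    intro ω a a'
    rw [← Equiv.sum_comp (Equiv.mulLeft (tau ω.2)) fun θ => f (θ * a) * f (θ * a')]
    refine Finset.sum_congr rfl fun b _ => ?_
    simp only [an, Equiv.coe_mulLeft, mul_right_comm (tau ω.2) _ b]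
  simp only [e1]
  have hΦ : ∀ a a' : U F t, (∑ θ, f (θ * a) * f (θ * a')) ^ 2 ≤ u ^ 2 :=
    fun a a' => sq_sum_le _ fun θ => am (hf _) (hf _)
  refine (sum2_le _ (2 * q ^ 3 * u ^ 2) (q ^ 4 * u ^ 2) (by positivity) ?_ ?_).trans
    (le_of_eq (by ring))
  · intro a a' ha
    rw [← Finset.sum_mul]
    have e2 : ∑ ω : K F t × K F t, b0 (pt ω a) * b0 (pt ω a') = 0 := by
      have := (pair_bij ht h2 ha).sum_comp fun p => b0 p.1 * b0 p.2
      refine Eq.trans this ?_
      rw [Fintype.sum_prod_type, ← Finset.sum_mul_sum, hm, zero_mul]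
    have e3 := Finset.sum_filter_add_sum_filter_not (univ : Finset (K F t × K F t))
      (fun p => nm p.2 ≠ 0) fun ω => b0 (pt ω a) * b0 (pt ω a')
    rw [e2] at e3
    have e4 : -∑ ω ∈ univ.filter (fun p : K F t × K F t => ¬ nm p.2 ≠ 0),
        b0 (pt ω a) * b0 (pt ω a') ≤ 2 * q ^ 3 := by
      rw [← Finset.sum_neg_distrib]
      calc _ ≤ ∑ ω ∈ univ.filter (fun p : K F t × K F t => ¬ nm p.2 ≠ 0), (1 : ℝ) :=
            Finset.sum_le_sum fun ω _ => (neg_le_abs _).trans (am (h1 _) (h1 _))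
        _ ≤ _ := by
            have : univ.filter (fun p : K F t × K F t => ¬ nm p.2 ≠ 0)
                = univ ×ˢ (univ.filter fun z : K F t => nm z = 0) := by
              ext p; simp
            rw [this, Finset.sum_const, Finset.card_product, Finset.card_univ, card_K]
            have h3 : ((univ.filter fun z : K F t => nm z = 0).card : ℝ) ≤ 2 * q := by
              rw [hq]; exact_mod_cast card_norm_le 0
            simp only [nsmul_eq_mul, mul_one]
            push_cast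
            calc _ ≤ q ^ 2 * (2 * q) := mul_le_mul_of_nonneg_left h3 (by positivity)
              _ = _ := by ring
    have e5 : ∑ ω ∈ Om F t, b0 (pt ω a) * b0 (pt ω a') ≤ 2 * q ^ 3 := by
      have : ∑ ω ∈ Om F t, b0 (pt ω a) * b0 (pt ω a')
          = ∑ ω ∈ univ.filter (fun p : K F t × K F t => nm p.2 ≠ 0),
            b0 (pt ω a) * b0 (pt ω a') := by
        unfold Om; congr
      linarith
    calc _ ≤ 2 * q ^ 3 * (∑ θ, f (θ * a) * f (θ * a')) ^ 2 :=
          mul_le_mul_of_nonneg_right e5 (sq_nonneg _)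
      _ ≤ _ := mul_le_mul_of_nonneg_left (hΦ a a') (by positivity)
  · intro a
    calc _ ≤ ∑ _ω ∈ Om F t, u ^ 2 := by
          refine Finset.sum_le_sum fun ω _ => ?_
          have := (le_abs_self _).trans (am (h1 (pt ω a)) (h1 (pt ω a)))
          calc _ ≤ 1 * (∑ θ, f (θ * a) * f (θ * a)) ^ 2 :=
                mul_le_mul_of_nonneg_right this (sq_nonneg _)
            _ ≤ _ := by rw [one_mul]; exact hΦ a a
      _ ≤ _ := by
          rw [Finset.sum_const, nsmul_eq_mul]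
          exact mul_le_mul_of_nonneg_right card_Om (by positivity)

theorem main_ge {G : Type*} [CommGroup G] [Fintype G] (τ : G) (f : G → ℝ) (hf : ∀ θ, 0 ≤ f θ)
    (hs : ∀ θ, f θ ≠ 0 → ∃ s, θ = τ * s * s) :
    (∑ θ, f θ) ^ 3 ≤ ∑ a, ∑ b, ∑ c, f (τ * a * b) * f (τ * a * c) * f (τ * b * c) := by
  classical
  choose! s hs using hs
  set T : Finset (G × G × G) := univ.filter fun p => f p.1 ≠ 0 ∧ f p.2.1 ≠ 0 ∧ f p.2.2 ≠ 0
  set g : G × G × G → G × G × G := fun p =>
    (s p.1 * s p.2.1 * (s p.2.2)⁻¹, s p.1 * s p.2.2 * (s p.2.1)⁻¹, s p.2.1 * s p.2.2 * (s p.1)⁻¹)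
  set k : G × G × G → G × G × G := fun p => (τ * p.1 * p.2.1, τ * p.1 * p.2.2, τ * p.2.1 * p.2.2)
  have hk : ∀ p ∈ T, k (g p) = p := by
    rintro ⟨x, y, z⟩ hp
    obtain ⟨h1, h2, h3⟩ := (mem_filter.1 hp).2
    have e1 := hs _ h1
    have e2 := hs _ h2
    have e3 := hs _ h3
    simp only at e1 e2 e3
    simp only [k, g, Prod.mk.injEq]
    refine ⟨?_, ?_, ?_⟩
    · conv_rhs => rw [e1]
      apply Additive.ofMul.injective; simp only [ofMul_mul, ofMul_inv]; abel
    · conv_rhs => rw [e2]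
      apply Additive.ofMul.injective; simp only [ofMul_mul, ofMul_inv]; abel
    · conv_rhs => rw [e3]
      apply Additive.ofMul.injective; simp only [ofMul_mul, ofMul_inv]; abel
  set Φ : G × G × G → ℝ := fun p => f p.1 * f p.2.1 * f p.2.2
  have hΦ : ∀ p, 0 ≤ Φ p := fun p => mul_nonneg (mul_nonneg (hf _) (hf _)) (hf _)
  calc (∑ θ, f θ) ^ 3 = ∑ p, Φ p := by
        simp only [Φ, Fintype.sum_prod_type, ← Finset.mul_sum, ← Finset.sum_mul]; ring
    _ = ∑ p ∈ T, Φ p := by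
        symm
        refine Finset.sum_filter_of_ne fun p _ h => ?_
        exact ⟨left_ne_zero_of_mul (left_ne_zero_of_mul h),
          right_ne_zero_of_mul (left_ne_zero_of_mul h), right_ne_zero_of_mul h⟩
    _ = ∑ p ∈ T, Φ (k (g p)) := Finset.sum_congr rfl fun p hp => by rw [hk p hp]
    _ = ∑ p ∈ T.image g, Φ (k p) := by
        rw [Finset.sum_image]
        intro p hp p' hp' h
        rw [← hk p hp, h, hk p' hp']
    _ ≤ ∑ p, Φ (k p) := Finset.sum_le_sum_of_subset_of_nonneg (subset_univ _) fun _ _ _ => hΦ _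
    _ = _ := by simp only [Φ, k, Fintype.sum_prod_type]

end Pool.Agent.P.MP_1d6da1_co.Sph
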