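import Pool.Agent.P.MP_1d6da1_co.Sph.Loc1

namespace Pool.Agent.P.MP_1d6da1_co.Sph

open Finset

variable {F : Type} [Field F] [Fintype F] {t : F}

/-- Sum over circles with a base point and three further points. -/
noncomputable def Sm (G : K F t × K F t → U F t → U F t → U F t → ℝ) : ℝ :=
  ∑ ω ∈ Om F t, ∑ a, ∑ b, ∑ c, G ω a b c

theorem Sm_congr {G G' : K F t × K F t → U F t → U F t → U F t → ℝ}
    (h : ∀ ω a b c, G ω a b c = G' ω a b c) : Sm G = Sm G' := by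
  unfold Sm; simp only [h]

theorem Sm_mono {G G' : K F t × K F t → U F t → U F t → U F t → ℝ}
    (h : ∀ ω ∈ Om F t, ∀ a b c, G ω a b c ≤ G' ω a b c) : Sm G ≤ Sm G' :=
  Finset.sum_le_sum fun ω hω => Finset.sum_le_sum fun a _ => Finset.sum_le_sum fun b _ =>
    Finset.sum_le_sum fun c _ => h ω hω a b c

theorem Sm_add (G G' : K F t × K F t → U F t → U F t → U F t → ℝ) :
    Sm (fun ω a b c => G ω a b c + G' ω a b c) = Sm G + Sm G' := by
  unfold Sm; simp only [Finset.sum_add_distrib]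

theorem Sm_sw23 (G : K F t × K F t → U F t → U F t → U F t → ℝ) :
    Sm G = Sm fun ω a b c => G ω a c b :=
  Finset.sum_congr rfl fun ω _ => sw23 (G ω)

theorem Sm_sw12 (G : K F t × K F t → U F t → U F t → U F t → ℝ) :
    Sm G = Sm fun ω a b c => G ω b a c :=
  Finset.sum_congr rfl fun _ _ => Finset.sum_comm

theorem Sm_rot (G : K F t × K F t → U F t → U F t → U F t → ℝ) :
    Sm G = Sm fun ω a b c => G ω c a b :=
  Finset.sum_congr rfl fun ω _ => rot3 (G ω)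

theorem Sm_rot' (G : K F t × K F t → U F t → U F t → U F t → ℝ) :
    Sm G = Sm fun ω a b c => G ω b c a :=
  Finset.sum_congr rfl fun ω _ => rot3' (G ω)

theorem le_of_pow4 {E Y : ℝ} (hY : 0 ≤ Y) (h : E ^ 4 ≤ Y ^ 4) : |E| ≤ Y := by
  rw [← Even.pow_abs (by decide : Even 4)] at h
  exact (pow_le_pow_iff_left₀ (abs_nonneg E) hY (by norm_num)).1 h

theorem uq_le : (Fintype.card (U F t) : ℝ) ≤ 2 * Fintype.card F := by
  exact_mod_cast card_U_le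

theorem one_le_q : (1 : ℝ) ≤ Fintype.card F := by exact_mod_cast Fintype.card_pos

theorem edge_le (ht : t ≠ 0) (h2 : (2 : F) ≠ 0) {R : ℝ} (hR : 0 ≤ R)
    (hq : (Fintype.card F : ℝ) ^ 23 ≤ R ^ 4) (l0 : K F t → U F t → ℝ)
    (h1 : ∀ y θ, |l0 y θ| ≤ 1) (hinv : ∀ y z θ, par θ z → l0 (y + z) θ = l0 y θ)
    (hm : ∀ θ, ∑ y, l0 y θ = 0) (g1 g2 : K F t × K F t → U F t → U F t → ℝ)
    (hg1 : ∀ x a b, |g1 x a b| ≤ 1) (hg2 : ∀ x a b, |g2 x a b| ≤ 1) :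
    |Sm fun ω a b c => g1 ω a c * g2 ω b c * l0 (pt ω b) (an ω a b)|
      ≤ 4 * Fintype.card (U F t) * R := by
  have c1 := edge_cs (Om F t) g1 g2 (fun ω a b => l0 (pt ω b) (an ω a b)) hg1 hg2
  have c2 := box_le ht h2 l0 h1 hinv hm
  have c3 := card_Om (F := F) (t := t)
  have c4 := uq_le (F := F) (t := t)
  set u : ℝ := (Fintype.card (U F t) : ℝ)
  set q : ℝ := (Fintype.card F : ℝ)
  have hq0 : 0 ≤ q := Nat.cast_nonneg _
  have hu0 : 0 ≤ u := Nat.cast_nonneg _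
  refine le_of_pow4 (by positivity) (c1.trans ?_)
  calc _ ≤ (q ^ 4) ^ 3 * u ^ 8 * (2 * u ^ 3 * q ^ 4) := by
        refine mul_le_mul (by gcongr) c2 ?_ (by positivity)
        exact Finset.sum_nonneg fun _ _ => Finset.sum_nonneg fun _ _ =>
          Finset.sum_nonneg fun _ _ => sq_nonneg _
    _ = 2 * q ^ 16 * u ^ 4 * u ^ 7 := by ring
    _ ≤ 2 * q ^ 16 * u ^ 4 * (2 * q) ^ 7 := by gcongr
    _ = 256 * u ^ 4 * q ^ 23 := by ring
    _ ≤ 256 * u ^ 4 * R ^ 4 := by gcongr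
    _ = _ := by ring

theorem vert_le' (ht : t ≠ 0) (h2 : (2 : F) ≠ 0) {R : ℝ} (hR : 0 ≤ R)
    (hq : (Fintype.card F : ℝ) ^ 23 ≤ R ^ 4) (b0 : K F t → ℝ) (f : U F t → ℝ)
    (h1 : ∀ y, |b0 y| ≤ 1) (hf : ∀ θ, |f θ| ≤ 1) (hm : ∑ y, b0 y = 0)
    (g : K F t × K F t → U F t → U F t → ℝ) (hg : ∀ x a b, |g x a b| ≤ 1) :
    |Sm fun ω a b c => g ω b c * (b0 (pt ω a) * f (an ω a b) * f (an ω a c))|
      ≤ 7 * Fintype.card (U F t) * R := by
  have c1 := vert_cs (Om F t) g (fun ω a b => f (an ω a b)) (fun ω a => b0 (pt ω a)) hg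
  have c2 := vert_le ht h2 b0 f h1 hf hm
  have c3 := card_Om (F := F) (t := t)
  have c4 := uq_le (F := F) (t := t)
  have c5 := one_le_q (F := F)
  set u : ℝ := (Fintype.card (U F t) : ℝ)
  set q : ℝ := (Fintype.card F : ℝ)
  have hq0 : 0 ≤ q := Nat.cast_nonneg _
  have hu0 : 0 ≤ u := Nat.cast_nonneg _
  have c6 : (Sm fun ω a b c => g ω b c * (b0 (pt ω a) * f (an ω a b) * f (an ω a c))) ^ 2
      ≤ 40 * u ^ 2 * q ^ 11 := by
    refine c1.trans ?_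
    calc _ ≤ ((Om F t).card : ℝ) * u ^ 2 * (2 * q ^ 3 * u ^ 4 + q ^ 4 * u ^ 3) :=
          mul_le_mul_of_nonneg_left c2 (by positivity)
      _ ≤ q ^ 4 * u ^ 2 * (2 * q ^ 3 * (2 * q) ^ 4 + q ^ 4 * (2 * q) ^ 3) := by gcongr
      _ = _ := by ring
  refine le_of_pow4 (by positivity) ?_
  calc _ = ((Sm fun ω a b c => g ω b c * (b0 (pt ω a) * f (an ω a b) * f (an ω a c))) ^ 2) ^ 2 := by
        ring
    _ ≤ (40 * u ^ 2 * q ^ 11) ^ 2 := pow_le_pow_left₀ (sq_nonneg _) c6 2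
    _ = 1600 * u ^ 4 * q ^ 22 := by ring
    _ ≤ 2401 * u ^ 4 * q ^ 23 := by gcongr <;> norm_num
    _ ≤ 2401 * u ^ 4 * R ^ 4 := by gcongr
    _ = _ := by ring

omit [Fintype F] in
theorem an_comm (ω : K F t × K F t) (a b : U F t) : an ω a b = an ω b a :=
  mul_right_comm _ _ _

theorem abs01 {x : ℝ} (h0 : 0 ≤ x) (h1 : x ≤ 1) : |x| ≤ 1 := by rwa [abs_of_nonneg h0]

theorem abs_sub01 {x y : ℝ} (h0 : 0 ≤ x) (h1 : x ≤ 1) (h2 : 0 ≤ y) (h3 : y ≤ 1) :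
    |x - y| ≤ 1 := abs_le.2 ⟨by linarith, by linarith⟩

theorem mean01 (g : K F t → ℝ) (h0 : ∀ y, 0 ≤ g y) (h1 : ∀ y, g y ≤ 1) :
    0 ≤ (∑ y, g y) / (Fintype.card F : ℝ) ^ 2 ∧ (∑ y, g y) / (Fintype.card F : ℝ) ^ 2 ≤ 1 ∧
      ∑ y, (g y - (∑ y, g y) / (Fintype.card F : ℝ) ^ 2) = 0 := by
  have hq : (0 : ℝ) < (Fintype.card F : ℝ) ^ 2 := by
    have := one_le_q (F := F); positivity
  have hK : (Fintype.card (K F t) : ℝ) = (Fintype.card F : ℝ) ^ 2 := by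
    rw [card_K]; push_cast; rfl
  refine ⟨div_nonneg (Finset.sum_nonneg fun y _ => h0 y) hq.le, ?_, ?_⟩
  · rw [div_le_one hq, ← hK]
    calc ∑ y, g y ≤ ∑ _y : K F t, (1 : ℝ) := Finset.sum_le_sum fun y _ => h1 y
      _ = _ := by simp
  · rw [Finset.sum_sub_distrib, Finset.sum_const, Finset.card_univ, nsmul_eq_mul, hK]
    field_simp
    ring

/-- The weighted number of triangles with vertices, sides and circumcircle in the given sets. -/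
theorem loc1 (ht : t ≠ 0) (h2 : (2 : F) ≠ 0) {R : ℝ} (hR : 0 ≤ R)
    (hq : (Fintype.card F : ℝ) ^ 23 ≤ R ^ 4) (A : K F t → ℝ) (l : K F t → U F t → ℝ)
    (C : K F t × K F t → ℝ) (A0 : ∀ y, 0 ≤ A y) (A1 : ∀ y, A y ≤ 1) (l0 : ∀ y θ, 0 ≤ l y θ)
    (l1 : ∀ y θ, l y θ ≤ 1) (C0 : ∀ ω, 0 ≤ C ω) (C1 : ∀ ω, C ω ≤ 1)
    (hinv : ∀ y z θ, par θ z → l (y + z) θ = l y θ)
    (hc : ∀ ω ∈ Om F t, C ω ≠ 0 → ∀ y θ, l y θ ≠ 0 → ∃ s, θ = tau ω.2 * s * s) :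
    ((∑ y, A y) / (Fintype.card F : ℝ) ^ 2) ^ 3 * (∑ ω ∈ Om F t, C ω)
        * (∑ θ, (∑ y, l y θ) / (Fintype.card F : ℝ) ^ 2) ^ 3 - 33 * Fintype.card (U F t) * R
      ≤ Sm fun ω a b c => C ω * A (pt ω a) * A (pt ω b) * A (pt ω c) * l (pt ω b) (an ω a b)
        * l (pt ω c) (an ω a c) * l (pt ω c) (an ω b c) := by
  obtain ⟨α0, α1, αm⟩ := mean01 A A0 A1
  set α := (∑ y, A y) / (Fintype.card F : ℝ) ^ 2 with hα
  set f : U F t → ℝ := fun θ => (∑ y, l y θ) / (Fintype.card F : ℝ) ^ 2 with hf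
  have f0 : ∀ θ, 0 ≤ f θ := fun θ => (mean01 _ (fun y => l0 y θ) fun y => l1 y θ).1
  have f1 : ∀ θ, f θ ≤ 1 := fun θ => (mean01 _ (fun y => l0 y θ) fun y => l1 y θ).2.1
  have fm : ∀ θ, ∑ y, (l y θ - f θ) = 0 :=
    fun θ => (mean01 _ (fun y => l0 y θ) fun y => l1 y θ).2.2
  have aA : ∀ y, |A y| ≤ 1 := fun y => abs01 (A0 y) (A1 y)
  have al : ∀ y θ, |l y θ| ≤ 1 := fun y θ => abs01 (l0 y θ) (l1 y θ)
  have aC : ∀ ω, |C ω| ≤ 1 := fun ω => abs01 (C0 ω) (C1 ω)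
  have af : ∀ θ, |f θ| ≤ 1 := fun θ => abs01 (f0 θ) (f1 θ)
  have aα : |α| ≤ 1 := abs01 α0 α1
  have E := edge_le ht h2 hR hq (fun y θ => l y θ - f θ)
    (fun y θ => abs_sub01 (l0 _ _) (l1 _ _) (f0 _) (f1 _))
    (fun y z θ hz => by simp only [hinv y z θ hz]) fm
  have V := vert_le' ht h2 hR hq (fun y => A y - α) f
    (fun y => abs_sub01 (A0 _) (A1 _) α0 α1) af αm
  have E1 := E (fun ω a c => C ω * A (pt ω a) * A (pt ω c) * l (pt ω c) (an ω a c))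
    (fun ω b c => A (pt ω b) * l (pt ω c) (an ω b c))
    (fun _ _ _ => am (am (am (aC _) (aA _)) (aA _)) (al _ _)) fun _ _ _ => am (aA _) (al _ _)
  have E2 := E (fun ω a b => C ω * A (pt ω a) * A (pt ω b) * f (an ω a b))
    (fun ω c b => A (pt ω c) * l (pt ω c) (an ω b c))
    (fun _ _ _ => am (am (am (aC _) (aA _)) (aA _)) (af _)) fun _ _ _ => am (aA _) (al _ _)
  rw [Sm_sw23] at E2
  have E3 := E (fun ω b a => C ω * A (pt ω a) * A (pt ω b) * f (an ω a b))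
    (fun ω c a => A (pt ω c) * f (an ω a c))
    (fun _ _ _ => am (am (am (aC _) (aA _)) (aA _)) (af _)) fun _ _ _ => am (aA _) (af _)
  rw [Sm_rot'] at E3
  have V1 := V (fun ω b c => C ω * A (pt ω b) * A (pt ω c) * f (an ω b c))
    fun _ _ _ => am (am (am (aC _) (aA _)) (aA _)) (af _)
  have V2 := V (fun ω a c => α * C ω * A (pt ω c) * f (an ω a c))
    fun _ _ _ => am (am (am aα (aC _)) (aA _)) (af _)
  rw [Sm_sw12] at V2
  have V3 := V (fun ω a b => α * α * C ω * f (an ω a b))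
    fun _ _ _ => am (am (am aα aα) (aC _)) (af _)
  rw [Sm_rot] at V3
  have M : α ^ 3 * (∑ ω ∈ Om F t, C ω) * (∑ θ, f θ) ^ 3
      ≤ Sm fun ω a b c => α ^ 3 * C ω * (f (an ω a b) * f (an ω a c) * f (an ω b c)) := by
    unfold Sm
    rw [Finset.mul_sum, Finset.sum_mul]
    refine Finset.sum_le_sum fun ω hω => ?_
    simp only [← Finset.mul_sum]
    by_cases h : C ω = 0
    · simp [h]
    · refine mul_le_mul_of_nonneg_left ?_ (mul_nonneg (pow_nonneg α0 3) (C0 ω))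
      refine main_ge (tau ω.2) f f0 fun θ hθ => ?_
      have : ∑ y, l y θ ≠ 0 := fun h0 => hθ (by simp only [hf, h0, zero_div])
      obtain ⟨y, _, hy⟩ := Finset.exists_ne_zero_of_sum_ne_zero this
      exact hc ω hω h y θ hy
  have b1 := (abs_le.1 E1).1
  have b2 := (abs_le.1 E2).1
  have b3 := (abs_le.1 E3).1
  have b4 := (abs_le.1 V1).1
  have b5 := (abs_le.1 V2).1
  have b6 := (abs_le.1 V3).1
  have b7 := add_le_add (add_le_add (add_le_add (add_le_add (add_le_add (add_le_add M b1) b2) b3)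
    b4) b5) b6
  simp only [← Sm_add] at b7
  refine le_trans (le_of_eq (by ring)) (b7.trans (le_of_eq (Sm_congr fun ω a b c => ?_)))
  rw [an_comm ω b a, an_comm ω c a, an_comm ω c b]
  ring

end Pool.Agent.P.MP_1d6da1_co.Sph
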