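import Pool.Agent.P.MP_1d6da1_co.Sph.Loc2

namespace Pool.Agent.P.MP_1d6da1_co.Sph

open Finset
open QuadraticAlgebra (re_smul im_smul re_sub im_sub re_zero im_zero)

variable {F : Type} [Field F] [Fintype F] {t : F}

open Classical in
noncomputable def ind (p : Prop) : ℝ := if p then 1 else 0

theorem ind0 (p : Prop) : 0 ≤ ind p := by unfold ind; split_ifs <;> norm_num

theorem ind1 (p : Prop) : ind p ≤ 1 := by unfold ind; split_ifs <;> norm_num

theorem ind_pos {p : Prop} (h : p) : ind p = 1 := if_pos h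

theorem ind_neg {p : Prop} (h : ¬ p) : ind p = 0 := if_neg h

theorem ind_and (p r : Prop) : ind (p ∧ r) = ind p * ind r := by
  by_cases h : p <;> by_cases h' : r <;> simp [ind, h, h']

theorem sum_ind {α : Type*} (s : Finset α) (p : α → Prop) [DecidablePred p] :
    ∑ x ∈ s, ind (p x) = (s.filter p).card := by
  rw [Finset.card_filter]; push_cast
  exact Finset.sum_congr rfl fun x _ => by by_cases h : p x <;> simp [ind, h]

open Classical in
def pL (L : Finset (K F t × U F t)) (x : K F t) : Prop :=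
  (univ.filter fun θ => (x, θ) ∈ L).card ≤ 2

open Classical in
def pC (C : Finset (K F t × F)) (x : K F t) : Prop :=
  (univ.filter fun c => (c, nm (x - c)) ∈ C).card ≤ 2 * Fintype.card F

open Classical in
def pP (C : Finset (K F t × F)) (x x' : K F t) : Prop :=
  (univ.filter fun c => (c, nm (x - c)) ∈ C ∧ nm (x' - c) = nm (x - c)).card ≤ 1

omit [Fintype F] in
theorem nm_pt (ω : K F t × K F t) (a : U F t) : nm (pt ω a - ω.1) = nm ω.2 := by
  rw [pt, add_sub_cancel_left, nm_mul, U_norm, mul_one]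

omit [Fintype F] in
theorem pt_inj {ω ω' : K F t × K F t} {a : U F t} (h1 : ω.1 = ω'.1) (h : pt ω a = pt ω' a) :
    ω = ω' := by
  refine Prod.ext h1 (cancelK (w := (a : K F t)) (by rw [U_norm]; exact one_ne_zero) ?_)
  unfold pt at h
  rw [h1] at h
  linear_combination h

theorem Om_sum_le (g : K F t × K F t → ℝ) (x : ℝ) (hx : 0 ≤ x) (h : ∀ ω, g ω ≤ x) :
    ∑ ω ∈ Om F t, g ω ≤ (Fintype.card F : ℝ) ^ 4 * x :=
  calc ∑ ω ∈ Om F t, g ω ≤ ∑ _ω ∈ Om F t, x := Finset.sum_le_sum fun ω _ => h ω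
    _ ≤ _ := by
      rw [Finset.sum_const, nsmul_eq_mul]
      exact mul_le_mul_of_nonneg_right card_Om hx

theorem bd1 : Sm (t := t) (fun _ a b _ => ind (a = b))
    ≤ (Fintype.card F : ℝ) ^ 4 * (Fintype.card (U F t) : ℝ) ^ 2 := by
  classical
  refine Om_sum_le _ _ (by positivity) fun ω => le_of_eq ?_
  simp [ind, sq]

theorem bd2 (L : Finset (K F t × U F t)) :
    Sm (fun ω a b c => ind (pL L (pt ω a) ∧ (pt ω a, an ω a b) ∈ L ∧ (pt ω a, an ω a c) ∈ L))
      ≤ (Fintype.card F : ℝ) ^ 4 * (Fintype.card (U F t) * 4) := by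
  classical
  refine Om_sum_le _ _ (by positivity) fun ω => ?_
  have : ∀ a, ∑ b, ∑ c, ind (pL L (pt ω a) ∧ (pt ω a, an ω a b) ∈ L ∧ (pt ω a, an ω a c) ∈ L)
      ≤ 4 := by
    intro a
    by_cases h : pL L (pt ω a)
    · simp only [ind_and, ind_pos h, one_mul]
      rw [← Finset.sum_mul_sum]
      have e : ∑ b, ind ((pt ω a, an ω a b) ∈ L) = ∑ θ, ind ((pt ω a, θ) ∈ L) :=
        Equiv.sum_comp (Equiv.mulLeft (tau ω.2 * a)) fun θ => ind ((pt ω a, θ) ∈ L)
      rw [e, sum_ind]
      have h' : ((univ.filter fun θ => (pt ω a, θ) ∈ L).card : ℝ) ≤ 2 := by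
        unfold pL at h
        exact_mod_cast (by convert h)
      nlinarith [Nat.cast_nonneg (α := ℝ) (univ.filter fun θ => (pt ω a, θ) ∈ L).card]
    · simp [ind_and, ind_neg h]
  calc _ ≤ ∑ _a : U F t, (4 : ℝ) := Finset.sum_le_sum fun a _ => this a
    _ = _ := by simp

theorem mem_Om {ω : K F t × K F t} : ω ∈ Om F t ↔ nm ω.2 ≠ 0 := by simp [Om]

theorem bd3 (C : Finset (K F t × F)) :
    Sm (fun ω a b _ => ind (pP C (pt ω a) (pt ω b) ∧ (ω.1, nm ω.2) ∈ C))
      ≤ (Fintype.card F : ℝ) ^ 4 * (Fintype.card (U F t) : ℝ) ^ 2 := by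
  classical
  have h : ∀ a : U F t, ∑ ω ∈ Om F t, ∑ b, ind (pP C (pt ω a) (pt ω b) ∧ (ω.1, nm ω.2) ∈ C)
      ≤ (Fintype.card F : ℝ) ^ 4 := by
    intro a
    rw [← Finset.sum_product', sum_ind]
    have : ((Om F t ×ˢ (univ : Finset (U F t))).filter fun p =>
        pP C (pt p.1 a) (pt p.1 p.2) ∧ (p.1.1, nm p.1.2) ∈ C).card ≤ Fintype.card F ^ 4 := by
      have e : Fintype.card F ^ 4 = (univ : Finset (K F t × K F t)).card := by
        rw [Finset.card_univ, Fintype.card_prod, card_K]; ring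
      rw [e]
      refine Finset.card_le_card_of_injOn (fun p => (pt p.1 a, pt p.1 p.2))
        (fun _ _ => mem_coe.2 (mem_univ _)) ?_
      rintro ⟨ω, b⟩ hp ⟨ω', b'⟩ hp' e
      simp only [coe_filter, mem_product, Set.mem_ofPred_eq, Prod.mk.injEq] at hp hp' e
      have hc : ω.1 = ω'.1 := by
        have h1 := hp.2.1
        unfold pP at h1
        refine Finset.card_le_one.1 h1 _ ?_ _ ?_
        · simp only [mem_filter, mem_univ, true_and, nm_pt]
          exact ⟨hp.2.2, trivial⟩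
        · rw [e.1, e.2]
          simp only [mem_filter, mem_univ, true_and, nm_pt]
          exact ⟨hp'.2.2, trivial⟩
      have hω := pt_inj hc e.1
      subst hω
      refine Prod.ext rfl (Subtype.ext (cancelK (mem_Om.1 hp.1.1) ?_))
      have := e.2
      unfold pt at this
      linear_combination this
    exact_mod_cast this
  unfold Sm
  simp only [Finset.sum_const, Finset.card_univ, nsmul_eq_mul, ← Finset.mul_sum]
  rw [Finset.sum_comm]
  calc _ ≤ (Fintype.card (U F t) : ℝ) * ∑ _a : U F t, (Fintype.card F : ℝ) ^ 4 :=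
        mul_le_mul_of_nonneg_left (Finset.sum_le_sum fun a _ => h a) (Nat.cast_nonneg _)
    _ = _ := by simp; ring

theorem bd4 (C : Finset (K F t × F)) :
    Sm (fun ω a _ _ => ind (pC C (pt ω a) ∧ (ω.1, nm ω.2) ∈ C))
      ≤ 2 * (Fintype.card F : ℝ) ^ 3 * (Fintype.card (U F t) : ℝ) ^ 3 := by
  classical
  have h : ∀ a : U F t, ∑ ω ∈ Om F t, ind (pC C (pt ω a) ∧ (ω.1, nm ω.2) ∈ C)
      ≤ 2 * (Fintype.card F : ℝ) ^ 3 := by
    intro a
    rw [sum_ind]
    have := Finset.card_le_mul_card_image_of_maps_to (f := fun ω => pt ω a)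
      (s := (Om F t).filter fun ω => pC C (pt ω a) ∧ (ω.1, nm ω.2) ∈ C) (t := univ)
      (fun _ _ => mem_univ _) (2 * Fintype.card F) (by
        intro x _
        by_cases hx : pC C x
        · unfold pC at hx
          refine le_trans (Finset.card_le_card_of_injOn (fun ω => ω.1) ?_ ?_) hx
          · intro ω hω
            simp only [coe_filter, mem_filter, Set.mem_ofPred_eq, mem_univ, true_and] at hω ⊢
            rw [← hω.2, nm_pt]; exact hω.1.2.2
          · intro ω hω ω' hω' e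
            simp only [coe_filter, mem_filter, Set.mem_ofPred_eq] at hω hω'
            exact pt_inj e (hω.2.trans hω'.2.symm)
        · rw [Finset.card_eq_zero.2]
          · exact Nat.zero_le _
          · refine Finset.filter_eq_empty_iff.2 fun ω hω e => hx ?_
            rw [← e]; exact (mem_filter.1 hω).2.1)
    rw [Finset.card_univ, card_K] at this
    calc _ ≤ ((2 * Fintype.card F * Fintype.card F ^ 2 : ℕ) : ℝ) := by exact_mod_cast this
      _ = _ := by push_cast; ring
  unfold Sm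
  simp only [Finset.sum_const, Finset.card_univ, nsmul_eq_mul, ← Finset.mul_sum]
  rw [Finset.sum_comm]
  calc _ ≤ (Fintype.card (U F t) : ℝ) * (Fintype.card (U F t)
        * ∑ _a : U F t, 2 * (Fintype.card F : ℝ) ^ 3) := by
        gcongr with a _
        exact h a
    _ = _ := by simp; ring

theorem cnt_C (ht : t ≠ 0) (h2 : (2 : F) ≠ 0) (C : Finset (K F t × F)) (hC : ∀ p ∈ C, p.2 ≠ 0) :
    (Fintype.card (U F t) : ℝ) * C.card ≤ ∑ ω ∈ Om F t, ind ((ω.1, nm ω.2) ∈ C) := by
  classical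
  rw [sum_ind]
  choose r hr using exists_norm ht h2
  have : (C ×ˢ (univ : Finset (U F t))).card
      ≤ ((Om F t).filter fun ω => (ω.1, nm ω.2) ∈ C).card := by
    refine Finset.card_le_card_of_injOn (fun p => (p.1.1, r p.1.2 * p.2)) ?_ ?_
    · rintro ⟨p, u⟩ hp
      simp only [coe_product, Set.mem_prod, mem_coe] at hp
      simp only [coe_filter, Set.mem_ofPred_eq, mem_Om, nm_mul, hr, U_norm, mul_one]
      exact ⟨hC p hp.1, hp.1⟩
    · rintro ⟨p, u⟩ hp ⟨p', u'⟩ _ e
      simp only [coe_product, Set.mem_prod, mem_coe] at hp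
      simp only [Prod.mk.injEq] at e
      have e2 := congrArg nm e.2
      simp only [nm_mul, hr, U_norm, mul_one] at e2
      have e3 : p = p' := Prod.ext e.1 e2
      subst e3
      exact Prod.ext rfl (Subtype.ext (cancelK (by rw [hr]; exact hC p hp.1) e.2))
  rw [Finset.card_product, Finset.card_univ, mul_comm] at this
  exact_mod_cast this

omit [Fintype F] in
theorem par_of_det {θ : U F t} {v w : K F t} (hv : nm v ≠ 0) (h : par θ v)
    (hd : v.re * w.im - v.im * w.re = 0) : par θ w := by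
  have : w = ((w.re * v.re + t * (w.im * v.im)) / nm v) • v := by
    ext
    · simp only [re_smul, smul_eq_mul]
      field_simp
      rw [nrm]
      linear_combination (-t * v.im) * hd
    · simp only [im_smul, smul_eq_mul]
      field_simp
      rw [nrm]
      linear_combination v.re * hd
  rw [this]; exact par_smul _ h

omit [Fintype F] in
theorem bis {x y c c' : K F t} (h2 : (2 : F) ≠ 0) (h : nm (y - c) = nm (x - c))
    (h' : nm (y - c') = nm (x - c')) :
    (x - y).re * (c - c').re + t * ((x - y).im * (c - c').im) = 0 := by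
  apply mul_left_cancel₀ h2
  simp only [nrm, re_sub, im_sub] at h h' ⊢
  linear_combination h - h'

omit [Fintype F] in
theorem centre_unique (ht : t ≠ 0) (h2 : (2 : F) ≠ 0) {x y w c c' : K F t} {θ : U F t}
    (hv : nm (x - y) ≠ 0) (hp : par θ (x - y)) (hn : ¬ par θ (x - w))
    (h1 : nm (y - c) = nm (x - c)) (h1' : nm (y - c') = nm (x - c'))
    (h3 : nm (w - c) = nm (x - c)) (h3' : nm (w - c') = nm (x - c')) : c = c' := by
  have e1 := bis h2 h1 h1'
  have e2 := bis h2 h3 h3'
  have hd : (x - y).re * (x - w).im - (x - y).im * (x - w).re ≠ 0 :=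
    fun h => hn (par_of_det hv hp h)
  rw [← sub_eq_zero]
  ext
  · apply mul_left_cancel₀ hd
    rw [re_zero]
    linear_combination (x - w).im * e1 - (x - y).im * e2
  · apply mul_left_cancel₀ (mul_ne_zero ht hd)
    rw [im_zero]
    linear_combination (x - y).re * e2 - (x - w).re * e1

theorem card_bis [DecidableEq F] (h2 : (2 : F) ≠ 0) {x y : K F t} (hv : nm (x - y) ≠ 0) :
    (univ.filter fun c => nm (y - c) = nm (x - c)).card ≤ Fintype.card F := by
  rw [← Finset.card_univ]
  refine Finset.card_le_card_of_injOn (fun c => (x - y).re * c.im - (x - y).im * c.re)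
    (fun _ _ => mem_coe.2 (mem_univ _)) ?_
  intro c hc c' hc' e
  simp only [coe_filter, mem_univ, true_and, Set.mem_ofPred_eq] at hc hc' e
  have e1 := bis h2 hc hc'
  simp only [re_sub c, im_sub c] at e1
  ext
  · apply mul_left_cancel₀ hv
    rw [nrm]
    linear_combination (x - y).re * e1 - t * (x - y).im * e
  · apply mul_left_cancel₀ hv
    rw [nrm]
    linear_combination (x - y).im * e1 + (x - y).re * e

theorem ex_avoid {α : Type*} [DecidableEq α] (s a b c : Finset α)
    (h : a.card + b.card + c.card < s.card) : ∃ x ∈ s, x ∉ a ∧ x ∉ b ∧ x ∉ c := by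
  have : (a ∪ b ∪ c).card < s.card :=
    lt_of_le_of_lt ((Finset.card_union_le _ _).trans
      (Nat.add_le_add_right (Finset.card_union_le _ _) _)) h
  obtain ⟨x, hx, hn⟩ := Finset.exists_mem_notMem_of_card_lt_card this
  simp only [mem_union, not_or] at hn
  exact ⟨x, hx, hn.1.1, hn.1.2, hn.2⟩

theorem line0 (ht : t ≠ 0) (h2 : (2 : F) ≠ 0) (L : Finset (K F t × U F t))
    (hL : 3 * (Fintype.card F * Fintype.card (U F t)) < L.card) (x y w : K F t) :
    ∃ p ∈ L, ¬ par p.2 (x - p.1) ∧ ¬ par p.2 (y - p.1) ∧ ¬ par p.2 (w - p.1) := by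
  classical
  have h : ∀ x : K F t, (univ.filter fun p : K F t × U F t => par p.2 (x - p.1)).card
      ≤ Fintype.card F * Fintype.card (U F t) := by
    intro x
    refine Finset.card_le_mul_card_image_of_maps_to (f := fun p => p.2) (t := univ)
      (fun _ _ => mem_univ _) _ fun θ _ => ?_
    refine le_trans (Finset.card_le_card_of_injOn (fun p => x - p.1) ?_ ?_)
      (card_par_le ht h2 θ)
    · intro p hp
      simp only [coe_filter, mem_filter, mem_univ, true_and, Set.mem_ofPred_eq] at hp ⊢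
      rw [← hp.2]; exact hp.1
    · intro p hp p' hp' e
      simp only [coe_filter, mem_filter, mem_univ, true_and, Set.mem_ofPred_eq] at hp hp'
      exact Prod.ext (sub_right_injective e) (hp.2.trans hp'.2.symm)
  obtain ⟨p, hp, h1⟩ := ex_avoid L _ _ _ (lt_of_le_of_lt
    ((Nat.add_le_add (Nat.add_le_add (h x) (h y)) (h w)).trans (le_of_eq (by ring))) hL)
  exact ⟨p, hp, by simpa using h1⟩

theorem line1 {L : Finset (K F t × U F t)} {x y w : K F t} {θ θ' : U F t} (hx : ¬ pL L x)
    (hy : nm (x - y) ≠ 0) (hw : nm (x - w) ≠ 0) (py : par θ (x - y)) (pw : par θ' (x - w)) :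
    ∃ p ∈ L, par p.2 (x - p.1) ∧ ¬ par p.2 (y - p.1) ∧ ¬ par p.2 (w - p.1) := by
  classical
  unfold pL at hx
  obtain ⟨η, hη, h1, h2, -⟩ := ex_avoid _ {θ} {θ'} ∅ (by simpa using not_le.1 hx)
  refine ⟨(x, η), (mem_filter.1 hη).2, by simp [par_zero], fun h => h1 ?_, fun h => h2 ?_⟩
  · exact mem_singleton.2 (par_unique hy (by simpa using par_neg h) py)
  · exact mem_singleton.2 (par_unique hw (by simpa using par_neg h) pw)

omit [Fintype F] in
theorem line2 {L : Finset (K F t × U F t)} {x y w : K F t} {θ : U F t} (hx : (x, θ) ∈ L)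
    (py : par θ (x - y)) (pw : ¬ par θ (x - w)) :
    ∃ p ∈ L, par p.2 (x - p.1) ∧ par p.2 (y - p.1) ∧ ¬ par p.2 (w - p.1) :=
  ⟨(x, θ), hx, by simp [par_zero], by simpa using par_neg py,
    fun h => pw (by simpa using par_neg h)⟩

theorem circ0 (C : Finset (K F t × F)) (hC : 3 * Fintype.card F ^ 2 < C.card) (x y w : K F t) :
    ∃ p ∈ C, ¬ nm (x - p.1) = p.2 ∧ ¬ nm (y - p.1) = p.2 ∧ ¬ nm (w - p.1) = p.2 := by
  classical
  have h : ∀ x : K F t, (univ.filter fun p : K F t × F => nm (x - p.1) = p.2).card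
      ≤ Fintype.card F ^ 2 := by
    intro x
    rw [← card_K (t := t), ← Finset.card_univ]
    refine Finset.card_le_card_of_injOn (fun p => p.1) (fun _ _ => mem_coe.2 (mem_univ _)) ?_
    intro p hp p' hp' e
    simp only [coe_filter, mem_univ, true_and, Set.mem_ofPred_eq] at hp hp' e
    exact Prod.ext e (by rw [← hp, ← hp', e])
  obtain ⟨p, hp, h1⟩ := ex_avoid C _ _ _ (lt_of_le_of_lt
    ((Nat.add_le_add (Nat.add_le_add (h x) (h y)) (h w)).trans (le_of_eq (by ring))) hC)
  exact ⟨p, hp, by simpa using h1⟩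

theorem circ1 (h2 : (2 : F) ≠ 0) {C : Finset (K F t × F)} {x y w : K F t} (hx : ¬ pC C x)
    (hy : nm (x - y) ≠ 0) (hw : nm (x - w) ≠ 0) :
    ∃ p ∈ C, nm (x - p.1) = p.2 ∧ ¬ nm (y - p.1) = p.2 ∧ ¬ nm (w - p.1) = p.2 := by
  classical
  unfold pC at hx
  have a1 := card_bis h2 hy
  have a2 := card_bis h2 hw
  obtain ⟨c, hc, h1, h3, -⟩ := ex_avoid _ (univ.filter fun c => nm (y - c) = nm (x - c))
    (univ.filter fun c => nm (w - c) = nm (x - c)) ∅
    (lt_of_le_of_lt (by rw [Finset.card_empty]; omega) (not_le.1 hx))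
  exact ⟨(c, nm (x - c)), (mem_filter.1 hc).2, rfl, by simpa using h1, by simpa using h3⟩

theorem circ2 (ht : t ≠ 0) (h2 : (2 : F) ≠ 0) {C : Finset (K F t × F)} {x y w c : K F t}
    {θ : U F t} (hx : ¬ pP C x y) (hv : nm (x - y) ≠ 0) (hp : par θ (x - y))
    (hn : ¬ par θ (x - w)) (h1 : nm (y - c) = nm (x - c)) (h3 : nm (w - c) = nm (x - c)) :
    ∃ p ∈ C, nm (x - p.1) = p.2 ∧ nm (y - p.1) = p.2 ∧ ¬ nm (w - p.1) = p.2 := by
  classical
  unfold pP at hx
  obtain ⟨c', hc, h4, -⟩ := ex_avoid _ {c} ∅ ∅ (by simpa using not_le.1 hx)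
  obtain ⟨h5, h6⟩ := (mem_filter.1 hc).2
  exact ⟨(c', nm (x - c')), h5, rfl, h6, fun h =>
    h4 (mem_singleton.2 (centre_unique ht h2 hv hp hn h6 h1 h h3))⟩

end Pool.Agent.P.MP_1d6da1_co.Sph
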