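import Pool.Agent.P.MP_1d6da1_co.Sph.Thm1

namespace Pool.Agent.P.MP_1d6da1_co.Sph

open Finset

variable {F : Type} [Field F] [Fintype F] {V : Type} [AddCommGroup V] [Module F V] [Fintype V]
  {B : V →ₗ[F] V →ₗ[F] F}

theorem aniso2 (hB : Nd B) (h2 : (2 : F) ≠ 0) (hV : Fintype.card V = Fintype.card F ^ 5)
    {x y : V} (hy : y ≠ 0) (h : ∀ s : F, x ≠ s • y) :
    ∃ e, (B e y = 0 ∧ B e x = 0) ∧ B e e ≠ 0 := by
  classical
  have c := card_ker2 hB hy h
  rw [hV, show 5 = 2 + 3 from rfl, pow_add] at c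
  have c' := Nat.eq_of_mul_eq_mul_left (pow_pos Fintype.card_pos 2) c
  obtain ⟨w, hw, hn⟩ := Finset.exists_mem_notMem_of_card_lt_card
    (s := univ.image fun p : F × F => p.1 • x + p.2 • y)
    (t := univ.filter fun m => B m y = 0 ∧ B m x = 0) (by
      rw [c']
      refine lt_of_le_of_lt Finset.card_image_le ?_
      rw [Finset.card_univ, Fintype.card_prod, ← sq]
      exact Nat.pow_lt_pow_right Fintype.one_lt_card (by norm_num))
  obtain ⟨e1, a1, a2⟩ := ex_one2 hB hy h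
  obtain ⟨e2, b1, b2⟩ := ex_one2 hB (x := y) (y := x) (by simpa using h 0) fun s e => by
    have hs : s ≠ 0 := fun h0 => hy (by rw [e, h0, zero_smul])
    exact h s⁻¹ (by rw [e, smul_smul, inv_mul_cancel₀ hs, one_smul])
  obtain ⟨v, hv⟩ := hB.2 (w - (B w e1 • x + B w e2 • y)) (sub_ne_zero.2 fun e =>
    hn (mem_image.2 ⟨(B w e1, B w e2), mem_univ _, e.symm⟩))
  refine aniso_of hB h2 _ (fun _ _ h h' => by simp [h.1, h.2, h'.1, h'.2]) (mem_filter.1 hw).2
    (y := v - B v x • e1 - B v y • e2) ⟨by simp [a1, b2], by simp [a2, b1]⟩ fun e => hv ?_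
  simp only [map_sub, map_add, map_smul, smul_eq_mul, LinearMap.sub_apply, LinearMap.add_apply,
    LinearMap.smul_apply, hB.1 x v, hB.1 y v] at e ⊢
  linear_combination e

theorem card_perp2 [DecidableEq F] (hB : Nd B) (hV : Fintype.card V = Fintype.card F ^ 5)
    {x y : V} (hy : y ≠ 0) (h : ∀ s : F, x ≠ s • y) :
    ((univ.filter fun m => B m y = 0 ∧ B m x = 0).card : ℝ) = (Fintype.card F : ℝ) ^ 3 := by
  have c := card_ker2 hB hy h
  rw [hV, show 5 = 2 + 3 from rfl, pow_add] at c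
  exact_mod_cast Nat.eq_of_mul_eq_mul_left (pow_pos Fintype.card_pos 2) c

theorem codeg_le [DecidableEq F] (hB : Nd B) (h2 : (2 : F) ≠ 0)
    (hV : Fintype.card V = Fintype.card F ^ 5) {X : Finset V} (hX : Pd F X)
    (hi : ∀ x ∈ X, B x x = 0) {m m' : V} (hy : m ≠ 0) (h : ∀ s : F, m' ≠ s • m) :
    ((X.filter fun x => B m x = 0 ∧ B m' x = 0).card : ℝ) ≤ 3 * Fintype.card F := by
  obtain ⟨e, ⟨a1, a2⟩, a3⟩ := aniso2 hB h2 hV hy h
  have := iso_perp hB h2 (univ.filter fun v => B v m = 0 ∧ B v m' = 0) e a3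
    (fun v hv s => by simpa [a1, a2] using hv) (fun s v hs => by simp [hs])
    (hX.mono (filter_subset (fun x => B m x = 0 ∧ B m' x = 0) X))
    (fun x hx => hi x (mem_filter.1 hx).1) fun x hx => by
      simpa [hB.1 x] using (mem_filter.1 hx).2
  rw [card_perp2 hB hV hy h] at this
  have hq := one_le_q (F := F)
  exact le_of_mul_le_mul_left (a := (Fintype.card F : ℝ) ^ 2) (by linarith) (by positivity)

omit [Fintype V] in
open Classical in
theorem fib_count (R Z : Finset V) (π : V → V) (hπ : ∀ m ∈ R, π m ≠ 0) (t : ℕ)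
    (hZ : ∀ m ∈ R, ∀ s : F, s ≠ 0 → s • π m ∈ Z)
    (hf : ∀ m ∈ R, (R.filter fun m' => ∃ s : F, π m' = s • π m).card ≤ t) :
    (Fintype.card F - 1 : ℝ) * R.card ≤ t * Z.card := by
  have := Finset.card_le_mul_card_image_of_maps_to (f := fun p : F × V => p.1 • π p.2)
    (s := univ.erase (0 : F) ×ˢ R) (t := Z)
    (fun p hp => hZ _ (mem_product.1 hp).2 _ (mem_erase.1 (mem_product.1 hp).1).1) t (by
      intro w _
      rcases Finset.eq_empty_or_nonempty ((univ.erase (0 : F) ×ˢ R).filter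
        fun p => p.1 • π p.2 = w) with h | ⟨p, hp⟩
      · rw [h]; exact Nat.zero_le _
      simp only [mem_filter, mem_product, mem_erase, mem_univ, and_true] at hp
      refine le_trans (Finset.card_le_card_of_injOn (fun p => p.2) ?_ ?_) (hf _ hp.1.2)
      · intro p' hp'
        simp only [coe_filter, mem_product, mem_erase, mem_univ, and_true,
          Set.mem_ofPred_eq] at hp' ⊢
        exact ⟨hp'.1.2, p'.1⁻¹ * p.1, by
          rw [mul_smul, hp.2, ← hp'.2, smul_smul, inv_mul_cancel₀ hp'.1.1, one_smul]⟩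
      · intro a ha b hb e
        simp only [coe_filter, mem_product, Set.mem_ofPred_eq] at ha hb e
        refine Prod.ext (smul_left_injective F (hπ _ ha.1.2) ?_) e
        change a.1 • π a.2 = b.1 • π a.2
        rw [ha.2, e, hb.2])
  rw [Finset.card_product, Finset.card_erase_of_mem (mem_univ _), Finset.card_univ] at this
  rw [← Nat.cast_pred Fintype.card_pos]
  exact_mod_cast this

open Classical in
theorem poor_lines (hB : Nd B) (h2 : (2 : F) ≠ 0) (hV : Fintype.card V = Fintype.card F ^ 5)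
    {X : Finset V} (hX : Pd F X) (hi : ∀ x ∈ X, B x x = 0) {y : V} (hy : y ≠ 0) (hy0 : B y y = 0)
    (t : ℕ) : ∑ x ∈ X, ind (B y x = 0 ∧ (X.filter fun v => ∃ a b : F, v = a • x + b • y).card ≤ t)
      ≤ 1 + 3 * t * (Fintype.card F : ℝ) := by
  obtain ⟨e, he⟩ := ex_one hB hy
  have hey : ∀ s : F, e ≠ s • y := fun s h => by simp [h, hy0] at he
  obtain ⟨e', ⟨a1, a2⟩, a3⟩ := aniso2 hB h2 hV hy hey
  have c1 : (Fintype.card F : ℝ) * ((univ.filter fun v => B v y = 0 ∧ B v e = 0).filter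
      fun v => B v v = 0).card ≤ 2 * (univ.filter fun v => B v y = 0 ∧ B v e = 0).card := by
    exact_mod_cast iso_count hB _ e' a3 (fun v hv s => by simpa [a1, a2] using hv) 0
  rw [card_perp2 hB hV hy hey] at c1
  rw [sum_ind]
  set S := X.filter fun x => B y x = 0 ∧ (X.filter fun v => ∃ a b : F, v = a • x + b • y).card ≤ t
  have c2 : ((S.filter fun x => x = B e x • y).card : ℝ) + (S.filter fun x => ¬ x = B e x • y).card
    = S.card := by exact_mod_cast Finset.card_filter_add_card_filter_not (s := S) _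
  have c3 : ((S.filter fun x => x = B e x • y).card : ℝ) ≤ 1 := by
    refine Nat.cast_le_one.2 (Finset.card_le_one.2 fun a ha b hb => ?_)
    obtain ⟨a1, a2⟩ := mem_filter.1 ha
    obtain ⟨b1, b2⟩ := mem_filter.1 hb
    have b3 : B e b ≠ 0 := fun h => hX.1 b (mem_filter.1 b1).1 (by rw [b2, h, zero_smul])
    refine hX.2 a (mem_filter.1 a1).1 b (mem_filter.1 b1).1 (B e a / B e b) ?_
    conv_rhs => rw [b2]
    rw [smul_smul, map_smul, he, smul_eq_mul, mul_one, div_mul_cancel₀ _ b3]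
    exact a2
  have c4 := fib_count (F := F) (S.filter fun x => ¬ x = B e x • y)
    ((univ.filter fun v => B v y = 0 ∧ B v e = 0).filter fun v => B v v = 0)
    (fun x => x - B e x • y) (fun m hm => sub_ne_zero.2 (mem_filter.1 hm).2) t (by
      intro m hm s _
      obtain ⟨b1, b2, -⟩ := mem_filter.1 (mem_filter.1 hm).1
      simp [hB.1 m y, hB.1 m e, hB.1 y e, b2, hy0, he, hi m b1]) (by
      intro m hm
      refine le_trans (Finset.card_le_card fun v hv => ?_) (mem_filter.1 (mem_filter.1 hm).1).2.2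
      obtain ⟨b1, s, b2⟩ := mem_filter.1 hv
      refine mem_filter.2 ⟨(mem_filter.1 (mem_filter.1 b1).1).1, s, B e v - s * B e m, ?_⟩
      linear_combination (norm := module) b2)
  have hq : (3 : ℝ) ≤ Fintype.card F := by exact_mod_cast three_le_card h2
  set q : ℝ := (Fintype.card F : ℝ)
  have c5 : (((univ.filter fun v => B v y = 0 ∧ B v e = 0).filter
      fun v => B v v = 0).card : ℝ) ≤ 2 * q ^ 2 :=
    le_of_mul_le_mul_left (a := q) (by linarith) (by linarith)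
  have c6 : ((S.filter fun x => ¬ x = B e x • y).card : ℝ) ≤ 3 * t * q := by
    refine le_of_mul_le_mul_left (c4.trans ?_) (by linarith)
    calc _ ≤ t * (2 * q ^ 2) := by gcongr
      _ ≤ _ := by
        have : (0 : ℝ) ≤ t * q * (q - 3) := mul_nonneg (by positivity) (by linarith)
        nlinarith
  linarith

omit [Fintype F] [Fintype V] in
theorem kfree {t : ℕ} {X Y : Finset V}
    (hK : ∀ A ⊆ X, ∀ S ⊆ Y, A.card = t → S.card = t → ¬ ∀ x ∈ A, ∀ y ∈ S, B y x = 0)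
    {A S : Finset V} (hA : A ⊆ X) (hS : S ⊆ Y) (h : ∀ x ∈ A, ∀ y ∈ S, B y x = 0) :
    A.card < t ∨ S.card < t := by
  by_contra hn
  simp only [not_or, not_lt] at hn
  obtain ⟨A', a1, a2⟩ := Finset.exists_subset_card_eq hn.1
  obtain ⟨S', b1, b2⟩ := Finset.exists_subset_card_eq hn.2
  exact hK A' (a1.trans hA) S' (b1.trans hS) a2 b2 fun x hx y hy => h x (a1 hx) y (b1 hy)

theorem iso_edges (hB : Nd B) (h2 : (2 : F) ≠ 0) (hV : Fintype.card V = Fintype.card F ^ 5)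
    {t : ℕ} {X Y : Finset V} (hX : Pd F X) (hY : Pd F Y) (hi : ∀ x ∈ X, B x x = 0)
    (hj : ∀ y ∈ Y, B y y = 0)
    (hK : ∀ A ⊆ X, ∀ S ⊆ Y, A.card = t → S.card = t → ¬ ∀ x ∈ A, ∀ y ∈ S, B y x = 0) :
    ∑ y ∈ Y, Nx B X y ≤ (X.card + Y.card) * (1 + 3 * t * (Fintype.card F : ℝ)) := by
  classical
  calc _ ≤ ∑ y ∈ Y, ∑ x ∈ X,
        (ind (B y x = 0 ∧ (X.filter fun v => ∃ a b : F, v = a • x + b • y).card ≤ t)
        + ind (B x y = 0 ∧ (Y.filter fun v => ∃ a b : F, v = a • y + b • x).card ≤ t)) := by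
        refine Finset.sum_le_sum fun y hy => Finset.sum_le_sum fun x hx => ?_
        by_cases h : B y x = 0
        · have h' : B x y = 0 := by rw [hB.1, h]
          rw [ind_pos h]
          rcases kfree hK (filter_subset (fun v => ∃ a b : F, v = a • x + b • y) X)
            (filter_subset (fun v => ∃ a b : F, v = a • y + b • x) Y) (by
              intro v hv w hw
              obtain ⟨a, b, rfl⟩ := (mem_filter.1 hv).2
              obtain ⟨c, d, rfl⟩ := (mem_filter.1 hw).2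
              simp [h, h', hi x hx, hj y hy]) with k | k
          · rw [ind_pos ⟨h, k.le⟩]; exact le_add_of_nonneg_right (ind0 _)
          · rw [ind_pos (p := B x y = 0 ∧ _) ⟨h', k.le⟩]; exact le_add_of_nonneg_left (ind0 _)
        · rw [ind_neg h]; exact add_nonneg (ind0 _) (ind0 _)
    _ ≤ ∑ _y ∈ Y, (1 + 3 * t * (Fintype.card F : ℝ))
        + ∑ _x ∈ X, (1 + 3 * t * (Fintype.card F : ℝ)) := by
        rw [Finset.sum_congr rfl fun y _ => Finset.sum_add_distrib, Finset.sum_add_distrib]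
        refine add_le_add (Finset.sum_le_sum fun y hy => ?_) ?_
        · exact poor_lines hB h2 hV hX hi (hY.1 y hy) (hj y hy) t
        · rw [Finset.sum_comm]
          exact Finset.sum_le_sum fun x hx => poor_lines hB h2 hV hY hj (hX.1 x hx) (hi x hx) t
    _ = _ := by simp; ring

theorem heavy_sum (hB : Nd B) (h2 : (2 : F) ≠ 0) (hV : Fintype.card V = Fintype.card F ^ 5)
    {t : ℕ} {X Y : Finset V} (hX : Pd F X) (hY : Pd F Y) (hi : ∀ x ∈ X, B x x = 0)
    (hK : ∀ A ⊆ X, ∀ S ⊆ Y, A.card = t → S.card = t → ¬ ∀ x ∈ A, ∀ y ∈ S, B y x = 0)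
    (hVC : ¬ ∃ T ⊆ X, T.card = 4 ∧ ∀ I ⊆ T, ∃ y ∈ Y, ∀ x ∈ T, B y x = 0 ↔ x ∈ I)
    {δ : ℝ} (hδ : 0 < δ) (hC : 2 ^ 88 ≤ δ ^ 28 * Fintype.card F) {m0 : V} (hm : m0 ∈ Y)
    (h0 : B m0 m0 ≠ 0) (h1 : δ * (Fintype.card F : ℝ) ^ 2 ≤ Nx B X m0) :
    ∑ m ∈ Y, ∑ x ∈ X, ind (B m0 x = 0) * ind (B m x = 0)
      ≤ Nx B X m0 + (t * Y.card + 5 * t * (δ * (Fintype.card F : ℝ) ^ 4)) := by
  classical
  simp only [← ind_and, sum_ind]
  set R := Y.filter fun m => m ≠ m0 ∧ t ≤ (X.filter fun x => B m0 x = 0 ∧ B m x = 0).card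
  set π : V → V := fun v => v - (B m0 v / B m0 m0) • m0 with hπ
  set Z := (univ.erase (0 : F) ×ˢ R).image fun p => p.1 • π p.2
  have πx : ∀ m x, B m0 x = 0 → B (π m) x = B m x := fun m x h => by simp [hπ, h]
  have c1 : (Z.card : ℝ) ≤ δ * (Fintype.card F : ℝ) ^ 4 := by
    by_contra hn
    obtain ⟨T, hT, hc, hS⟩ := restrict base h2 hB hV h0 hδ hC (A := X.filter fun x => B m0 x = 0)
      (M := Z) (hX.mono (filter_subset _ _)) (fun x hx => hi x (mem_filter.1 hx).1)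
      (fun x hx => (mem_filter.1 hx).2) (by
        intro v hv
        obtain ⟨p, -, rfl⟩ := mem_image.1 hv
        simp [hπ, h0]) (by
        rw [Nx, sum_ind] at h1
        calc _ = δ * (Fintype.card F : ℝ) ^ 2 * (Fintype.card F : ℝ) ^ 2 := by ring
          _ ≤ _ := mul_le_mul_of_nonneg_right h1 (by positivity)) (not_le.1 hn).le
    refine hVC ⟨T, hT.trans (filter_subset _ _), hc, fun I hI => ?_⟩
    rcases hI.eq_or_ssubset with rfl | hI
    · exact ⟨m0, hm, fun x hx => iff_of_true (mem_filter.1 (hT hx)).2 hx⟩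
    obtain ⟨m, hm, h1⟩ := hS I hI
    obtain ⟨⟨s, y⟩, hp, rfl⟩ := mem_image.1 hm
    obtain ⟨a1, a2⟩ := mem_product.1 hp
    refine ⟨y, (mem_filter.1 a2).1, fun x hx => ?_⟩
    rw [← h1 x hx, ← πx y x (mem_filter.1 (hT hx)).2]
    simp [(mem_erase.1 a1).1]
  have c2 := fib_count (F := F) R Z π (fun m hm' => sub_ne_zero.2 fun e =>
      (mem_filter.1 hm').2.1 (hY.2 m (mem_filter.1 hm').1 m0 hm _ e)) t
    (fun m hm s hs => mem_image.2 ⟨(s, m), mem_product.2 ⟨mem_erase.2 ⟨hs, mem_univ _⟩, hm⟩, rfl⟩)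
    (by
      intro m hm'
      refine ((kfree hK (filter_subset (fun x => B m0 x = 0 ∧ B m x = 0) X)
        ((filter_subset _ R).trans (filter_subset _ Y)) ?_).resolve_left
        (not_lt.2 (mem_filter.1 hm').2.2)).le
      intro x hx y hy
      obtain ⟨s, hs⟩ := (mem_filter.1 hy).2
      obtain ⟨a1, a2⟩ := (mem_filter.1 hx).2
      rw [← πx y x a1, hs, map_smul, LinearMap.smul_apply, πx m x a1, a2, smul_zero])
  have hq : (3 : ℝ) ≤ Fintype.card F := by exact_mod_cast three_le_card h2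
  have c3 : ∀ m ∈ Y, ((X.filter fun x => B m0 x = 0 ∧ B m x = 0).card : ℝ)
      ≤ ind (m = m0) * Nx B X m0 + (t + 3 * Fintype.card F * ind (m ∈ R)) := by
    intro m hm'
    have t0 : (0 : ℝ) ≤ t := Nat.cast_nonneg _
    have r0 : 0 ≤ 3 * (Fintype.card F : ℝ) * ind (m ∈ R) := mul_nonneg (by linarith) (ind0 _)
    by_cases e : m = m0
    · rw [ind_pos e, e, Nx, sum_ind]
      simp only [and_self]
      rw [← e]; linarith
    · rw [ind_neg e, zero_mul, zero_add]
      by_cases hR : m ∈ R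
      · rw [ind_pos hR]
        have := codeg_le hB h2 hV hX hi (hY.1 m0 hm) fun s h => e (hY.2 m hm' m0 hm s h)
        linarith
      · have : (X.filter fun x => B m0 x = 0 ∧ B m x = 0).card ≤ t := by
          by_contra h
          exact hR (mem_filter.2 ⟨hm', e, (not_le.1 h).le⟩)
        have : ((X.filter fun x => B m0 x = 0 ∧ B m x = 0).card : ℝ) ≤ t := by exact_mod_cast this
        linarith
  refine (Finset.sum_le_sum c3).trans ?_
  simp only [Finset.sum_add_distrib, ← Finset.sum_mul, ← Finset.mul_sum, sum_ind, Finset.sum_const,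
    nsmul_eq_mul]
  rw [Finset.filter_eq' Y m0, if_pos hm, Finset.card_singleton, Finset.filter_mem_eq_inter,
    Finset.inter_eq_right.2 (filter_subset _ Y)]
  set q : ℝ := (Fintype.card F : ℝ)
  have c4 : (q - 1) * R.card ≤ t * (δ * q ^ 4) := c2.trans (by gcongr)
  have c5 : (0 : ℝ) ≤ R.card * (q - 3) := mul_nonneg (Nat.cast_nonneg _) (by linarith)
  have c6 : (0 : ℝ) ≤ t * (δ * q ^ 4) := by positivity
  push_cast
  nlinarith

set_option maxRecDepth 8000 in
theorem quad5 (hB : Nd B) (h2 : (2 : F) ≠ 0) (hV : Fintype.card V = Fintype.card F ^ 5)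
    {t : ℕ} {X Y : Finset V} (hX : Pd F X) (hY : Pd F Y) (hi : ∀ x ∈ X, B x x = 0)
    (hK : ∀ A ⊆ X, ∀ S ⊆ Y, A.card = t → S.card = t → ¬ ∀ x ∈ A, ∀ y ∈ S, B y x = 0)
    (hVC : ¬ ∃ T ⊆ X, T.card = 4 ∧ ∀ I ⊆ T, ∃ y ∈ Y, ∀ x ∈ T, B y x = 0 ↔ x ∈ I)
    {ρ N : ℝ} (hρ : 0 < ρ) (hN : 0 ≤ N) (eρ : ρ ^ 56 = Fintype.card F)
    (eN : N ^ 167 = X.card + Y.card) :
    ∑ y ∈ Y, Nx B X y ≤ 30 * (t + 1) * (N ^ 278 + ρ ^ 84 * N ^ 167) := by
  classical
  have hq := one_le_q (F := F)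
  have ρ1 : 1 ≤ ρ := (one_le_pow_iff_of_nonneg hρ.le (by norm_num)).1 (eρ ▸ hq)
  have X0 : (0 : ℝ) ≤ X.card := Nat.cast_nonneg _
  have Y0 : (0 : ℝ) ≤ Y.card := Nat.cast_nonneg _
  have t0 : (0 : ℝ) ≤ t := Nat.cast_nonneg _
  have Xn : (X.card : ℝ) ≤ N ^ 167 := by linarith
  have Yn : (Y.card : ℝ) ≤ N ^ 167 := by linarith
  have p1 : 0 ≤ N ^ 278 := by positivity
  have p2 : 0 ≤ ρ ^ 84 * N ^ 167 := by positivity
  rcases le_total N ρ with hc | hc
  · have mix := mixing hB hX hY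
    rw [hV] at mix
    push_cast at mix
    rw [← eρ] at mix
    have a1 : (∑ y ∈ Y, Nx B X y - Y.card * (X.card / ρ ^ 56)) ^ 2 ≤ (2 * (ρ ^ 84 * N ^ 167)) ^ 2 := by
      refine le_of_mul_le_mul_right (mix.trans ?_) (by positivity)
      calc _ ≤ 4 * (N ^ 167 * N ^ 167 * (ρ ^ 56) ^ 5) := by gcongr; norm_num
        _ = _ := by ring
    have a2 := (abs_le_of_sq_le_sq' a1 (by positivity)).2
    have a3 : Y.card * (X.card / ρ ^ 56) ≤ N ^ 278 := by
      rw [← mul_div_assoc, div_le_iff₀ (by positivity)]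
      calc _ ≤ N ^ 167 * N ^ 167 := by gcongr
        _ = N ^ 278 * N ^ 56 := by ring
        _ ≤ _ := by gcongr
    nlinarith [mul_nonneg t0 p1, mul_nonneg t0 p2]
  have N1 : 1 ≤ N := ρ1.trans hc
  set Y1 := Y.filter fun y => ¬ B y y = 0
  set Y2 := Y1.filter fun y => ¬ Nx B X y < 16 * ρ ^ 110
  have hY2 : Y2 ⊆ Y := (filter_subset _ _).trans (filter_subset _ _)
  have s1 := Finset.sum_filter_add_sum_filter_not Y (fun y => B y y = 0) (Nx B X)
  have s2 := Finset.sum_filter_add_sum_filter_not Y1 (fun y => Nx B X y < 16 * ρ ^ 110) (Nx B X)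
  have b1 : ∑ y ∈ Y.filter fun y => B y y = 0, Nx B X y ≤ (1 + 3 * t) * (ρ ^ 84 * N ^ 167) := by
    refine (iso_edges hB h2 hV hX (hY.mono (filter_subset _ _)) hi
      (fun y hy => (mem_filter.1 hy).2) fun A hA S hS => hK A hA S
        (hS.trans (filter_subset _ _))).trans ?_
    have a1 : ((Y.filter fun y => B y y = 0).card : ℝ) ≤ Y.card := by
      exact_mod_cast Finset.card_filter_le _ _
    have a2 : ρ ^ 56 ≤ ρ ^ 84 := pow_le_pow_right₀ ρ1 (by norm_num)
    have a3 : 1 ≤ ρ ^ 84 := one_le_pow₀ ρ1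
    rw [← eρ]
    calc _ ≤ N ^ 167 * (ρ ^ 84 + 3 * t * ρ ^ 84) := by gcongr; linarith
      _ = _ := by ring
  have b2 : ∑ y ∈ Y1.filter fun y => Nx B X y < 16 * ρ ^ 110, Nx B X y ≤ 16 * N ^ 278 := by
    refine (Finset.sum_le_card_nsmul _ _ _ fun y hy => (mem_filter.1 hy).2.le).trans ?_
    have a1 : ((Y1.filter fun y => Nx B X y < 16 * ρ ^ 110).card : ℝ) ≤ Y.card := by
      exact_mod_cast Finset.card_le_card ((filter_subset _ _).trans (filter_subset _ _))
    have a2 : N ^ 110 ≤ N ^ 111 := pow_le_pow_right₀ N1 (by norm_num)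
    have a3 : ρ ^ 110 ≤ N ^ 110 := by gcongr
    rw [nsmul_eq_mul]
    calc _ ≤ N ^ 167 * (16 * N ^ 111) := by gcongr <;> linarith
      _ = _ := by ring
  have b3 : ∀ m0 ∈ Y2, ∑ m ∈ Y2, ∑ x ∈ X, ind (B m0 x = 0) * ind (B m x = 0)
      ≤ Nx B X m0 + 81 * t * N ^ 222 := by
    intro m0 hm
    obtain ⟨a1, a2⟩ := mem_filter.1 hm
    have := heavy_sum hB h2 hV hX hY hi hK hVC (δ := (4 / ρ) ^ 2) (by positivity) (by
      rw [← eρ, ← pow_mul, div_pow, div_mul_cancel₀ _ (by positivity)]; norm_num) (hY2 hm)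
      (mem_filter.1 a1).2 (by
        refine le_trans (le_of_eq ?_) (not_lt.1 a2)
        rw [← eρ]; field_simp; norm_num)
    refine le_trans (Finset.sum_le_sum_of_subset_of_nonneg hY2 fun _ _ _ =>
      Finset.sum_nonneg fun _ _ => mul_nonneg (ind0 _) (ind0 _)) (this.trans ?_)
    have e : (4 / ρ) ^ 2 * (Fintype.card F : ℝ) ^ 4 = 16 * ρ ^ 222 := by
      rw [← eρ]; field_simp; norm_num
    have a3 : N ^ 167 ≤ N ^ 222 := pow_le_pow_right₀ N1 (by norm_num)
    rw [e]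
    calc _ ≤ Nx B X m0 + (t * N ^ 222 + 5 * t * (16 * N ^ 222)) := by gcongr; linarith
      _ = _ := by ring
  have b4 : (∑ y ∈ Y2, Nx B X y) ^ 2
      ≤ N ^ 167 * (∑ y ∈ Y2, Nx B X y + N ^ 167 * (81 * t * N ^ 222)) := by
    have a1 : (Y2.card : ℝ) ≤ Y.card := by exact_mod_cast Finset.card_le_card hY2
    calc _ = (∑ x ∈ X, ∑ y ∈ Y2, ind (B y x = 0)) ^ 2 := by rw [Finset.sum_comm]; rfl
      _ ≤ X.card * ∑ x ∈ X, (∑ y ∈ Y2, ind (B y x = 0)) ^ 2 := sq_sum_le_card_mul_sum_sq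
      _ ≤ _ := by
        refine mul_le_mul Xn ?_ (Finset.sum_nonneg fun _ _ => sq_nonneg _) (by positivity)
        simp only [sq, Finset.sum_mul_sum]
        rw [Finset.sum_comm]
        simp only [Finset.sum_comm (s := X)]
        refine (Finset.sum_le_sum b3).trans ?_
        rw [Finset.sum_add_distrib, Finset.sum_const, nsmul_eq_mul]
        gcongr; linarith
  have b5 : ∑ y ∈ Y2, Nx B X y ≤ N ^ 167 + 9 * (t + 1) * N ^ 278 := by
    by_contra hn
    have a1 : N ^ 167 * (N ^ 167 * (81 * t * N ^ 222)) = 81 * t * (N ^ 278) ^ 2 := by ring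
    have a2 : 0 ≤ N ^ 167 := by positivity
    have a3 : 0 ≤ 9 * (t + 1) * N ^ 278 := by positivity
    have a4 : 81 * t * (N ^ 278) ^ 2 ≤ (9 * (t + 1) * N ^ 278) ^ 2 := by
      nlinarith [mul_nonneg (show (0 : ℝ) ≤ t ^ 2 + t + 1 by positivity) (sq_nonneg (N ^ 278))]
    rw [mul_add, a1] at b4
    generalize 9 * (t + 1) * N ^ 278 = W at *
    generalize ∑ y ∈ Y2, Nx B X y = E at *
    nlinarith
  have a3 : N ^ 167 ≤ N ^ 278 := pow_le_pow_right₀ N1 (by norm_num)
  nlinarith [mul_nonneg t0 p1, mul_nonneg t0 p2]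

end Pool.Agent.P.MP_1d6da1_co.Sph
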