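import Pool.Agent.P.MP_1d6da1_co.Sph.Base

namespace Pool.Agent.P.MP_1d6da1_co.Sph

open Finset

theorem restrict {n : ℕ} {C : ℝ} (h : Sym n C) {F : Type} [Field F] [Fintype F] {V : Type}
    [AddCommGroup V] [Module F V] [Fintype V] {B : V →ₗ[F] V →ₗ[F] F} (h2 : (2 : F) ≠ 0)
    (hB : Nd B) (hV : Fintype.card V = Fintype.card F ^ (n + 1)) {m0 : V} (hm0 : B m0 m0 ≠ 0)
    {δ : ℝ} (hδ : 0 < δ) (hC : C ≤ δ ^ 28 * Fintype.card F) {A M : Finset V} (hA : Pd F A)
    (hiso : ∀ x ∈ A, B x x = 0) (hA0 : ∀ x ∈ A, B m0 x = 0) (hM0 : ∀ m ∈ M, B m0 m = 0)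
    (hAc : δ * (Fintype.card F : ℝ) ^ n ≤ A.card * (Fintype.card F : ℝ) ^ 2)
    (hMc : δ * (Fintype.card F : ℝ) ^ n ≤ M.card) : ∃ T ⊆ A, T.card = n ∧ Sh B M T := by
  classical
  set W := LinearMap.ker (B m0) with hW
  have hN : Nd (B.domRestrict₁₂ W W) := by
    refine ⟨fun x y => hB.1 _ _, fun x hx => ?_⟩
    obtain ⟨y, hy⟩ := hB.2 x (fun h => hx (Subtype.ext h))
    refine ⟨⟨y - (B m0 y / B m0 m0) • m0, by simp [hW, hm0]⟩, ?_⟩
    have : B x m0 = 0 := by rw [hB.1]; exact x.2
    simpa [LinearMap.domRestrict₁₂_apply, this] using hy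
  have hc : Fintype.card W = Fintype.card F ^ n := by
    have := card_ker hB (x := m0) (fun h => hm0 (by simp [h]))
    rw [hV, pow_succ'] at this
    rw [← Nat.eq_of_mul_eq_mul_left Fintype.card_pos this, Fintype.card_subtype]
    congr 1
    ext v
    simp [hW, hB.1 v m0]
  have cs : ∀ X : Finset V, (∀ x ∈ X, B m0 x = 0) → (X.subtype (· ∈ W)).card = X.card := by
    intro X hX
    rw [Finset.card_subtype, Finset.filter_true_of_mem (p := fun x => x ∈ W) hX]
  obtain ⟨T, hT, hn, hS⟩ := h F W _ h2 hN hc δ hδ hC (A.subtype (· ∈ W)) (M.subtype (· ∈ W))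
    ⟨fun x hx h => hA.1 x (mem_subtype.1 hx) (by simp [h]), fun x hx y hy s e =>
      Subtype.ext (hA.2 x (mem_subtype.1 hx) y (mem_subtype.1 hy) s (by simp [e]))⟩
    (fun x hx => hiso x (mem_subtype.1 hx)) (by rwa [cs A hA0]) (by rwa [cs M hM0])
  refine ⟨T.map (Function.Embedding.subtype _), ?_, by simpa using hn, fun I hI => ?_⟩
  · intro x hx
    obtain ⟨y, hy, rfl⟩ := mem_map.1 hx
    exact mem_subtype.1 (hT hy)
  · obtain ⟨m, hm, h1⟩ := hS (I.subtype (· ∈ W)) ⟨fun x hx => by
      simpa using hI.1 (mem_subtype.1 hx), fun h => hI.2 fun x hx => by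
        obtain ⟨y, hy, rfl⟩ := mem_map.1 hx
        exact mem_subtype.1 (h hy)⟩
    refine ⟨m, mem_subtype.1 hm, fun x hx => ?_⟩
    obtain ⟨y, hy, rfl⟩ := mem_map.1 hx
    exact (h1 y hy).trans mem_subtype

theorem ex_avoid4 {α : Type*} (s a b c d : Finset α)
    (h : (a.card : ℝ) + b.card + c.card + d.card < s.card) :
    ∃ x ∈ s, x ∉ a ∧ x ∉ b ∧ x ∉ c ∧ x ∉ d := by
  classical
  have h' : a.card + b.card + c.card + d.card < s.card := by exact_mod_cast h
  have := Finset.card_union_le c d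
  obtain ⟨x, hx, h1, h2, h3⟩ := ex_avoid s a b (c ∪ d) (by omega)
  exact ⟨x, hx, h1, h2, by simpa using h3⟩

open Classical in
/-- Few directions have many lines meeting `M` in at most one point. -/
theorem few_pencils {F : Type} [Field F] [Fintype F] {V : Type} [AddCommGroup V] [Module F V]
    [Fintype V] (M : Finset V) {δ : ℝ} (hδ : 0 < δ) (hq : 2 ≤ δ * Fintype.card F)
    (hM : δ * Fintype.card V ≤ M.card) :
    ((univ.filter fun m0 : V => δ * Fintype.card V / 4 < (univ.filter fun m : V =>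
      (univ.filter fun s : F => m + s • m0 ∈ M).card ≤ 1).card).card : ℝ)
      * (δ ^ 3 * Fintype.card F) ≤ 16 * Fintype.card V := by
  have hN : (0 : ℝ) < Fintype.card V := by exact_mod_cast Fintype.card_pos
  have hq1 := one_le_q (F := F)
  have hMV : (M.card : ℝ) ≤ Fintype.card V := by exact_mod_cast Finset.card_le_univ M
  have m1 : δ ≤ M.card / (Fintype.card V : ℝ) := (le_div_iff₀ hN).2 hM
  have m2 : M.card / (Fintype.card V : ℝ) ≤ 1 := (div_le_one hN).2 hMV
  have v := pencil_var (F := F) (fun v => ind (v ∈ M) - M.card / (Fintype.card V : ℝ))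
    (fun v => abs_sub01 (ind0 _) (ind1 _) (by linarith) m2) (by
      rw [Finset.sum_sub_distrib, sum_ind]
      simp
      field_simp
      ring)
  set μ : ℝ := M.card / (Fintype.card V : ℝ)
  have c := (cheb (fun m0 : V => ∑ m : V, (∑ s : F, (ind (m + s • m0 ∈ M) - μ)) ^ 2)
    (δ * Fintype.card V / 4 * (δ * Fintype.card F / 2) ^ 2)
    (fun m0 : V => δ * Fintype.card V / 4 < (univ.filter fun m : V =>
      (univ.filter fun s : F => m + s • m0 ∈ M).card ≤ 1).card)
    (fun _ => Finset.sum_nonneg fun _ _ => sq_nonneg _) (by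
      intro m0 h
      refine le_trans (mul_le_mul_of_nonneg_right h.le (sq_nonneg _))
        (cheb _ _ _ (fun _ => sq_nonneg _) fun m hm => ?_)
      rw [Finset.sum_sub_distrib, sum_ind, Finset.sum_const, Finset.card_univ, nsmul_eq_mul]
      have h1 : ((univ.filter fun s : F => m + s • m0 ∈ M).card : ℝ) ≤ 1 := by exact_mod_cast hm
      have h3 : Fintype.card F * δ ≤ Fintype.card F * μ := by gcongr
      nlinarith)).trans v
  refine le_of_mul_le_mul_right (a := (Fintype.card V : ℝ) * Fintype.card F / 16) ?_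
    (by positivity)
  refine le_trans (le_of_eq (by ring)) (c.trans (le_of_eq (by ring)))

theorem step {n : ℕ} {C : ℝ} (hn : 4 ≤ n) (h0 : 1 ≤ C) (h : Sym n C) :
    Sym (n + 1) (4 ^ 28 * C) := by
  intro F _ _ V _ _ _ B h2 hB hV δ hδ hC A M hA hiso hAc hMc
  classical
  obtain ⟨k, rfl⟩ := Nat.exists_eq_add_of_le hn
  have hq1 := one_le_q (F := F)
  have hVr : (Fintype.card V : ℝ) = (Fintype.card F : ℝ) ^ (4 + k + 1) := by exact_mod_cast hV
  have hMV : (M.card : ℝ) ≤ (Fintype.card F : ℝ) ^ (4 + k + 1) := by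
    rw [← hVr]; exact_mod_cast Finset.card_le_univ M
  have hδ1 : δ ≤ 1 := le_of_mul_le_mul_right (by linarith) (pow_pos (by linarith) _ :
    (0 : ℝ) < (Fintype.card F : ℝ) ^ (4 + k + 1))
  have hC' : 4 ^ 28 ≤ δ ^ 28 * (Fintype.card F : ℝ) := by linarith
  have d1 := del_le hδ hδ1 (by linarith) hC' 1 (by norm_num)
  have d2 := del_le hδ hδ1 (by linarith) hC' 2 (by norm_num)
  have d4 := del_le hδ hδ1 (by linarith) hC' 4 (by norm_num)
  rw [pow_one] at d1
  have hApos : (0 : ℝ) < A.card := by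
    exact (pos_iff_pos_of_mul_pos (lt_of_lt_of_le (by positivity) hAc)).2 (by positivity)
  obtain ⟨z, hz⟩ : A.Nonempty := by rwa [← Finset.card_pos, ← Nat.cast_pos (α := ℝ)]
  obtain ⟨e, he⟩ := ex_aniso hB h2 (hA.1 z hz)
  have i1 : (Fintype.card F : ℝ) * (univ.filter fun v => B v v = 0).card
      ≤ 2 * Fintype.card V := by
    exact_mod_cast iso_count hB univ e he (fun _ _ _ => mem_univ _) 0
  have hk1 : ∀ x ∈ A, (Fintype.card F : ℝ) * (univ.filter fun m => B m x = 0).card
      = Fintype.card V := fun x hx => by exact_mod_cast card_ker hB (hA.1 x hx)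
  have hrich := ex_rich hB hA M
  have i2 := few_poor hB hA hApos
  have i3 := few_pencils (F := F) M hδ (by linarith) (by rwa [hVr])
  have hres := fun m0 hm0 A' M' => restrict h h2 hB hV (m0 := m0) hm0 (δ := δ / 4)
    (by positivity) (by
      rw [div_pow, div_mul_eq_mul_div, le_div_iff₀ (by positivity)]; linarith) (A := A') (M := M')
  have tc := fun (m0 x : V) (S : Finset V) hS hψ => trans_count S m0
    (fun v => B v x / B m0 x) 0 hS hψ
  rw [hVr] at i1 hk1 hrich i2 i3
  set q : ℝ := (Fintype.card F : ℝ) with hq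
  have q0 : 0 < q := by linarith
  obtain ⟨Q, hQ⟩ : ∃ Q, Q = q ^ k := ⟨_, rfl⟩
  have Q1 : 1 ≤ Q := hQ ▸ one_le_pow₀ hq1
  have eN : q ^ (4 + k + 1) = Q * q ^ 5 := by rw [hQ]; ring
  have eN' : q ^ (4 + k) = Q * q ^ 4 := by rw [hQ]; ring
  rw [eN] at i1 hk1 hrich i2 i3 hAc hMc
  have qq : q ≤ q ^ 2 := by nlinarith
  rw [eN'] at hres
  have hA2 : δ * (Q * q ^ 3) ≤ A.card :=
    le_of_mul_le_mul_right (a := q ^ 2) (by linarith) (by positivity)
  have hA3 : δ * q ^ 3 ≤ A.card := le_trans (by gcongr; nlinarith [pow_pos q0 3]) hA2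
  obtain ⟨x, hx, j1⟩ := hrich (by
    calc 4 * q * (Q * q ^ 5) ≤ (δ ^ 2 * q) * q ^ 2 * (Q * q ^ 5) := by
          gcongr
          linarith
      _ = δ * (Q * q ^ 5) * (δ * q ^ 3) := by ring
      _ ≤ _ := by gcongr)
  have Q4 : 0 < Q * q ^ 4 := by positivity
  obtain ⟨m0, hm0, b1, b2, b3, b4⟩ := ex_avoid4 M (univ.filter fun v => B v v = 0)
    (univ.filter fun m => B m x = 0) (univ.filter fun m => Nx B A m < A.card / (2 * q))
    (univ.filter fun m0 : V => δ * (Q * q ^ 5) / 4 < (univ.filter fun m : V =>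
      (univ.filter fun s : F => m + s • m0 ∈ M).card ≤ 1).card) (by
      refine lt_of_lt_of_le ?_ hMc
      have a0 : 4 ^ 28 * (Q * q ^ 4) ≤ δ * (Q * q ^ 5) := by nlinarith
      have a1 : ((univ.filter fun v => B v v = 0).card : ℝ) ≤ 2 * (Q * q ^ 4) :=
        le_of_mul_le_mul_left (a := q) (by linarith) q0
      have a2 : ((univ.filter fun m => B m x = 0).card : ℝ) ≤ Q * q ^ 4 :=
        le_of_mul_le_mul_left (a := q) (by linarith [hk1 x hx]) q0
      have a3 : ((univ.filter fun m => Nx B A m < A.card / (2 * q)).card : ℝ)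
          ≤ δ * (Q * q ^ 5) / 4 := by
        refine le_of_mul_le_mul_right (i2.trans ?_) hApos
        calc 4 * q * (Q * q ^ 5) = 16 * q * (Q * q ^ 5) / 4 := by ring
          _ ≤ (δ ^ 2 * q) * q ^ 2 * (Q * q ^ 5) / 4 := by
            gcongr
            linarith
          _ = δ * (Q * q ^ 5) / 4 * (δ * q ^ 3) := by ring
          _ ≤ _ := by gcongr
      have a4 := le_of_mul_le_mul_right (i3.trans (show 16 * (Q * q ^ 5)
          ≤ δ * (Q * q ^ 5) / 4 * (δ ^ 3 * q) from
        calc 16 * (Q * q ^ 5) = 64 * (Q * q ^ 5) / 4 := by ring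
          _ ≤ (δ ^ 4 * q) * (Q * q ^ 5) / 4 := by gcongr; linarith
          _ = _ := by ring)) (by positivity)
      linarith)
  simp only [mem_filter, mem_univ, true_and, not_lt] at b1 b2 b3 b4
  set P : V → Prop := fun m => (univ.filter fun s : F => m + s • m0 ∈ M).card ≤ 1 with hP
  have hPs : ∀ v (s : F), P v → P (v + s • m0) := by
    intro v s hv
    refine le_trans (Finset.card_le_card_of_injOn (fun s' => s + s') ?_
      fun _ _ _ _ e => add_left_cancel e) hv
    intro s' hs'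
    simpa [add_smul, add_assoc] using hs'
  have j2 : q * ((univ.filter P).filter fun v => B v x / B m0 x = 0).card
      = (univ.filter P).card := by
    rw [hq]
    exact_mod_cast tc m0 x (univ.filter P) (fun v hv s => by simpa using hPs v s (by simpa using hv))
      fun v s => by simp only [map_add, map_smul, smul_eq_mul, LinearMap.add_apply,
        LinearMap.smul_apply]; field_simp
  set M1 := (M.filter fun m => B m x = 0).filter fun m => ¬ P m with hM1
  set π : V → V := fun v => v - (B m0 v / B m0 m0) • m0 with hπ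
  have j3 : δ / 4 * (Q * q ^ 4) ≤ M1.card := by
    have a1 : (((M.filter fun m => B m x = 0).filter P).card : ℝ) + M1.card
        = (M.filter fun m => B m x = 0).card := by
      exact_mod_cast Finset.card_filter_add_card_filter_not (s := M.filter fun m => B m x = 0) P
    have a2 : (((M.filter fun m => B m x = 0).filter P).card : ℝ)
        ≤ ((univ.filter P).filter fun v => B v x / B m0 x = 0).card := by
      refine Nat.cast_le.2 (Finset.card_le_card fun v hv => ?_)
      simp only [mem_filter, mem_univ, true_and] at hv ⊢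
      exact ⟨hv.2, by rw [hv.1.2, zero_div]⟩
    have a3 : (((univ.filter P).filter fun v => B v x / B m0 x = 0).card : ℝ)
        ≤ δ / 4 * (Q * q ^ 4) := le_of_mul_le_mul_left (a := q) (by linarith) q0
    have a4 : δ / 2 * (Q * q ^ 4) ≤ M.card / (2 * q) := by
      rw [le_div_iff₀ (by positivity)]; linarith
    linarith
  have πi : Set.InjOn π M1 := by
    intro m hm m' hm' e
    have a1 := (mem_filter.1 (mem_filter.1 hm).1).2
    have a2 := (mem_filter.1 (mem_filter.1 hm').1).2
    have a3 := congrArg (fun v => B v x) e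
    simp only [hπ, map_sub, map_smul, smul_eq_mul, LinearMap.sub_apply, LinearMap.smul_apply, a1,
      a2, zero_sub, neg_inj] at a3
    simp only [hπ] at e
    rw [mul_right_cancel₀ b2 a3] at e
    exact sub_left_injective e
  obtain ⟨T, hT, hc, hS⟩ := hres m0 b1 (A.filter fun y => B m0 y = 0) (M1.image π)
    (hA.mono (filter_subset _ _)) (fun y hy => hiso y (mem_filter.1 hy).1)
    (fun y hy => (mem_filter.1 hy).2) (by
      intro w hw
      obtain ⟨m, -, rfl⟩ := mem_image.1 hw
      simp [hπ, b1]) (by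
      rw [Nx, sum_ind, div_le_iff₀ (by positivity)] at b3
      nlinarith) (by rwa [Finset.card_image_of_injOn πi])
  have hT0 : ∀ y ∈ T, B m0 y = 0 := fun y hy => (mem_filter.1 (hT hy)).2
  have hxT : x ∉ T := fun h => b2 (hT0 x h)
  refine ⟨insert x T, Finset.insert_subset hx (hT.trans (filter_subset _ _)),
    by rw [Finset.card_insert_of_notMem hxT, hc], fun I hI => ?_⟩
  simp only [Finset.mem_insert, forall_eq_or_imp]
  by_cases hIT : T ⊆ I
  · refine ⟨m0, hm0, iff_of_false b2 fun h => hI.2 (Finset.insert_subset h hIT),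
      fun y hy => iff_of_true (hT0 y hy) (hIT hy)⟩
  obtain ⟨w, hw, h1⟩ := hS (I ∩ T) ⟨inter_subset_right, fun h => hIT (h.trans inter_subset_left)⟩
  obtain ⟨m, hm, rfl⟩ := mem_image.1 hw
  obtain ⟨a1, a3⟩ := mem_filter.1 hm
  obtain ⟨a1, a2⟩ := mem_filter.1 a1
  have h3 : ∀ s : F, ∀ y ∈ T, B (m + s • m0) y = 0 ↔ y ∈ I := by
    intro s y hy
    have := h1 y hy
    simpa [hπ, hT0 y hy, hy] using this
  by_cases hxI : x ∈ I
  · exact ⟨m, a1, iff_of_true a2 hxI, by simpa using h3 0⟩
  · obtain ⟨s, hs, h4⟩ := Finset.exists_mem_ne (not_le.1 a3) 0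
    refine ⟨m + s • m0, (mem_filter.1 hs).2, iff_of_false ?_ hxI, h3 s⟩
    simp [a2, h4, b2]

theorem sym_all (k : ℕ) : Sym (4 + k) ((4 ^ 28) ^ k * 2 ^ 88) := by
  induction k with
  | zero => simpa using base
  | succ k ih =>
    have := step (by omega) (one_le_mul_of_one_le_of_one_le (one_le_pow₀ (by norm_num))
      (by norm_num)) ih
    rwa [← mul_assoc, ← pow_succ'] at this

end Pool.Agent.P.MP_1d6da1_co.Sph
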