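import Pool.Agent.P.MP_1d6da1_co.Sph.Quad

namespace Pool.Agent.P.MP_1d6da1_co.Sph

open Finset

theorem point_sphere (t : ℕ) :
    ∃ C : ℝ, ∀ (F : Type) [Field F] [Fintype F] [DecidableEq F], (2 : F) ≠ 0 →
      ∀ (P : Finset (Fin 3 → F)) (Q : Finset ((Fin 3 → F) × F)),
        (∀ A ⊆ P, ∀ S ⊆ Q, A.card = t → S.card = t →
          ¬ ∀ x ∈ A, ∀ s ∈ S, ∑ i, (x i - s.1 i) ^ 2 = s.2) →
        (Q.image fun s => P.filter fun x => ∑ i, (x i - s.1 i) ^ 2 = s.2).vcDim ≤ 3 →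
        ∑ s ∈ Q, ((P.filter fun x => ∑ i, (x i - s.1 i) ^ 2 = s.2).card : ℝ)
          ≤ C * (((P.card + Q.card : ℕ) : ℝ) ^ (2 - 1 / (3 - 1 / 56) : ℝ)
            + (Fintype.card F : ℝ) ^ (3 / 2 : ℝ) * ((P.card + Q.card : ℕ) : ℝ)) := by
  refine ⟨30 * (t + 1), fun F _ _ _ h2 P Q hK hVC => ?_⟩
  have q0 : (0 : ℝ) < Fintype.card F := by exact_mod_cast Fintype.card_pos
  have n0 : (0 : ℝ) ≤ ((P.card + Q.card : ℕ) : ℝ) := Nat.cast_nonneg _
  have li : Function.Injective fun x : Fin 3 → F => lift x 0 := fun _ _ h => (lift_inj h).1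
  have lj : Function.Injective fun s : (Fin 3 → F) × F => lift s.1 s.2 :=
    fun _ _ h => Prod.ext (lift_inj h).1 (lift_inj h).2
  have e1 : (((P.card + Q.card : ℕ) : ℝ) ^ ((167 : ℕ)⁻¹ : ℝ)) ^ 167 = (P.card + Q.card : ℕ) :=
    Real.rpow_inv_natCast_pow n0 (by norm_num)
  have h := quad5 (B0_nd (d := 3) h2) h2 card_W (t := t) (pd_image P (fun x => x) fun _ => 0)
    (pd_image Q (fun s => s.1) fun s => s.2) (by
      intro v hv
      obtain ⟨x, -, rfl⟩ := mem_image.1 hv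
      rw [lift_zero]; simp) (by
      intro A hA S hS a1 a2 h
      obtain ⟨A', hA', rfl⟩ := Finset.subset_image_iff.1 hA
      obtain ⟨S', hS', rfl⟩ := Finset.subset_image_iff.1 hS
      rw [Finset.card_image_of_injective _ li] at a1
      rw [Finset.card_image_of_injective _ lj] at a2
      exact hK A' hA' S' hS' a1 a2 fun x hx s hs => (lift_zero _ _ _).1
        (h _ (mem_image_of_mem _ hx) _ (mem_image_of_mem _ hs))) (by
      rintro ⟨T, hT, hc, h⟩
      obtain ⟨T', hT', rfl⟩ := Finset.subset_image_iff.1 hT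
      rw [Finset.card_image_of_injective _ li] at hc
      have := (shatters_of (Q := Q) (R := fun s x => ∑ i, (x i - s.1 i) ^ 2 = s.2) hT' (by
        intro I hI
        obtain ⟨y, hy, h1⟩ := h _ (Finset.image_subset_image hI)
        obtain ⟨s, hs, rfl⟩ := mem_image.1 hy
        refine ⟨s, hs, fun x hx => ?_⟩
        rw [← lift_zero, h1 _ (mem_image_of_mem _ hx), li.mem_finset_image])).card_le_vcDim
      omega)
    (ρ := (Fintype.card F : ℝ) ^ ((56 : ℕ)⁻¹ : ℝ))
    (N := ((P.card + Q.card : ℕ) : ℝ) ^ ((167 : ℕ)⁻¹ : ℝ)) (by positivity) (by positivity)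
    (Real.rpow_inv_natCast_pow q0.le (by norm_num)) (by
      rw [e1, Finset.card_image_of_injective _ li, Finset.card_image_of_injective _ lj]
      push_cast; rfl)
  rw [Finset.sum_image fun _ _ _ _ h => lj h, e1, ← Real.rpow_natCast, ← Real.rpow_natCast,
    ← Real.rpow_mul n0, ← Real.rpow_mul q0.le] at h
  simp only [Nx_lift] at h
  convert h using 4 <;> norm_num

end Pool.Agent.P.MP_1d6da1_co.Sph
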